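import Pool.Agent.Helper623_LS.Rel

/-! The four error identities of the dilation, abstractly. -/

set_option autoImplicit false

open scoped ENNReal NNReal Topology
open Filter

namespace Pool.Agent.Helper623_LS

section

variable {X Y : Type} [NormedAddCommGroup X] [NormedSpace ℂ X]
  [NormedAddCommGroup Y] [NormedSpace ℂ Y]

theorem errA (Vn : X →L[ℂ] Y) (GX E θ q : X →L[ℂ] X) (GY u : Y →L[ℂ] Y) (κ : X →L[ℂ] Y)
    (h1 : ∀ x, E (GX x) = GX (E x)) (h2 : ∀ x, Vn (θ x) - u (Vn x) = κ (q x))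
    (h3 : ∀ x, q (E x) = E (q x)) :
    (Vn ∘L (1 - E)) ∘L (GX * θ) - (GY * u) ∘L (Vn ∘L (1 - E)) =
      Vn ∘L GX ∘L (θ * E - E * θ) + (Vn ∘L GX - GY ∘L Vn) ∘L θ ∘L (1 - E) +
        GY ∘L (κ ∘L (1 - E)) ∘L q := by
  ext x
  have h4 := h2 (x - E x)
  have h5 : q (x - E x) = q x - E (q x) := by rw [map_sub, h3]
  rw [h5] at h4
  have e1 : κ (q x - E (q x)) = Vn (θ x) - Vn (θ (E x)) - (u (Vn x) - u (Vn (E x))) := by
    rw [← h4]; simp only [map_sub]
  show Vn (GX (θ x) - E (GX (θ x))) - GY (u (Vn (x - E x))) =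
    Vn (GX (θ (E x) - E (θ x))) + (Vn (GX (θ (x - E x))) - GY (Vn (θ (x - E x)))) +
      GY (κ (q x - E (q x)))
  rw [e1, h1]
  simp only [map_sub]
  abel

theorem errB (G' E g GX θ : X →L[ℂ] X) (h1 : ∀ x, E (GX x) = g (E x)) :
    (G' ∘L E) ∘L (GX * θ) - g ∘L (G' ∘L E) =
      G' ∘L g ∘L (E * θ - θ * E) + (G' * (g * θ) - g * G') ∘L E := by
  ext x
  show G' (E (GX (θ x))) - g (G' (E x)) =
    G' (g (E (θ x) - θ (E x))) + (G' (g (θ (E x))) - g (G' (E x)))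
  rw [h1]
  simp only [map_sub]
  abel

theorem errC (W : Y →L[ℂ] X) (GX E θ : X →L[ℂ] X) (GY u q : Y →L[ℂ] Y) (κ : Y →L[ℂ] X)
    (h1 : ∀ x, E (GX x) = GX (E x)) (h2 : ∀ y, W (u y) - θ (W y) = κ (q y)) :
    ((1 - E) ∘L W) ∘L (GY * u) - (GX * θ) ∘L ((1 - E) ∘L W) =
      (1 - E) ∘L (W ∘L GY - GX ∘L W) ∘L u + GX ∘L ((1 - E) ∘L κ) ∘L q +
        GX ∘L (θ * E - E * θ) ∘L W := by
  ext y
  show (W (GY (u y)) - E (W (GY (u y)))) - GX (θ (W y - E (W y))) =
    ((W (GY (u y)) - GX (W (u y))) - E (W (GY (u y)) - GX (W (u y)))) +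
      GX (κ (q y) - E (κ (q y))) + GX (θ (E (W y)) - E (θ (W y)))
  rw [← h2]
  simp only [map_sub, h1]
  abel

theorem errD (G E g GX θ : X →L[ℂ] X) (h1 : ∀ x, E (GX x) = GX (E x))
    (h2 : ∀ x, E (GX x) = g (E x)) (h3 : ∀ x, E (g x) = g (E x)) :
    (E ∘L G) ∘L g - (GX * θ) ∘L (E ∘L G) =
      E ∘L (G * g - g * θ * G) + GX ∘L (E * θ - θ * E) ∘L G := by
  ext x
  show E (G (g x)) - GX (θ (E (G x))) =
    E (G (g x) - g (θ (G x))) + GX (E (θ (G x)) - θ (E (G x)))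
  have e1 : GX (E (θ (G x))) = E (g (θ (G x))) := by rw [← h1, h2, h3]
  simp only [map_sub]
  rw [e1]
  abel

/-- `G' g θ - g G'` in terms of `g θ G - G g`. -/
theorem errG (G G' g θ : X →L[ℂ] X) (h : G * G' = 1) (h' : G' * G = 1) :
    G' * (g * θ) - g * G' = G' * (g * θ * G - G * g) * G' := by
  have e1 : G' * (g * θ * G - G * g) * G' = G' * (g * θ) * (G * G') - (G' * G) * g * G' := by
    noncomm_ring
  rw [e1, h, h']
  simp

end

/-! ### The dilation lemma -/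

section

variable {X Y : Type} [NormedAddCommGroup X] [NormedSpace ℂ X]
  [NormedAddCommGroup Y] [NormedSpace ℂ Y]

/-- If `W V = 1` and `V`, `W` intertwine `T` and `U` modulo compacts, then `U` is similar, modulo
compacts, to `T × T'`. -/
theorem exists_compl (T : X →L[ℂ] X) (U : Y →L[ℂ] Y) (V : X →L[ℂ] Y) (W : Y →L[ℂ] X)
    (hWV : W ∘L V = ContinuousLinearMap.id ℂ X) (h1 : KEq (V ∘L T) (U ∘L V))
    (h2 : KEq (W ∘L U) (T ∘L W)) :
    ∃ (Z : Type) (_ : NormedAddCommGroup Z) (_ : NormedSpace ℂ Z) (T' : Z →L[ℂ] Z),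
      Sim U (T.prodMap T') := by
  have hWV' : ∀ x, W (V x) = x := fun x => by
    have := congrArg (fun A : X →L[ℂ] X => A x) hWV
    simpa using this
  -- the kernel of `W`
  let Z : Submodule ℂ Y := LinearMap.ker (W : Y →ₗ[ℂ] X)
  have hZ : ∀ y : Y, y - V (W y) ∈ Z := fun y => by
    show W (y - V (W y)) = 0
    rw [map_sub, hWV', sub_self]
  let Q : Y →L[ℂ] Z := (ContinuousLinearMap.id ℂ Y - V ∘L W).codRestrict Z hZ
  have hQ : ∀ y : Y, (Q y : Y) = y - V (W y) := fun y => rfl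
  have hZW : ∀ z : Z, W (z : Y) = 0 := fun z => z.2
  let G : Y ≃L[ℂ] (X × Z) := ContinuousLinearEquiv.equivOfInverse
    (W.prod Q) (V.coprod (Z.subtypeL))
    (fun y => by
      show V (W y) + (Q y : Y) = y
      rw [hQ]; abel)
    (fun xz => by
      refine Prod.ext ?_ ?_
      · show W (V xz.1 + (xz.2 : Y)) = xz.1
        rw [map_add, hWV', hZW, add_zero]
      · show Q (V xz.1 + (xz.2 : Y)) = xz.2
        refine Subtype.ext ?_
        rw [hQ, map_add, hWV', hZW, add_zero]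
        abel)
  let T' : Z →L[ℂ] Z := Q ∘L U ∘L Z.subtypeL
  refine ⟨Z, inferInstance, inferInstance, T', G, ?_⟩
  -- `G U - (T × T') G = (W U - T W, Q U - T' Q)`
  have e1 : KEq (W ∘L U) (T ∘L W) := h2
  have e2 : KEq (Q ∘L U) (T' ∘L Q) := by
    -- `Q U - Q U (1 - V W) = Q U V W`, which is `Q V T W = 0` modulo compacts
    have h3 : KEq (Q ∘L (U ∘L V) ∘L W) (Q ∘L (V ∘L T) ∘L W) :=
      (h1.symm.comp_right W).comp_left Q
    have hQV : ∀ x, Q (V x) = 0 := fun x => Subtype.ext (by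
      rw [hQ, hWV', sub_self]; rfl)
    refine (KEq.sub (KEq.refl (Q ∘L U)) h3.symm).congr fun y => ?_
    have hT' : T' (Q y) = Q (U y) - Q (U (V (W y))) := by
      show Q (U ((Q y : Z) : Y)) = _
      rw [hQ, map_sub, map_sub]
    show Q (U y) - T' (Q y) = (Q (U y) - Q (V (T (W y)))) - (Q (U y) - Q (U (V (W y))))
    rw [hT', hQV]
    abel
  have h4 := ((e1.comp_left (ContinuousLinearMap.inl ℂ X Z)).add
    (e2.comp_left (ContinuousLinearMap.inr ℂ X Z)))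
  refine h4.congr fun y => ?_
  refine Prod.ext ?_ ?_
  · show W (U y) - T (W y) = (W (U y) + 0) - (T (W y) + 0)
    abel
  · show Q (U y) - T' (Q y) = (0 + Q (U y)) - (0 + T' (Q y))
    abel

end

end Pool.Agent.Helper623_LS
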