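import Pool.Agent.Helper623_LS.Defs2

/-! Task AMP: the calculus of `comp`, `inc`, `amp`, `mulOp` (all routine: everything is computed coordinatewise with
`dsum_apply`; use `dsum_comp`, `dsum_sum`, ... from Dsum.lean). -/

set_option autoImplicit false
open scoped ENNReal NNReal Topology
open Filter
namespace Pool.Agent.Helper623_LS

noncomputable section

variable {p : ℝ≥0∞} [Fact (1 ≤ p)] {J J' J'' : Type} {H : J → Type} {H' : J' → Type} {H'' : J'' → Type}
  [∀ j, NormedAddCommGroup (H j)] [∀ j, InnerProductSpace ℂ (H j)]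
  [∀ j, NormedAddCommGroup (H' j)] [∀ j, InnerProductSpace ℂ (H' j)]
  [∀ j, NormedAddCommGroup (H'' j)] [∀ j, InnerProductSpace ℂ (H'' j)]

theorem sgl_apply' {N : ℕ} {H : Type} [NormedAddCommGroup H] [InnerProductSpace ℂ H]
    (k l : Fin N) (x : H) : (sgl N H k x) l = if l = k then x else 0 := by
  show (Pi.single k x : Fin N → H) l = _
  rw [Pi.single_apply]

theorem norm_sgl {N : ℕ} {H : Type} [NormedAddCommGroup H] [InnerProductSpace ℂ H]
    (k : Fin N) (x : H) : ‖sgl N H k x‖ = ‖x‖ := by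
  have h : ‖sgl N H k x‖ ^ 2 = ‖x‖ ^ 2 := by
    rw [PiLp.norm_sq_eq_of_L2, Finset.sum_eq_single k]
    · rw [sgl_apply', if_pos rfl]
    · intro l _ hl
      rw [sgl_apply', if_neg hl, norm_zero]; ring
    · intro h; exact absurd (Finset.mem_univ k) h
  exact (pow_left_inj₀ (norm_nonneg _) (norm_nonneg _) two_ne_zero).1 h

omit [Fact (1 ≤ p)] in
theorem norm_proj_le' {N : ℕ} (k : Fin N) (j : J) :
    ‖(PiLp.proj (𝕜 := ℂ) 2 (fun _ : Fin N => H j) k)‖ ≤ 1 := by
  refine ContinuousLinearMap.opNorm_le_bound _ zero_le_one fun x => ?_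
  rw [one_mul]
  exact PiLp.norm_apply_le x k

theorem norm_sgl_le {N : ℕ} {H : Type} [NormedAddCommGroup H] [InnerProductSpace ℂ H]
    (k : Fin N) : ‖sgl N H k‖ ≤ 1 := by
  refine ContinuousLinearMap.opNorm_le_bound _ zero_le_one fun x => ?_
  rw [one_mul, norm_sgl]

theorem comp_apply {N : ℕ} (k : Fin N) (z : lp (AH N H) p) (j : J) :
    comp p N k z j = (z j) k := by
  have h : Bd (fun j => PiLp.proj (𝕜 := ℂ) 2 (fun _ : Fin N => H j) k) := ⟨1, norm_proj_le' k⟩
  unfold comp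
  rw [dsum_apply h]
  rfl

theorem inc_apply {N : ℕ} (k : Fin N) (x : lp H p) (j : J) : inc p N k x j = sgl N (H j) k (x j) := by
  have h : Bd (fun j => sgl N (H j) k) := ⟨1, fun j => norm_sgl_le k⟩
  unfold inc
  rw [dsum_apply h]

theorem inc_apply_apply {N : ℕ} (k l : Fin N) (x : lp H p) (j : J) :
    (inc p N k x j) l = if l = k then x j else 0 := by
  rw [inc_apply, sgl_apply']

theorem norm_comp_le {N : ℕ} (k : Fin N) : ‖(comp p N k : lp (AH N H) p →L[ℂ] lp H p)‖ ≤ 1 := by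
  exact norm_dsum_le zero_le_one (norm_proj_le' k)

theorem norm_inc_le {N : ℕ} (k : Fin N) : ‖(inc p N k : lp H p →L[ℂ] lp (AH N H) p)‖ ≤ 1 := by
  exact norm_dsum_le zero_le_one fun j => norm_sgl_le k

theorem norm_comp_apply_le {N : ℕ} (k : Fin N) (z : lp (AH N H) p) : ‖comp p N k z‖ ≤ ‖z‖ := by
  refine ((comp p N k).le_opNorm z).trans ?_
  exact mul_le_of_le_one_left (norm_nonneg _) (norm_comp_le k)

theorem norm_inc_apply_le {N : ℕ} (k : Fin N) (x : lp H p) : ‖inc p N k x‖ ≤ ‖x‖ := by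
  refine ((inc p N k).le_opNorm x).trans ?_
  exact mul_le_of_le_one_left (norm_nonneg _) (norm_inc_le k)

theorem comp_inc_self {N : ℕ} (k : Fin N) (x : lp H p) : comp p N k (inc p N k x) = x := by
  ext j
  rw [comp_apply, inc_apply_apply, if_pos rfl]

theorem comp_inc_ne {N : ℕ} (k l : Fin N) (h : k ≠ l) (x : lp H p) : comp p N k (inc p N l x) = 0 := by
  ext j
  rw [comp_apply, inc_apply_apply, if_neg h]
  rfl

theorem sum_inc_comp {N : ℕ} (z : lp (AH N H) p) : ∑ k, inc p N k (comp p N k z) = z := by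
  ext j l
  rw [lp.coeFn_sum, Finset.sum_apply, WithLp.ofLp_sum, Finset.sum_apply, Finset.sum_eq_single l]
  · rw [inc_apply_apply, if_pos rfl, comp_apply]
  · intro k _ hk
    rw [inc_apply_apply, if_neg hk.symm]
  · intro h; exact absurd (Finset.mem_univ l) h

theorem ext_comp {N : ℕ} {z z' : lp (AH N H) p} (h : ∀ k, comp p N k z = comp p N k z') : z = z' := by
  rw [← sum_inc_comp z, ← sum_inc_comp z']
  exact Finset.sum_congr rfl fun k _ => by rw [h k]

theorem comp_amp {N : ℕ} (A : lp H p →L[ℂ] lp H' p) (k : Fin N) (z : lp (AH N H) p) :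
    comp p N k (amp p N A z) = A (comp p N k z) := by
  unfold amp
  rw [sum_apply, map_sum, Finset.sum_eq_single k]
  · exact comp_inc_self k _
  · intro l _ hl
    exact comp_inc_ne k l hl.symm _
  · intro h; exact absurd (Finset.mem_univ k) h

theorem amp_inc {N : ℕ} (A : lp H p →L[ℂ] lp H' p) (k : Fin N) (x : lp H p) :
    amp p N A (inc p N k x) = inc p N k (A x) := by
  refine ext_comp fun l => ?_
  rw [comp_amp]
  by_cases h : l = k
  · subst h; rw [comp_inc_self, comp_inc_self]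
  · rw [comp_inc_ne l k h, comp_inc_ne l k h, map_zero]

theorem amp_comp {N : ℕ} (B : lp H' p →L[ℂ] lp H'' p) (A : lp H p →L[ℂ] lp H' p) :
    amp p N (B ∘L A) = amp p N B ∘L amp p N A := by
  refine ContinuousLinearMap.ext fun z => ext_comp fun k => ?_
  show _ = comp p N k (amp p N B (amp p N A z))
  rw [comp_amp, comp_amp, comp_amp]
  rfl

theorem amp_id {N : ℕ} : amp p N (ContinuousLinearMap.id ℂ (lp H p)) = ContinuousLinearMap.id ℂ _ := by
  refine ContinuousLinearMap.ext fun z => ext_comp fun k => ?_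
  rw [comp_amp]
  rfl

theorem amp_one {N : ℕ} : amp p N (1 : lp H p →L[ℂ] lp H p) = 1 := by
  exact amp_id

theorem amp_mul {N : ℕ} (B A : lp H p →L[ℂ] lp H p) :
    amp p N (B * A) = amp p N B * amp p N A := by
  exact amp_comp B A

theorem amp_zero {N : ℕ} : amp p N (0 : lp H p →L[ℂ] lp H' p) = 0 := by
  refine ContinuousLinearMap.ext fun z => ext_comp fun k => ?_
  rw [comp_amp]
  show (0 : lp H' p) = comp p N k 0
  rw [map_zero]

theorem amp_add {N : ℕ} (A B : lp H p →L[ℂ] lp H' p) : amp p N (A + B) = amp p N A + amp p N B := by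
  refine ContinuousLinearMap.ext fun z => ext_comp fun k => ?_
  rw [add_apply, map_add, comp_amp, comp_amp, comp_amp]
  rfl

theorem amp_sub {N : ℕ} (A B : lp H p →L[ℂ] lp H' p) : amp p N (A - B) = amp p N A - amp p N B := by
  refine ContinuousLinearMap.ext fun z => ext_comp fun k => ?_
  rw [sub_apply, map_sub, comp_amp, comp_amp, comp_amp]
  rfl

theorem amp_smul {N : ℕ} (c : ℂ) (A : lp H p →L[ℂ] lp H' p) : amp p N (c • A) = c • amp p N A := by
  refine ContinuousLinearMap.ext fun z => ext_comp fun k => ?_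
  rw [smul_apply, map_smul, comp_amp, comp_amp]
  rfl

theorem amp_compact {N : ℕ} {A : lp H p →L[ℂ] lp H' p} (hA : IsCompactOperator A) :
    IsCompactOperator (amp p N A) := by
  unfold amp
  refine KEq.compact ?_
  have := KEq.sum Finset.univ (A := fun k : Fin N => inc p N k ∘L A ∘L comp p N k)
    (B := fun _ => 0) fun k _ => ?_
  · simpa using this
  · have hB : IsCompactOperator (inc p N k ∘L A ∘L comp p N k : lp (AH N H) p →L[ℂ] lp (AH N H') p) :=
      (hA.comp_clm (comp p N k)).clm_comp (inc p N k)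
    exact KEq.of_compact hB

omit [Fact (1 ≤ p)] in
theorem norm_mulOp_aux {e : J → ℝ} {C : ℝ} (he : ∀ j, |e j| ≤ C) (j : J) :
    ‖(e j : ℂ) • ContinuousLinearMap.id ℂ (H j)‖ ≤ C := by
  refine ContinuousLinearMap.opNorm_le_bound _ ((abs_nonneg _).trans (he j)) fun x => ?_
  show ‖(e j : ℂ) • x‖ ≤ C * ‖x‖
  rw [norm_smul, Complex.norm_real, Real.norm_eq_abs]
  exact mul_le_mul_of_nonneg_right (he j) (norm_nonneg _)

omit [Fact (1 ≤ p)] in
theorem Bd_mulOp {e : J → ℝ} (he : ∃ C, ∀ j, |e j| ≤ C) :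
    Bd (fun j => (e j : ℂ) • ContinuousLinearMap.id ℂ (H j)) := by
  obtain ⟨C, hC⟩ := he
  exact ⟨C, norm_mulOp_aux hC⟩

omit [Fact (1 ≤ p)] in
theorem bdd_mul {e f : J → ℝ} (he : ∃ C, ∀ j, |e j| ≤ C) (hf : ∃ C, ∀ j, |f j| ≤ C) :
    ∃ C, ∀ j, |e j * f j| ≤ C := by
  obtain ⟨C, hC⟩ := he
  obtain ⟨D, hD⟩ := hf
  exact ⟨C * D, fun j => by
    rw [abs_mul]
    exact mul_le_mul (hC j) (hD j) (abs_nonneg _) ((abs_nonneg _).trans (hC j))⟩

omit [Fact (1 ≤ p)] in
theorem bdd_add {e f : J → ℝ} (he : ∃ C, ∀ j, |e j| ≤ C) (hf : ∃ C, ∀ j, |f j| ≤ C) :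
    ∃ C, ∀ j, |e j + f j| ≤ C := by
  obtain ⟨C, hC⟩ := he
  obtain ⟨D, hD⟩ := hf
  exact ⟨C + D, fun j => (abs_add_le _ _).trans (add_le_add (hC j) (hD j))⟩

omit [Fact (1 ≤ p)] in
theorem bdd_sub {e f : J → ℝ} (he : ∃ C, ∀ j, |e j| ≤ C) (hf : ∃ C, ∀ j, |f j| ≤ C) :
    ∃ C, ∀ j, |e j - f j| ≤ C := by
  obtain ⟨C, hC⟩ := he
  obtain ⟨D, hD⟩ := hf
  exact ⟨C + D, fun j => (abs_sub _ _).trans (add_le_add (hC j) (hD j))⟩

theorem mulOp_apply {e : J → ℝ} (he : ∃ C, ∀ j, |e j| ≤ C) (x : lp H p) (j : J) :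
    mulOp p H e x j = (e j : ℂ) • x j := by
  unfold mulOp
  rw [dsum_apply (Bd_mulOp he)]
  rfl

theorem norm_mulOp_le {e : J → ℝ} {C : ℝ} (hC : 0 ≤ C) (he : ∀ j, |e j| ≤ C) :
    ‖mulOp p H e‖ ≤ C := by
  exact norm_dsum_le hC (norm_mulOp_aux he)

theorem mulOp_one : mulOp p H (fun _ => 1) = 1 := by
  ext x j
  rw [mulOp_apply ⟨1, fun j => by simp⟩]
  simp

theorem mulOp_mul {e f : J → ℝ} (he : ∃ C, ∀ j, |e j| ≤ C) (hf : ∃ C, ∀ j, |f j| ≤ C) :
    mulOp p H e * mulOp p H f = mulOp p H (fun j => e j * f j) := by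
  ext x j
  show mulOp p H e (mulOp p H f x) j = _
  rw [mulOp_apply he, mulOp_apply hf, mulOp_apply (bdd_mul he hf), smul_smul]
  push_cast
  rfl

theorem mulOp_add {e f : J → ℝ} (he : ∃ C, ∀ j, |e j| ≤ C) (hf : ∃ C, ∀ j, |f j| ≤ C) :
    mulOp p H (fun j => e j + f j) = mulOp p H e + mulOp p H f := by
  ext x j
  rw [mulOp_apply (bdd_add he hf), add_apply, lp.coeFn_add, Pi.add_apply,
    mulOp_apply he, mulOp_apply hf, ← add_smul]
  push_cast
  rfl

theorem mulOp_sub {e f : J → ℝ} (he : ∃ C, ∀ j, |e j| ≤ C) (hf : ∃ C, ∀ j, |f j| ≤ C) :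
    mulOp p H (fun j => e j - f j) = mulOp p H e - mulOp p H f := by
  ext x j
  rw [mulOp_apply (bdd_sub he hf), sub_apply, lp.coeFn_sub, Pi.sub_apply,
    mulOp_apply he, mulOp_apply hf, ← sub_smul]
  push_cast
  rfl

theorem amp_mulOp {N : ℕ} (e : J → ℝ) (he : ∃ C, ∀ j, |e j| ≤ C) :
    amp p N (mulOp p H e) = mulOp p (AH N H) e := by
  refine ContinuousLinearMap.ext fun z => ext_comp fun k => ?_
  rw [comp_amp]
  ext j
  rw [mulOp_apply he, comp_apply, comp_apply, mulOp_apply he]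
  rfl

theorem mulOp_compact {e : J → ℝ} (hfin : {j | e j ≠ 0}.Finite) [∀ j, FiniteDimensional ℂ (H j)] :
    IsCompactOperator (mulOp p H e) := by
  have : ∀ j, CompleteSpace (H j) := fun j => FiniteDimensional.complete ℂ (H j)
  have : ∀ j, ProperSpace (H j) := fun j => FiniteDimensional.proper ℂ (H j)
  refine dsum_compact (fun j => ?_) ?_
  · exact isCompactOperator_of_locallyCompactSpace_dom _
  · refine tendsto_const_nhds.congr' ?_
    have : ∀ᶠ j in cofinite, e j = 0 := by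
      rw [eventually_cofinite]; exact hfin
    filter_upwards [this] with j hj
    rw [hj]
    simp

theorem q0_apply_zero {m : ℕ} (z : lp (AH (m + 1) H) p) :
    comp p (m + 1) 0 (q0 p H m z) = comp p (m + 1) 0 z := by
  exact comp_inc_self _ _

theorem q0_apply_ne {m : ℕ} (z : lp (AH (m + 1) H) p) (k : Fin (m + 1)) (hk : k ≠ 0) :
    comp p (m + 1) k (q0 p H m z) = 0 := by
  exact comp_inc_ne _ _ hk _

theorem theta_apply_zero {m : ℕ} (A : lp H p →L[ℂ] lp H p) (z : lp (AH (m + 1) H) p) :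
    comp p (m + 1) 0 (theta p m A z) = A (comp p (m + 1) 0 z) := by
  show comp p (m + 1) 0 (inc p (m + 1) 0 (A (comp p (m + 1) 0 z)) + (z - q0 p H m z)) = _
  rw [map_add, map_sub, comp_inc_self, q0_apply_zero, sub_self, add_zero]

theorem theta_apply_ne {m : ℕ} (A : lp H p →L[ℂ] lp H p) (z : lp (AH (m + 1) H) p) (k : Fin (m + 1))
    (hk : k ≠ 0) : comp p (m + 1) k (theta p m A z) = comp p (m + 1) k z := by
  show comp p (m + 1) k (inc p (m + 1) 0 (A (comp p (m + 1) 0 z)) + (z - q0 p H m z)) = _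
  rw [map_add, map_sub, comp_inc_ne k 0 hk, q0_apply_ne _ _ hk, sub_zero, zero_add]

theorem norm_q0_le {m : ℕ} : ‖q0 p H m‖ ≤ 1 := by
  refine ContinuousLinearMap.opNorm_le_bound _ zero_le_one fun z => ?_
  rw [one_mul]
  exact (norm_inc_apply_le 0 _).trans (norm_comp_apply_le 0 z)

theorem norm_theta_le {m : ℕ} (A : lp H p →L[ℂ] lp H p) : ‖theta p m A‖ ≤ ‖A‖ + 2 := by
  refine ContinuousLinearMap.opNorm_le_bound _ (add_nonneg (ContinuousLinearMap.opNorm_nonneg A) zero_le_two) fun z => ?_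
  have h0 : theta p m A z = inc p (m + 1) 0 (A (comp p (m + 1) 0 z)) + (z - q0 p H m z) := rfl
  have h1 : ‖inc p (m + 1) 0 (A (comp p (m + 1) 0 z))‖ ≤ ‖A‖ * ‖z‖ :=
    (norm_inc_apply_le 0 _).trans ((A.le_opNorm _).trans
      (mul_le_mul_of_nonneg_left (norm_comp_apply_le 0 z) (ContinuousLinearMap.opNorm_nonneg A)))
  have h2 : ‖q0 p H m z‖ ≤ ‖z‖ := (norm_inc_apply_le 0 _).trans (norm_comp_apply_le 0 z)
  have h3 : ‖z - q0 p H m z‖ ≤ ‖z‖ + ‖z‖ := (norm_sub_le _ _).trans (add_le_add le_rfl h2)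
  rw [h0]
  refine (norm_add_le _ _).trans ((add_le_add h1 h3).trans (le_of_eq ?_))
  ring

theorem theta_one {m : ℕ} : theta p m (1 : lp H p →L[ℂ] lp H p) = 1 := by
  refine ContinuousLinearMap.ext fun z => ext_comp fun k => ?_
  by_cases hk : k = 0
  · subst hk; rw [theta_apply_zero]; rfl
  · rw [theta_apply_ne _ _ _ hk]; rfl

theorem theta_mul {m : ℕ} (A B : lp H p →L[ℂ] lp H p) :
    theta p m (A * B) = theta p m A * theta p m B := by
  refine ContinuousLinearMap.ext fun z => ext_comp fun k => ?_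
  show _ = comp p (m + 1) k (theta p m A (theta p m B z))
  by_cases hk : k = 0
  · subst hk; rw [theta_apply_zero, theta_apply_zero, theta_apply_zero]; rfl
  · rw [theta_apply_ne _ _ _ hk, theta_apply_ne _ _ _ hk, theta_apply_ne _ _ _ hk]

/-- `theta A = A^(N) q₀ + (1 - q₀)` -/
theorem theta_eq {m : ℕ} (A : lp H p →L[ℂ] lp H p) :
    theta p m A = amp p (m + 1) A * q0 p H m + (1 - q0 p H m) := by
  refine ContinuousLinearMap.ext fun z => ext_comp fun k => ?_
  show _ = comp p (m + 1) k (amp p (m + 1) A (q0 p H m z) + (z - q0 p H m z))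
  rw [map_add, map_sub, comp_amp]
  by_cases hk : k = 0
  · subst hk; rw [theta_apply_zero, q0_apply_zero, sub_self, add_zero]
  · rw [theta_apply_ne _ _ _ hk, q0_apply_ne _ _ hk, map_zero, zero_add, sub_zero]

theorem amp_q0 {m : ℕ} (A : lp H p →L[ℂ] lp H' p) :
    amp p (m + 1) A ∘L q0 p H m = q0 p H' m ∘L amp p (m + 1) A := by
  refine ContinuousLinearMap.ext fun z => ext_comp fun k => ?_
  show comp p (m + 1) k (amp p (m + 1) A (q0 p H m z)) =
    comp p (m + 1) k (q0 p H' m (amp p (m + 1) A z))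
  rw [comp_amp]
  by_cases hk : k = 0
  · subst hk; rw [q0_apply_zero, q0_apply_zero, comp_amp]
  · rw [q0_apply_ne _ _ hk, q0_apply_ne _ _ hk, map_zero]

end

end Pool.Agent.Helper623_LS
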