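import Pool.Agent.Helper623_LS.Rel

/-! Task KHIN: Khintchine's inequality with values in a Hilbert space, all exponents.

Proof. Upper bound: for `x, y` in an inner product space
`(cosh ‖x + y‖ + cosh ‖x - y‖) / 2 ≤ cosh ‖x‖ * cosh ‖y‖`. By induction on `N`:
`avg cosh ‖∑ ε_k v_k‖ ≤ ∏ cosh ‖v_k‖ ≤ exp (∑ ‖v_k‖² / 2)`.
If `∑ ‖v_k‖² = 1` use `x ^ q ≤ C_q * cosh x`; then scale.
Lower bound: `∑ ‖v_k‖² = avg ‖S‖²` (`S_ε = ∑ ε_k v_k`), and Young's inequality. -/

set_option autoImplicit false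
open scoped ENNReal NNReal Topology
open Filter
namespace Pool.Agent.Helper623_LS

namespace Khin

theorem avg_succ {N : ℕ} (F : (Fin (N + 1) → Bool) → ℝ) :
    avg F = (avg (fun ε : Fin N → Bool => F (Fin.cons true ε)) +
      avg (fun ε : Fin N → Bool => F (Fin.cons false ε))) / 2 := by
  unfold avg
  have h : ∑ ε, F ε = ∑ p : Bool × (Fin N → Bool), F (Fin.cons p.1 p.2) := by
    rw [← Fintype.sum_equiv (Fin.consEquiv (fun _ : Fin (N + 1) => Bool))
      (fun p => F (Fin.cons p.1 p.2)) F (fun p => rfl)]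
  rw [h, Fintype.sum_prod_type, Fintype.sum_bool]
  rw [pow_succ]
  ring

theorem avg_zero (F : (Fin 0 → Bool) → ℝ) : avg F = F (fun i => i.elim0) := by
  unfold avg
  rw [Fintype.sum_unique]
  simp only [pow_zero, div_one]
  exact congrArg F (Subsingleton.elim _ _)

theorem avg_mono {N : ℕ} {F G : (Fin N → Bool) → ℝ} (h : ∀ ε, F ε ≤ G ε) : avg F ≤ avg G := by
  unfold avg
  exact div_le_div_of_nonneg_right (Finset.sum_le_sum fun ε _ => h ε) (by positivity)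

theorem avg_nonneg {N : ℕ} {F : (Fin N → Bool) → ℝ} (h : ∀ ε, 0 ≤ F ε) : 0 ≤ avg F := by
  unfold avg
  exact div_nonneg (Finset.sum_nonneg fun ε _ => h ε) (by positivity)

theorem avg_mul {N : ℕ} (c : ℝ) (F : (Fin N → Bool) → ℝ) :
    avg (fun ε => c * F ε) = c * avg F := by
  unfold avg
  rw [← Finset.mul_sum, mul_div_assoc]

theorem avg_add {N : ℕ} (F G : (Fin N → Bool) → ℝ) :
    avg (fun ε => F ε + G ε) = avg F + avg G := by
  unfold avg
  rw [Finset.sum_add_distrib, add_div]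

theorem pow_major {A B C D : ℝ} (hD : 0 ≤ D) (hDB : D ≤ B) (hDA : D ≤ A) (hBC : B ≤ C)
    (hs : A + B = C + D) (n : ℕ) : A ^ n + B ^ n ≤ C ^ n + D ^ n := by
  have key : B ^ n - D ^ n ≤ C ^ n - A ^ n ∧ D ^ n ≤ A ^ n ∧ 0 ≤ B ^ n - D ^ n := by
    induction n with
    | zero => simp
    | succ n ih =>
      obtain ⟨h1, h2, h3⟩ := ih
      refine ⟨?_, pow_le_pow_left₀ hD hDA _, sub_nonneg.2 (pow_le_pow_left₀ hD hDB _)⟩
      have e1 : B ^ (n + 1) - D ^ (n + 1) = B * (B ^ n - D ^ n) + D ^ n * (B - D) := by ring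
      have e2 : C ^ (n + 1) - A ^ (n + 1) = C * (C ^ n - A ^ n) + A ^ n * (C - A) := by ring
      rw [e1, e2]
      have h4 : C - A = B - D := by linarith
      rw [h4]
      have hB : 0 ≤ B := hD.trans hDB
      have h5 : B * (B ^ n - D ^ n) ≤ C * (C ^ n - A ^ n) :=
        mul_le_mul hBC h1 h3 (hB.trans hBC)
      have h6 : D ^ n * (B - D) ≤ A ^ n * (B - D) :=
        mul_le_mul_of_nonneg_right h2 (by linarith)
      linarith
  linarith [key.1]

theorem cosh_major {a b s t : ℝ} (ha : 0 ≤ a) (hb : 0 ≤ b) (_hs : 0 ≤ s) (_ht : 0 ≤ t)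
    (has : a ≤ s + t) (hbs : b ≤ s + t) (he : a ^ 2 + b ^ 2 = 2 * (s ^ 2 + t ^ 2)) :
    Real.cosh a + Real.cosh b ≤ 2 * (Real.cosh s * Real.cosh t) := by
  have h0 : 2 * (Real.cosh s * Real.cosh t) = Real.cosh (s + t) + Real.cosh (s - t) := by
    rw [Real.cosh_add, Real.cosh_sub]; ring
  rw [h0]
  have ea := Real.hasSum_cosh a
  have eb := Real.hasSum_cosh b
  have e1 := Real.hasSum_cosh (s + t)
  have e2 := Real.hasSum_cosh (s - t)
  refine hasSum_le (fun n => ?_) (ea.add eb) (e1.add e2)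
  rw [← add_div, ← add_div]
  apply div_le_div_of_nonneg_right _ (by positivity)
  rw [pow_mul, pow_mul, pow_mul, pow_mul]
  have hA : a ^ 2 ≤ (s + t) ^ 2 := pow_le_pow_left₀ ha has 2
  have hB : b ^ 2 ≤ (s + t) ^ 2 := pow_le_pow_left₀ hb hbs 2
  refine pow_major (by positivity) ?_ ?_ hB ?_ n
  · nlinarith
  · nlinarith
  · nlinarith

theorem cosh_pair {H : Type} [NormedAddCommGroup H] [InnerProductSpace ℂ H] (x y : H) :
    (Real.cosh ‖x + y‖ + Real.cosh ‖x - y‖) / 2 ≤ Real.cosh ‖x‖ * Real.cosh ‖y‖ := by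
  have h := cosh_major (norm_nonneg (x + y)) (norm_nonneg (x - y)) (norm_nonneg x) (norm_nonneg y)
    (norm_add_le x y) (norm_sub_le x y) (by
      have := parallelogram_law_with_norm ℂ x y
      nlinarith)
  linarith

theorem avg_cosh {H : Type} [NormedAddCommGroup H] [InnerProductSpace ℂ H] :
    ∀ (N : ℕ) (v : Fin N → H) (u : H),
      avg (fun ε : Fin N → Bool => Real.cosh ‖u + ∑ k, sg (ε k) • v k‖) ≤
        Real.cosh ‖u‖ * Real.exp ((∑ k, ‖v k‖ ^ 2) / 2) := by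
  intro N
  induction N with
  | zero =>
    intro v u
    rw [avg_zero]
    simp
  | succ N ih =>
    intro v u
    rw [avg_succ]
    have e1 : (fun ε : Fin N → Bool => Real.cosh ‖u + ∑ k, sg ((Fin.cons true ε : Fin (N + 1) → Bool) k) • v k‖) =
        fun ε : Fin N → Bool => Real.cosh ‖(u + v 0) + ∑ k, sg (ε k) • v k.succ‖ := by
      funext ε
      rw [Fin.sum_univ_succ]
      simp [sg, add_assoc]
    have e2 : (fun ε : Fin N → Bool => Real.cosh ‖u + ∑ k, sg ((Fin.cons false ε : Fin (N + 1) → Bool) k) • v k‖) =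
        fun ε : Fin N → Bool => Real.cosh ‖(u - v 0) + ∑ k, sg (ε k) • v k.succ‖ := by
      funext ε
      rw [Fin.sum_univ_succ]
      simp [sg, add_assoc, sub_eq_add_neg]
    rw [e1, e2]
    have h1 := ih (fun k => v k.succ) (u + v 0)
    have h2 := ih (fun k => v k.succ) (u - v 0)
    set P := Real.exp ((∑ k : Fin N, ‖v k.succ‖ ^ 2) / 2) with hP
    have hP0 : 0 < P := Real.exp_pos _
    have h3 := cosh_pair u (v 0)
    have h4 := Real.cosh_le_exp_half_sq ‖v 0‖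
    have h5 : Real.exp ((∑ k, ‖v k‖ ^ 2) / 2) = Real.exp (‖v 0‖ ^ 2 / 2) * P := by
      rw [hP, ← Real.exp_add, Fin.sum_univ_succ]
      congr 1
      ring
    rw [h5]
    have h6 : Real.cosh ‖u‖ * Real.cosh ‖v 0‖ ≤ Real.cosh ‖u‖ * Real.exp (‖v 0‖ ^ 2 / 2) :=
      mul_le_mul_of_nonneg_left h4 (Real.cosh_pos _).le
    calc _ ≤ (Real.cosh ‖u + v 0‖ * P + Real.cosh ‖u - v 0‖ * P) / 2 := by linarith
      _ = (Real.cosh ‖u + v 0‖ + Real.cosh ‖u - v 0‖) / 2 * P := by ring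
      _ ≤ (Real.cosh ‖u‖ * Real.exp (‖v 0‖ ^ 2 / 2)) * P :=
          mul_le_mul_of_nonneg_right (h3.trans h6) hP0.le
      _ = _ := by ring

theorem avg_sq {H : Type} [NormedAddCommGroup H] [InnerProductSpace ℂ H] :
    ∀ (N : ℕ) (v : Fin N → H) (u : H),
      avg (fun ε : Fin N → Bool => ‖u + ∑ k, sg (ε k) • v k‖ ^ 2) =
        ‖u‖ ^ 2 + ∑ k, ‖v k‖ ^ 2 := by
  intro N
  induction N with
  | zero =>
    intro v u
    rw [avg_zero]
    simp
  | succ N ih =>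
    intro v u
    rw [avg_succ]
    have e1 : (fun ε : Fin N → Bool => ‖u + ∑ k, sg ((Fin.cons true ε : Fin (N + 1) → Bool) k) • v k‖ ^ 2) =
        fun ε : Fin N → Bool => ‖(u + v 0) + ∑ k, sg (ε k) • v k.succ‖ ^ 2 := by
      funext ε
      rw [Fin.sum_univ_succ]
      simp [sg, add_assoc]
    have e2 : (fun ε : Fin N → Bool => ‖u + ∑ k, sg ((Fin.cons false ε : Fin (N + 1) → Bool) k) • v k‖ ^ 2) =
        fun ε : Fin N → Bool => ‖(u - v 0) + ∑ k, sg (ε k) • v k.succ‖ ^ 2 := by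
      funext ε
      rw [Fin.sum_univ_succ]
      simp [sg, add_assoc, sub_eq_add_neg]
    rw [e1, e2, ih (fun k => v k.succ) (u + v 0), ih (fun k => v k.succ) (u - v 0),
      Fin.sum_univ_succ]
    have := parallelogram_law_with_norm ℂ u (v 0)
    nlinarith

theorem rpow_le_cosh (q : ℝ) (hq : 0 < q) : ∃ C : ℝ, 1 ≤ C ∧ ∀ x : ℝ, 0 ≤ x →
    x ^ q ≤ C * Real.cosh x := by
  set n := ⌈q⌉₊ with hn
  have hf : (1 : ℝ) ≤ (n.factorial : ℝ) := by exact_mod_cast Nat.factorial_pos n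
  refine ⟨2 * (n.factorial : ℝ), by linarith, fun x hx => ?_⟩
  rcases le_total x 1 with h | h
  · have h1 : x ^ q ≤ 1 := Real.rpow_le_one hx h hq.le
    have h2 := Real.one_le_cosh x
    nlinarith
  · have h1 : x ^ q ≤ x ^ (n : ℝ) := Real.rpow_le_rpow_of_exponent_le h (Nat.le_ceil q)
    rw [Real.rpow_natCast] at h1
    have h2 := Real.pow_div_factorial_le_exp x hx n
    rw [div_le_iff₀ (by positivity)] at h2
    have h3 : Real.exp x ≤ 2 * Real.cosh x := by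
      rw [Real.cosh_eq]
      have := Real.exp_pos (-x)
      linarith
    calc x ^ q ≤ Real.exp x * (n.factorial : ℝ) := h1.trans h2
      _ ≤ (2 * Real.cosh x) * (n.factorial : ℝ) := mul_le_mul_of_nonneg_right h3 (by positivity)
      _ = _ := by ring

theorem scale {H : Type} [NormedAddCommGroup H] [InnerProductSpace ℂ H] {N : ℕ} (v : Fin N → H)
    (h : ∑ k, ‖v k‖ ^ 2 ≠ 0) (q : ℝ) :
    ∃ w : Fin N → H, (∑ k, ‖w k‖ ^ 2 = 1) ∧
      ∀ ε : Fin N → Bool, ‖∑ k, sg (ε k) • v k‖ ^ q =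
        (∑ k, ‖v k‖ ^ 2) ^ (q / 2) * ‖∑ k, sg (ε k) • w k‖ ^ q := by
  set σ := ∑ k, ‖v k‖ ^ 2 with hσ
  have hσ0 : 0 < σ := lt_of_le_of_ne (Finset.sum_nonneg fun k _ => by positivity) (Ne.symm h)
  have hc : 0 < Real.sqrt σ := Real.sqrt_pos.2 hσ0
  have hc2 : Real.sqrt σ ^ 2 = σ := Real.sq_sqrt hσ0.le
  refine ⟨fun k => ((Real.sqrt σ)⁻¹ : ℝ) • v k, ?_, fun ε => ?_⟩
  · have : ∀ k, ‖((Real.sqrt σ)⁻¹ : ℝ) • v k‖ ^ 2 = σ⁻¹ * ‖v k‖ ^ 2 := by
      intro k
      rw [norm_smul, mul_pow, Real.norm_eq_abs, sq_abs, inv_pow, hc2]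
    simp only [this]
    rw [← Finset.mul_sum, ← hσ, inv_mul_cancel₀ hσ0.ne']
  · have h1 : ∑ k, sg (ε k) • v k =
        (Real.sqrt σ) • ∑ k, sg (ε k) • (((Real.sqrt σ)⁻¹ : ℝ) • v k) := by
      rw [Finset.smul_sum]
      refine Finset.sum_congr rfl fun k _ => ?_
      rw [smul_comm (Real.sqrt σ) (sg (ε k)), smul_smul (Real.sqrt σ), mul_inv_cancel₀ hc.ne',
        one_smul]
    have h2 : (Real.sqrt σ) ^ q = σ ^ (q / 2) := by
      rw [Real.sqrt_eq_rpow, ← Real.rpow_mul hσ0.le]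
      congr 1
      ring
    rw [h1, norm_smul, Real.norm_eq_abs, abs_of_pos hc, Real.mul_rpow hc.le (norm_nonneg _), h2]

theorem upper_one {q C : ℝ} (hC : 1 ≤ C) (hCq : ∀ x : ℝ, 0 ≤ x → x ^ q ≤ C * Real.cosh x)
    {H : Type} [NormedAddCommGroup H] [InnerProductSpace ℂ H] {N : ℕ} (w : Fin N → H)
    (hw : ∑ k, ‖w k‖ ^ 2 = 1) :
    avg (fun ε : Fin N → Bool => ‖∑ k, sg (ε k) • w k‖ ^ q) ≤ C * Real.exp (1 / 2) := by
  have h1 := avg_cosh N w 0
  rw [hw] at h1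
  simp only [zero_add, norm_zero, Real.cosh_zero, one_mul] at h1
  calc _ ≤ avg (fun ε : Fin N → Bool => C * Real.cosh ‖∑ k, sg (ε k) • w k‖) :=
        avg_mono fun ε => hCq _ (norm_nonneg _)
    _ = C * avg (fun ε : Fin N → Bool => Real.cosh ‖∑ k, sg (ε k) • w k‖) := avg_mul _ _
    _ ≤ _ := mul_le_mul_of_nonneg_left h1 (by linarith)

theorem zero_case {H : Type} [NormedAddCommGroup H] [InnerProductSpace ℂ H] {N : ℕ} (v : Fin N → H)
    (h : ∑ k, ‖v k‖ ^ 2 = 0) (ε : Fin N → Bool) : ∑ k, sg (ε k) • v k = 0 := by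
  have h1 := (Finset.sum_eq_zero_iff_of_nonneg (fun k _ => by positivity)).1 h
  refine Finset.sum_eq_zero fun k hk => ?_
  have h2 := h1 k hk
  have h3 : v k = 0 := by
    rw [← norm_eq_zero]
    exact pow_eq_zero_iff (two_ne_zero) |>.1 h2
  rw [h3, smul_zero]

end Khin

open Khin

theorem khin_upper (q : ℝ) (hq : 0 < q) : ∃ K : ℝ, 1 ≤ K ∧
    ∀ (N : ℕ) (H : Type) [NormedAddCommGroup H] [InnerProductSpace ℂ H] (v : Fin N → H),
      avg (fun ε : Fin N → Bool => ‖∑ k, sg (ε k) • v k‖ ^ q) ≤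
        K * (∑ k, ‖v k‖ ^ 2) ^ (q / 2) := by
  obtain ⟨C, hC, hCq⟩ := rpow_le_cosh q hq
  have he : 1 ≤ Real.exp (1 / 2) := Real.one_le_exp (by norm_num)
  refine ⟨C * Real.exp (1 / 2), by nlinarith, ?_⟩
  intro N H _ _ v
  by_cases h : ∑ k, ‖v k‖ ^ 2 = 0
  · have h1 : (fun ε : Fin N → Bool => ‖∑ k, sg (ε k) • v k‖ ^ q) = fun _ => 0 := by
      funext ε
      rw [zero_case v h ε, norm_zero, Real.zero_rpow hq.ne']
    rw [h1, h, Real.zero_rpow (by positivity), mul_zero]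
    unfold avg
    simp
  · obtain ⟨w, hw1, hw2⟩ := scale v h q
    simp only [hw2]
    rw [avg_mul]
    have := upper_one hC hCq w hw1
    have h0 : 0 ≤ (∑ k, ‖v k‖ ^ 2) ^ (q / 2) :=
      Real.rpow_nonneg (Finset.sum_nonneg fun k _ => by positivity) _
    calc _ ≤ (∑ k, ‖v k‖ ^ 2) ^ (q / 2) * (C * Real.exp (1 / 2)) :=
          mul_le_mul_of_nonneg_left this h0
      _ = _ := by ring

theorem khin_lower (q : ℝ) (hq : 1 < q) : ∃ K : ℝ, 1 ≤ K ∧
    ∀ (N : ℕ) (H : Type) [NormedAddCommGroup H] [InnerProductSpace ℂ H] (v : Fin N → H),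
      (∑ k, ‖v k‖ ^ 2) ^ (q / 2) ≤
        K * avg (fun ε : Fin N → Bool => ‖∑ k, sg (ε k) • v k‖ ^ q) := by
  have hq0 : 0 < q := by linarith
  have hconj : q.HolderConjugate q.conjExponent := Real.HolderConjugate.conjExponent hq
  set q' := q.conjExponent with hq'
  have hq1 : 1 < q' := hconj.symm.lt
  have hq'0 : 0 < q' := by linarith
  obtain ⟨K', hK', hup⟩ := khin_upper q' hq'0
  set l : ℝ := (2 * K') ^ (1 / q') with hl
  have hl1 : 1 ≤ l := Real.one_le_rpow (by linarith) (by positivity)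
  have hl0 : 0 < l := by linarith
  have hlq : l ^ q' = 2 * K' := by
    rw [hl, ← Real.rpow_mul (by linarith), one_div, inv_mul_cancel₀ hq'0.ne', Real.rpow_one]
  have hlq1 : 1 ≤ l ^ q := Real.one_le_rpow hl1 hq0.le
  refine ⟨2 * l ^ q, by linarith, ?_⟩
  intro N H _ _ v
  have hav : ∀ v : Fin N → H, 0 ≤ avg (fun ε : Fin N → Bool => ‖∑ k, sg (ε k) • v k‖ ^ q) :=
    fun v => avg_nonneg fun ε => Real.rpow_nonneg (norm_nonneg _) _
  by_cases h : ∑ k, ‖v k‖ ^ 2 = 0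
  · rw [h, Real.zero_rpow (by positivity)]
    exact mul_nonneg (by linarith) (hav v)
  · obtain ⟨w, hw1, hw2⟩ := scale v h q
    simp only [hw2]
    rw [avg_mul]
    have h0 : 0 ≤ (∑ k, ‖v k‖ ^ 2) ^ (q / 2) :=
      Real.rpow_nonneg (Finset.sum_nonneg fun k _ => by positivity) _
    have hmain : 1 ≤ 2 * l ^ q * avg (fun ε : Fin N → Bool => ‖∑ k, sg (ε k) • w k‖ ^ q) := by
      have e1 := avg_sq N w 0
      simp only [zero_add, norm_zero, hw1] at e1
      have e2 : avg (fun ε : Fin N → Bool => ‖∑ k, sg (ε k) • w k‖ ^ q') ≤ K' := by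
        have := hup N H w
        rwa [hw1, Real.one_rpow, mul_one] at this
      have e3 : ∀ ε : Fin N → Bool, ‖∑ k, sg (ε k) • w k‖ ^ 2 ≤
          l ^ q * ‖∑ k, sg (ε k) • w k‖ ^ q + (2 * K')⁻¹ * ‖∑ k, sg (ε k) • w k‖ ^ q' := by
        intro ε
        set x := ‖∑ k, sg (ε k) • w k‖ with hx
        have hx0 : 0 ≤ x := norm_nonneg _
        have y := Real.young_inequality_of_nonneg (a := l * x) (b := x / l) (by positivity)
          (by positivity) hconj
        have y1 : l * x * (x / l) = x ^ 2 := by field_simp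
        have y2 : (l * x) ^ q / q ≤ l ^ q * x ^ q := by
          rw [Real.mul_rpow hl0.le hx0]
          exact div_le_self (by positivity) hq.le
        have y3 : (x / l) ^ q' / q' ≤ (2 * K')⁻¹ * x ^ q' := by
          rw [Real.div_rpow hx0 hl0.le, hlq]
          calc x ^ q' / (2 * K') / q' ≤ x ^ q' / (2 * K') := div_le_self (by positivity) hq1.le
            _ = _ := by rw [div_eq_mul_inv, mul_comm]
        rw [y1] at y
        linarith
      have e4 := avg_mono e3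
      norm_num at e1
      rw [avg_add, avg_mul, avg_mul, e1] at e4
      have e5 : (2 * K')⁻¹ * avg (fun ε : Fin N → Bool => ‖∑ k, sg (ε k) • w k‖ ^ q') ≤ 1 / 2 := by
        calc _ ≤ (2 * K')⁻¹ * K' := mul_le_mul_of_nonneg_left e2 (by positivity)
          _ = 1 / 2 := by field_simp
      linarith
    calc _ = (∑ k, ‖v k‖ ^ 2) ^ (q / 2) * 1 := by ring
      _ ≤ (∑ k, ‖v k‖ ^ 2) ^ (q / 2) *
          (2 * l ^ q * avg (fun ε : Fin N → Bool => ‖∑ k, sg (ε k) • w k‖ ^ q)) :=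
          mul_le_mul_of_nonneg_left hmain h0
      _ = _ := by ring

end Pool.Agent.Helper623_LS
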