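import Pool.Agent.Helper623_LS.Amp
import Pool.Agent.Helper623_LS.Khin

/-! Task AMPKL: Khintchine on `ℓ^p(J; ℓ₂^N(H))` and the Marcinkiewicz-Zygmund bound `‖A ⊗ 1‖ ≤ β ‖A‖`.

`‖z‖^r = ∑_j ‖z j‖^r` (`lp.norm_rpow_eq_tsum`), `‖z j‖^2 = ∑_k ‖(z j) k‖^2`; apply `khin_upper`, `khin_lower` to
`v k = (z j) k` for each `j` and sum over `j` (finite average and a convergent sum commute).
`amp_norm` : `(A^(N) z)_ε = A z_ε` with `z_ε = ∑_k sg (ε k) • comp k z`, so
`‖A^(N) z‖^r ≤ K avg ‖A z_ε‖^r ≤ K ‖A‖^r avg ‖z_ε‖^r ≤ K² ‖A‖^r ‖z‖^r`. -/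

set_option autoImplicit false
open scoped ENNReal NNReal Topology
open Filter
namespace Pool.Agent.Helper623_LS

noncomputable section

variable {p : ℝ≥0∞} [Fact (1 ≤ p)]

section given
variable {J J' : Type} {H : J → Type} {H' : J' → Type}
  [∀ j, NormedAddCommGroup (H j)] [∀ j, InnerProductSpace ℂ (H j)]
  [∀ j, NormedAddCommGroup (H' j)] [∀ j, InnerProductSpace ℂ (H' j)]



end given

omit [Fact (1 ≤ p)] in
theorem ampkl_r (hp1 : 1 < p) (hp : p ≠ ∞) : 1 < p.toReal := by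
  rw [← ENNReal.toReal_one]
  exact (ENNReal.toReal_lt_toReal ENNReal.one_ne_top hp).2 hp1

theorem ampkl_apply {J : Type} {H : J → Type} [∀ j, NormedAddCommGroup (H j)]
    [∀ j, InnerProductSpace ℂ (H j)] {N : ℕ} (ε : Fin N → Bool) (z : lp (AH N H) p) (j : J) :
    (∑ k, sg (ε k) • comp p N k z) j = ∑ k, sg (ε k) • (z j) k := by
  have h : ∀ s : Finset (Fin N), (∑ k ∈ s, sg (ε k) • comp p N k z : lp H p) j =
      ∑ k ∈ s, sg (ε k) • (z j) k := by
    classical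
    intro s
    induction s using Finset.induction_on with
    | empty => simp
    | insert a s ha ih =>
      rw [Finset.sum_insert ha, Finset.sum_insert ha, ← ih, lp.coeFn_add, Pi.add_apply,
        lp.coeFn_smul, Pi.smul_apply, comp_apply]
  exact h Finset.univ

theorem ampkl_hasSum {J : Type} {H : J → Type} [∀ j, NormedAddCommGroup (H j)]
    [∀ j, InnerProductSpace ℂ (H j)] {N : ℕ} (hr : 0 < p.toReal) (z : lp (AH N H) p) :
    HasSum (fun j => avg (fun ε : Fin N → Bool => ‖∑ k, sg (ε k) • (z j) k‖ ^ p.toReal))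
      (avg (fun ε : Fin N → Bool => ‖∑ k, sg (ε k) • comp p N k z‖ ^ p.toReal)) := by
  unfold avg
  apply HasSum.div_const
  apply hasSum_sum
  intro ε _
  have h := lp.hasSum_norm hr (∑ k, sg (ε k) • comp p N k z : lp H p)
  simp only [ampkl_apply] at h
  exact h

theorem ampkl_norm {H : Type} [NormedAddCommGroup H] [InnerProductSpace ℂ H] {N : ℕ} {r : ℝ}
    (v : PiLp 2 (fun _ : Fin N => H)) : (∑ k, ‖v k‖ ^ 2) ^ (r / 2) = ‖v‖ ^ r := by
  rw [← PiLp.norm_sq_eq_of_L2, ← Real.rpow_natCast, ← Real.rpow_mul (norm_nonneg _)]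
  congr 1
  push_cast
  ring

theorem amp_KL (hp1 : 1 < p) (hp : p ≠ ∞) : ∃ K : ℝ, 1 ≤ K ∧
    ∀ (N : ℕ) (J : Type) (H : J → Type) [∀ j, NormedAddCommGroup (H j)]
      [∀ j, InnerProductSpace ℂ (H j)] (z : lp (AH N H) p),
      avg (fun ε : Fin N → Bool => ‖∑ k, sg (ε k) • comp p N k z‖ ^ p.toReal) ≤
        K * ‖z‖ ^ p.toReal ∧
      ‖z‖ ^ p.toReal ≤
        K * avg (fun ε : Fin N → Bool => ‖∑ k, sg (ε k) • comp p N k z‖ ^ p.toReal) := by
  have hr := ampkl_r hp1 hp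
  have hr0 : 0 < p.toReal := by linarith
  obtain ⟨K1, hK1, h1⟩ := khin_upper p.toReal hr0
  obtain ⟨K2, hK2, h2⟩ := khin_lower p.toReal hr
  refine ⟨max K1 K2, hK1.trans (le_max_left _ _), ?_⟩
  intro N J H _ _ z
  have hz := lp.hasSum_norm hr0 z
  have ha := ampkl_hasSum hr0 z
  have hav : ∀ j, 0 ≤ avg (fun ε : Fin N → Bool => ‖∑ k, sg (ε k) • (z j) k‖ ^ p.toReal) :=
    fun j => Khin.avg_nonneg fun ε => Real.rpow_nonneg (norm_nonneg _) _
  constructor
  · refine hasSum_le (fun j => ?_) ha (hz.mul_left (max K1 K2))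
    have h := h1 N (H j) (fun k => (z j) k)
    rw [ampkl_norm] at h
    exact h.trans (mul_le_mul_of_nonneg_right (le_max_left _ _)
      (Real.rpow_nonneg (norm_nonneg _) _))
  · refine hasSum_le (fun j => ?_) hz (ha.mul_left (max K1 K2))
    have h := h2 N (H j) (fun k => (z j) k)
    rw [ampkl_norm] at h
    exact h.trans (mul_le_mul_of_nonneg_right (le_max_right _ _) (hav j))

theorem amp_norm (hp1 : 1 < p) (hp : p ≠ ∞) : ∃ β : ℝ, 1 ≤ β ∧
    ∀ (N : ℕ) (J J' : Type) (H : J → Type) (H' : J' → Type)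
      [∀ j, NormedAddCommGroup (H j)] [∀ j, InnerProductSpace ℂ (H j)]
      [∀ j, NormedAddCommGroup (H' j)] [∀ j, InnerProductSpace ℂ (H' j)]
      (A : lp H p →L[ℂ] lp H' p), ‖amp p N A‖ ≤ β * ‖A‖ := by
  have hr := ampkl_r hp1 hp
  have hr0 : 0 < p.toReal := by linarith
  obtain ⟨K, hK, h⟩ := amp_KL hp1 hp
  have hKK : 1 ≤ K * K := by nlinarith
  refine ⟨K * K, hKK, ?_⟩
  intro N J J' H H' _ _ _ _ A
  refine ContinuousLinearMap.opNorm_le_bound _ (by positivity) fun z => ?_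
  have h1 := (h N J' H' (amp p N A z)).2
  have h2 := (h N J H z).1
  have e : ∀ ε : Fin N → Bool, ‖∑ k, sg (ε k) • comp p N k (amp p N A z)‖ ^ p.toReal ≤
      ‖A‖ ^ p.toReal * ‖∑ k, sg (ε k) • comp p N k z‖ ^ p.toReal := by
    intro ε
    have e1 : ∑ k, sg (ε k) • comp p N k (amp p N A z) =
        A (∑ k, sg (ε k) • comp p N k z) := by
      rw [map_sum]
      apply Finset.sum_congr rfl
      intro k _
      rw [comp_amp, map_smul]
    rw [e1, ← Real.mul_rpow (norm_nonneg A) (norm_nonneg (∑ k, sg (ε k) • comp p N k z))]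
    exact Real.rpow_le_rpow (norm_nonneg _) (A.le_opNorm _) hr0.le
  have h3 := Khin.avg_mono e
  rw [Khin.avg_mul] at h3
  have hA : 0 ≤ ‖A‖ ^ p.toReal := Real.rpow_nonneg (norm_nonneg A) _
  have h4 : ‖amp p N A z‖ ^ p.toReal ≤ K * K * (‖A‖ ^ p.toReal * ‖z‖ ^ p.toReal) := by
    calc ‖amp p N A z‖ ^ p.toReal
        ≤ K * avg (fun ε : Fin N → Bool =>
          ‖∑ k, sg (ε k) • comp p N k (amp p N A z)‖ ^ p.toReal) := h1
      _ ≤ K * (‖A‖ ^ p.toReal * avg (fun ε : Fin N → Bool =>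
          ‖∑ k, sg (ε k) • comp p N k z‖ ^ p.toReal)) :=
        mul_le_mul_of_nonneg_left h3 (by linarith)
      _ ≤ K * (‖A‖ ^ p.toReal * (K * ‖z‖ ^ p.toReal)) :=
        mul_le_mul_of_nonneg_left (mul_le_mul_of_nonneg_left h2 hA) (by linarith)
      _ = _ := by ring
  have h5 : K * K ≤ (K * K) ^ p.toReal := Real.self_le_rpow_of_one_le hKK hr.le
  have h6 : ‖amp p N A z‖ ^ p.toReal ≤ (K * K * ‖A‖ * ‖z‖) ^ p.toReal := by
    rw [Real.mul_rpow (by positivity) (norm_nonneg z), Real.mul_rpow (by positivity)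
      (norm_nonneg A), mul_assoc]
    exact h4.trans (mul_le_mul_of_nonneg_right h5
      (mul_nonneg hA (Real.rpow_nonneg (norm_nonneg _) _)))
  exact (Real.rpow_le_rpow_iff (norm_nonneg _) (by positivity) hr0).1 h6

end

end Pool.Agent.Helper623_LS
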