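import Pool.Agent.Helper623_LS.Tail1

set_option autoImplicit false
open scoped ENNReal NNReal Topology
open Filter
namespace Pool.Agent.Helper623_LS

noncomputable section

variable {p : ℝ≥0∞} [Fact (1 ≤ p)]



/-! Auxiliary facts on multiplication operators by bounded real functions. -/

theorem qc_norm_smul_id_le (r : ℝ) {C : ℝ} (h : |r| ≤ C) :
    ‖((r : ℂ) • ContinuousLinearMap.id ℂ ℂ)‖ ≤ C := by
  have h0 : 0 ≤ C := (abs_nonneg r).trans h
  refine ContinuousLinearMap.opNorm_le_bound _ h0 fun x => ?_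
  show ‖(r : ℂ) * x‖ ≤ _
  rw [norm_mul, Complex.norm_real, Real.norm_eq_abs]
  exact mul_le_mul_of_nonneg_right h (norm_nonneg _)

theorem qc_MO_apply {e : ℕ → ℝ} {C : ℝ} (he : ∀ i, |e i| ≤ C) (x : LL p) (i : ℕ) :
    MO p e x i = (e i : ℂ) * x i := by
  unfold MO mulOp
  rw [dsum_apply ⟨C, fun j => qc_norm_smul_id_le _ (he j)⟩]
  rfl

theorem qc_norm_MO_le {e : ℕ → ℝ} {C : ℝ} (he : ∀ i, |e i| ≤ C) : ‖MO p e‖ ≤ C := by
  have h0 : 0 ≤ C := (abs_nonneg _).trans (he 0)
  exact norm_dsum_le h0 fun j => qc_norm_smul_id_le _ (he j)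

theorem qc_cut_abs (n i : ℕ) : |cut n i| ≤ 1 := by
  unfold cut
  split_ifs <;> simp

theorem qc_cut_apply (n : ℕ) (x : LL p) (i : ℕ) :
    MO p (cut n) x i = if i < n then x i else 0 := by
  rw [qc_MO_apply (qc_cut_abs n)]
  unfold cut
  split_ifs <;> simp

theorem qc_norm_cut_le (n : ℕ) : ‖MO p (cut n)‖ ≤ 1 := qc_norm_MO_le (qc_cut_abs n)

theorem qc_cut_succ (n : ℕ) (x : LL p) :
    MO p (cut (n + 1)) x = MO p (cut n) x + lp.single p n (x n) := by
  refine lp.ext (funext fun i => ?_)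
  rw [lp.coeFn_add, Pi.add_apply, qc_cut_apply, qc_cut_apply]
  rcases lt_trichotomy i n with h | h | h
  · rw [if_pos (by omega), if_pos h, lp.single_apply_ne _ _ _ h.ne, add_zero]
  · subst h
    rw [if_pos (by omega), if_neg (lt_irrefl _), lp.single_apply_self, zero_add]
  · rw [if_neg (by omega), if_neg (by omega), lp.single_apply_ne _ _ _ h.ne', add_zero]

theorem qc_cut_compact (n : ℕ) : IsCompactOperator (MO p (cut n)) := by
  induction n with
  | zero =>
    refine isCompactOperator_congr isCompactOperator_zero fun x => ?_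
    refine lp.ext (funext fun i => ?_)
    rw [qc_cut_apply, if_neg (by omega)]
    rfl
  | succ n ih =>
    have h1 : IsCompactOperator (fun x : LL p => (lp.single p n (x n) : LL p)) := by
      have h2 : IsCompactOperator (id : ℂ → ℂ) := isCompactOperator_id
      have h3 := (h2.comp_clm (lp.evalCLM ℂ (fun _ : ℕ => ℂ) p n)).clm_comp
        (lp.singleContinuousLinearMap ℂ (fun _ : ℕ => ℂ) p n)
      exact isCompactOperator_congr h3 fun x => rfl
    exact isCompactOperator_congr (ih.add h1) fun x => qc_cut_succ n x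

/-- Off diagonal blocks with disjoint supports. -/
theorem qc_blocks (hp : p ≠ ∞) (T : LL p →L[ℂ] LL p) (s : Finset ℕ) (A B : ℕ → Set ℕ)
    (hA : ∀ k ∈ s, ∀ l ∈ s, k ≠ l → Disjoint (A k) (A l))
    (hB : ∀ k ∈ s, ∀ l ∈ s, k ≠ l → Disjoint (B k) (B l)) :
    ‖∑ k ∈ s, MO p ((A k).indicator 1) ∘L T ∘L MO p ((B k).indicator 1)‖ ≤ ‖T‖ := by
  classical
  have hp0 : 0 < p.toReal :=
    ENNReal.toReal_pos (lt_of_lt_of_le one_pos (Fact.out : (1 : ℝ≥0∞) ≤ p)).ne' hp
  have hind : ∀ (S : Set ℕ) (i : ℕ), |S.indicator (1 : ℕ → ℝ) i| ≤ 1 := by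
    intro S i
    by_cases h : i ∈ S
    · simp [h]
    · simp [h]
  have happ : ∀ (S : Set ℕ) (x : LL p) (i : ℕ), MO p (S.indicator 1) x i = if i ∈ S then x i else 0 := by
    intro S x i
    rw [qc_MO_apply (hind S)]
    split_ifs with h <;> simp [h]
  refine ContinuousLinearMap.opNorm_le_bound _ (norm_nonneg _) fun x => ?_
  refine lp.norm_le_of_forall_sum_le hp0 (by positivity) fun t => ?_
  have hval : ∀ i, ‖((∑ k ∈ s, MO p ((A k).indicator 1) ∘L T ∘L MO p ((B k).indicator 1)) x) i‖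
      ^ p.toReal ≤ ∑ k ∈ s, ‖(MO p ((A k).indicator 1) (T (MO p ((B k).indicator 1) x))) i‖
      ^ p.toReal := by
    intro i
    have e1 : ((∑ k ∈ s, MO p ((A k).indicator 1) ∘L T ∘L MO p ((B k).indicator 1)) x) i
        = ∑ k ∈ s, (MO p ((A k).indicator 1) (T (MO p ((B k).indicator 1) x))) i := by
      rw [_root_.sum_apply, lp.coeFn_sum, Finset.sum_apply]
      rfl
    rw [e1]
    by_cases h : ∃ k ∈ s, i ∈ A k
    · obtain ⟨k, hk, hik⟩ := h
      rw [Finset.sum_eq_single k]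
      · exact Finset.single_le_sum (f := fun k =>
          ‖(MO p ((A k).indicator 1) (T (MO p ((B k).indicator 1) x))) i‖ ^ p.toReal)
          (fun l _ => by positivity) hk
      · intro l hl hlk
        rw [happ, if_neg]
        exact fun hil => Set.disjoint_left.1 (hA k hk l hl hlk.symm) hik hil
      · intro h; exact absurd hk h
    · rw [Finset.sum_eq_zero]
      · rw [norm_zero, Real.zero_rpow hp0.ne']
        positivity
      · intro l hl
        rw [happ, if_neg]
        exact fun hil => h ⟨l, hl, hil⟩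
  calc ∑ i ∈ t, ‖((∑ k ∈ s, MO p ((A k).indicator 1) ∘L T ∘L MO p ((B k).indicator 1)) x) i‖
      ^ p.toReal ≤ ∑ i ∈ t, ∑ k ∈ s, ‖(MO p ((A k).indicator 1) (T (MO p ((B k).indicator 1) x))) i‖
      ^ p.toReal := Finset.sum_le_sum fun i _ => hval i
    _ = ∑ k ∈ s, ∑ i ∈ t, ‖(MO p ((A k).indicator 1) (T (MO p ((B k).indicator 1) x))) i‖
      ^ p.toReal := Finset.sum_comm
    _ ≤ ∑ k ∈ s, (‖T‖ * ‖MO p ((B k).indicator 1) x‖) ^ p.toReal := by
        refine Finset.sum_le_sum fun k _ => ?_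
        refine (lp.sum_rpow_le_norm_rpow hp0 _ t).trans ?_
        refine Real.rpow_le_rpow (norm_nonneg _) ?_ hp0.le
        refine (ContinuousLinearMap.le_of_opNorm_le _ (qc_norm_MO_le (hind (A k))) _).trans ?_
        rw [one_mul]
        exact T.le_opNorm _
    _ = ‖T‖ ^ p.toReal * ∑ k ∈ s, ‖MO p ((B k).indicator 1) x‖ ^ p.toReal := by
        rw [Finset.mul_sum]
        exact Finset.sum_congr rfl fun k _ => Real.mul_rpow (norm_nonneg _) (norm_nonneg _)
    _ ≤ ‖T‖ ^ p.toReal * ‖x‖ ^ p.toReal := by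
        gcongr
        have hs : ∀ y : LL p, HasSum (fun i => ‖y i‖ ^ p.toReal) (‖y‖ ^ p.toReal) :=
          fun y => lp.hasSum_norm hp0 y
        have h1 : HasSum (fun i => ∑ k ∈ s, ‖(MO p ((B k).indicator 1) x) i‖ ^ p.toReal)
            (∑ k ∈ s, ‖MO p ((B k).indicator 1) x‖ ^ p.toReal) :=
          hasSum_sum fun k _ => hs _
        refine hasSum_le (fun i => ?_) h1 (hs x)
        by_cases h : ∃ k ∈ s, i ∈ B k
        · obtain ⟨k, hk, hik⟩ := h
          rw [Finset.sum_eq_single k]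
          · rw [happ, if_pos hik]
          · intro l hl hlk
            rw [happ, if_neg, norm_zero, Real.zero_rpow hp0.ne']
            exact fun hil => Set.disjoint_left.1 (hB k hk l hl hlk.symm) hik hil
          · intro h; exact absurd hk h
        · rw [Finset.sum_eq_zero]
          · positivity
          · intro l hl
            rw [happ, if_neg, norm_zero, Real.zero_rpow hp0.ne']
            exact fun hil => h ⟨l, hl, hil⟩
    _ = (‖T‖ * ‖x‖) ^ p.toReal := by rw [Real.mul_rpow (norm_nonneg _) (norm_nonneg _)]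


theorem qc_cut_mul {m n : ℕ} (h : m ≤ n) : MO p (cut m) * MO p (cut n) = MO p (cut m) := by
  refine ContinuousLinearMap.ext fun x => lp.ext (funext fun i => ?_)
  show (MO p (cut m) (MO p (cut n) x)) i = (MO p (cut m) x) i
  rw [qc_cut_apply, qc_cut_apply, qc_cut_apply]
  by_cases hi : i < m
  · rw [if_pos hi, if_pos (by omega), if_pos hi]
  · rw [if_neg hi, if_neg hi]

theorem qc_cut_mul' {m n : ℕ} (h : m ≤ n) : MO p (cut n) * MO p (cut m) = MO p (cut m) := by
  refine ContinuousLinearMap.ext fun x => lp.ext (funext fun i => ?_)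
  show (MO p (cut n) (MO p (cut m) x)) i = (MO p (cut m) x) i
  rw [qc_cut_apply, qc_cut_apply]
  by_cases hi : i < m
  · rw [if_pos (by omega)]
  · rw [if_neg hi]; simp

theorem qc_cut_sub {m n : ℕ} (h : m ≤ n) :
    MO p (cut n) - MO p (cut m) = MO p ((Set.Ico m n).indicator 1) := by
  refine ContinuousLinearMap.ext fun x => lp.ext (funext fun i => ?_)
  have hind : ∀ i : ℕ, |(Set.Ico m n).indicator (1 : ℕ → ℝ) i| ≤ 1 := by
    intro i
    by_cases h : i ∈ Set.Ico m n
    · rw [Set.indicator_of_mem h]; simp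
    · rw [Set.indicator_of_notMem h]; simp
  rw [qc_MO_apply hind]
  show (MO p (cut n) x) i - (MO p (cut m) x) i = _
  rw [qc_cut_apply, qc_cut_apply]
  by_cases h1 : i < m
  · rw [if_pos h1, if_pos (by omega), Set.indicator_of_notMem (by simp; omega)]; simp
  · by_cases h2 : i < n
    · rw [if_neg h1, if_pos h2, Set.indicator_of_mem (by simp; omega)]; simp
    · rw [if_neg h1, if_neg h2, Set.indicator_of_notMem (by simp; omega)]; simp

/-- One step of the choice of the cut-off points. -/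
theorem qc_step (hp1 : 1 < p) (hp : p ≠ ∞) (T : LL p →L[ℂ] LL p) {δ : ℝ} (hδ : 0 < δ) (m : ℕ) :
    ∃ m' : ℕ, m < m' ∧ ‖MO p (cut m) * T * (1 - MO p (cut m'))‖ ≤ δ ∧
      ‖(1 - MO p (cut m')) * T * MO p (cut m)‖ ≤ δ := by
  have h1 : IsCompactOperator (MO p (cut m) * T : LL p →L[ℂ] LL p) :=
    isCompactOperator_congr ((qc_cut_compact m).comp_clm T) fun x => rfl
  have h2 : IsCompactOperator (T * MO p (cut m) : LL p →L[ℂ] LL p) :=
    isCompactOperator_congr ((qc_cut_compact m).clm_comp T) fun x => rfl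
  have h3 := (compact_tail_right hp1 hp _ h1).eventually (Iio_mem_nhds hδ)
  have h4 := (compact_tail_left hp _ h2).eventually (Iio_mem_nhds hδ)
  obtain ⟨m', h5, h6, h7⟩ := (h3.and (h4.and (eventually_gt_atTop m))).exists
  refine ⟨m', h7, ?_, ?_⟩
  · exact le_of_lt h5
  · rw [mul_assoc]
    exact le_of_lt h6

theorem qc_norm_mul3 {A B C : LL p →L[ℂ] LL p} : ‖A * B * C‖ ≤ ‖A‖ * ‖B‖ * ‖C‖ :=
  (norm_mul_le _ _).trans (mul_le_mul_of_nonneg_right (norm_mul_le _ _) (norm_nonneg _))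

theorem quasicentral (hp1 : 1 < p) (hp : p ≠ ∞) (T : LL p →L[ℂ] LL p) (c : ℕ) (η : ℝ)
    (hη : 0 < η) :
    ∃ e : ℕ → ℝ, (∀ i, 0 ≤ e i ∧ e i ≤ 1) ∧ (∀ i, i < c → e i = 1) ∧
      (∃ c' : ℕ, ∀ i, c' ≤ i → e i = 0) ∧ ‖MO p e ∘L T - T ∘L MO p e‖ ≤ η := by
  have hδ : 0 < η / 8 := by positivity
  obtain ⟨L, hL⟩ := exists_nat_gt (4 * ‖T‖ / η)
  have hL0 : (0 : ℝ) < L := lt_of_le_of_lt (by positivity) hL
  have hLn : 0 < L := by exact_mod_cast hL0
  choose f hf using fun m => qc_step hp1 hp T hδ m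
  let n : ℕ → ℕ := fun k => f^[k] c
  have hn : ∀ k, n (k + 1) = f (n k) := fun k => Function.iterate_succ_apply' f k c
  have hlt : ∀ k, n k < n (k + 1) := fun k => by rw [hn]; exact (hf (n k)).1
  have hmono : StrictMono n := strictMono_nat_of_lt_succ hlt
  let P : ℕ → (LL p →L[ℂ] LL p) := fun k => MO p (cut (n k))
  have hP1 : ∀ k, ‖P k * T * (1 - P (k + 1))‖ ≤ η / 8 := fun k => by
    have h := (hf (n k)).2.1
    rw [← hn] at h
    exact h
  have hP2 : ∀ k, ‖(1 - P (k + 1)) * T * P k‖ ≤ η / 8 := fun k => by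
    have h := (hf (n k)).2.2
    rw [← hn] at h
    exact h
  have hPn : ∀ k, ‖P k‖ ≤ 1 := fun k => qc_norm_cut_le _
  have hPP : ∀ k, P k * P (k + 1) = P k := fun k => qc_cut_mul (hlt k).le
  have hPP' : ∀ k, P (k + 1) * P k = P k := fun k => qc_cut_mul' (hlt k).le
  let D : ℕ → (LL p →L[ℂ] LL p) := fun k => MO p ((Set.Ico (n k) (n (k + 1))).indicator 1)
  have hD : ∀ k, D k = P (k + 1) - P k := fun k => (qc_cut_sub (hlt k).le).symm
  let R : ℕ → (LL p →L[ℂ] LL p) := fun k =>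
    P (k + 1) * T * (1 - P (k + 2)) + (P k * T * (1 - P (k + 1))) * P (k + 2)
      - (1 - P (k + 2)) * T * P (k + 1) - P (k + 2) * ((1 - P (k + 1)) * T * P k)
  have hcomm : ∀ k, P (k + 1) * T - T * P (k + 1) = D k * T * D (k + 1) - D (k + 1) * T * D k
      + R k := by
    intro k
    have e1 : (P k * T * (1 - P (k + 1))) * P (k + 2) = P k * T * (P (k + 2) - P (k + 1)) := by
      rw [mul_assoc, sub_mul, one_mul, hPP]
    have e2 : P (k + 2) * ((1 - P (k + 1)) * T * P k) = (P (k + 2) - P (k + 1)) * T * P k := by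
      rw [← mul_assoc, ← mul_assoc, mul_sub, mul_one, hPP']
    show _ = _ + (P (k + 1) * T * (1 - P (k + 2)) + (P k * T * (1 - P (k + 1))) * P (k + 2)
      - (1 - P (k + 2)) * T * P (k + 1) - P (k + 2) * ((1 - P (k + 1)) * T * P k))
    rw [e1, e2, hD, hD]
    noncomm_ring
  have hR : ∀ k, ‖R k‖ ≤ η / 2 := by
    intro k
    have a1 := hP1 (k + 1)
    have a2 : ‖(P k * T * (1 - P (k + 1))) * P (k + 2)‖ ≤ η / 8 :=
      (norm_mul_le _ _).trans ((mul_le_mul (hP1 k) (hPn _) (norm_nonneg _) hδ.le).trans_eq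
        (mul_one _))
    have a3 := hP2 (k + 1)
    have a4 : ‖P (k + 2) * ((1 - P (k + 1)) * T * P k)‖ ≤ η / 8 :=
      (norm_mul_le _ _).trans ((mul_le_mul (hPn _) (hP2 k) (norm_nonneg _) zero_le_one).trans_eq
        (one_mul _))
    have b1 := norm_sub_le (P (k + 1) * T * (1 - P (k + 2)) + (P k * T * (1 - P (k + 1))) * P (k + 2)
      - (1 - P (k + 2)) * T * P (k + 1)) (P (k + 2) * ((1 - P (k + 1)) * T * P k))
    have b2 := norm_sub_le (P (k + 1) * T * (1 - P (k + 2)) +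
      (P k * T * (1 - P (k + 1))) * P (k + 2)) ((1 - P (k + 2)) * T * P (k + 1))
    have b3 := norm_add_le (P (k + 1) * T * (1 - P (k + 2)))
      ((P k * T * (1 - P (k + 1))) * P (k + 2))
    show ‖P (k + 1) * T * (1 - P (k + 2)) + (P k * T * (1 - P (k + 1))) * P (k + 2)
      - (1 - P (k + 2)) * T * P (k + 1) - P (k + 2) * ((1 - P (k + 1)) * T * P k)‖ ≤ η / 2
    linarith
  have hdisj : ∀ k l, k ≠ l → Disjoint (Set.Ico (n k) (n (k + 1))) (Set.Ico (n l) (n (l + 1))) := by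
    intro k l hkl
    rw [Set.disjoint_left]
    intro i hi hi'
    rcases lt_or_gt_of_ne hkl with h | h
    · have := hmono.monotone (show k + 1 ≤ l from h)
      have := hi.2; have := hi'.1; omega
    · have := hmono.monotone (show l + 1 ≤ k from h)
      have := hi'.2; have := hi.1; omega
  have hblock1 : ‖∑ k ∈ Finset.range L, D k * T * D (k + 1)‖ ≤ ‖T‖ :=
    qc_blocks hp T (Finset.range L) (fun k => Set.Ico (n k) (n (k + 1)))
      (fun k => Set.Ico (n (k + 1)) (n (k + 1 + 1)))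
      (fun k _ l _ h => hdisj k l h) (fun k _ l _ h => hdisj (k + 1) (l + 1) (by omega))
  have hblock2 : ‖∑ k ∈ Finset.range L, D (k + 1) * T * D k‖ ≤ ‖T‖ :=
    qc_blocks hp T (Finset.range L) (fun k => Set.Ico (n (k + 1)) (n (k + 1 + 1)))
      (fun k => Set.Ico (n k) (n (k + 1)))
      (fun k _ l _ h => hdisj (k + 1) (l + 1) (by omega)) (fun k _ l _ h => hdisj k l h)
  -- the cut-off
  let e : ℕ → ℝ := fun i => (∑ k ∈ Finset.range L, cut (n (k + 1)) i) / L
  have hcut0 : ∀ m i, 0 ≤ cut m i := fun m i => by unfold cut; split_ifs <;> simp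
  have hcut1 : ∀ m i, cut m i ≤ 1 := fun m i => by unfold cut; split_ifs <;> simp
  have he0 : ∀ i, 0 ≤ e i := fun i =>
    div_nonneg (Finset.sum_nonneg fun k _ => hcut0 _ _) hL0.le
  have he1 : ∀ i, e i ≤ 1 := fun i => by
    show _ / _ ≤ _
    rw [div_le_one hL0]
    calc ∑ k ∈ Finset.range L, cut (n (k + 1)) i ≤ ∑ k ∈ Finset.range L, (1 : ℝ) :=
          Finset.sum_le_sum fun k _ => hcut1 _ _
      _ = L := by simp
  have heMO : MO p e = ((L : ℂ)⁻¹) • ∑ k ∈ Finset.range L, P (k + 1) := by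
    refine ContinuousLinearMap.ext fun x => lp.ext (funext fun i => ?_)
    rw [qc_MO_apply (C := 1) (fun i => abs_le.2 ⟨by linarith [he0 i], he1 i⟩)]
    have e1 : ((((L : ℂ)⁻¹) • ∑ k ∈ Finset.range L, P (k + 1)) x) i
        = (L : ℂ)⁻¹ * ∑ k ∈ Finset.range L, (P (k + 1) x) i := by
      show (L : ℂ)⁻¹ * ((∑ k ∈ Finset.range L, P (k + 1)) x) i = _
      rw [_root_.sum_apply, lp.coeFn_sum, Finset.sum_apply]
    rw [e1]
    have e2 : ∀ k, (P (k + 1) x) i = ((cut (n (k + 1)) i : ℝ) : ℂ) * x i := fun k =>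
      qc_MO_apply (qc_cut_abs _) x i
    simp only [e2]
    rw [← Finset.sum_mul]
    show (((∑ k ∈ Finset.range L, cut (n (k + 1)) i) / L : ℝ) : ℂ) * x i = _
    push_cast
    ring
  refine ⟨e, fun i => ⟨he0 i, he1 i⟩, fun i hi => ?_, ⟨n L, fun i hi => ?_⟩, ?_⟩
  · show _ / _ = _
    rw [div_eq_one_iff_eq hL0.ne']
    rw [Finset.sum_congr rfl (g := fun _ => (1 : ℝ))]
    · simp
    · intro k _
      unfold cut
      have h1 : n 0 ≤ n (k + 1) := hmono.monotone (Nat.zero_le _)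
      have h2 : n 0 = c := rfl
      rw [if_pos (by omega)]
  · show _ / _ = _
    rw [Finset.sum_eq_zero, zero_div]
    intro k hk
    unfold cut
    have h1 : n (k + 1) ≤ n L := hmono.monotone (by simpa using hk)
    rw [if_neg (by omega)]
  · have e3 : MO p e ∘L T - T ∘L MO p e = ((L : ℂ)⁻¹) •
        ((∑ k ∈ Finset.range L, D k * T * D (k + 1)) - (∑ k ∈ Finset.range L, D (k + 1) * T * D k)
          + ∑ k ∈ Finset.range L, R k) := by
      show MO p e * T - T * MO p e = _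
      rw [heMO, smul_mul_assoc, mul_smul_comm, ← smul_sub, Finset.sum_mul, Finset.mul_sum,
        ← Finset.sum_sub_distrib, ← Finset.sum_sub_distrib, ← Finset.sum_add_distrib]
      congr 1
      exact Finset.sum_congr rfl fun k _ => hcomm k
    rw [e3]
    have hsumR : ‖∑ k ∈ Finset.range L, R k‖ ≤ L * (η / 2) := by
      refine (norm_sum_le _ _).trans ((Finset.sum_le_sum fun k _ => hR k).trans_eq ?_)
      simp
    have h5 : ‖(∑ k ∈ Finset.range L, D k * T * D (k + 1)) -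
        (∑ k ∈ Finset.range L, D (k + 1) * T * D k) + ∑ k ∈ Finset.range L, R k‖
        ≤ ‖T‖ + ‖T‖ + L * (η / 2) :=
      (norm_add_le _ _).trans (add_le_add ((norm_sub_le _ _).trans
        (add_le_add hblock1 hblock2)) hsumR)
    refine (ContinuousLinearMap.opNorm_smul_le _ _).trans ?_
    rw [norm_inv, Complex.norm_natCast]
    have h6 : 4 * ‖T‖ < L * η := by rwa [div_lt_iff₀ hη] at hL
    have h7 : ‖T‖ + ‖T‖ + L * (η / 2) ≤ L * η := by nlinarith [norm_nonneg T]
    calc (L : ℝ)⁻¹ * _ ≤ (L : ℝ)⁻¹ * (L * η) :=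
          mul_le_mul_of_nonneg_left (h5.trans h7) (by positivity)
      _ = η := by field_simp

end

end Pool.Agent.Helper623_LS
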