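import Pool.Agent.Helper623_LS.Defs3
import Pool.Agent.Helper623_LS.Tail2

/-! Task CUTS: the operators `P x = (φ_n x)_n` and `D z = ∑ D_n z_n` of a sequence of cut-offs. -/

set_option autoImplicit false
open scoped ENNReal NNReal Topology
open Filter
namespace Pool.Agent.Helper623_LS

noncomputable section

variable {p : ℝ≥0∞} [Fact (1 ≤ p)]

/-! ### Elementary facts on cut-offs -/

theorem cu_exists {e : ℕ → ℕ → ℝ} (h : Cuts e) : ∃ ν : ℕ → ℕ, ∀ i, (∀ n, n < ν i → e n i = 0) ∧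
    (∀ n, ν i ≤ n → e n i ≠ 0) ∧ (∀ n, ν i < n → e n i = 1) := by
  classical
  have hex : ∀ i, ∃ n, e n i ≠ 0 := fun i => ⟨i + 1, by rw [h.one _ _ (Nat.lt_succ_self i)]; exact one_ne_zero⟩
  refine ⟨fun i => Nat.find (hex i), fun i => ?_⟩
  have h2 : ∀ n, Nat.find (hex i) ≤ n → e n i ≠ 0 := by
    intro n hn
    induction n, hn using Nat.le_induction with
    | base => exact Nat.find_spec (hex i)
    | succ n _ ih => rw [h.succ n i ih]; exact one_ne_zero
  refine ⟨fun n hn => ?_, h2, fun n hn => ?_⟩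
  · by_contra h0
    exact Nat.find_min (hex i) hn h0
  · obtain ⟨m, rfl⟩ : ∃ m, n = m + 1 := ⟨n - 1, by omega⟩
    exact h.succ m i (h2 m (Nat.lt_succ_iff.1 hn))

theorem cu_abs {e : ℕ → ℕ → ℝ} (h : Cuts e) (n i : ℕ) : |e n i| ≤ 1 :=
  abs_le.2 ⟨by linarith [h.nonneg n i], h.le_one n i⟩

theorem cu_abs_sub {e : ℕ → ℕ → ℝ} (h : Cuts e) (n m i : ℕ) : |e n i - e m i| ≤ 1 :=
  abs_le.2 ⟨by linarith [h.nonneg n i, h.le_one m i], by linarith [h.nonneg m i, h.le_one n i]⟩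

theorem cu_abs_D {e : ℕ → ℕ → ℝ} (h : Cuts e) (n i : ℕ) : |eD e n i| ≤ 1 := by
  unfold eD
  split_ifs
  · exact cu_abs h _ _
  · exact cu_abs_sub h _ _ _

theorem cu_abs_Phi {e : ℕ → ℕ → ℝ} (h : Cuts e) (n i : ℕ) : |ePhi e n i| ≤ 1 := by
  unfold ePhi
  split_ifs
  · exact cu_abs h _ _
  · exact cu_abs_sub h _ _ _

theorem cu_abs_Chi {e : ℕ → ℕ → ℝ} (h : Cuts e) (n i : ℕ) : |eChi e n i| ≤ 1 := by
  unfold eChi
  split_ifs
  · simp
  · exact abs_le.2 ⟨by linarith [h.le_one (n - 3) i], by linarith [h.nonneg (n - 3) i]⟩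

/-- The data of the position `ν i` of the index `i`. -/
def CuNu (e : ℕ → ℕ → ℝ) (ν : ℕ → ℕ) : Prop := ∀ i, (∀ n, n < ν i → e n i = 0) ∧
    (∀ n, ν i ≤ n → e n i ≠ 0) ∧ (∀ n, ν i < n → e n i = 1)

theorem cu_D_ne {e : ℕ → ℕ → ℝ} {ν : ℕ → ℕ} (hν : CuNu e ν) {n i : ℕ} (hn : eD e n i ≠ 0) :
    n = ν i ∨ n = ν i + 1 := by
  by_contra hcon
  rw [not_or] at hcon
  apply hn
  obtain ⟨h1, -, h3⟩ := hν i
  unfold eD
  by_cases h0 : n = 0
  · rw [if_pos h0]
    subst h0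
    exact h1 0 (by omega)
  · rw [if_neg h0]
    rcases lt_or_gt_of_ne hcon.1 with h | h
    · rw [h1 n h, h1 (n - 1) (by omega), sub_zero]
    · rw [h3 n h, h3 (n - 1) (by omega), sub_self]

theorem cu_D_sum {e : ℕ → ℕ → ℝ} {ν : ℕ → ℕ} (hν : CuNu e ν) (i : ℕ) :
    eD e (ν i) i + eD e (ν i + 1) i = 1 := by
  obtain ⟨h1, -, h3⟩ := hν i
  unfold eD
  rw [if_neg (Nat.succ_ne_zero _), Nat.add_sub_cancel]
  by_cases h0 : ν i = 0
  · rw [if_pos h0, h0]
    rw [h0] at h3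
    rw [h3 (0 + 1) (by omega)]
    ring
  · rw [if_neg h0, h1 (ν i - 1) (by omega), h3 (ν i + 1) (by omega)]
    ring

theorem cu_Phi_ne {e : ℕ → ℕ → ℝ} {ν : ℕ → ℕ} (hν : CuNu e ν) {n i : ℕ} (hn : ePhi e n i ≠ 0) :
    n ∈ Finset.Icc (ν i - 1) (ν i + 2) := by
  by_contra hcon
  rw [Finset.mem_Icc] at hcon
  apply hn
  obtain ⟨h1, -, h3⟩ := hν i
  unfold ePhi
  by_cases h2 : n < 2
  · rw [if_pos h2]
    exact h1 _ (by omega)
  · rw [if_neg h2]
    rcases lt_or_ge (n + 1) (ν i) with h | h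
    · rw [h1 _ h, h1 (n - 2) (by omega), sub_zero]
    · rw [h3 (n + 1) (by omega), h3 (n - 2) (by omega), sub_self]

theorem cu_Phi_one {e : ℕ → ℕ → ℝ} {ν : ℕ → ℕ} (hν : CuNu e ν) {n i : ℕ}
    (hn : n = ν i ∨ n = ν i + 1) : ePhi e n i = 1 := by
  obtain ⟨h1, -, h3⟩ := hν i
  unfold ePhi
  by_cases h2 : n < 2
  · rw [if_pos h2]
    exact h3 _ (by omega)
  · rw [if_neg h2, h3 _ (by omega), h1 _ (by omega), sub_zero]

theorem cu_Chi_one {e : ℕ → ℕ → ℝ} {ν : ℕ → ℕ} (hν : CuNu e ν) {n i : ℕ}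
    (hn : n = ν i ∨ n = ν i + 1) : eChi e n i = 1 := by
  obtain ⟨h1, -, h3⟩ := hν i
  unfold eChi
  by_cases h2 : n < 3
  · rw [if_pos h2]
  · rw [if_neg h2, h1 _ (by omega), sub_zero]

/-- every `e n` vanishes from some point on -/
theorem cu_bound {e : ℕ → ℕ → ℝ} (h : Cuts e) (n : ℕ) : ∃ N, ∀ i, N ≤ i → e n i = 0 := by
  obtain ⟨N, hN⟩ := (h.fin n).bddAbove
  refine ⟨N + 1, fun i hi => ?_⟩
  by_contra h0
  have := hN h0
  omega

theorem cu_MO_comp {w w' : ℕ → ℝ} (hw : ∀ i, |w i| ≤ 1) (hw' : ∀ i, |w' i| ≤ 1)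
    (h : ∀ i, w i ≠ 0 → w' i = 1) : MO p w ∘L MO p w' = MO p w := by
  refine ContinuousLinearMap.ext fun x => lp.ext (funext fun i => ?_)
  show (MO p w (MO p w' x)) i = _
  rw [tl_MO_apply hw, tl_MO_apply hw', tl_MO_apply hw]
  by_cases h0 : w i = 0
  · rw [h0]; simp
  · rw [h i h0]; simp

theorem cu_MO_comp' {w w' : ℕ → ℝ} (hw : ∀ i, |w i| ≤ 1) (hw' : ∀ i, |w' i| ≤ 1)
    (h : ∀ i, w i ≠ 0 → w' i = 1) : MO p w' ∘L MO p w = MO p w := by
  refine ContinuousLinearMap.ext fun x => lp.ext (funext fun i => ?_)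
  show (MO p w' (MO p w x)) i = _
  rw [tl_MO_apply hw', tl_MO_apply hw]
  by_cases h0 : w i = 0
  · rw [h0]; simp
  · rw [h i h0]; simp

theorem cu_MO_compact {w : ℕ → ℝ} (hw : ∀ i, |w i| ≤ 1) {N : ℕ} (hN : ∀ i, N ≤ i → w i = 0) :
    IsCompactOperator (MO p w) := by
  have h1 : MO p w ∘L MO p (cut N) = MO p w := by
    refine cu_MO_comp hw (tl_cut_abs N) fun i hi => ?_
    unfold cut
    rw [if_pos]
    by_contra hcon
    exact hi (hN i (by omega))
  have h2 := (qc_cut_compact (p := p) N).clm_comp (MO p w)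
  rw [← h1]
  exact h2

/-! ### The existence of cut-offs -/

theorem exists_cuts (hp1 : 1 < p) (hp : p ≠ ∞) (T : LL p →L[ℂ] LL p) (a : ℕ → ℕ) (η : ℕ → ℝ)
    (hη : ∀ n, 0 < η n) : ∃ (e : ℕ → ℕ → ℝ) (ν : ℕ → ℕ), Cuts e ∧ (∀ n i, i < a n → e n i = 1) ∧
      (∀ n, ‖MO p (e n) ∘L T - T ∘L MO p (e n)‖ ≤ η n) ∧ (∀ n i, e n i ≠ 0 ↔ ν i ≤ n) ∧
      Tendsto ν atTop atTop := by
  choose E hE0 hE1 hE2 hE3 using fun (n c : ℕ) => quasicentral hp1 hp T c (η n) (hη n)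
  choose B hB using hE2
  let c : ℕ → ℕ := fun n => Nat.rec (a 0) (fun n cn => max (a (n + 1)) (max (n + 1) (B n cn))) n
  have hc0 : c 0 = a 0 := rfl
  have hcs : ∀ n, c (n + 1) = max (a (n + 1)) (max (n + 1) (B n (c n))) := fun n => rfl
  have hca : ∀ n, a n ≤ c n := by
    intro n
    cases n with
    | zero => exact hc0.ge
    | succ n => rw [hcs]; exact le_max_left _ _
  have hcn : ∀ n, n ≤ c n := by
    intro n
    cases n with
    | zero => exact Nat.zero_le _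
    | succ n => rw [hcs]; exact (le_max_left _ _).trans (le_max_right _ _)
  have hcB : ∀ n, B n (c n) ≤ c (n + 1) := fun n => by
    rw [hcs]; exact (le_max_right _ _).trans (le_max_right _ _)
  have hC : Cuts (fun n => E n (c n)) :=
    { nonneg := fun n i => (hE0 n (c n) i).1
      le_one := fun n i => (hE0 n (c n) i).2
      fin := fun n => (Set.finite_lt_nat (B n (c n))).subset fun i hi => by
        by_contra hcon
        exact hi (hB n (c n) i (not_lt.1 hcon))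
      succ := fun n i hi => by
        apply hE1
        refine lt_of_lt_of_le ?_ (hcB n)
        by_contra hcon
        exact hi (hB n (c n) i (not_lt.1 hcon))
      one := fun n i hi => hE1 _ _ _ (lt_of_lt_of_le hi (hcn n)) }
  obtain ⟨ν, hν⟩ := cu_exists hC
  have hνiff : ∀ n i, E n (c n) i ≠ 0 ↔ ν i ≤ n := by
    intro n i
    constructor
    · intro h1
      by_contra hcon
      exact h1 ((hν i).1 n (not_le.1 hcon))
    · exact (hν i).2.1 n
  refine ⟨fun n => E n (c n), ν, hC, fun n i hi => hE1 _ _ _ (lt_of_lt_of_le hi (hca n)),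
    fun n => hE3 n (c n), hνiff, ?_⟩
  rw [tendsto_atTop]
  intro N
  rw [← Nat.cofinite_eq_atTop, eventually_cofinite]
  refine (Set.Finite.biUnion (Set.finite_lt_nat N) fun n _ => hC.fin n).subset fun i hi => ?_
  have hi' : ν i < N := not_le.1 hi
  exact Set.mem_biUnion (x := ν i) hi' ((hνiff (ν i) i).2 le_rfl)

/-! ### The operator `P` -/

theorem cu_pos (hp : p ≠ ∞) : 0 < p.toReal :=
  ENNReal.toReal_pos (lt_of_lt_of_le one_pos (Fact.out : (1 : ℝ≥0∞) ≤ p)).ne' hp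

theorem cu_G1 (hp : p ≠ ∞) (w : ℕ → ℕ → ℝ) (hw : ∀ n i, |w n i| ≤ 1) (S : ℕ → Finset ℕ)
    (hS : ∀ i, (S i).card ≤ 4) (hwS : ∀ n i, w n i ≠ 0 → n ∈ S i) :
    ∃ P : LL p →L[ℂ] lp (fun _ : ℕ => LL p) p, ∀ x n, P x n = MO p (w n) x := by
  classical
  have hp0 := cu_pos hp
  have key : ∀ (x : LL p) (s : Finset ℕ), ∑ n ∈ s, ‖MO p (w n) x‖ ^ p.toReal ≤
      4 * ‖x‖ ^ p.toReal := by
    intro x s
    have h1 : HasSum (fun i => ∑ n ∈ s, ‖(MO p (w n) x) i‖ ^ p.toReal)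
        (∑ n ∈ s, ‖MO p (w n) x‖ ^ p.toReal) :=
      hasSum_sum fun n _ => lp.hasSum_norm hp0 _
    have h2 : HasSum (fun i => 4 * ‖x i‖ ^ p.toReal) (4 * ‖x‖ ^ p.toReal) :=
      (lp.hasSum_norm hp0 x).mul_left 4
    refine hasSum_le (fun i => ?_) h1 h2
    have h3 : ∀ n ∈ s, ‖(MO p (w n) x) i‖ ^ p.toReal ≤ if n ∈ S i then ‖x i‖ ^ p.toReal else 0 := by
      intro n _
      rw [tl_MO_apply (hw n)]
      split_ifs with hn
      · refine Real.rpow_le_rpow (norm_nonneg _) ?_ hp0.le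
        rw [norm_mul, Complex.norm_real, Real.norm_eq_abs]
        exact mul_le_of_le_one_left (norm_nonneg _) (hw n i)
      · have h0 : w n i = 0 := by
          by_contra h0
          exact hn (hwS n i h0)
        rw [h0]
        simp [Real.zero_rpow hp0.ne']
    refine (Finset.sum_le_sum h3).trans ?_
    rw [Finset.sum_ite_mem, Finset.sum_const, nsmul_eq_mul]
    have h4 : (((s ∩ S i).card : ℕ) : ℝ) ≤ 4 := by
      exact_mod_cast (Finset.card_le_card Finset.inter_subset_right).trans (hS i)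
    exact mul_le_mul_of_nonneg_right h4 (by positivity)
  let L : LL p →ₗ[ℂ] lp (fun _ : ℕ => LL p) p :=
    { toFun := fun x => ⟨fun n => MO p (w n) x, memℓp_gen' (key x)⟩
      map_add' := fun x y => lp.ext (funext fun n => map_add (MO p (w n)) x y)
      map_smul' := fun c x => lp.ext (funext fun n => map_smul (MO p (w n)) c x) }
  refine ⟨L.mkContinuous ((4 : ℝ) ^ (1 / p.toReal)) fun x => ?_, fun x n => rfl⟩
  refine lp.norm_le_of_forall_sum_le hp0 (by positivity) fun s => ?_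
  refine (key x s).trans_eq ?_
  rw [Real.mul_rpow (by positivity) (norm_nonneg _), ← Real.rpow_mul (by norm_num),
    one_div_mul_cancel hp0.ne', Real.rpow_one]

theorem cuts_P (hp : p ≠ ∞) {e : ℕ → ℕ → ℝ} (h : Cuts e) :
    ∃ P : LL p →L[ℂ] lp (fun _ : ℕ => LL p) p, ∀ x n, P x n = MO p (ePhi e n) x := by
  obtain ⟨ν, hν⟩ := cu_exists h
  refine cu_G1 hp (ePhi e) (cu_abs_Phi h) (fun i => Finset.Icc (ν i - 1) (ν i + 2)) (fun i => ?_)
    (fun n i hn => cu_Phi_ne hν hn)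
  rw [Nat.card_Icc]
  omega

/-! ### The operator `D` -/

theorem cu_G2 (hp : p ≠ ∞) (k : ℕ → ℕ) (w : ℕ → ℝ) (hw : ∀ i, |w i| ≤ 1) :
    ∃ A : lp (fun _ : ℕ => LL p) p →L[ℂ] LL p, ∀ z i, A z i = (w i : ℂ) * (z (k i)) i := by
  classical
  have hp0 := cu_pos hp
  have key : ∀ (z : lp (fun _ : ℕ => LL p) p) (t : Finset ℕ),
      ∑ i ∈ t, ‖(w i : ℂ) * (z (k i)) i‖ ^ p.toReal ≤ ‖z‖ ^ p.toReal := by
    intro z t
    calc ∑ i ∈ t, ‖(w i : ℂ) * (z (k i)) i‖ ^ p.toReal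
        ≤ ∑ i ∈ t, ‖(z (k i)) i‖ ^ p.toReal := by
          refine Finset.sum_le_sum fun i _ => Real.rpow_le_rpow (norm_nonneg _) ?_ hp0.le
          rw [norm_mul, Complex.norm_real, Real.norm_eq_abs]
          exact mul_le_of_le_one_left (norm_nonneg _) (hw i)
      _ ≤ ∑ i ∈ t, ∑ n ∈ t.image k, ‖(z n) i‖ ^ p.toReal := by
          refine Finset.sum_le_sum fun i hi => ?_
          exact Finset.single_le_sum (f := fun n => ‖(z n) i‖ ^ p.toReal)
            (fun n _ => by positivity) (Finset.mem_image_of_mem k hi)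
      _ = ∑ n ∈ t.image k, ∑ i ∈ t, ‖(z n) i‖ ^ p.toReal := Finset.sum_comm
      _ ≤ ∑ n ∈ t.image k, ‖z n‖ ^ p.toReal :=
          Finset.sum_le_sum fun n _ => lp.sum_rpow_le_norm_rpow hp0 (z n) t
      _ ≤ ‖z‖ ^ p.toReal := lp.sum_rpow_le_norm_rpow hp0 z _
  let L : lp (fun _ : ℕ => LL p) p →ₗ[ℂ] LL p :=
    { toFun := fun z => ⟨fun i => (w i : ℂ) * (z (k i)) i, memℓp_gen' (key z)⟩
      map_add' := fun x y => lp.ext (funext fun i => mul_add (w i : ℂ) ((x (k i)) i) ((y (k i)) i))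
      map_smul' := fun c x => lp.ext (funext fun i =>
        mul_left_comm (w i : ℂ) c ((x (k i)) i)) }
  refine ⟨L.mkContinuous 1 fun z => ?_, fun z i => rfl⟩
  rw [one_mul]
  exact lp.norm_le_of_forall_sum_le hp0 (norm_nonneg _) (key z)

theorem cu_tsum {e : ℕ → ℕ → ℝ} {ν : ℕ → ℕ} (hν : CuNu e ν) (i : ℕ) (f : ℕ → ℂ) :
    ∑' n, (eD e n i : ℂ) * f n = (eD e (ν i) i : ℂ) * f (ν i) +
      (eD e (ν i + 1) i : ℂ) * f (ν i + 1) := by
  rw [tsum_eq_sum (s := {ν i, ν i + 1}), Finset.sum_pair (by omega)]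
  intro n hn
  have h0 : eD e n i = 0 := by
    by_contra h0
    apply hn
    rcases cu_D_ne hν h0 with h | h <;> simp [h]
  rw [h0]
  simp

theorem cuts_D (hp : p ≠ ∞) {e : ℕ → ℕ → ℝ} (h : Cuts e) :
    ∃ D : lp (fun _ : ℕ => LL p) p →L[ℂ] LL p,
      ∀ z i, D z i = ∑' n, (eD e n i : ℂ) * (z n) i := by
  obtain ⟨ν, hν⟩ := cu_exists h
  obtain ⟨A, hA⟩ := cu_G2 hp (fun i => ν i) (fun i => eD e (ν i) i) fun i => cu_abs_D h _ _
  obtain ⟨B, hB⟩ := cu_G2 hp (fun i => ν i + 1) (fun i => eD e (ν i + 1) i) fun i => cu_abs_D h _ _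
  refine ⟨A + B, fun z i => ?_⟩
  rw [cu_tsum hν]
  show (A z) i + (B z) i = _
  rw [hA, hB]

theorem cuts_DP (hp : p ≠ ∞) {e : ℕ → ℕ → ℝ} (h : Cuts e)
    (P : LL p →L[ℂ] lp (fun _ : ℕ => LL p) p) (hP : ∀ x n, P x n = MO p (ePhi e n) x)
    (D : lp (fun _ : ℕ => LL p) p →L[ℂ] LL p) (hD : ∀ z i, D z i = ∑' n, (eD e n i : ℂ) * (z n) i) :
    D ∘L dsum p (fun n => MO p (eChi e n) ∘L MO p (eChi e n)) ∘L P =
      ContinuousLinearMap.id ℂ (LL p) := by
  obtain ⟨ν, hν⟩ := cu_exists h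
  have hbd : Bd (fun n => MO p (eChi e n) ∘L MO p (eChi e n)) := by
    refine ⟨1, fun n => (ContinuousLinearMap.opNorm_comp_le _ _).trans ?_⟩
    exact mul_le_one₀ (tl_norm_MO (cu_abs_Chi h n)) (norm_nonneg _) (tl_norm_MO (cu_abs_Chi h n))
  refine ContinuousLinearMap.ext fun x => lp.ext (funext fun i => ?_)
  show (D (dsum p (fun n => MO p (eChi e n) ∘L MO p (eChi e n)) (P x))) i = x i
  rw [hD, cu_tsum hν]
  have hval : ∀ n, n = ν i ∨ n = ν i + 1 →
      ((dsum p (fun n => MO p (eChi e n) ∘L MO p (eChi e n)) (P x)) n) i = x i := by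
    intro n hn
    rw [dsum_apply hbd, hP]
    show (MO p (eChi e n) (MO p (eChi e n) (MO p (ePhi e n) x))) i = x i
    rw [tl_MO_apply (cu_abs_Chi h n), tl_MO_apply (cu_abs_Chi h n), tl_MO_apply (cu_abs_Phi h n),
      cu_Chi_one hν hn, cu_Phi_one hν hn]
    simp
  rw [hval _ (Or.inl rfl), hval _ (Or.inr rfl), ← add_mul]
  have h1 := cu_D_sum hν i
  have h2 : ((eD e (ν i) i : ℂ)) + (eD e (ν i + 1) i : ℂ) = 1 := by exact_mod_cast h1
  rw [h2, one_mul]

/-! ### Compactness -/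

theorem cu_Bd_of_tendsto {X Y : ℕ → Type} [∀ n, NormedAddCommGroup (X n)] [∀ n, NormedSpace ℂ (X n)]
    [∀ n, NormedAddCommGroup (Y n)] [∀ n, NormedSpace ℂ (Y n)] {A : ∀ n, X n →L[ℂ] Y n}
    (hA : Tendsto (fun n => ‖A n‖) atTop (𝓝 0)) : Bd A := by
  obtain ⟨C, hC⟩ := hA.bddAbove_range
  exact ⟨C, fun n => hC ⟨n, rfl⟩⟩

theorem cuts_compact_P (hp : p ≠ ∞) {e : ℕ → ℕ → ℝ} (h : Cuts e)
    (P : LL p →L[ℂ] lp (fun _ : ℕ => LL p) p) (hP : ∀ x n, P x n = MO p (ePhi e n) x)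
    (Z : ℕ → Type) [∀ n, NormedAddCommGroup (Z n)] [∀ n, NormedSpace ℂ (Z n)]
    [∀ n, CompleteSpace (Z n)] (A : ∀ n, LL p →L[ℂ] Z n)
    (hA : Tendsto (fun n => ‖A n‖) atTop (𝓝 0)) : IsCompactOperator (dsum p A ∘L P) := by
  have hbd := cu_Bd_of_tendsto hA
  have hle : ∀ n, ‖A n ∘L MO p (e (n + 2))‖ ≤ ‖A n‖ := fun n =>
    (ContinuousLinearMap.opNorm_comp_le _ _).trans
      (mul_le_of_le_one_right (norm_nonneg _) (tl_norm_MO (cu_abs h _)))
  have hA' : Tendsto (fun n => ‖A n ∘L MO p (e (n + 2))‖) atTop (𝓝 0) :=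
    squeeze_zero (fun n => norm_nonneg _) hle hA
  have hbd' := cu_Bd_of_tendsto hA'
  have h1 : IsCompactOperator (dsum p (fun n => A n ∘L MO p (e (n + 2)))) := by
    refine dsum_compact (fun n => ?_) (by rw [Nat.cofinite_eq_atTop]; exact hA')
    obtain ⟨N, hN⟩ := cu_bound h (n + 2)
    exact (cu_MO_compact (cu_abs h _) hN).clm_comp (A n)
  have h2 : dsum p A ∘L P = dsum p (fun n => A n ∘L MO p (e (n + 2))) ∘L P := by
    refine ContinuousLinearMap.ext fun x => lp.ext (funext fun n => ?_)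
    show (dsum p A (P x)) n = (dsum p (fun n => A n ∘L MO p (e (n + 2))) (P x)) n
    rw [dsum_apply hbd, dsum_apply hbd', hP]
    show A n _ = A n (MO p (e (n + 2)) (MO p (ePhi e n) x))
    congr 1
    have h3 := cu_MO_comp' (p := p) (cu_abs_Phi h n) (cu_abs h (n + 2)) fun i hi => by
      apply h.succ
      intro h0
      apply hi
      obtain ⟨ν, hν⟩ := cu_exists h
      have h4 : n + 1 < ν i := by
        by_contra hcon
        exact (hν i).2.1 (n + 1) (by omega) h0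
      unfold ePhi
      split_ifs
      · exact h0
      · rw [h0, (hν i).1 (n - 2) (by omega), sub_zero]
    exact (DFunLike.congr_fun h3 x).symm
  rw [h2]
  exact h1.comp_clm P

theorem cuts_compact_D (hp : p ≠ ∞) {e : ℕ → ℕ → ℝ} (h : Cuts e)
    (D : lp (fun _ : ℕ => LL p) p →L[ℂ] LL p) (hD : ∀ z i, D z i = ∑' n, (eD e n i : ℂ) * (z n) i)
    (Z : ℕ → Type) [∀ n, NormedAddCommGroup (Z n)] [∀ n, NormedSpace ℂ (Z n)]
    (A : ∀ n, Z n →L[ℂ] LL p)
    (hA : Tendsto (fun n => ‖A n‖) atTop (𝓝 0)) : IsCompactOperator (D ∘L dsum p A) := by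
  have hbd := cu_Bd_of_tendsto hA
  have hle : ∀ n, ‖MO p (e (n + 1)) ∘L A n‖ ≤ ‖A n‖ := fun n =>
    (ContinuousLinearMap.opNorm_comp_le _ _).trans
      (mul_le_of_le_one_left (norm_nonneg _) (tl_norm_MO (cu_abs h _)))
  have hA' : Tendsto (fun n => ‖MO p (e (n + 1)) ∘L A n‖) atTop (𝓝 0) :=
    squeeze_zero (fun n => norm_nonneg _) hle hA
  have hbd' := cu_Bd_of_tendsto hA'
  have h1 : IsCompactOperator (dsum p (fun n => MO p (e (n + 1)) ∘L A n)) := by
    refine dsum_compact (fun n => ?_) (by rw [Nat.cofinite_eq_atTop]; exact hA')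
    obtain ⟨N, hN⟩ := cu_bound h (n + 1)
    exact (cu_MO_compact (cu_abs h _) hN).comp_clm (A n)
  have h2 : D ∘L dsum p A = D ∘L dsum p (fun n => MO p (e (n + 1)) ∘L A n) := by
    refine ContinuousLinearMap.ext fun z => lp.ext (funext fun i => ?_)
    show (D (dsum p A z)) i = (D (dsum p (fun n => MO p (e (n + 1)) ∘L A n) z)) i
    rw [hD, hD]
    congr 1
    funext n
    rw [dsum_apply hbd, dsum_apply hbd']
    show _ = _ * (MO p (e (n + 1)) (A n (z n))) i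
    rw [tl_MO_apply (cu_abs h _)]
    by_cases h0 : eD e n i = 0
    · rw [h0]; simp
    · obtain ⟨ν, hν⟩ := cu_exists h
      have h4 : e (n + 1) i = 1 := by
        rcases cu_D_ne hν h0 with h5 | h5
        · exact (hν i).2.2 _ (by omega)
        · exact (hν i).2.2 _ (by omega)
      rw [h4]
      simp
  rw [h2]
  exact h1.clm_comp D

theorem cu_compact_tsum {X Y : Type} [NormedAddCommGroup X] [NormedSpace ℂ X]
    [NormedAddCommGroup Y] [NormedSpace ℂ Y] [CompleteSpace Y] (B : ℕ → X →L[ℂ] Y)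
    (hc : ∀ n, IsCompactOperator (B n)) (hs : Summable (fun n => ‖B n‖)) :
    ∃ S : X →L[ℂ] Y, HasSum B S ∧ IsCompactOperator S := by
  have h1 := hs.of_norm.hasSum
  refine ⟨_, h1, isCompactOperator_of_tendsto h1.tendsto_sum_nat (Eventually.of_forall fun n => ?_)⟩
  refine KEq.compact ?_
  have := KEq.sum (Finset.range n) (A := B) (B := fun _ => 0) fun i _ => KEq.of_compact (hc i)
  simpa using this

/-- compactness of `x ↦ (C_n x)_n` for a summable sequence of compact operators -/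
theorem cu_EP {X E : Type} [NormedAddCommGroup X] [NormedSpace ℂ X] [NormedAddCommGroup E]
    [NormedSpace ℂ E] [CompleteSpace E] (C : ℕ → X →L[ℂ] E) (hc : ∀ n, IsCompactOperator (C n))
    (hs : Summable (fun n => ‖C n‖)) :
    ∃ S : X →L[ℂ] lp (fun _ : ℕ => E) p, IsCompactOperator S ∧ ∀ x n, (S x) n = C n x := by
  have hp00 : p ≠ 0 := (lt_of_lt_of_le one_pos (Fact.out : (1 : ℝ≥0∞) ≤ p)).ne'
  have hBn : ∀ n, ‖(lp.singleContinuousLinearMap ℂ (fun _ : ℕ => E) p n) ∘L (C n)‖ ≤ ‖C n‖ := by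
    intro n
    refine ContinuousLinearMap.opNorm_le_bound _ (norm_nonneg _) fun x => ?_
    have h1 : ‖(lp.single (E := fun _ : ℕ => E) p n (C n x))‖ = ‖C n x‖ :=
      lp.norm_single (E := fun _ : ℕ => E) (pos_iff_ne_zero.2 hp00) n (C n x)
    have h2 : ((lp.singleContinuousLinearMap ℂ (fun _ : ℕ => E) p n) ∘L (C n)) x =
      lp.single (E := fun _ : ℕ => E) p n (C n x) := rfl
    exact (congrArg norm h2).trans_le (h1.trans_le ((C n).le_opNorm x))
  have hBs := Summable.of_nonneg_of_le (fun n => norm_nonneg _) hBn hs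
  obtain ⟨S, hS, hSc⟩ := cu_compact_tsum
    (fun n => (lp.singleContinuousLinearMap ℂ (fun _ : ℕ => E) p n) ∘L (C n))
    (fun n => (hc n).clm_comp (lp.singleContinuousLinearMap ℂ (fun _ : ℕ => E) p n)) hBs
  refine ⟨S, hSc, fun x n => ?_⟩
  have h1 := (hS.mapL (ContinuousLinearMap.apply ℂ (lp (fun _ : ℕ => E) p) x)).mapL
        (lp.evalCLM ℂ (fun _ : ℕ => E) p n)
  have h2 : HasSum (fun m => (lp.single p m (C m x) : lp (fun _ : ℕ => E) p) n) ((S x) n) := h1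
  have h3 : HasSum (fun m => (lp.single p m (C m x) : lp (fun _ : ℕ => E) p) n)
      ((lp.single p n (C n x) : lp (fun _ : ℕ => E) p) n) :=
    hasSum_single n fun m hm => lp.single_apply_ne p m _ hm.symm
  rw [h2.unique h3, lp.single_apply_self]

/-- compactness of `z ↦ ∑ C_n z_n` for a summable sequence of compact operators -/
theorem cu_ED {X E : Type} [NormedAddCommGroup X] [NormedSpace ℂ X] [NormedAddCommGroup E]
    [NormedSpace ℂ E] [CompleteSpace E] (C : ℕ → X →L[ℂ] E) (hc : ∀ n, IsCompactOperator (C n))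
    (hs : Summable (fun n => ‖C n‖)) :
    ∃ S : lp (fun _ : ℕ => X) p →L[ℂ] E, IsCompactOperator S ∧
      ∀ m y, S (lp.single p m y) = C m y := by
  have hp00 : p ≠ 0 := (lt_of_lt_of_le one_pos (Fact.out : (1 : ℝ≥0∞) ≤ p)).ne'
  have hBn : ∀ n, ‖(C n) ∘L (lp.evalCLM ℂ (fun _ : ℕ => X) p n)‖ ≤ ‖C n‖ := by
    intro n
    refine ContinuousLinearMap.opNorm_le_bound _ (norm_nonneg _) fun x => ?_
    have h2 : ((C n) ∘L (lp.evalCLM ℂ (fun _ : ℕ => X) p n)) x = C n (x n) := rfl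
    rw [h2]
    refine ((C n).le_opNorm (x n)).trans ?_
    exact mul_le_mul_of_nonneg_left (lp.norm_apply_le_norm hp00 x n) (norm_nonneg _)
  have hBs := Summable.of_nonneg_of_le (fun n => norm_nonneg _) hBn hs
  obtain ⟨S, hS, hSc⟩ := cu_compact_tsum
    (fun n => (C n) ∘L (lp.evalCLM ℂ (fun _ : ℕ => X) p n))
    (fun n => (hc n).comp_clm (lp.evalCLM ℂ (fun _ : ℕ => X) p n)) hBs
  refine ⟨S, hSc, fun m y => ?_⟩
  have h1 := hS.mapL (ContinuousLinearMap.apply ℂ E (lp.single p m y : lp (fun _ : ℕ => X) p))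
  have h2 : HasSum (fun n => C n ((lp.single p m y : lp (fun _ : ℕ => X) p) n))
    (S (lp.single p m y)) := h1
  have h3 : HasSum (fun n => C n ((lp.single p m y : lp (fun _ : ℕ => X) p) n))
      (C m ((lp.single p m y : lp (fun _ : ℕ => X) p) m)) := by
    refine hasSum_single m fun n hn => ?_
    rw [lp.single_apply_ne p m _ hn, map_zero]
  rw [h2.unique h3, lp.single_apply_self]

theorem cu_shift (c : ℕ → ℝ) (k : ℕ) (hc : Summable c) : Summable (fun n => c (n - k)) := by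
  rw [← summable_nat_add_iff k]
  simpa using hc

/-- commutators -/
def cuC (T : LL p →L[ℂ] LL p) (w : ℕ → ℝ) : LL p →L[ℂ] LL p := MO p w ∘L T - T ∘L MO p w

theorem cu_MO_sub {w w' : ℕ → ℝ} (hw : ∀ i, |w i| ≤ 1) (hw' : ∀ i, |w' i| ≤ 1)
    (h : ∀ i, |w i - w' i| ≤ 1) : MO p (fun i => w i - w' i) = MO p w - MO p w' := by
  refine ContinuousLinearMap.ext fun x => lp.ext (funext fun i => ?_)
  show _ = (MO p w x) i - (MO p w' x) i
  rw [tl_MO_apply h, tl_MO_apply hw, tl_MO_apply hw']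
  push_cast
  ring

theorem cu_C_sub (T : LL p →L[ℂ] LL p) {w w' : ℕ → ℝ} (hw : ∀ i, |w i| ≤ 1)
    (hw' : ∀ i, |w' i| ≤ 1) (h : ∀ i, |w i - w' i| ≤ 1) :
    ‖cuC T (fun i => w i - w' i)‖ ≤ ‖cuC T w‖ + ‖cuC T w'‖ := by
  have e1 : cuC T (fun i => w i - w' i) = cuC T w - cuC T w' := by
    unfold cuC
    rw [cu_MO_sub hw hw' h]
    ext x
    simp
    ring
  rw [e1]
  exact norm_sub_le _ _

theorem cu_C_compact (T : LL p →L[ℂ] LL p) {w : ℕ → ℝ} (hw : ∀ i, |w i| ≤ 1) {N : ℕ}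
    (hN : ∀ i, N ≤ i → w i = 0) : IsCompactOperator (cuC T w) := by
  have h1 := cu_MO_compact (p := p) hw hN
  exact isCompactOperator_congr ((h1.comp_clm T).sub (h1.clm_comp T)) fun x => rfl

theorem cuts_comm_P (hp : p ≠ ∞) {e : ℕ → ℕ → ℝ} (h : Cuts e)
    (P : LL p →L[ℂ] lp (fun _ : ℕ => LL p) p) (hP : ∀ x n, P x n = MO p (ePhi e n) x)
    (T : LL p →L[ℂ] LL p)
    (hT : Summable (fun n => ‖MO p (e n) ∘L T - T ∘L MO p (e n)‖)) :
    IsCompactOperator (P ∘L T - dsum p (fun _ => T) ∘L P) := by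
  have hp00 : p ≠ 0 := (lt_of_lt_of_le one_pos (Fact.out : (1 : ℝ≥0∞) ≤ p)).ne'
  have hT' : Summable (fun n => ‖cuC T (e n)‖) := hT
  have hle : ∀ n, ‖cuC T (ePhi e n)‖ ≤ ‖cuC T (e (n + 1))‖ + ‖cuC T (e (n - 2))‖ := by
    intro n
    by_cases h2 : n < 2
    · have e1 : ePhi e n = e (n + 1) := by funext i; unfold ePhi; rw [if_pos h2]
      rw [e1]
      linarith [norm_nonneg (cuC T (e (n - 2)))]
    · have e1 : ePhi e n = fun i => e (n + 1) i - e (n - 2) i := by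
        funext i; unfold ePhi; rw [if_neg h2]
      rw [e1]
      exact cu_C_sub T (cu_abs h _) (cu_abs h _) fun i => cu_abs_sub h _ _ _
  have hcomp : ∀ n, IsCompactOperator (cuC T (ePhi e n)) := by
    intro n
    obtain ⟨N1, hN1⟩ := cu_bound h (n + 1)
    obtain ⟨N2, hN2⟩ := cu_bound h (n - 2)
    refine cu_C_compact T (cu_abs_Phi h n) (N := max N1 N2) fun i hi => ?_
    unfold ePhi
    rw [hN1 i ((le_max_left _ _).trans hi), hN2 i ((le_max_right _ _).trans hi)]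
    simp
  have hsum : Summable (fun n => ‖cuC T (ePhi e n)‖) := by
    refine Summable.of_nonneg_of_le (fun n => norm_nonneg _) hle ?_
    have s1 : Summable (fun n => ‖cuC T (e (n + 1))‖) :=
      (summable_nat_add_iff (f := fun n => ‖cuC T (e n)‖) 1).2 hT'
    have s2 : Summable (fun n => ‖cuC T (e (n - 2))‖) :=
      cu_shift (fun n => ‖cuC T (e n)‖) 2 hT'
    exact s1.add s2
  obtain ⟨S, hSc, hS⟩ := cu_EP (p := p) (fun n => cuC T (ePhi e n)) hcomp hsum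
  have hbd : Bd (fun _ : ℕ => T) := ⟨‖T‖, fun _ => le_rfl⟩
  have hEq : P ∘L T - dsum p (fun _ => T) ∘L P = S := by
    refine ContinuousLinearMap.ext fun x => lp.ext (funext fun n => ?_)
    rw [hS]
    have h1 : ((P ∘L T - dsum p (fun _ => T) ∘L P) x) n =
      (P (T x)) n - (dsum p (fun _ => T) (P x)) n := rfl
    rw [h1, dsum_apply hbd, hP, hP]
    rfl
  rw [hEq]
  exact hSc

theorem cuts_comm_D (hp : p ≠ ∞) {e : ℕ → ℕ → ℝ} (h : Cuts e)
    (D : lp (fun _ : ℕ => LL p) p →L[ℂ] LL p) (hD : ∀ z i, D z i = ∑' n, (eD e n i : ℂ) * (z n) i)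
    (T : LL p →L[ℂ] LL p)
    (hT : Summable (fun n => ‖MO p (e n) ∘L T - T ∘L MO p (e n)‖)) :
    IsCompactOperator (D ∘L dsum p (fun _ => T) - T ∘L D) := by
  have hp00 : p ≠ 0 := (lt_of_lt_of_le one_pos (Fact.out : (1 : ℝ≥0∞) ≤ p)).ne'
  have hT' : Summable (fun n => ‖cuC T (e n)‖) := hT
  have hle : ∀ n, ‖cuC T (eD e n)‖ ≤ ‖cuC T (e n)‖ + ‖cuC T (e (n - 1))‖ := by
    intro n
    by_cases h2 : n = 0
    · have e1 : eD e n = e n := by funext i; unfold eD; rw [if_pos h2, h2]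
      rw [e1]
      linarith [norm_nonneg (cuC T (e (n - 1)))]
    · have e1 : eD e n = fun i => e n i - e (n - 1) i := by
        funext i; unfold eD; rw [if_neg h2]
      rw [e1]
      exact cu_C_sub T (cu_abs h _) (cu_abs h _) fun i => cu_abs_sub h _ _ _
  have hcomp : ∀ n, IsCompactOperator (cuC T (eD e n)) := by
    intro n
    obtain ⟨N1, hN1⟩ := cu_bound h n
    obtain ⟨N2, hN2⟩ := cu_bound h (n - 1)
    refine cu_C_compact T (cu_abs_D h n) (N := max N1 N2) fun i hi => ?_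
    unfold eD
    split_ifs with h0
    · subst h0
      exact hN1 i ((le_max_left _ _).trans hi)
    · rw [hN1 i ((le_max_left _ _).trans hi), hN2 i ((le_max_right _ _).trans hi)]
      simp
  have hsum : Summable (fun n => ‖cuC T (eD e n)‖) := by
    refine Summable.of_nonneg_of_le (fun n => norm_nonneg _) hle ?_
    have s2 : Summable (fun n => ‖cuC T (e (n - 1))‖) :=
      cu_shift (fun n => ‖cuC T (e n)‖) 1 hT'
    exact hT'.add s2
  obtain ⟨S, hSc, hS⟩ := cu_ED (p := p) (fun n => cuC T (eD e n)) hcomp hsum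
  have hbd : Bd (fun _ : ℕ => T) := ⟨‖T‖, fun _ => le_rfl⟩
  have hDs : ∀ (m : ℕ) (y : LL p), D (lp.single p m y) = MO p (eD e m) y := by
    intro m y
    refine lp.ext (funext fun i => ?_)
    rw [hD, tl_MO_apply (cu_abs_D h m), tsum_eq_single m]
    · rw [lp.single_apply_self]
    · intro n hn
      rw [lp.single_apply_ne p m _ hn]
      simp
  have h4 : ∀ (m : ℕ) (y : LL p), dsum p (fun _ => T) (lp.single p m y : lp (fun _ : ℕ => LL p) p) =
      lp.single p m (T y) := by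
    intro m y
    refine lp.ext (funext fun n => ?_)
    rw [dsum_apply hbd]
    by_cases hn : n = m
    · subst hn
      rw [lp.single_apply_self, lp.single_apply_self]
    · rw [lp.single_apply_ne p m _ hn, lp.single_apply_ne p m _ hn, map_zero]
  have hEq : D ∘L dsum p (fun _ => T) - T ∘L D = S := by
    apply lp.ext_continuousLinearMap hp
    intro m
    refine ContinuousLinearMap.ext fun y => ?_
    have h1 : ((D ∘L dsum p (fun _ => T) - T ∘L D) ∘L
      (lp.singleContinuousLinearMap ℂ (fun _ : ℕ => LL p) p m)) y =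
      D (dsum p (fun _ => T) (lp.single p m y)) - T (D (lp.single p m y)) := rfl
    have h2 : (S ∘L (lp.singleContinuousLinearMap ℂ (fun _ : ℕ => LL p) p m)) y =
      S (lp.single p m y) := rfl
    rw [h1, h2, hS, h4, hDs, hDs]
    rfl
  rw [hEq]
  exact hSc

end

end Pool.Agent.Helper623_LS
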