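import Mathlib

/-! Basic definitions for the stable similarity theorem on `ℓ^p`. -/

set_option autoImplicit false

open scoped ENNReal NNReal Topology
open Filter

namespace Pool.Agent.Helper623_LS

noncomputable section

/-! ### Relations modulo compact operators -/

section rel

variable {X Y Z W : Type} [NormedAddCommGroup X] [NormedSpace ℂ X]
  [NormedAddCommGroup Y] [NormedSpace ℂ Y] [NormedAddCommGroup Z] [NormedSpace ℂ Z]
  [NormedAddCommGroup W] [NormedSpace ℂ W]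

/-- Equality modulo compact operators. -/
def KEq (A B : X →L[ℂ] Y) : Prop := IsCompactOperator (A - B : X →L[ℂ] Y)

/-- Similarity modulo compact operators. -/
def Sim (A : X →L[ℂ] X) (B : Y →L[ℂ] Y) : Prop :=
  ∃ G : X ≃L[ℂ] Y, KEq ((G : X →L[ℂ] Y) ∘L A) (B ∘L (G : X →L[ℂ] Y))

/-- The Laurent polynomial `f`, evaluated at the pair `(A, B)` (`B` plays the role of `A⁻¹`). -/
def lau (f : ℤ →₀ ℂ) (A B : X →L[ℂ] X) : X →L[ℂ] X :=
  f.sum (fun (n : ℤ) (a : ℂ) => a • (if 0 ≤ n then A ^ n.toNat else B ^ (-n).toNat))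

/-- The Laurent polynomial `f` is bounded by `M` on the unit circle. -/
def CB (f : ℤ →₀ ℂ) (M : ℝ) : Prop :=
  ∀ v : ℂ, ‖v‖ = 1 → ‖f.sum (fun (n : ℤ) (a : ℂ) => a * v ^ n)‖ ≤ M

/-- `A` is invertible with inverse `B` and has a `C(𝕋)` functional calculus with constant `C`. -/
structure UL (C : ℝ) (A B : X →L[ℂ] X) : Prop where
  mul : A * B = 1
  mul' : B * A = 1
  bound : ∀ (f : ℤ →₀ ℂ) (M : ℝ), CB f M → ‖lau f A B‖ ≤ C * M

/-- `A` is invertible modulo compacts with inverse `B`, and it has a `C(𝕋)` functional calculus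
modulo compacts with constant `C`. -/
structure Ess (C : ℝ) (A B : X →L[ℂ] X) : Prop where
  mul : KEq (A * B) 1
  mul' : KEq (B * A) 1
  bound : ∀ (f : ℤ →₀ ℂ) (M : ℝ), CB f M → ∀ ε : ℝ, 0 < ε →
    ∃ K : X →L[ℂ] X, IsCompactOperator K ∧ ‖lau f A B + K‖ ≤ C * M + ε

end rel

/-! ### Block diagonal operators between `ℓ^p` sums -/

section dsum

variable {p : ℝ≥0∞} [Fact (1 ≤ p)] {J : Type} {X Y : J → Type}
  [∀ j, NormedAddCommGroup (X j)] [∀ j, NormedSpace ℂ (X j)]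
  [∀ j, NormedAddCommGroup (Y j)] [∀ j, NormedSpace ℂ (Y j)]

/-- The family of operators is uniformly bounded. -/
def Bd (a : ∀ j, X j →L[ℂ] Y j) : Prop := ∃ C : ℝ, ∀ j, ‖a j‖ ≤ C

theorem Bd.exists_nonneg {a : ∀ j, X j →L[ℂ] Y j} (h : Bd a) : ∃ C : ℝ, 0 ≤ C ∧ ∀ j, ‖a j‖ ≤ C := by
  obtain ⟨C, hC⟩ := h
  exact ⟨max C 0, le_max_right _ _, fun j => (hC j).trans (le_max_left _ _)⟩

omit [Fact (1 ≤ p)] in
theorem memℓp_map {a : ∀ j, X j →L[ℂ] Y j} {C : ℝ} (hC : ∀ j, ‖a j‖ ≤ C) (x : lp X p) :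
    Memℓp (fun j => a j (x j)) p := by
  refine Memℓp.mono (f := fun j => a j (x j)) (g := fun j => (|C| * ‖x j‖ : ℝ)) ?_ ?_
  · have h1 : Memℓp (fun j => ‖x j‖) p := memℓp_norm_iff.2 (lp.memℓp x)
    exact h1.const_smul |C|
  · intro j
    refine ((a j).le_opNorm _).trans ?_
    exact mul_le_mul_of_nonneg_right ((hC j).trans (le_abs_self C)) (norm_nonneg _)

/-- Block diagonal operator (zero if the family is not uniformly bounded). -/
def dsumL (a : ∀ j, X j →L[ℂ] Y j) (h : Bd a) : lp X p →ₗ[ℂ] lp Y p where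
  toFun x := ⟨fun j => a j (x j), memℓp_map h.choose_spec x⟩
  map_add' x y := by
    ext j
    exact map_add (a j) _ _
  map_smul' c x := by
    ext j
    exact map_smul (a j) _ _

theorem norm_dsumL_le {a : ∀ j, X j →L[ℂ] Y j} (h : Bd a) {C : ℝ} (h0 : 0 ≤ C)
    (hC : ∀ j, ‖a j‖ ≤ C) (x : lp X p) : ‖dsumL a h x‖ ≤ C * ‖x‖ := by
  have hx : ∀ j, ‖(dsumL a h x) j‖ ≤ C * ‖x j‖ := fun j =>
    ((a j).le_opNorm _).trans (mul_le_mul_of_nonneg_right (hC j) (norm_nonneg _))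
  have hp0 : p ≠ 0 := (lt_of_lt_of_le one_pos (Fact.out : (1 : ℝ≥0∞) ≤ p)).ne'
  rcases eq_or_ne p ∞ with rfl | hp
  · rcases isEmpty_or_nonempty J with hJ | hJ
    · rw [lp.eq_zero' (dsumL a h x), norm_zero]; positivity
    · refine lp.norm_le_of_forall_le (by positivity) fun j => (hx j).trans ?_
      exact mul_le_mul_of_nonneg_left (lp.norm_apply_le_norm hp0 x j) h0
  · have hp' : 0 < p.toReal := ENNReal.toReal_pos hp0 hp
    refine lp.norm_le_of_forall_sum_le hp' (by positivity) fun s => ?_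
    calc ∑ i ∈ s, ‖(dsumL a h x) i‖ ^ p.toReal ≤ ∑ i ∈ s, (C * ‖x i‖) ^ p.toReal :=
          Finset.sum_le_sum fun i _ => Real.rpow_le_rpow (norm_nonneg _) (hx i) hp'.le
      _ = C ^ p.toReal * ∑ i ∈ s, ‖x i‖ ^ p.toReal := by
          rw [Finset.mul_sum]
          exact Finset.sum_congr rfl fun i _ => Real.mul_rpow h0 (norm_nonneg _)
      _ ≤ C ^ p.toReal * ‖x‖ ^ p.toReal := by
          gcongr
          exact lp.sum_rpow_le_norm_rpow hp' x s
      _ = (C * ‖x‖) ^ p.toReal := by rw [Real.mul_rpow h0 (norm_nonneg _)]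

open Classical in
/-- Block diagonal operator (zero if the family is not uniformly bounded). -/
def dsum (p : ℝ≥0∞) [Fact (1 ≤ p)] (a : ∀ j, X j →L[ℂ] Y j) : lp X p →L[ℂ] lp Y p :=
  if h : Bd a then (dsumL (p := p) a h).mkContinuous h.exists_nonneg.choose
    (norm_dsumL_le h h.exists_nonneg.choose_spec.1 h.exists_nonneg.choose_spec.2) else 0

theorem dsum_apply {a : ∀ j, X j →L[ℂ] Y j} (h : Bd a) (x : lp X p) (j : J) :
    dsum p a x j = a j (x j) := by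
  unfold dsum
  rw [dif_pos h]
  rfl

theorem norm_dsum_le {a : ∀ j, X j →L[ℂ] Y j} {C : ℝ} (h0 : 0 ≤ C)
    (hC : ∀ j, ‖a j‖ ≤ C) : ‖dsum p a‖ ≤ C := by
  have h : Bd a := ⟨C, hC⟩
  unfold dsum
  rw [dif_pos h]
  exact ContinuousLinearMap.opNorm_le_bound _ h0 (norm_dsumL_le h h0 hC)

end dsum

/-- The space `ℓ^p` over the natural numbers. -/
abbrev LL (p : ℝ≥0∞) : Type := lp (fun _ : ℕ => ℂ) p

/-- `A` becomes unitary-like up to compacts and similarity after adding a unitary-like operator. -/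
def Triv (p : ℝ≥0∞) [Fact (1 ≤ p)] {X : Type} [NormedAddCommGroup X] [NormedSpace ℂ X]
    (A : X →L[ℂ] X) : Prop :=
  ∃ (C : ℝ) (U U' V V' : LL p →L[ℂ] LL p), UL C U U' ∧ UL C V V' ∧ Sim (A.prodMap U) V

/-! ### Fibred `ℓ^p` spaces, multiplication operators, ampliations -/

section fib

variable (p : ℝ≥0∞) [Fact (1 ≤ p)] {J : Type} {H H' : J → Type}
  [∀ j, NormedAddCommGroup (H j)] [∀ j, InnerProductSpace ℂ (H j)]

/-- Multiplication by a function `e : J → ℝ` (meaningful when `e` is bounded). -/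
def mulOp (H : J → Type) [∀ j, NormedAddCommGroup (H j)] [∀ j, NormedSpace ℂ (H j)]
    (e : J → ℝ) : lp H p →L[ℂ] lp H p :=
  dsum p (fun j => ((e j : ℂ) • ContinuousLinearMap.id ℂ (H j)))

/-- The fibres `ℓ₂^N(H j)`. -/
abbrev AH (N : ℕ) (H : J → Type) [∀ j, NormedAddCommGroup (H j)] : J → Type :=
  fun j => PiLp 2 (fun _ : Fin N => H j)

/-- Coordinate maps `ℓ_p(J; ℓ₂^N(H)) → ℓ_p(J; H)`. -/
def comp (N : ℕ) (k : Fin N) : lp (AH N H) p →L[ℂ] lp H p :=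
  dsum p (fun j => PiLp.proj (𝕜 := ℂ) 2 (fun _ : Fin N => H j) k)

/-- The inclusion of the `k`-th coordinate `H → ℓ₂^N(H)`. -/
def sgl (N : ℕ) (H : Type) [NormedAddCommGroup H] [NormedSpace ℂ H] (k : Fin N) :
    H →L[ℂ] PiLp 2 (fun _ : Fin N => H) :=
  ((PiLp.continuousLinearEquiv 2 ℂ (fun _ : Fin N => H)).symm :
      (Fin N → H) →L[ℂ] PiLp 2 (fun _ : Fin N => H)) ∘L
    (ContinuousLinearMap.single ℂ (fun _ : Fin N => H) k)

/-- Coordinate inclusions `ℓ_p(J; H) → ℓ_p(J; ℓ₂^N(H))`. -/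
def inc (N : ℕ) (k : Fin N) : lp H p →L[ℂ] lp (AH N H) p :=
  dsum p (fun j => sgl N (H j) k)

end fib

section amp

variable (p : ℝ≥0∞) [Fact (1 ≤ p)] {J J' : Type} {H : J → Type} {H' : J' → Type}
  [∀ j, NormedAddCommGroup (H j)] [∀ j, InnerProductSpace ℂ (H j)]
  [∀ j, NormedAddCommGroup (H' j)] [∀ j, InnerProductSpace ℂ (H' j)]

/-- The ampliation `A ⊗ 1` on `ℓ₂^N`-valued functions. -/
def amp (N : ℕ) (A : lp H p →L[ℂ] lp H' p) : lp (AH N H) p →L[ℂ] lp (AH N H') p :=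
  ∑ k : Fin N, inc p N k ∘L A ∘L comp p N k

end amp

/-- The action of a scalar matrix on `ℓ₂^N(H)`. -/
def mat {N : ℕ} (H : Type) [NormedAddCommGroup H] [NormedSpace ℂ H]
    (a : Matrix (Fin N) (Fin N) ℂ) : PiLp 2 (fun _ : Fin N => H) →L[ℂ] PiLp 2 (fun _ : Fin N => H) :=
  ∑ k : Fin N, ∑ l : Fin N, a k l • (sgl N H k ∘L PiLp.proj (𝕜 := ℂ) 2 (fun _ : Fin N => H) l)

/-- Matrix valued multiplication operators. -/
def gop (p : ℝ≥0∞) [Fact (1 ≤ p)] {J : Type} (H : J → Type) [∀ j, NormedAddCommGroup (H j)]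
    [∀ j, InnerProductSpace ℂ (H j)] {N : ℕ}
    (g : J → Matrix (Fin N) (Fin N) ℂ) : lp (AH N H) p →L[ℂ] lp (AH N H) p :=
  dsum p (fun j => mat (H j) (g j))

/-- signs -/
def sg (b : Bool) : ℂ := if b then 1 else -1

/-- Average over all choices of signs. -/
def avg {N : ℕ} (F : (Fin N → Bool) → ℝ) : ℝ := (∑ ε, F ε) / 2 ^ N

/-- indicator of `[0, c)` -/
def cut (c : ℕ) : ℕ → ℝ := fun i => if i < c then 1 else 0

/-- multiplication operators on `ℓ^p` -/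
abbrev MO (p : ℝ≥0∞) [Fact (1 ≤ p)] (e : ℕ → ℝ) : LL p →L[ℂ] LL p := mulOp p (fun _ : ℕ => ℂ) e

/-- `a ⊕ 1` (one more row and column, at the end). -/
def ext1 {N : ℕ} (a : Matrix (Fin N) (Fin N) ℂ) : Matrix (Fin (N + 1)) (Fin (N + 1)) ℂ :=
  fun i j => Fin.lastCases (Fin.lastCases (1 : ℂ) (fun _ => 0) j)
    (fun i' => Fin.lastCases (0 : ℂ) (fun j' => a i' j') j) i

/-- `A` is a product of operators `1 + N` with `N² = 0`. -/
def Unip {X : Type} [NormedAddCommGroup X] [NormedSpace ℂ X] (A : X →L[ℂ] X) : Prop :=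
  ∃ Ns : List (X →L[ℂ] X), (∀ N ∈ Ns, N * N = 0) ∧ A = (Ns.map (fun N => 1 + N)).prod

/-- Banded operators between fibred spaces: the value of `V x` at `j'` depends only on the values of `x`
at the `j` with `|b j - b' j'| ≤ 2`. -/
def Banded {p : ℝ≥0∞} [Fact (1 ≤ p)] {J J' : Type} {H : J → Type} {H' : J' → Type}
    [∀ j, NormedAddCommGroup (H j)] [∀ j, InnerProductSpace ℂ (H j)]
    [∀ j, NormedAddCommGroup (H' j)] [∀ j, InnerProductSpace ℂ (H' j)]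
    (b : J → ℕ) (b' : J' → ℕ) (V : lp H p →L[ℂ] lp H' p) : Prop :=
  ∀ (x : lp H p) (j' : J'), (∀ j, x j ≠ 0 → b j + 2 < b' j' ∨ b' j' + 2 < b j) → V x j' = 0

/-- `Z` is `c`-complemented in `ℓ^p`. -/
def Good (p : ℝ≥0∞) [Fact (1 ≤ p)] (c : ℝ) (Z : Type) [NormedAddCommGroup Z] [NormedSpace ℂ Z] :
    Prop :=
  ∃ (i : Z →L[ℂ] LL p) (q : LL p →L[ℂ] Z), q ∘L i = ContinuousLinearMap.id ℂ Z ∧ ‖i‖ ≤ c ∧ ‖q‖ ≤ c

end

end Pool.Agent.Helper623_LS
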