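import Pool.Agent.Helper623_LS.Dsum

/-! More definitions: the dilation space, the operators `theta A`. -/

set_option autoImplicit false

open scoped ENNReal NNReal Topology
open Filter

namespace Pool.Agent.Helper623_LS

noncomputable section

/-- The fibres of the dilation space. -/
abbrev YH (M : ℕ → ℕ) : ℕ × ℕ → Type := fun j => PiLp 2 (fun _ : Fin (M j.1) => ℂ)

/-- The diagonal unitary on the dilation space. -/
def uY (p : ℝ≥0∞) [Fact (1 ≤ p)] (M : ℕ → ℕ) (w : ∀ n, Fin (M n) → ℂ) :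
    lp (YH M) p →L[ℂ] lp (YH M) p :=
  dsum p (fun j => mat ℂ (Matrix.diagonal (w j.1)))

section

variable (p : ℝ≥0∞) [Fact (1 ≤ p)] {J : Type} (H : J → Type)
  [∀ j, NormedAddCommGroup (H j)] [∀ j, InnerProductSpace ℂ (H j)]

/-- The projection onto the zeroth coordinate of `ℓ₂^{m+1}(H)`. -/
def q0 (m : ℕ) : lp (AH (m + 1) H) p →L[ℂ] lp (AH (m + 1) H) p :=
  inc p (m + 1) 0 ∘L comp p (m + 1) 0

variable {H}

/-- `A` acting in the zeroth coordinate, the identity in the other coordinates. -/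
def theta (m : ℕ) (A : lp H p →L[ℂ] lp H p) : lp (AH (m + 1) H) p →L[ℂ] lp (AH (m + 1) H) p :=
  inc p (m + 1) 0 ∘L A ∘L comp p (m + 1) 0 + (1 - q0 p H m)

end

end

end Pool.Agent.Helper623_LS
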