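import Pool.Agent.Helper623_LS.Defs2

/-! Sequences of cut-offs. -/

set_option autoImplicit false

open scoped ENNReal NNReal Topology
open Filter

namespace Pool.Agent.Helper623_LS

/-- An increasing sequence of finitely supported cut-offs. -/
structure Cuts (e : ℕ → ℕ → ℝ) : Prop where
  nonneg : ∀ n i, 0 ≤ e n i
  le_one : ∀ n i, e n i ≤ 1
  fin : ∀ n, {i | e n i ≠ 0}.Finite
  succ : ∀ n i, e n i ≠ 0 → e (n + 1) i = 1
  one : ∀ n i, i < n → e n i = 1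

/-- `D_n = E_n - E_{n-1}` -/
def eD (e : ℕ → ℕ → ℝ) (n i : ℕ) : ℝ := if n = 0 then e 0 i else e n i - e (n - 1) i

/-- `φ_n = E_{n+1} - E_{n-2}` -/
def ePhi (e : ℕ → ℕ → ℝ) (n i : ℕ) : ℝ := if n < 2 then e (n + 1) i else e (n + 1) i - e (n - 2) i

/-- `χ_n = 1 - E_{n-3}` -/
def eChi (e : ℕ → ℕ → ℝ) (n i : ℕ) : ℝ := if n < 3 then 1 else 1 - e (n - 3) i

end Pool.Agent.Helper623_LS
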