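import Pool.Agent.Helper623_LS.Rel

set_option autoImplicit false
open scoped ENNReal NNReal Topology
open Filter
namespace Pool.Agent.Helper623_LS

noncomputable section

/-- multiplication by the variable -/
def zmul (f : ℤ →₀ ℂ) : ℤ →₀ ℂ := Finsupp.mapDomain (fun n => n + 1) f

section
variable {X : Type} [NormedAddCommGroup X] [NormedSpace ℂ X]

/-- integer powers of the pair -/
def zpr (T S : X →L[ℂ] X) (n : ℤ) : X →L[ℂ] X :=
  if 0 ≤ n then T ^ n.toNat else S ^ (-n).toNat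

theorem lau_eq (f : ℤ →₀ ℂ) (T S : X →L[ℂ] X) :
    lau f T S = Finsupp.linearCombination ℂ (zpr T S) f := rfl

theorem lau_add (f g : ℤ →₀ ℂ) (T S : X →L[ℂ] X) : lau (f + g) T S = lau f T S + lau g T S := by
  simp only [lau_eq, map_add]

theorem lau_sub (f g : ℤ →₀ ℂ) (T S : X →L[ℂ] X) : lau (f - g) T S = lau f T S - lau g T S := by
  simp only [lau_eq, map_sub]

theorem lau_smul (c : ℂ) (f : ℤ →₀ ℂ) (T S : X →L[ℂ] X) : lau (c • f) T S = c • lau f T S := by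
  simp only [lau_eq, map_smul]

theorem lau_sum {ι : Type} (s : Finset ι) (f : ι → ℤ →₀ ℂ) (T S : X →L[ℂ] X) :
    lau (∑ i ∈ s, f i) T S = ∑ i ∈ s, lau (f i) T S := by
  simp only [lau_eq, map_sum]

/-- the unit given by an inverse pair -/
def unitOf (T S : X →L[ℂ] X) (hTS : T * S = 1) (hST : S * T = 1) : (X →L[ℂ] X)ˣ :=
  ⟨T, S, hTS, hST⟩

theorem zpr_eq (T S : X →L[ℂ] X) (hTS : T * S = 1) (hST : S * T = 1) (n : ℤ) :
    zpr T S n = ((unitOf T S hTS hST ^ n : (X →L[ℂ] X)ˣ) : X →L[ℂ] X) := by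
  unfold zpr
  split_ifs with h
  · obtain ⟨m, rfl⟩ := Int.eq_ofNat_of_zero_le h
    simp [unitOf]
  · obtain ⟨m, hm⟩ := Int.eq_ofNat_of_zero_le (show 0 ≤ -n by omega)
    have hn : n = -(m : ℤ) := by omega
    subst hn
    rw [zpow_neg, zpow_natCast, ← inv_pow, Units.val_pow_eq_pow_val]
    simp [unitOf]

theorem zpr_succ (T S : X →L[ℂ] X) (hTS : T * S = 1) (hST : S * T = 1) (n : ℤ) :
    zpr T S (n + 1) = T * zpr T S n := by
  rw [zpr_eq T S hTS hST, zpr_eq T S hTS hST, add_comm n 1, zpow_add, Units.val_mul, zpow_one]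
  rfl

theorem zpr_succ' (T S : X →L[ℂ] X) (hTS : T * S = 1) (hST : S * T = 1) (n : ℤ) :
    zpr T S (n + 1) = zpr T S n * T := by
  rw [zpr_eq T S hTS hST, zpr_eq T S hTS hST, zpow_add, Units.val_mul, zpow_one]
  rfl

theorem zpr_zero (T S : X →L[ℂ] X) : zpr T S 0 = 1 := by
  simp [zpr]

theorem zpr_add (T S : X →L[ℂ] X) (hTS : T * S = 1) (hST : S * T = 1) (m n : ℤ) :
    zpr T S (m + n) = zpr T S m * zpr T S n := by
  rw [zpr_eq T S hTS hST, zpr_eq T S hTS hST, zpr_eq T S hTS hST, zpow_add, Units.val_mul]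

theorem lau_single (n : ℤ) (a : ℂ) (T S : X →L[ℂ] X) :
    lau (Finsupp.single n a) T S = a • zpr T S n := by
  rw [lau_eq, Finsupp.linearCombination_single]

theorem lau_zmul (f : ℤ →₀ ℂ) (T S : X →L[ℂ] X) (hTS : T * S = 1) (hST : S * T = 1) :
    lau (zmul f) T S = T * lau f T S := by
  rw [lau_eq, lau_eq, zmul, Finsupp.linearCombination_mapDomain,
    Finsupp.linearCombination_apply, Finsupp.linearCombination_apply, Finsupp.sum, Finsupp.sum,
    Finset.mul_sum]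
  refine Finset.sum_congr rfl fun n _ => ?_
  rw [Function.comp_apply, zpr_succ T S hTS hST, mul_smul_comm]

theorem lau_comm (f : ℤ →₀ ℂ) (T S : X →L[ℂ] X) (hTS : T * S = 1) (hST : S * T = 1) :
    T * lau f T S = lau f T S * T := by
  rw [lau_eq, Finsupp.linearCombination_apply, Finsupp.sum, Finset.mul_sum, Finset.sum_mul]
  refine Finset.sum_congr rfl fun n _ => ?_
  rw [mul_smul_comm, smul_mul_assoc, ← zpr_succ T S hTS hST, ← zpr_succ' T S hTS hST]

end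

/-! ### evaluation on the circle -/

/-- evaluation -/
def evl (v : ℂ) : (ℤ →₀ ℂ) →ₗ[ℂ] ℂ := Finsupp.linearCombination ℂ (fun n : ℤ => v ^ n)

theorem evl_eq (v : ℂ) (f : ℤ →₀ ℂ) : f.sum (fun (n : ℤ) (a : ℂ) => a * v ^ n) = evl v f := rfl

theorem evl_single (v : ℂ) (n : ℤ) (a : ℂ) : evl v (Finsupp.single n a) = a * v ^ n := by
  rw [evl, Finsupp.linearCombination_single, smul_eq_mul]

theorem evl_zmul (v : ℂ) (hv : v ≠ 0) (f : ℤ →₀ ℂ) : evl v (zmul f) = v * evl v f := by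
  rw [evl, zmul, Finsupp.linearCombination_mapDomain,
    Finsupp.linearCombination_apply, Finsupp.linearCombination_apply, Finsupp.sum, Finsupp.sum,
    Finset.mul_sum]
  refine Finset.sum_congr rfl fun n _ => ?_
  simp only [Function.comp_apply, smul_eq_mul]
  rw [zpow_add₀ hv, zpow_one]
  ring

/-! ### roots of unity -/

/-- the primitive root -/
def zt (M : ℕ) : ℂ := Complex.exp (2 * Real.pi * Complex.I / M)

theorem zt_prim (M : ℕ) (hM : M ≠ 0) : IsPrimitiveRoot (zt M) M :=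
  Complex.isPrimitiveRoot_exp M hM

theorem sum_zt (M : ℕ) (hM : M ≠ 0) (m : ℤ) (h1 : m < M) (h2 : -(M : ℤ) < m) :
    ∑ k : Fin M, (zt M ^ (k : ℕ)) ^ m = if m = 0 then (M : ℂ) else 0 := by
  have hp := zt_prim M hM
  split_ifs with h
  · subst h
    simp
  · have hne : zt M ^ m ≠ 1 := by
      intro hc
      rw [hp.zpow_eq_one_iff_dvd] at hc
      rcases hc with ⟨q, hq⟩
      have hM' : (0 : ℤ) < M := by positivity
      have hq1 : q < 1 := by
        by_contra hcon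
        push Not at hcon
        nlinarith
      have hq2 : -1 < q := by
        by_contra hcon
        push Not at hcon
        nlinarith
      have hq0 : q = 0 := by omega
      subst hq0
      exact h (by simpa using hq)
    have h3 : ∀ k : Fin M, (zt M ^ (k : ℕ)) ^ m = (zt M ^ m) ^ (k : ℕ) := by
      intro k
      rw [← zpow_natCast, ← zpow_mul, mul_comm, zpow_mul, zpow_natCast]
    simp only [h3]
    rw [Fin.sum_univ_eq_sum_range (fun k => (zt M ^ m) ^ k) M, geom_sum_eq hne]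
    have h4 : (zt M ^ m) ^ M = 1 := by
      rw [← zpow_natCast, ← zpow_mul, mul_comm, zpow_mul, zpow_natCast, hp.pow_eq_one, one_zpow]
    rw [h4, sub_self, zero_div]

theorem norm_zt (M : ℕ) (hM : M ≠ 0) : ‖zt M‖ = 1 :=
  (zt_prim M hM).norm'_eq_one hM

/-! ### the Fejer kernels -/

/-- the Fejer kernels -/
def fk (N : ℕ) (w : ℂ) : ℤ →₀ ℂ :=
  ∑ a ∈ Finset.range N, ∑ b ∈ Finset.range N,
    Finsupp.single ((a : ℤ) - b) (((2 * N * N : ℝ) : ℂ)⁻¹ * w ^ ((b : ℤ) - a))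

theorem evl_fk (N : ℕ) (w v : ℂ) (hw : ‖w‖ = 1) (hv : ‖v‖ = 1) :
    evl v (fk N w) = (((2 * N * N : ℝ)⁻¹ * ‖∑ a ∈ Finset.range N, (v * w⁻¹) ^ a‖ ^ 2 : ℝ) : ℂ) := by
  have hw0 : w ≠ 0 := by
    intro h; rw [h, norm_zero] at hw; exact zero_ne_one hw
  have hv0 : v ≠ 0 := by
    intro h; rw [h, norm_zero] at hv; exact zero_ne_one hv
  have hcv : (starRingEnd ℂ) v = v⁻¹ := (Complex.inv_eq_conj hv).symm
  have hcw : (starRingEnd ℂ) w = w⁻¹ := (Complex.inv_eq_conj hw).symm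
  have h1 : ((‖∑ a ∈ Finset.range N, (v * w⁻¹) ^ a‖ ^ 2 : ℝ) : ℂ)
      = (∑ a ∈ Finset.range N, (v * w⁻¹) ^ a) * (∑ b ∈ Finset.range N, (v⁻¹ * w) ^ b) := by
    have := Complex.mul_conj' (∑ a ∈ Finset.range N, (v * w⁻¹) ^ a)
    rw [Complex.ofReal_pow, ← this]
    congr 1
    rw [map_sum]
    refine Finset.sum_congr rfl fun b _ => ?_
    rw [map_pow, map_mul, map_inv₀, hcv, hcw, inv_inv]
  rw [Complex.ofReal_mul, h1, fk]
  simp only [map_sum, evl_single]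
  rw [Finset.sum_mul_sum, Finset.mul_sum]
  refine Finset.sum_congr rfl fun a _ => ?_
  rw [Finset.mul_sum]
  refine Finset.sum_congr rfl fun b _ => ?_
  rw [zpow_sub₀ hw0, zpow_sub₀ hv0, mul_pow, mul_pow, inv_pow, inv_pow, Complex.ofReal_inv]
  simp only [zpow_natCast]
  field_simp

/-- the real value of the kernel -/
def gk (N : ℕ) (w v : ℂ) : ℝ := (2 * N * N : ℝ)⁻¹ * ‖∑ a ∈ Finset.range N, (v * w⁻¹) ^ a‖ ^ 2

theorem gk_nonneg (N : ℕ) (w v : ℂ) : 0 ≤ gk N w v := by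
  unfold gk; positivity

theorem sum_gk (N : ℕ) (hN : N ≠ 0) (v : ℂ) (hv : ‖v‖ = 1) :
    ∑ k : Fin (2 * N), gk N (zt (2 * N) ^ (k : ℕ)) v = 1 := by
  have hM : 2 * N ≠ 0 := by omega
  have hnw : ∀ k : Fin (2 * N), ‖zt (2 * N) ^ (k : ℕ)‖ = 1 := fun k => by
    rw [norm_pow, norm_zt _ hM, one_pow]
  have h1 : ((∑ k : Fin (2 * N), gk N (zt (2 * N) ^ (k : ℕ)) v : ℝ) : ℂ) = 1 := by
    rw [Complex.ofReal_sum]
    have h2 : ∀ k : Fin (2 * N), ((gk N (zt (2 * N) ^ (k : ℕ)) v : ℝ) : ℂ)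
        = evl v (fk N (zt (2 * N) ^ (k : ℕ))) := fun k => (evl_fk N _ v (hnw k) hv).symm
    simp only [h2, fk, map_sum, evl_single]
    rw [Finset.sum_comm]
    have h3 : ∀ a ∈ Finset.range N, (∑ k : Fin (2 * N), ∑ b ∈ Finset.range N,
        (((2 * N * N : ℝ) : ℂ)⁻¹ * (zt (2 * N) ^ (k : ℕ)) ^ ((b : ℤ) - a) * v ^ ((a : ℤ) - b)))
        = (N : ℂ)⁻¹ := by
      intro a ha
      rw [Finset.sum_comm]
      have h4 : ∀ b ∈ Finset.range N, (∑ k : Fin (2 * N),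
        (((2 * N * N : ℝ) : ℂ)⁻¹ * (zt (2 * N) ^ (k : ℕ)) ^ ((b : ℤ) - a) * v ^ ((a : ℤ) - b)))
          = if a = b then (N : ℂ)⁻¹ else 0 := by
        intro b hb
        rw [← Finset.sum_mul, ← Finset.mul_sum]
        rw [Finset.mem_range] at ha hb
        rw [sum_zt (2 * N) hM _ (by push_cast; omega) (by push_cast; omega)]
        split_ifs with h5 h6 h6
        · subst h6
          have hN' : (N : ℂ) ≠ 0 := by exact_mod_cast hN
          push_cast
          simp only [sub_self, zpow_zero, mul_one]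
          field_simp
        · omega
        · omega
        · simp
      rw [Finset.sum_congr rfl h4, Finset.sum_ite_eq, if_pos ha]
    rw [Finset.sum_congr rfl h3, Finset.sum_const, Finset.card_range, nsmul_eq_mul]
    have hN' : (N : ℂ) ≠ 0 := by exact_mod_cast hN
    field_simp
  exact_mod_cast h1

theorem gk_mul (N : ℕ) (w v : ℂ) (hw : ‖w‖ = 1) (hv : ‖v‖ = 1) :
    ‖v - w‖ ^ 2 * gk N w v ≤ 4 * (2 * N * N : ℝ)⁻¹ := by
  have hw0 : w ≠ 0 := by
    intro h; rw [h, norm_zero] at hw; exact zero_ne_one hw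
  have h1 : ‖v - w‖ = ‖v * w⁻¹ - 1‖ := by
    have : v - w = (v * w⁻¹ - 1) * w := by field_simp
    rw [this, norm_mul, hw, mul_one]
  have hu : ‖v * w⁻¹‖ = 1 := by rw [norm_mul, norm_inv, hw, hv]; norm_num
  have h2 : ‖v * w⁻¹ - 1‖ * ‖∑ a ∈ Finset.range N, (v * w⁻¹) ^ a‖ ≤ 2 := by
    rw [← norm_mul, mul_comm, geom_sum_mul]
    calc ‖(v * w⁻¹) ^ N - 1‖ ≤ ‖(v * w⁻¹) ^ N‖ + ‖(1 : ℂ)‖ := norm_sub_le _ _
      _ = 2 := by rw [norm_pow, hu, one_pow, norm_one]; norm_num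
  unfold gk
  rw [h1]
  have h3 : (‖v * w⁻¹ - 1‖ * ‖∑ a ∈ Finset.range N, (v * w⁻¹) ^ a‖) ^ 2 ≤ 4 := by
    have h0 : 0 ≤ ‖v * w⁻¹ - 1‖ * ‖∑ a ∈ Finset.range N, (v * w⁻¹) ^ a‖ := by positivity
    nlinarith
  calc ‖v * w⁻¹ - 1‖ ^ 2 * ((2 * N * N : ℝ)⁻¹ * ‖∑ a ∈ Finset.range N, (v * w⁻¹) ^ a‖ ^ 2)
      = (‖v * w⁻¹ - 1‖ * ‖∑ a ∈ Finset.range N, (v * w⁻¹) ^ a‖) ^ 2 * (2 * N * N : ℝ)⁻¹ := by ring
    _ ≤ 4 * (2 * N * N : ℝ)⁻¹ := by
        apply mul_le_mul_of_nonneg_right h3; positivity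

theorem sum_norm_gk (N : ℕ) (hN : N ≠ 0) (v : ℂ) (hv : ‖v‖ = 1) :
    (∑ k : Fin (2 * N), ‖v - zt (2 * N) ^ (k : ℕ)‖ * gk N (zt (2 * N) ^ (k : ℕ)) v) ^ 2
      ≤ 4 / N := by
  have hM : 2 * N ≠ 0 := by omega
  have hnw : ∀ k : Fin (2 * N), ‖zt (2 * N) ^ (k : ℕ)‖ = 1 := fun k => by
    rw [norm_pow, norm_zt _ hM, one_pow]
  have hcs := Finset.sum_sq_le_sum_mul_sum_of_sq_le_mul (Finset.univ : Finset (Fin (2 * N)))
    (r := fun k => ‖v - zt (2 * N) ^ (k : ℕ)‖ * gk N (zt (2 * N) ^ (k : ℕ)) v)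
    (f := fun k => ‖v - zt (2 * N) ^ (k : ℕ)‖ ^ 2 * gk N (zt (2 * N) ^ (k : ℕ)) v)
    (g := fun k => gk N (zt (2 * N) ^ (k : ℕ)) v)
    (fun k _ => mul_nonneg (by positivity) (gk_nonneg _ _ _))
    (fun k _ => gk_nonneg _ _ _) (fun k _ => le_of_eq (by ring))
  rw [sum_gk N hN v hv, mul_one] at hcs
  refine hcs.trans ?_
  calc ∑ k : Fin (2 * N), ‖v - zt (2 * N) ^ (k : ℕ)‖ ^ 2 * gk N (zt (2 * N) ^ (k : ℕ)) v
      ≤ ∑ k : Fin (2 * N), 4 * (2 * N * N : ℝ)⁻¹ :=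
        Finset.sum_le_sum fun k _ => gk_mul N _ v (hnw k) hv
    _ = 4 / N := by
        rw [Finset.sum_const, Finset.card_univ, Fintype.card_fin, nsmul_eq_mul]
        have hN' : (N : ℝ) ≠ 0 := by exact_mod_cast hN
        push_cast
        field_simp

theorem norm_sg (b : Bool) : ‖sg b‖ = 1 := by
  cases b <;> simp [sg]

theorem sq_lau_fk {X : Type} [NormedAddCommGroup X] [NormedSpace ℂ X] (N : ℕ) (hN : N ≠ 0)
    (T S : X →L[ℂ] X) (hTS : T * S = 1) (hST : S * T = 1) :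
    ∑ k : Fin (2 * N), lau (fk N (zt (2 * N) ^ (k : ℕ))) T S * lau (fk N (zt (2 * N) ^ (k : ℕ))) T S
      = (((Finset.addEnergy (Finset.range N) (Finset.range N) : ℝ) / (2 * N * N ^ 2) : ℝ) : ℂ)
        • (1 : X →L[ℂ] X) := by
  have hM : 2 * N ≠ 0 := by omega
  have hp := zt_prim (2 * N) hM
  have hz0 : ∀ k : Fin (2 * N), zt (2 * N) ^ (k : ℕ) ≠ 0 := fun k =>
    pow_ne_zero _ (hp.ne_zero hM)
  have h1 : ∀ k : Fin (2 * N),
      lau (fk N (zt (2 * N) ^ (k : ℕ))) T S * lau (fk N (zt (2 * N) ^ (k : ℕ))) T S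
      = ∑ a ∈ Finset.range N, ∑ b ∈ Finset.range N, ∑ a' ∈ Finset.range N, ∑ b' ∈ Finset.range N,
        ((((2 * N * N : ℝ) : ℂ)⁻¹) ^ 2 * (zt (2 * N) ^ (k : ℕ)) ^ ((b : ℤ) - a + (b' - a')))
          • zpr T S ((a : ℤ) - b + (a' - b')) := by
    intro k
    unfold fk
    simp only [lau_sum, lau_single]
    simp only [Finset.sum_mul, Finset.mul_sum]
    refine Finset.sum_congr rfl fun a _ => ?_
    refine Finset.sum_congr rfl fun b _ => ?_
    refine Finset.sum_congr rfl fun a' _ => ?_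
    refine Finset.sum_congr rfl fun b' _ => ?_
    rw [smul_mul_smul_comm, ← zpr_add T S hTS hST, zpow_add₀ (hz0 k)]
    congr 1
    · ring
    · congr 1
      ring
  rw [Finset.sum_congr rfl fun k _ => h1 k]
  have h2 : ∀ a ∈ Finset.range N, ∀ b ∈ Finset.range N, ∀ a' ∈ Finset.range N,
      ∀ b' ∈ Finset.range N, (∑ k : Fin (2 * N),
        ((((2 * N * N : ℝ) : ℂ)⁻¹) ^ 2 * (zt (2 * N) ^ (k : ℕ)) ^ ((b : ℤ) - a + (b' - a')))
          • zpr T S ((a : ℤ) - b + (a' - b')))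
      = (if a + a' = b + b' then ((((2 * N * N : ℝ) : ℂ)⁻¹) ^ 2 * (2 * N)) else 0)
          • (1 : X →L[ℂ] X) := by
    intro a ha b hb a' ha' b' hb'
    rw [Finset.mem_range] at ha hb ha' hb'
    rw [← Finset.sum_smul, ← Finset.mul_sum,
      sum_zt (2 * N) hM _ (by push_cast; omega) (by push_cast; omega)]
    split_ifs with h5 h6 h6
    · have h7 : (a : ℤ) - b + (a' - b') = 0 := by omega
      rw [h7, zpr_zero]
      push_cast
      rfl
    · omega
    · omega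
    · simp
  rw [Finset.sum_comm]
  have h3 : (∑ a ∈ Finset.range N, ∑ k : Fin (2 * N), ∑ b ∈ Finset.range N,
      ∑ a' ∈ Finset.range N, ∑ b' ∈ Finset.range N,
        ((((2 * N * N : ℝ) : ℂ)⁻¹) ^ 2 * (zt (2 * N) ^ (k : ℕ)) ^ ((b : ℤ) - a + (b' - a')))
          • zpr T S ((a : ℤ) - b + (a' - b')))
      = ∑ a ∈ Finset.range N, ∑ b ∈ Finset.range N, ∑ a' ∈ Finset.range N,
        ∑ b' ∈ Finset.range N,
        (if a + a' = b + b' then ((((2 * N * N : ℝ) : ℂ)⁻¹) ^ 2 * (2 * N)) else 0)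
          • (1 : X →L[ℂ] X) := by
    refine Finset.sum_congr rfl fun a ha => ?_
    rw [Finset.sum_comm]
    refine Finset.sum_congr rfl fun b hb => ?_
    rw [Finset.sum_comm]
    refine Finset.sum_congr rfl fun a' ha' => ?_
    rw [Finset.sum_comm]
    refine Finset.sum_congr rfl fun b' hb' => ?_
    exact h2 a ha b hb a' ha' b' hb'
  rw [h3]
  simp only [← Finset.sum_smul]
  congr 1
  rw [Finset.addEnergy, Finset.card_filter]
  rw [Finset.sum_product, Finset.sum_product]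
  push_cast
  have h4 : ∀ a ∈ Finset.range N, ∀ b ∈ Finset.range N,
      (∑ a' ∈ Finset.range N, ∑ b' ∈ Finset.range N,
        (if a + a' = b + b' then ((((2 * (N : ℂ) * N) : ℂ)⁻¹) ^ 2 * (2 * N)) else 0))
      = (∑ a' ∈ Finset.range N, ∑ b' ∈ Finset.range N,
        (if a + a' = b + b' then (1 : ℂ) else 0)) / (2 * N * N ^ 2) := by
    intro a _ b _
    rw [Finset.sum_div]
    refine Finset.sum_congr rfl fun a' _ => ?_
    rw [Finset.sum_div]
    refine Finset.sum_congr rfl fun b' _ => ?_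
    have hN' : (N : ℂ) ≠ 0 := by exact_mod_cast hN
    split_ifs
    · field_simp
    · simp
  rw [Finset.sum_div]
  refine Finset.sum_congr rfl fun a ha => ?_
  rw [Finset.sum_div]
  refine Finset.sum_congr rfl fun b hb => ?_
  rw [h4 a ha b hb, Finset.sum_product]
  congr 1
  refine Finset.sum_congr rfl fun a' _ => ?_
  refine Finset.sum_congr rfl fun b' _ => ?_
  split_ifs <;> simp

open scoped Pointwise in
theorem energy_ge (N : ℕ) (hN : N ≠ 0) :
    (1 / 4 : ℝ) ≤ (Finset.addEnergy (Finset.range N) (Finset.range N) : ℝ) / (2 * N * N ^ 2) := by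
  have h1 := Finset.le_card_add_mul_addEnergy (Finset.range N) (Finset.range N)
  rw [Finset.card_range] at h1
  have h2 : (Finset.range N + Finset.range N).card ≤ 2 * N := by
    calc (Finset.range N + Finset.range N).card ≤ (Finset.range (2 * N)).card := by
          apply Finset.card_le_card
          intro x hx
          rw [Finset.mem_add] at hx
          obtain ⟨y, hy, z, hz, rfl⟩ := hx
          rw [Finset.mem_range] at *
          omega
      _ = 2 * N := Finset.card_range _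
  have h3 : N ^ 2 * N ^ 2 ≤ 2 * N * Finset.addEnergy (Finset.range N) (Finset.range N) :=
    h1.trans (Nat.mul_le_mul_right _ h2)
  have h4 : (N : ℝ) ^ 2 * N ^ 2 ≤
      2 * N * (Finset.addEnergy (Finset.range N) (Finset.range N) : ℝ) := by exact_mod_cast h3
  have hN' : (0 : ℝ) < N := by positivity
  rw [le_div_iff₀ (by positivity)]
  have h5 : (N : ℝ) * (N ^ 3) ≤
      N * (2 * (Finset.addEnergy (Finset.range N) (Finset.range N) : ℝ)) := by nlinarith
  have h6 := le_of_mul_le_mul_left h5 hN'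
  nlinarith

theorem fejer (δ : ℝ) (hδ : 0 < δ) : ∃ (M : ℕ) (w : Fin M → ℂ) (f : Fin M → ℤ →₀ ℂ) (c : ℝ),
    (∀ k, ‖w k‖ = 1) ∧ 1 / 4 ≤ c ∧
    (∀ ε : Fin M → Bool, CB (∑ k, sg (ε k) • f k) 1) ∧
    (∀ ε : Fin M → Bool, CB (∑ k, sg (ε k) • (zmul (f k) - w k • f k)) δ) ∧
    (∀ (X : Type) [NormedAddCommGroup X] [NormedSpace ℂ X] (T S : X →L[ℂ] X), T * S = 1 → S * T = 1 →
      ∑ k, lau (f k) T S * lau (f k) T S = (c : ℂ) • (1 : X →L[ℂ] X)) := by
  obtain ⟨N, hN⟩ := exists_nat_gt (4 / δ ^ 2)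
  have hN0 : N ≠ 0 := by
    rintro rfl
    have : (0 : ℝ) < 4 / δ ^ 2 := by positivity
    simp at hN
    linarith
  have hM : 2 * N ≠ 0 := by omega
  have hnw : ∀ k : Fin (2 * N), ‖zt (2 * N) ^ (k : ℕ)‖ = 1 := fun k => by
    rw [norm_pow, norm_zt _ hM, one_pow]
  have hev : ∀ (v : ℂ), ‖v‖ = 1 → ∀ k : Fin (2 * N),
      evl v (fk N (zt (2 * N) ^ (k : ℕ))) = (gk N (zt (2 * N) ^ (k : ℕ)) v : ℂ) :=
    fun v hv k => evl_fk N _ v (hnw k) hv
  refine ⟨2 * N, fun k => zt (2 * N) ^ (k : ℕ), fun k => fk N (zt (2 * N) ^ (k : ℕ)),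
    (Finset.addEnergy (Finset.range N) (Finset.range N) : ℝ) / (2 * N * N ^ 2), hnw,
    energy_ge N hN0, ?_, ?_, ?_⟩
  · intro ε v hv
    rw [evl_eq, map_sum]
    simp only [map_smul, hev v hv]
    calc ‖∑ k : Fin (2 * N), sg (ε k) • (gk N (zt (2 * N) ^ (k : ℕ)) v : ℂ)‖
        ≤ ∑ k : Fin (2 * N), gk N (zt (2 * N) ^ (k : ℕ)) v := by
          refine norm_sum_le_of_le _ fun k _ => ?_
          rw [norm_smul, norm_sg, one_mul, Complex.norm_real, Real.norm_eq_abs,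
            abs_of_nonneg (gk_nonneg _ _ _)]
      _ = 1 := sum_gk N hN0 v hv
  · intro ε v hv
    have hv0 : v ≠ 0 := by
      intro h; rw [h, norm_zero] at hv; exact zero_ne_one hv
    rw [evl_eq, map_sum]
    simp only [map_smul, map_sub, evl_zmul v hv0, hev v hv, smul_eq_mul]
    calc ‖∑ k : Fin (2 * N), sg (ε k) * (v * (gk N (zt (2 * N) ^ (k : ℕ)) v : ℂ)
            - zt (2 * N) ^ (k : ℕ) * (gk N (zt (2 * N) ^ (k : ℕ)) v : ℂ))‖
        ≤ ∑ k : Fin (2 * N), ‖v - zt (2 * N) ^ (k : ℕ)‖ * gk N (zt (2 * N) ^ (k : ℕ)) v := by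
          refine norm_sum_le_of_le _ fun k _ => ?_
          rw [← sub_mul, norm_mul, norm_mul, norm_sg, one_mul, Complex.norm_real, Real.norm_eq_abs,
            abs_of_nonneg (gk_nonneg _ _ _)]
      _ ≤ δ := by
          have h1 := sum_norm_gk N hN0 v hv
          have hN' : (0 : ℝ) < N := by positivity
          have h2 : 4 / (N : ℝ) ≤ δ ^ 2 := by
            rw [div_lt_iff₀ (by positivity)] at hN
            rw [div_le_iff₀ hN']
            nlinarith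
          exact abs_le_of_sq_le_sq' (h1.trans h2) hδ.le |>.2
  · intro X _ _ T S hTS hST
    exact sq_lau_fk N hN0 T S hTS hST

end

end Pool.Agent.Helper623_LS
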