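import Pool.Agent.Helper623_LS.Gop
import Pool.Agent.Helper623_LS.AmpKL
import Pool.Agent.Helper623_LS.Fej
import Pool.Agent.Helper623_LS.Tail2

/-! Task LOCDIL: the local dilation.

Take `M, w, f, c` from `fejer δ'`. `V x = ∑ k, inc k (lau (f k) T S x)`, `W y = c⁻¹ ∑ k, lau (f k) T S (comp k y)`, so `W V = 1`.
For signs `ε` put `y_ε = ∑ k, sg (ε k) • comp k y`, `f_ε = ∑ k, sg (ε k) • f k`, `h_ε = ∑ k, sg (ε k) • (zmul (f k) - w k • f k)`,
`u = gop (diagonal w)`. Then `(V x)_ε = lau f_ε x`, `((V T - u V) x)_ε = lau h_ε x` and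
`W y = c⁻¹ avg_ε lau f_ε y_ε`, `(W u - T W) y = - c⁻¹ avg_ε lau h_ε y_ε` (`avg sg (ε k) sg (ε l) = δ_{kl}`).
By `Ess C T S` there are compact `K_ε` with `‖lau f_ε + K_ε‖ ≤ C + 1`, `‖lau h_ε + K_ε'‖ ≤ C δ' + δ'`, and
`‖K (1 - P_c)‖, ‖(1 - P_c) K‖` are small for large `c` (`compact_tail_left/right`; finitely many `ε`).
Norms through `amp_KL`: `‖V x‖^r ≤ K avg ‖(V x)_ε‖^r`; `‖W y‖ ≤ 4 avg ‖..‖ ‖y_ε‖ ≤ 4 .. (avg ‖y_ε‖^r)^(1/r) ≤ 4 .. K^(1/r) ‖y‖`
(power mean inequality). -/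

set_option autoImplicit false
open scoped ENNReal NNReal Topology
open Filter
namespace Pool.Agent.Helper623_LS

noncomputable section

variable {p : ℝ≥0∞} [Fact (1 ≤ p)]

section given
variable {J J' : Type} {H : J → Type} {H' : J' → Type}
  [∀ j, NormedAddCommGroup (H j)] [∀ j, InnerProductSpace ℂ (H j)]
  [∀ j, NormedAddCommGroup (H' j)] [∀ j, InnerProductSpace ℂ (H' j)]












variable {X : Type} [NormedAddCommGroup X] [NormedSpace ℂ X]








end given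


section aux902

theorem ld_sg_mul_self (b : Bool) : sg b * sg b = 1 := by
  unfold sg; cases b <;> simp

theorem ld_sg_not (b : Bool) : sg (!b) = - sg b := by
  unfold sg; cases b <;> simp

theorem ld_sum_sg {N : ℕ} (k l : Fin N) :
    ∑ ε : Fin N → Bool, sg (ε k) * sg (ε l) = if k = l then (2 : ℂ) ^ N else 0 := by
  classical
  split_ifs with h
  · subst h
    simp only [ld_sg_mul_self]
    simp
  · refine Finset.sum_involution (fun ε _ => Function.update ε k (!(ε k))) ?_ ?_ ?_ ?_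
    · intro ε _
      rw [Function.update_self, Function.update_of_ne (fun h' => h h'.symm), ld_sg_not]
      ring
    · intro ε _ _ heq
      have := congrFun heq k
      rw [Function.update_self] at this
      cases hk : ε k <;> rw [hk] at this <;> simp at this
    · intro ε _; exact Finset.mem_univ _
    · intro ε _
      rw [Function.update_self, Function.update_idem, Bool.not_not, Function.update_eq_self]

theorem ld_orth {N : ℕ} {X Y : Type} [NormedAddCommGroup X] [NormedSpace ℂ X]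
    [NormedAddCommGroup Y] [NormedSpace ℂ Y] (A : Fin N → X →L[ℂ] Y) (z : Fin N → X) :
    ∑ ε : Fin N → Bool, (∑ k, sg (ε k) • A k) (∑ l, sg (ε l) • z l) =
      (2 : ℂ) ^ N • ∑ k, A k (z k) := by
  classical
  have h1 : ∀ ε : Fin N → Bool, (∑ k, sg (ε k) • A k) (∑ l, sg (ε l) • z l) =
      ∑ k, ∑ l, (sg (ε k) * sg (ε l)) • A k (z l) := by
    intro ε
    rw [ContinuousLinearMap.sum_apply]
    refine Finset.sum_congr rfl fun k _ => ?_
    rw [map_sum]
    refine Finset.sum_congr rfl fun l _ => ?_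
    rw [map_smul, ContinuousLinearMap.smul_apply, smul_smul, mul_comm]
  simp only [h1]
  rw [Finset.sum_comm, Finset.smul_sum]
  refine Finset.sum_congr rfl fun k _ => ?_
  rw [Finset.sum_comm]
  have h2 : ∀ l, ∑ ε : Fin N → Bool, (sg (ε k) * sg (ε l)) • A k (z l) =
      (if k = l then (2 : ℂ) ^ N else 0) • A k (z l) := by
    intro l
    rw [← Finset.sum_smul, ld_sum_sg]
  simp only [h2]
  rw [Finset.sum_eq_single k]
  · rw [if_pos rfl]
  · intro l _ hl
    rw [if_neg (fun h => hl h.symm), zero_smul]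
  · intro h; exact absurd (Finset.mem_univ _) h

theorem ld_avg_rpow {N : ℕ} (F : (Fin N → Bool) → ℝ) (hF : ∀ ε, 0 ≤ F ε) {r : ℝ} (hr : 1 ≤ r) :
    avg F ^ r ≤ avg (fun ε => F ε ^ r) := by
  have h := Real.rpow_arith_mean_le_arith_mean_rpow (Finset.univ : Finset (Fin N → Bool))
    (fun _ => ((2 : ℝ) ^ N)⁻¹) F (fun _ _ => by positivity) (by simp) (fun ε _ => hF ε) hr
  unfold avg
  rw [div_eq_inv_mul, div_eq_inv_mul, Finset.mul_sum, Finset.mul_sum]
  exact h

theorem ld_avg_mono {N : ℕ} {F G : (Fin N → Bool) → ℝ} (h : ∀ ε, F ε ≤ G ε) : avg F ≤ avg G := by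
  unfold avg
  exact div_le_div_of_nonneg_right (Finset.sum_le_sum fun ε _ => h ε) (by positivity)

theorem ld_avg_const {N : ℕ} (a : ℝ) : avg (fun _ : Fin N → Bool => a) = a := by
  unfold avg
  simp

theorem ld_avg_mul {N : ℕ} (a : ℝ) (F : (Fin N → Bool) → ℝ) :
    avg (fun ε => a * F ε) = a * avg F := by
  unfold avg
  rw [← Finset.mul_sum, mul_div_assoc]

theorem ld_r (hp1 : 1 < p) (hp : p ≠ ∞) : 1 ≤ p.toReal := by
  have := (ENNReal.toReal_lt_toReal ENNReal.one_ne_top hp).2 hp1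
  rw [ENNReal.toReal_one] at this
  exact this.le

theorem ld_col (hp1 : 1 < p) (hp : p ≠ ∞) {K : ℝ} (hK1 : 1 ≤ K)
    (hK : ∀ (N : ℕ) (J : Type) (H : J → Type) [∀ j, NormedAddCommGroup (H j)]
      [∀ j, InnerProductSpace ℂ (H j)] (z : lp (AH N H) p),
      avg (fun ε : Fin N → Bool => ‖∑ k, sg (ε k) • comp p N k z‖ ^ p.toReal) ≤
        K * ‖z‖ ^ p.toReal ∧
      ‖z‖ ^ p.toReal ≤
        K * avg (fun ε : Fin N → Bool => ‖∑ k, sg (ε k) • comp p N k z‖ ^ p.toReal))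
    {M : ℕ} (A : Fin M → LL p →L[ℂ] LL p) (Q : LL p →L[ℂ] LL p) {B : ℝ} (hB0 : 0 ≤ B)
    (hB : ∀ ε : Fin M → Bool, ‖(∑ k, sg (ε k) • A k) ∘L Q‖ ≤ B) :
    ‖(∑ k, inc p M k ∘L A k : LL p →L[ℂ] lp (AH M (fun _ : ℕ => ℂ)) p) ∘L Q‖ ≤ K * B := by
  have hr := ld_r hp1 hp
  have hr0 : 0 < p.toReal := by linarith
  have hK0 : 0 ≤ K := by linarith
  refine ContinuousLinearMap.opNorm_le_bound _ (by positivity) fun x => ?_
  set z : lp (AH M (fun _ : ℕ => ℂ)) p :=
    ((∑ k, inc p M k ∘L A k : LL p →L[ℂ] lp (AH M (fun _ : ℕ => ℂ)) p) ∘L Q) x with hz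
  have hcomp : ∀ k, comp p M k z = A k (Q x) := by
    intro k
    have : z = ∑ l, inc p M l (A l (Q x)) := by
      rw [hz]
      simp only [ContinuousLinearMap.comp_apply, ContinuousLinearMap.sum_apply]
    rw [this, map_sum, Finset.sum_eq_single k]
    · exact comp_inc_self k _
    · intro l _ hl
      exact comp_inc_ne k l (fun h => hl h.symm) _
    · intro h; exact absurd (Finset.mem_univ _) h
  have h1 := (hK M ℕ (fun _ : ℕ => ℂ) z).2
  have h2 : ∀ ε : Fin M → Bool, ‖∑ k, sg (ε k) • comp p M k z‖ ^ p.toReal ≤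
      (B * ‖x‖) ^ p.toReal := by
    intro ε
    refine Real.rpow_le_rpow (norm_nonneg _) ?_ hr0.le
    have h3 : ∑ k, sg (ε k) • comp p M k z = ((∑ k, sg (ε k) • A k) ∘L Q) x := by
      simp only [hcomp, ContinuousLinearMap.comp_apply, ContinuousLinearMap.sum_apply,
        ContinuousLinearMap.smul_apply]
    rw [h3]
    exact (ContinuousLinearMap.le_opNorm _ _).trans
      (mul_le_mul_of_nonneg_right (hB ε) (norm_nonneg _))
  have h4 := ld_avg_mono h2
  rw [ld_avg_const] at h4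
  have h5 : ‖z‖ ^ p.toReal ≤ (K * (B * ‖x‖)) ^ p.toReal := by
    calc ‖z‖ ^ p.toReal ≤ K * (B * ‖x‖) ^ p.toReal := h1.trans (mul_le_mul_of_nonneg_left h4 hK0)
      _ ≤ K ^ p.toReal * (B * ‖x‖) ^ p.toReal := by
          refine mul_le_mul_of_nonneg_right ?_ (by positivity)
          calc K = K ^ (1 : ℝ) := (Real.rpow_one K).symm
            _ ≤ K ^ p.toReal := Real.rpow_le_rpow_of_exponent_le hK1 hr
      _ = (K * (B * ‖x‖)) ^ p.toReal := (Real.mul_rpow hK0 (by positivity)).symm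
  rw [mul_assoc]
  exact (Real.rpow_le_rpow_iff (norm_nonneg _) (by positivity) hr0).1 h5

theorem ld_row (hp1 : 1 < p) (hp : p ≠ ∞) {K : ℝ} (hK1 : 1 ≤ K)
    (hK : ∀ (N : ℕ) (J : Type) (H : J → Type) [∀ j, NormedAddCommGroup (H j)]
      [∀ j, InnerProductSpace ℂ (H j)] (z : lp (AH N H) p),
      avg (fun ε : Fin N → Bool => ‖∑ k, sg (ε k) • comp p N k z‖ ^ p.toReal) ≤
        K * ‖z‖ ^ p.toReal ∧
      ‖z‖ ^ p.toReal ≤
        K * avg (fun ε : Fin N → Bool => ‖∑ k, sg (ε k) • comp p N k z‖ ^ p.toReal))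
    {M : ℕ} (A : Fin M → LL p →L[ℂ] LL p) (Q : LL p →L[ℂ] LL p) {B : ℝ} (hB0 : 0 ≤ B)
    (hB : ∀ ε : Fin M → Bool, ‖Q ∘L (∑ k, sg (ε k) • A k)‖ ≤ B) :
    ‖Q ∘L (∑ k, A k ∘L comp p M k : lp (AH M (fun _ : ℕ => ℂ)) p →L[ℂ] LL p)‖ ≤ K * B := by
  have hr := ld_r hp1 hp
  have hr0 : 0 < p.toReal := by linarith
  have hK0 : 0 ≤ K := by linarith
  refine ContinuousLinearMap.opNorm_le_bound _ (by positivity) fun y => ?_
  have h1 := (hK M ℕ (fun _ : ℕ => ℂ) y).1
  set Y : (Fin M → Bool) → LL p := fun ε => ∑ k, sg (ε k) • comp p M k y with hY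
  have h2 : avg (fun ε => ‖Y ε‖) ≤ K * ‖y‖ := by
    have h3 := ld_avg_rpow (fun ε => ‖Y ε‖) (fun ε => norm_nonneg _) hr
    have h4 : avg (fun ε => ‖Y ε‖) ^ p.toReal ≤ (K * ‖y‖) ^ p.toReal := by
      calc avg (fun ε => ‖Y ε‖) ^ p.toReal ≤ K * ‖y‖ ^ p.toReal := h3.trans h1
        _ ≤ K ^ p.toReal * ‖y‖ ^ p.toReal := by
            refine mul_le_mul_of_nonneg_right ?_ (by positivity)
            calc K = K ^ (1 : ℝ) := (Real.rpow_one K).symm
              _ ≤ K ^ p.toReal := Real.rpow_le_rpow_of_exponent_le hK1 hr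
        _ = (K * ‖y‖) ^ p.toReal := (Real.mul_rpow hK0 (by positivity)).symm
    refine (Real.rpow_le_rpow_iff ?_ (by positivity) hr0).1 h4
    unfold avg
    positivity
  have h5 : (2 : ℂ) ^ M • Q ((∑ k, A k ∘L comp p M k : lp (AH M (fun _ : ℕ => ℂ)) p →L[ℂ] LL p) y) =
      ∑ ε : Fin M → Bool, (Q ∘L (∑ k, sg (ε k) • A k)) (Y ε) := by
    have h6 := ld_orth A (fun k => comp p M k y)
    have h7 : (∑ k, A k ∘L comp p M k : lp (AH M (fun _ : ℕ => ℂ)) p →L[ℂ] LL p) y =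
        ∑ k, A k (comp p M k y) := by
      simp only [ContinuousLinearMap.comp_apply, ContinuousLinearMap.sum_apply]
    rw [h7, ← map_smul, ← h6, map_sum]
    rfl
  have h8 : (2 : ℝ) ^ M * ‖Q ((∑ k, A k ∘L comp p M k :
      lp (AH M (fun _ : ℕ => ℂ)) p →L[ℂ] LL p) y)‖ ≤ ∑ ε : Fin M → Bool, B * ‖Y ε‖ := by
    have h9 : ‖(2 : ℂ) ^ M • Q ((∑ k, A k ∘L comp p M k :
      lp (AH M (fun _ : ℕ => ℂ)) p →L[ℂ] LL p) y)‖ = (2 : ℝ) ^ M * ‖Q ((∑ k, A k ∘L comp p M k :
      lp (AH M (fun _ : ℕ => ℂ)) p →L[ℂ] LL p) y)‖ := by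
      rw [norm_smul, norm_pow, Complex.norm_ofNat]
    rw [← h9, h5]
    refine norm_sum_le_of_le _ fun ε _ => ?_
    exact (ContinuousLinearMap.le_opNorm _ _).trans
      (mul_le_mul_of_nonneg_right (hB ε) (norm_nonneg _))
  have h10 : ∑ ε : Fin M → Bool, B * ‖Y ε‖ = (2 : ℝ) ^ M * (B * avg (fun ε => ‖Y ε‖)) := by
    unfold avg
    rw [← Finset.mul_sum]
    field_simp
  rw [h10] at h8
  have h11 := le_of_mul_le_mul_left h8 (by positivity : (0 : ℝ) < 2 ^ M)
  calc ‖(Q ∘L (∑ k, A k ∘L comp p M k : lp (AH M (fun _ : ℕ => ℂ)) p →L[ℂ] LL p)) y‖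
      ≤ B * avg (fun ε => ‖Y ε‖) := h11
    _ ≤ B * (K * ‖y‖) := mul_le_mul_of_nonneg_left h2 hB0
    _ = K * B * ‖y‖ := by ring

theorem ld_tail (hp1 : 1 < p) (hp : p ≠ ∞) {T S : LL p →L[ℂ] LL p} {C : ℝ} (hE : Ess C T S)
    (f : ℤ →₀ ℂ) (m : ℝ) (hf : CB f m) {η : ℝ} (hη : 0 < η) :
    ∀ᶠ c in atTop, ‖lau f T S ∘L (1 - MO p (cut c))‖ ≤ C * m + η ∧
      ‖(1 - MO p (cut c)) ∘L lau f T S‖ ≤ C * m + η := by
  obtain ⟨K, hK, hK2⟩ := hE.bound f m hf (η / 2) (by linarith)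
  have h1 := (compact_tail_left hp K hK).eventually_le_const (by linarith : (0 : ℝ) < η / 2)
  have h2 := (compact_tail_right hp1 hp K hK).eventually_le_const (by linarith : (0 : ℝ) < η / 2)
  filter_upwards [h1, h2] with c h1 h2
  have hQ : ‖(1 - MO p (cut c) : LL p →L[ℂ] LL p)‖ ≤ 1 := tl_norm_Q c
  constructor
  · have h3 : lau f T S ∘L (1 - MO p (cut c)) = (lau f T S + K) ∘L (1 - MO p (cut c)) -
        K ∘L (1 - MO p (cut c)) := by
      rw [ContinuousLinearMap.add_comp, add_sub_cancel_right]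
    rw [h3]
    refine (norm_sub_le _ _).trans ?_
    have h4 : ‖(lau f T S + K) ∘L (1 - MO p (cut c))‖ ≤ C * m + η / 2 := by
      refine (ContinuousLinearMap.opNorm_comp_le _ _).trans ?_
      calc ‖lau f T S + K‖ * ‖(1 - MO p (cut c) : LL p →L[ℂ] LL p)‖ ≤ ‖lau f T S + K‖ * 1 :=
            mul_le_mul_of_nonneg_left hQ (norm_nonneg _)
        _ ≤ _ := by rw [mul_one]; exact hK2
    linarith
  · have h3 : (1 - MO p (cut c)) ∘L lau f T S = (1 - MO p (cut c)) ∘L (lau f T S + K) -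
        (1 - MO p (cut c)) ∘L K := by
      rw [ContinuousLinearMap.comp_add, add_sub_cancel_right]
    rw [h3]
    refine (norm_sub_le _ _).trans ?_
    have h4 : ‖(1 - MO p (cut c)) ∘L (lau f T S + K)‖ ≤ C * m + η / 2 := by
      refine (ContinuousLinearMap.opNorm_comp_le _ _).trans ?_
      calc ‖(1 - MO p (cut c) : LL p →L[ℂ] LL p)‖ * ‖lau f T S + K‖ ≤ 1 * ‖lau f T S + K‖ :=
            mul_le_mul_of_nonneg_right hQ (norm_nonneg _)
        _ ≤ _ := by rw [one_mul]; exact hK2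
    linarith

theorem ld_lau_sg {M : ℕ} (f : Fin M → ℤ →₀ ℂ) (T S : LL p →L[ℂ] LL p) (ε : Fin M → Bool) :
    lau (∑ k, sg (ε k) • f k) T S = ∑ k, sg (ε k) • lau (f k) T S := by
  rw [lau_sum]
  exact Finset.sum_congr rfl fun k _ => lau_smul _ _ _ _

theorem ld_gop_diag {M : ℕ} (w : Fin M → ℂ) (z : lp (AH M (fun _ : ℕ => ℂ)) p) (k : Fin M) :
    comp p M k (gop p (fun _ : ℕ => ℂ) (fun _ => Matrix.diagonal w) z) = w k • comp p M k z := by
  apply lp.ext
  funext j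
  rw [comp_apply, gop_apply (Bg.const _), mat_apply]
  rw [Finset.sum_eq_single k]
  · rw [Matrix.diagonal_apply_eq]
    show w k • (z j) k = w k • (comp p M k z) j
    rw [comp_apply]
  · intro l _ hl
    rw [Matrix.diagonal_apply_ne _ (fun h => hl h.symm), zero_smul]
  · intro h; exact absurd (Finset.mem_univ _) h

end aux902

/-! To be proved: -/

theorem local_dilation (hp1 : 1 < p) (hp : p ≠ ∞) (T S : LL p →L[ℂ] LL p) (hTS : T * S = 1)
    (hST : S * T = 1) (C : ℝ) (hE : Ess C T S) :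
    ∃ lam : ℝ, 0 ≤ lam ∧ ∀ δ : ℝ, 0 < δ →
      ∃ (M : ℕ) (w : Fin M → ℂ) (V : LL p →L[ℂ] lp (AH M (fun _ : ℕ => ℂ)) p)
        (W : lp (AH M (fun _ : ℕ => ℂ)) p →L[ℂ] LL p) (c₀ : ℕ),
        (∀ k, ‖w k‖ = 1) ∧ W ∘L V = ContinuousLinearMap.id ℂ (LL p) ∧
        ∀ c, c₀ ≤ c →
          ‖V ∘L (1 - MO p (cut c))‖ ≤ lam ∧ ‖(1 - MO p (cut c)) ∘L W‖ ≤ lam ∧
          ‖(V ∘L T - gop p (fun _ : ℕ => ℂ) (fun _ => Matrix.diagonal w) ∘L V) ∘L
            (1 - MO p (cut c))‖ ≤ δ ∧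
          ‖(1 - MO p (cut c)) ∘L
            (W ∘L gop p (fun _ : ℕ => ℂ) (fun _ => Matrix.diagonal w) - T ∘L W)‖ ≤ δ := by
  classical
  obtain ⟨K, hK1, hK⟩ := amp_KL hp1 hp
  have hK0 : 0 < K := by linarith
  have hC0 : 0 ≤ C := by
    by_contra hneg
    rw [not_le] at hneg
    have hcb : CB (0 : ℤ →₀ ℂ) 1 := by
      intro v _
      simp
    obtain ⟨K', _, h2⟩ := hE.bound 0 1 hcb (-C / 2) (by linarith)
    have := (norm_nonneg _).trans h2
    linarith
  refine ⟨4 * (K * (C + 1)), by positivity, fun δ hδ => ?_⟩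
  set δ' : ℝ := δ / (4 * (K * (C + 1))) with hδ'
  have hδ'0 : 0 < δ' := by positivity
  have hδδ : 4 * (K * ((C + 1) * δ')) = δ := by
    rw [hδ']; field_simp
  obtain ⟨M, w, f, c, hw, hc, hf, hh, hsq⟩ := fejer δ' hδ'0
  have hc0 : (0 : ℝ) < c := by linarith
  have hcinv : ‖((c : ℂ)⁻¹)‖ ≤ 4 := by
    rw [norm_inv, Complex.norm_real, Real.norm_of_nonneg hc0.le]
    rw [inv_le_comm₀ hc0 (by norm_num)]
    linarith
  set V : LL p →L[ℂ] lp (AH M (fun _ : ℕ => ℂ)) p := ∑ k, inc p M k ∘L lau (f k) T S with hV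
  set W₀ : lp (AH M (fun _ : ℕ => ℂ)) p →L[ℂ] LL p := ∑ k, lau (f k) T S ∘L comp p M k with hW₀
  set h : Fin M → ℤ →₀ ℂ := fun k => zmul (f k) - w k • f k with hh'
  have hlh : ∀ k, lau (h k) T S = T * lau (f k) T S - w k • lau (f k) T S := by
    intro k
    rw [hh']
    simp only
    rw [lau_sub, lau_smul, lau_zmul _ _ _ hTS hST]
  -- tails
  have ht1 : ∀ ε : Fin M → Bool, ∀ᶠ n in atTop,
      ‖lau (∑ k, sg (ε k) • f k) T S ∘L (1 - MO p (cut n))‖ ≤ C * 1 + 1 ∧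
      ‖(1 - MO p (cut n)) ∘L lau (∑ k, sg (ε k) • f k) T S‖ ≤ C * 1 + 1 := fun ε =>
    ld_tail hp1 hp hE _ 1 (hf ε) one_pos
  have ht2 : ∀ ε : Fin M → Bool, ∀ᶠ n in atTop,
      ‖lau (∑ k, sg (ε k) • h k) T S ∘L (1 - MO p (cut n))‖ ≤ C * δ' + δ' ∧
      ‖(1 - MO p (cut n)) ∘L lau (∑ k, sg (ε k) • h k) T S‖ ≤ C * δ' + δ' := fun ε =>
    ld_tail hp1 hp hE _ δ' (hh ε) hδ'0
  have ht1' := Filter.eventually_all.2 ht1
  have ht2' := Filter.eventually_all.2 ht2
  obtain ⟨c₀, hc₀⟩ := Filter.eventually_atTop.1 (ht1'.and ht2')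
  refine ⟨M, w, V, (c : ℂ)⁻¹ • W₀, c₀, hw, ?_, fun n hn => ?_⟩
  · ext1 x
    have h1 := congrArg (fun A : LL p →L[ℂ] LL p => A x) (hsq (LL p) T S hTS hST)
    simp only [ContinuousLinearMap.sum_apply, ContinuousLinearMap.smul_apply,
      ContinuousLinearMap.one_apply] at h1
    have h2 : W₀ (V x) = (c : ℂ) • x := by
      rw [← h1, hW₀, ContinuousLinearMap.sum_apply]
      refine Finset.sum_congr rfl fun k _ => ?_
      rw [ContinuousLinearMap.comp_apply]
      have h3 : comp p M k (V x) = lau (f k) T S x := by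
        rw [hV, ContinuousLinearMap.sum_apply, map_sum, Finset.sum_eq_single k]
        · exact comp_inc_self k _
        · intro l _ hl
          exact comp_inc_ne k l (fun h => hl h.symm) _
        · intro h; exact absurd (Finset.mem_univ _) h
      rw [h3]
      rfl
    rw [ContinuousLinearMap.comp_apply, ContinuousLinearMap.smul_apply, h2, smul_smul,
      inv_mul_cancel₀ (by exact_mod_cast hc0.ne'), one_smul]
    rfl
  · obtain ⟨hA, hB⟩ := hc₀ n hn
    have hlam : K * (C * 1 + 1) ≤ 4 * (K * (C + 1)) := by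
      rw [mul_one]
      have : 0 ≤ K * (C + 1) := by positivity
      linarith
    have hKd : K * (C * δ' + δ') = δ / 4 := by
      have : K * (C * δ' + δ') = K * ((C + 1) * δ') := by ring
      rw [this]; linarith
    refine ⟨?_, ?_, ?_, ?_⟩
    · refine (ld_col hp1 hp hK1 hK (fun k => lau (f k) T S) (1 - MO p (cut n))
        (B := C * 1 + 1) (by positivity) fun ε => ?_).trans hlam
      rw [← ld_lau_sg]
      exact (hA ε).1
    · have h1 := ld_row hp1 hp hK1 hK (fun k => lau (f k) T S) (1 - MO p (cut n))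
        (B := C * 1 + 1) (by positivity) (fun ε => by
          rw [← ld_lau_sg]
          exact (hA ε).2)
      rw [ContinuousLinearMap.comp_smul, norm_smul]
      calc ‖(c : ℂ)⁻¹‖ * ‖(1 - MO p (cut n)) ∘L W₀‖ ≤ 4 * (K * (C * 1 + 1)) :=
            mul_le_mul hcinv h1 (norm_nonneg _) (by norm_num)
        _ = 4 * (K * (C + 1)) := by rw [mul_one]
    · have h0 : V ∘L T - gop p (fun _ : ℕ => ℂ) (fun _ => Matrix.diagonal w) ∘L V =
          ∑ k, inc p M k ∘L lau (h k) T S := by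
        ext1 x
        apply ext_comp
        intro k
        have hVk : ∀ y, comp p M k (V y) = lau (f k) T S y := by
          intro y
          rw [hV, ContinuousLinearMap.sum_apply, map_sum, Finset.sum_eq_single k]
          · exact comp_inc_self k _
          · intro l _ hl
            exact comp_inc_ne k l (fun h => hl h.symm) _
          · intro h; exact absurd (Finset.mem_univ _) h
        have h2 : comp p M k ((∑ k, inc p M k ∘L lau (h k) T S :
            LL p →L[ℂ] lp (AH M (fun _ : ℕ => ℂ)) p) x) = lau (h k) T S x := by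
          rw [ContinuousLinearMap.sum_apply, map_sum, Finset.sum_eq_single k]
          · exact comp_inc_self k _
          · intro l _ hl
            exact comp_inc_ne k l (fun h => hl h.symm) _
          · intro h; exact absurd (Finset.mem_univ _) h
        rw [h2, ContinuousLinearMap.sub_apply, map_sub, ContinuousLinearMap.comp_apply,
          ContinuousLinearMap.comp_apply, ld_gop_diag, hVk, hVk, hlh, lau_comm _ _ _ hTS hST]
        rfl
      rw [h0]
      refine (ld_col hp1 hp hK1 hK (fun k => lau (h k) T S) (1 - MO p (cut n))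
        (B := C * δ' + δ') (by positivity) fun ε => ?_).trans (by rw [hKd]; linarith)
      rw [← ld_lau_sg]
      exact (hB ε).1
    · have h0 : ((c : ℂ)⁻¹ • W₀) ∘L gop p (fun _ : ℕ => ℂ) (fun _ => Matrix.diagonal w) -
          T ∘L ((c : ℂ)⁻¹ • W₀) =
          -((c : ℂ)⁻¹ • ∑ k, lau (h k) T S ∘L comp p M k) := by
        ext1 y
        have h1 : ∀ y, W₀ y = ∑ k, lau (f k) T S (comp p M k y) := by
          intro y
          rw [hW₀, ContinuousLinearMap.sum_apply]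
          rfl
        have h2 : (∑ k, lau (h k) T S ∘L comp p M k :
            lp (AH M (fun _ : ℕ => ℂ)) p →L[ℂ] LL p) y = ∑ k, lau (h k) T S (comp p M k y) := by
          rw [ContinuousLinearMap.sum_apply]
          rfl
        show (((c : ℂ)⁻¹ • W₀) ∘L gop p (fun _ : ℕ => ℂ) (fun _ => Matrix.diagonal w)) y -
          (T ∘L ((c : ℂ)⁻¹ • W₀)) y = -((c : ℂ)⁻¹ • (∑ k, lau (h k) T S ∘L comp p M k :
            lp (AH M (fun _ : ℕ => ℂ)) p →L[ℂ] LL p) y)
        rw [h2]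
        have h3 : (((c : ℂ)⁻¹ • W₀) ∘L gop p (fun _ : ℕ => ℂ) (fun _ => Matrix.diagonal w)) y =
            (c : ℂ)⁻¹ • ∑ k, w k • lau (f k) T S (comp p M k y) := by
          show (c : ℂ)⁻¹ • W₀ (gop p (fun _ : ℕ => ℂ) (fun _ => Matrix.diagonal w) y) = _
          rw [h1]
          congr 1
          refine Finset.sum_congr rfl fun k _ => ?_
          rw [ld_gop_diag, map_smul]
        have h4 : (T ∘L ((c : ℂ)⁻¹ • W₀)) y = (c : ℂ)⁻¹ • ∑ k, T (lau (f k) T S (comp p M k y)) := by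
          show T ((c : ℂ)⁻¹ • W₀ y) = _
          rw [map_smul, h1, map_sum]
        rw [h3, h4, ← smul_sub, ← Finset.sum_sub_distrib, ← smul_neg, ← Finset.sum_neg_distrib]
        congr 1
        refine Finset.sum_congr rfl fun k _ => ?_
        rw [hlh, ContinuousLinearMap.sub_apply, ContinuousLinearMap.smul_apply, neg_sub]
        rfl
      have h1 := ld_row hp1 hp hK1 hK (fun k => lau (h k) T S) (1 - MO p (cut n))
        (B := C * δ' + δ') (by positivity) (fun ε => by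
          rw [← ld_lau_sg]
          exact (hB ε).2)
      rw [h0, ContinuousLinearMap.comp_neg, norm_neg, ContinuousLinearMap.comp_smul, norm_smul]
      calc ‖(c : ℂ)⁻¹‖ * ‖(1 - MO p (cut n)) ∘L
              (∑ k, lau (h k) T S ∘L comp p M k : lp (AH M (fun _ : ℕ => ℂ)) p →L[ℂ] LL p)‖
          ≤ 4 * (K * (C * δ' + δ')) := mul_le_mul hcinv h1 (norm_nonneg _) (by norm_num)
        _ = δ := by rw [hKd]; ring


end

end Pool.Agent.Helper623_LS
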