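import Pool.Agent.Helper623_LS.Defs2

/-! Task SIGMA: `ℓ^p` sums of `ℓ^p` spaces, complemented subspaces of `ℓ^p`, Pelczynski decomposition. -/

set_option autoImplicit false
open scoped ENNReal NNReal Topology
open Filter
namespace Pool.Agent.Helper623_LS

noncomputable section

variable {p : ℝ≥0∞} [Fact (1 ≤ p)]

theorem sg_pos (hp : p ≠ ∞) : 0 < p.toReal :=
  ENNReal.toReal_pos ((lt_of_lt_of_le one_pos (Fact.out : (1 : ℝ≥0∞) ≤ p)).ne') hp

theorem sg_norm_le (hp : p ≠ ∞) {I J : Type} {F : I → Type} {G : J → Type}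
    [∀ a, NormedAddCommGroup (F a)] [∀ a, NormedAddCommGroup (G a)] (x : lp F p) (y : lp G p)
    (h : ∑' i, ‖x i‖ ^ p.toReal ≤ ∑' j, ‖y j‖ ^ p.toReal) : ‖x‖ ≤ ‖y‖ := by
  have hp0 := sg_pos hp
  rw [← Real.rpow_le_rpow_iff (norm_nonneg _) (norm_nonneg _) hp0, lp.norm_rpow_eq_tsum hp0,
    lp.norm_rpow_eq_tsum hp0]
  exact h

theorem sg_norm_eq (hp : p ≠ ∞) {I J : Type} {F : I → Type} {G : J → Type}
    [∀ a, NormedAddCommGroup (F a)] [∀ a, NormedAddCommGroup (G a)] (x : lp F p) (y : lp G p)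
    (h : ∑' i, ‖x i‖ ^ p.toReal = ∑' j, ‖y j‖ ^ p.toReal) : ‖x‖ = ‖y‖ :=
  le_antisymm (sg_norm_le hp x y h.le) (sg_norm_le hp y x h.ge)

theorem exists_lpSigma (hp : p ≠ ∞) (I J : Type) (F : J × I → Type)
    [∀ a, NormedAddCommGroup (F a)] [∀ a, NormedSpace ℂ (F a)] :
    ∃ Φ : lp (fun j => lp (fun i => F (j, i)) p) p ≃ₗᵢ[ℂ] lp F p,
      ∀ (x : lp (fun j => lp (fun i => F (j, i)) p) p) (j : J) (i : I), Φ x (j, i) = x j i := by
  have hp0 := sg_pos hp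
  have hrow : ∀ (x : lp (fun j => lp (fun i => F (j, i)) p) p) (j : J),
      ∑' i, ‖x j i‖ ^ p.toReal = ‖x j‖ ^ p.toReal := fun x j => (lp.norm_rpow_eq_tsum hp0 _).symm
  have hsum : ∀ x : lp (fun j => lp (fun i => F (j, i)) p) p,
      Summable (fun a : J × I => ‖x a.1 a.2‖ ^ p.toReal) := by
    intro x
    rw [summable_prod_of_nonneg (fun a => by positivity)]
    refine ⟨fun j => (lp.memℓp (x j)).summable hp0, ?_⟩
    simp only [hrow]
    exact (lp.memℓp x).summable hp0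
  let T : lp (fun j => lp (fun i => F (j, i)) p) p →ₗᵢ[ℂ] lp F p :=
    { toFun := fun x => (⟨fun a => x a.1 a.2, (memℓp_gen_iff hp0).2 (hsum x)⟩ : lp F p)
      map_add' := fun x y => by ext a; rfl
      map_smul' := fun c x => by ext a; rfl
      norm_map' := fun x => by
        refine sg_norm_eq hp _ _ ?_
        change ∑' a : J × I, ‖x a.1 a.2‖ ^ p.toReal = _
        rw [(hsum x).tsum_prod' fun j => (lp.memℓp (x j)).summable hp0]
        exact tsum_congr fun j => hrow x j }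
  have hT : ∀ x (j : J) (i : I), T x (j, i) = x j i := fun x j i => rfl
  have hsurj : Function.Surjective T := by
    intro y
    have hy := (lp.memℓp y).summable hp0
    rw [summable_prod_of_nonneg (fun a => by positivity)] at hy
    let row : ∀ j, lp (fun i => F (j, i)) p := fun j =>
      ⟨fun i => y (j, i), (memℓp_gen_iff hp0).2 (hy.1 j)⟩
    have hr : ∀ j, ‖row j‖ ^ p.toReal = ∑' i, ‖y (j, i)‖ ^ p.toReal := fun j =>
      lp.norm_rpow_eq_tsum hp0 _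
    refine ⟨⟨row, (memℓp_gen_iff hp0).2 ?_⟩, ?_⟩
    · simp only [hr]
      exact hy.2
    · ext a
      rfl
  exact ⟨LinearIsometryEquiv.ofSurjective T hsurj, fun x j i => rfl⟩

theorem exists_lpReindex (hp : p ≠ ∞) (I J : Type) (e : I ≃ J) (F : J → Type)
    [∀ a, NormedAddCommGroup (F a)] [∀ a, NormedSpace ℂ (F a)] :
    ∃ Φ : lp F p ≃ₗᵢ[ℂ] lp (fun i => F (e i)) p, ∀ (x : lp F p) (i : I), Φ x i = x (e i) := by
  have hp0 := sg_pos hp
  let T : lp F p →ₗᵢ[ℂ] lp (fun i => F (e i)) p :=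
    { toFun := fun x => (⟨fun i => x (e i), (memℓp_gen_iff hp0).2
        (e.summable_iff.2 ((lp.memℓp x).summable hp0))⟩ : lp (fun i => F (e i)) p)
      map_add' := fun x y => by ext a; rfl
      map_smul' := fun c x => by ext a; rfl
      norm_map' := fun x => by
        refine sg_norm_eq hp _ _ ?_
        exact e.tsum_eq (fun j => ‖x j‖ ^ p.toReal) }
  have hsurj : Function.Surjective T := by
    intro y
    have hy := (lp.memℓp y).summable hp0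
    have hz : ∀ i, (Equiv.piCongrLeft F e) y (e i) = y i := fun i =>
      Equiv.piCongrLeft_apply_apply F e y i
    refine ⟨⟨(Equiv.piCongrLeft F e) y, (memℓp_gen_iff hp0).2 ?_⟩, ?_⟩
    · rw [← e.summable_iff]
      refine hy.congr fun i => ?_
      change ‖y i‖ ^ _ = ‖(Equiv.piCongrLeft F e) y (e i)‖ ^ _
      rw [hz i]
    · ext i
      exact hz i
  exact ⟨LinearIsometryEquiv.ofSurjective T hsurj, fun x i => rfl⟩

theorem Good.mono {c c' : ℝ} {Z : Type} [NormedAddCommGroup Z] [NormedSpace ℂ Z] (h : Good p c Z)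
    (hc : c ≤ c') : Good p c' Z := by
  obtain ⟨i, q, h1, h2, h3⟩ := h
  exact ⟨i, q, h1, h2.trans hc, h3.trans hc⟩

theorem Good.LL : Good p 1 (LL p) :=
  ⟨ContinuousLinearMap.id ℂ _, ContinuousLinearMap.id ℂ _, by ext; rfl,
    ContinuousLinearMap.norm_id_le, ContinuousLinearMap.norm_id_le⟩

/-- restriction along an injection -/
theorem sg_restr (hp : p ≠ ∞) {S : Type} (f : S → ℕ) (hf : Function.Injective f) :
    ∃ R : LL p →L[ℂ] lp (fun _ : S => ℂ) p, ‖R‖ ≤ 1 ∧ ∀ x s, R x s = x (f s) := by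
  have hp0 := sg_pos hp
  have hs : ∀ x : LL p, Summable (fun s => ‖x (f s)‖ ^ p.toReal) := fun x =>
    ((lp.memℓp x).summable hp0).comp_injective hf
  let T : LL p →ₗ[ℂ] lp (fun _ : S => ℂ) p :=
    { toFun := fun x => (⟨fun s => x (f s), (memℓp_gen_iff hp0).2 (hs x)⟩ : lp (fun _ : S => ℂ) p)
      map_add' := fun x y => by ext a; rfl
      map_smul' := fun c x => by ext a; rfl }
  have hT : ∀ x, ‖T x‖ ≤ 1 * ‖x‖ := by
    intro x
    rw [one_mul]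
    refine sg_norm_le hp _ _ ?_
    exact tsum_comp_le_tsum_of_inj ((lp.memℓp x).summable hp0) (fun _ => by positivity) hf
  exact ⟨T.mkContinuous 1 hT, T.mkContinuous_norm_le zero_le_one hT, fun x s => rfl⟩

/-- extension by zero along an injection -/
theorem sg_ext (hp : p ≠ ∞) {S : Type} (f : S → ℕ) (hf : Function.Injective f) :
    ∃ T : lp (fun _ : S => ℂ) p →L[ℂ] LL p, ‖T‖ ≤ 1 ∧ (∀ x s, T x (f s) = x s) ∧
      ∀ x n, n ∉ Set.range f → T x n = 0 := by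
  have hp0 := sg_pos hp
  have h1 : ∀ (x : S → ℂ) (s : S), Function.extend f x (0 : ℕ → ℂ) (f s) = x s := fun x s =>
    hf.extend_apply x (0 : ℕ → ℂ) s
  have h2 : ∀ (x : S → ℂ) (n : ℕ), n ∉ Set.range f → Function.extend f x (0 : ℕ → ℂ) n = 0 :=
    fun x n hn => Function.extend_apply' x (0 : ℕ → ℂ) n (by simpa using hn)
  have h2' : ∀ (x : S → ℂ) (n : ℕ), n ∉ Set.range f →
      ‖Function.extend f x (0 : ℕ → ℂ) n‖ ^ p.toReal = 0 := fun x n hn => by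
    rw [h2 x n hn, norm_zero, Real.zero_rpow hp0.ne']
  have hs : ∀ x : lp (fun _ : S => ℂ) p,
      Summable (fun n => ‖Function.extend f (fun s => x s) (0 : ℕ → ℂ) n‖ ^ p.toReal) := by
    intro x
    rw [← hf.summable_iff (h2' _)]
    refine ((lp.memℓp x).summable hp0).congr fun s => ?_
    change _ = ‖Function.extend f (fun s => x s) (0 : ℕ → ℂ) (f s)‖ ^ _
    rw [h1]
  let T : lp (fun _ : S => ℂ) p →ₗ[ℂ] LL p :=
    { toFun := fun x => (⟨Function.extend f (fun s => x s) (0 : ℕ → ℂ), (memℓp_gen_iff hp0).2 (hs x)⟩ : LL p)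
      map_add' := fun x y => by
        ext n
        change Function.extend f (fun s => (x + y : lp (fun _ : S => ℂ) p) s) (0 : ℕ → ℂ) n =
          Function.extend f (fun s => x s) (0 : ℕ → ℂ) n + Function.extend f (fun s => y s) (0 : ℕ → ℂ) n
        by_cases hn : n ∈ Set.range f
        · obtain ⟨s, rfl⟩ := hn
          rw [h1, h1, h1]
          rfl
        · rw [h2 _ n hn, h2 _ n hn, h2 _ n hn, add_zero]
      map_smul' := fun c x => by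
        ext n
        change Function.extend f (fun s => (c • x : lp (fun _ : S => ℂ) p) s) (0 : ℕ → ℂ) n =
          c • Function.extend f (fun s => x s) (0 : ℕ → ℂ) n
        by_cases hn : n ∈ Set.range f
        · obtain ⟨s, rfl⟩ := hn
          rw [h1, h1]
          rfl
        · rw [h2 _ n hn, h2 _ n hn, smul_zero] }
  have hT : ∀ x, ‖T x‖ ≤ 1 * ‖x‖ := by
    intro x
    rw [one_mul]
    refine sg_norm_le hp _ _ (le_of_eq ?_)
    change ∑' n, ‖Function.extend f (fun s => x s) (0 : ℕ → ℂ) n‖ ^ p.toReal = _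
    rw [← hf.tsum_eq]
    · refine tsum_congr fun s => ?_
      rw [h1]
    · intro n hn
      by_contra hne
      exact hn (h2' _ n hne)
  exact ⟨T.mkContinuous 1 hT, T.mkContinuous_norm_le zero_le_one hT, fun x s => h1 _ s,
    fun x n hn => h2 _ n hn⟩

/-- composition of good embeddings -/
theorem Good.trans {c c' : ℝ} {Z W : Type} [NormedAddCommGroup Z] [NormedSpace ℂ Z]
    [NormedAddCommGroup W] [NormedSpace ℂ W] (i : Z →L[ℂ] W) (q : W →L[ℂ] Z)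
    (h : q ∘L i = ContinuousLinearMap.id ℂ Z) (hi : ‖i‖ ≤ c) (hq : ‖q‖ ≤ c) (hW : Good p c' W) :
    Good p (c' * c) Z := by
  obtain ⟨i', q', h1, h2, h3⟩ := hW
  have hc0 : 0 ≤ c := (norm_nonneg _).trans hi
  have hc0' : 0 ≤ c' := (norm_nonneg _).trans h2
  refine ⟨i' ∘L i, q ∘L q', ?_, ?_, ?_⟩
  · ext x
    have e1 : q' (i' (i x)) = i x := by
      have := congrArg (fun T => T (i x)) h1
      simpa using this
    have e2 : q (i x) = x := by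
      have := congrArg (fun T => T x) h
      simpa using this
    simp [e1, e2]
  · exact (ContinuousLinearMap.opNorm_comp_le _ _).trans
      (mul_le_mul h2 hi (norm_nonneg _) hc0')
  · calc ‖q ∘L q'‖ ≤ ‖q‖ * ‖q'‖ := ContinuousLinearMap.opNorm_comp_le _ _
      _ ≤ c * c' := mul_le_mul hq h3 (norm_nonneg _) hc0
      _ = c' * c := mul_comm _ _

theorem sg_good_countable (hp : p ≠ ∞) (S : Type) [Countable S] :
    Good p 1 (lp (fun _ : S => ℂ) p) := by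
  obtain ⟨f, hf⟩ := exists_injective_nat S
  obtain ⟨R, hR, hR'⟩ := sg_restr hp f hf
  obtain ⟨T, hT, hT', -⟩ := sg_ext hp f hf
  refine ⟨T, R, ?_, hT, hR⟩
  ext x s
  show R (T x) s = x s
  rw [hR', hT']

theorem good_lp (hp : p ≠ ∞) {J : Type} [Countable J] {c : ℝ} (Z : J → Type)
    [∀ j, NormedAddCommGroup (Z j)] [∀ j, NormedSpace ℂ (Z j)] (h : ∀ j, Good p c (Z j)) :
    Good p (max c 1) (lp Z p) := by
  choose i q h1 h2 h3 using h
  have hc0 : (0 : ℝ) ≤ max c 1 := zero_le_one.trans (le_max_right _ _)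
  have hi : ∀ j, ‖i j‖ ≤ max c 1 := fun j => (h2 j).trans (le_max_left _ _)
  have hq : ∀ j, ‖q j‖ ≤ max c 1 := fun j => (h3 j).trans (le_max_left _ _)
  have hbi : Bd i := ⟨_, hi⟩
  have hbq : Bd q := ⟨_, hq⟩
  obtain ⟨Φ, -⟩ := exists_lpSigma hp ℕ J (fun _ : J × ℕ => ℂ)
  have g1 := sg_good_countable (p := p) hp (J × ℕ)
  -- `lp (LL p)` is good
  have g2 : Good p (1 * 1) (lp (fun _ : J => LL p) p) := by
    refine Good.trans (c := 1) (c' := 1)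
      (Φ.toContinuousLinearEquiv : lp (fun _ : J => LL p) p →L[ℂ] lp (fun _ : J × ℕ => ℂ) p)
      (Φ.symm.toContinuousLinearEquiv : lp (fun _ : J × ℕ => ℂ) p →L[ℂ] lp (fun _ : J => LL p) p)
      ?_ ?_ ?_ g1
    · refine ContinuousLinearMap.ext fun x => ?_
      exact Φ.symm_apply_apply x
    · exact ContinuousLinearMap.opNorm_le_bound _ zero_le_one fun x => by
        rw [one_mul]; exact (Φ.norm_map x).le
    · exact ContinuousLinearMap.opNorm_le_bound _ zero_le_one fun x => by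
        rw [one_mul]; exact (Φ.symm.norm_map x).le
  have g3 := Good.trans (dsum p i) (dsum p q) (by
    rw [dsum_comp hbq hbi]
    simp only [h1]
    exact dsum_id) (norm_dsum_le hc0 hi) (norm_dsum_le hc0 hq) g2
  rwa [one_mul, one_mul] at g3

/-- splitting into even and odd coordinates -/
theorem sg_split (hp : p ≠ ∞) : ∃ (E₁ E₂ R₁ R₂ : LL p →L[ℂ] LL p), ‖E₁‖ ≤ 1 ∧ ‖E₂‖ ≤ 1 ∧
    ‖R₁‖ ≤ 1 ∧ ‖R₂‖ ≤ 1 ∧ (∀ x, R₁ (E₁ x) = x) ∧ (∀ x, R₂ (E₂ x) = x) ∧ (∀ x, R₁ (E₂ x) = 0) ∧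
    (∀ x, R₂ (E₁ x) = 0) ∧ ∀ x, E₁ (R₁ x) + E₂ (R₂ x) = x := by
  have hf1 : Function.Injective (fun n : ℕ => 2 * n) := fun a b h => by
    simp only at h; omega
  have hf2 : Function.Injective (fun n : ℕ => 2 * n + 1) := fun a b h => by
    simp only at h; omega
  obtain ⟨R₁, hR1, hR1'⟩ := sg_restr (p := p) hp _ hf1
  obtain ⟨R₂, hR2, hR2'⟩ := sg_restr (p := p) hp _ hf2
  obtain ⟨E₁, hE1, hE1', hE1''⟩ := sg_ext (p := p) hp _ hf1
  obtain ⟨E₂, hE2, hE2', hE2''⟩ := sg_ext (p := p) hp _ hf2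
  have r1 : ∀ n : ℕ, (2 * n + 1) ∉ Set.range (fun n : ℕ => 2 * n) := by
    rintro n ⟨m, hm⟩
    simp only at hm
    omega
  have r2 : ∀ n : ℕ, (2 * n) ∉ Set.range (fun n : ℕ => 2 * n + 1) := by
    rintro n ⟨m, hm⟩
    simp only at hm
    omega
  refine ⟨E₁, E₂, R₁, R₂, hE1, hE2, hR1, hR2, ?_, ?_, ?_, ?_, ?_⟩
  · intro x; ext n; rw [hR1', hE1']
  · intro x; ext n; rw [hR2', hE2']
  · intro x; ext n; rw [hR1', hE2'' x _ (r2 n)]; rfl
  · intro x; ext n; rw [hR2', hE1'' x _ (r1 n)]; rfl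
  · intro x
    ext n
    rw [lp.coeFn_add, Pi.add_apply]
    rcases Nat.even_or_odd' n with ⟨m, rfl | rfl⟩
    · have e1 : E₁ (R₁ x) (2 * m) = R₁ x m := hE1' (R₁ x) m
      rw [e1, hR1', hE2'' _ _ (r2 m), add_zero]
    · have e2 : E₂ (R₂ x) (2 * m + 1) = R₂ x m := hE2' (R₂ x) m
      rw [e2, hR2', hE1'' _ _ (r1 m), zero_add]

theorem good_prod (hp : p ≠ ∞) {c : ℝ} {X Y : Type} [NormedAddCommGroup X] [NormedSpace ℂ X]
    [NormedAddCommGroup Y] [NormedSpace ℂ Y] (hX : Good p c X) (hY : Good p c Y) :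
    Good p (2 * max c 1) (X × Y) := by
  obtain ⟨i, q, h1, h2, h3⟩ := hX
  obtain ⟨i', q', h1', h2', h3'⟩ := hY
  obtain ⟨E₁, E₂, R₁, R₂, hE1, hE2, hR1, hR2, a1, a2, a3, a4, a5⟩ := sg_split (p := p) hp
  set C := max c 1 with hC
  have hc0 : (0 : ℝ) ≤ C := zero_le_one.trans (le_max_right _ _)
  have hqi : ∀ x, q (i x) = x := fun x => by
    have := congrArg (fun T => T x) h1
    simpa using this
  have hqi' : ∀ x, q' (i' x) = x := fun x => by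
    have := congrArg (fun T => T x) h1'
    simpa using this
  refine ⟨(E₁ ∘L i).coprod (E₂ ∘L i'), (q ∘L R₁).prod (q' ∘L R₂), ?_, ?_, ?_⟩
  · refine ContinuousLinearMap.ext fun x => ?_
    show (q (R₁ (E₁ (i x.1) + E₂ (i' x.2))), q' (R₂ (E₁ (i x.1) + E₂ (i' x.2)))) = x
    rw [map_add R₁, map_add R₂, a1, a2, a3, a4, add_zero, zero_add, hqi, hqi']
  · refine ContinuousLinearMap.opNorm_le_bound _ (by positivity) fun x => ?_
    show ‖E₁ (i x.1) + E₂ (i' x.2)‖ ≤ _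
    have b1 : ‖E₁ (i x.1)‖ ≤ C * ‖x‖ := by
      calc ‖E₁ (i x.1)‖ ≤ 1 * ‖i x.1‖ := E₁.le_of_opNorm_le hE1 _
        _ = ‖i x.1‖ := one_mul _
        _ ≤ C * ‖x.1‖ := i.le_of_opNorm_le (h2.trans (le_max_left _ _)) _
        _ ≤ C * ‖x‖ := mul_le_mul_of_nonneg_left (norm_fst_le x) hc0
    have b2 : ‖E₂ (i' x.2)‖ ≤ C * ‖x‖ := by
      calc ‖E₂ (i' x.2)‖ ≤ 1 * ‖i' x.2‖ := E₂.le_of_opNorm_le hE2 _
        _ = ‖i' x.2‖ := one_mul _
        _ ≤ C * ‖x.2‖ := i'.le_of_opNorm_le (h2'.trans (le_max_left _ _)) _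
        _ ≤ C * ‖x‖ := mul_le_mul_of_nonneg_left (norm_snd_le x) hc0
    calc _ ≤ ‖E₁ (i x.1)‖ + ‖E₂ (i' x.2)‖ := norm_add_le _ _
      _ ≤ C * ‖x‖ + C * ‖x‖ := add_le_add b1 b2
      _ = 2 * C * ‖x‖ := by ring
  · refine ContinuousLinearMap.opNorm_le_bound _ (by positivity) fun x => ?_
    show ‖(q (R₁ x), q' (R₂ x))‖ ≤ _
    have b1 : ‖q (R₁ x)‖ ≤ C * ‖x‖ := by
      calc ‖q (R₁ x)‖ ≤ C * ‖R₁ x‖ := q.le_of_opNorm_le (h3.trans (le_max_left _ _)) _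
        _ ≤ C * (1 * ‖x‖) := mul_le_mul_of_nonneg_left (R₁.le_of_opNorm_le hR1 _) hc0
        _ = C * ‖x‖ := by rw [one_mul]
    have b2 : ‖q' (R₂ x)‖ ≤ C * ‖x‖ := by
      calc ‖q' (R₂ x)‖ ≤ C * ‖R₂ x‖ := q'.le_of_opNorm_le (h3'.trans (le_max_left _ _)) _
        _ ≤ C * (1 * ‖x‖) := mul_le_mul_of_nonneg_left (R₂.le_of_opNorm_le hR2 _) hc0
        _ = C * ‖x‖ := by rw [one_mul]
    have b3 : C * ‖x‖ ≤ 2 * C * ‖x‖ := by nlinarith [mul_nonneg hc0 (norm_nonneg x)]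
    rw [Prod.norm_def]
    exact (max_le b1 b2).trans b3

theorem exists_prodLL (hp : p ≠ ∞) : Nonempty ((LL p × LL p) ≃L[ℂ] LL p) := by
  obtain ⟨E₁, E₂, R₁, R₂, hE1, hE2, hR1, hR2, a1, a2, a3, a4, a5⟩ := sg_split (p := p) hp
  refine ⟨ContinuousLinearEquiv.equivOfInverse (E₁.coprod E₂) (R₁.prod R₂) ?_ ?_⟩
  · intro x
    show (R₁ (E₁ x.1 + E₂ x.2), R₂ (E₁ x.1 + E₂ x.2)) = x
    rw [map_add, map_add, a1, a2, a3, a4, add_zero, zero_add]
  · intro x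
    exact a5 x

theorem exists_lpLL (hp : p ≠ ∞) : Nonempty (lp (fun _ : ℕ => LL p) p ≃L[ℂ] LL p) := by
  obtain ⟨Φ, -⟩ := exists_lpSigma hp ℕ ℕ (fun _ : ℕ × ℕ => ℂ)
  obtain ⟨Ψ, -⟩ := exists_lpReindex hp ℕ (ℕ × ℕ) Nat.pairEquiv.symm (fun _ : ℕ × ℕ => ℂ)
  exact ⟨Φ.toContinuousLinearEquiv.trans Ψ.toContinuousLinearEquiv⟩

theorem sg_absorb (hp : p ≠ ∞) {Z K : Type} [NormedAddCommGroup Z] [NormedSpace ℂ Z]
    [NormedAddCommGroup K] [NormedSpace ℂ K] (e : LL p ≃L[ℂ] (Z × K)) :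
    Nonempty ((Z × LL p) ≃L[ℂ] LL p) := by
  obtain ⟨Λ⟩ := exists_lpLL (p := p) hp
  have hb1 : Bd (J := ℕ) (X := fun _ => LL p) (Y := fun _ => Z × K)
      (fun _ => (e : LL p →L[ℂ] (Z × K))) :=
    ⟨‖(e : LL p →L[ℂ] (Z × K))‖, fun _ => le_refl _⟩
  have hb2 : Bd (J := ℕ) (X := fun _ => Z × K) (Y := fun _ => LL p)
      (fun _ => (e.symm : (Z × K) →L[ℂ] LL p)) :=
    ⟨‖(e.symm : (Z × K) →L[ℂ] LL p)‖, fun _ => le_refl _⟩
  obtain ⟨e1⟩ : Nonempty (lp (fun _ : ℕ => LL p) p ≃L[ℂ] lp (fun _ : ℕ => Z × K) p) :=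
    ⟨dsumEquiv p (J := ℕ) (X := fun _ => LL p) (Y := fun _ => Z × K) (fun _ => e) hb1 hb2⟩
  obtain ⟨e2⟩ : Nonempty (lp (fun _ : ℕ => Z × K) p ≃L[ℂ]
      (lp (fun _ : ℕ => Z) p × lp (fun _ : ℕ => K) p)) :=
    ⟨lpProd p (fun _ : ℕ => Z) (fun _ : ℕ => K)⟩
  obtain ⟨e3⟩ : Nonempty (lp (fun _ : ℕ => Z) p ≃L[ℂ] (Z × lp (fun _ : ℕ => Z) p)) :=
    ⟨lpSucc (p := p) (X := fun _ : ℕ => Z) hp⟩
  obtain ⟨s1⟩ : Nonempty ((Z × LL p) ≃L[ℂ] (Z × (lp (fun _ : ℕ => Z) p × lp (fun _ : ℕ => K) p))) :=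
    ⟨(ContinuousLinearEquiv.refl ℂ Z).prodCongr (Λ.symm.trans (e1.trans e2))⟩
  obtain ⟨s2⟩ : Nonempty ((Z × (lp (fun _ : ℕ => Z) p × lp (fun _ : ℕ => K) p)) ≃L[ℂ]
      ((Z × lp (fun _ : ℕ => Z) p) × lp (fun _ : ℕ => K) p)) :=
    ⟨(ContinuousLinearEquiv.prodAssoc ℂ Z (lp (fun _ : ℕ => Z) p) (lp (fun _ : ℕ => K) p)).symm⟩
  obtain ⟨s3⟩ : Nonempty (((Z × lp (fun _ : ℕ => Z) p) × lp (fun _ : ℕ => K) p) ≃L[ℂ]
      (lp (fun _ : ℕ => Z) p × lp (fun _ : ℕ => K) p)) :=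
    ⟨e3.symm.prodCongr (ContinuousLinearEquiv.refl ℂ _)⟩
  exact ⟨s1.trans (s2.trans (s3.trans (e2.symm.trans (e1.symm.trans Λ))))⟩

theorem absorb (hp : p ≠ ∞) {c : ℝ} {Z : Type} [NormedAddCommGroup Z] [NormedSpace ℂ Z]
    (h : Good p c Z) : Nonempty ((Z × LL p) ≃L[ℂ] LL p) := by
  obtain ⟨i, q, h1, -, -⟩ := h
  have hri : Function.RightInverse i q := fun x => by
    have := congrArg (fun T => T x) h1
    simpa using this
  exact sg_absorb hp (ContinuousLinearEquiv.equivOfRightInverse q i hri)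

theorem triv_of_good (hp : p ≠ ∞) {c C : ℝ} {X Y₁ Y₂ : Type} [NormedAddCommGroup X]
    [NormedSpace ℂ X] [NormedAddCommGroup Y₁] [NormedSpace ℂ Y₁] [NormedAddCommGroup Y₂]
    [NormedSpace ℂ Y₂] (A : X →L[ℂ] X) {U₁ U₁' : Y₁ →L[ℂ] Y₁} {U₂ U₂' : Y₂ →L[ℂ] Y₂}
    (h₁ : UL C U₁ U₁') (h₂ : UL C U₂ U₂') (g₁ : Good p c Y₁) (g₂ : Good p c Y₂)
    (hs : Sim (A.prodMap U₁) U₂) : Triv p A := by
  obtain ⟨G₁⟩ := absorb hp g₁
  obtain ⟨G₂⟩ := absorb hp g₂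
  set D := max C 1 with hD
  have u1 := ((h₁.mono (le_max_left C 1)).prod
    ((UL.one (X := LL p)).mono (le_max_right C 1))).conj G₁
  have u2 := ((h₂.mono (le_max_left C 1)).prod
    ((UL.one (X := LL p)).mono (le_max_right C 1))).conj G₂
  refine ⟨max (‖(G₁ : (Y₁ × LL p) →L[ℂ] LL p)‖ * ‖(G₁.symm : LL p →L[ℂ] (Y₁ × LL p))‖ * D)
    (‖(G₂ : (Y₂ × LL p) →L[ℂ] LL p)‖ * ‖(G₂.symm : LL p →L[ℂ] (Y₂ × LL p))‖ * D),
    _, _, _, _, u1.mono (le_max_left _ _), u2.mono (le_max_right _ _), ?_⟩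
  refine ((Sim.refl A).prod (Sim.cj G₁ (U₁.prodMap (1 : LL p →L[ℂ] LL p))).symm).trans ?_
  refine (Sim.prod_assoc A U₁ (1 : LL p →L[ℂ] LL p)).symm.trans ?_
  exact (hs.prod (Sim.refl (1 : LL p →L[ℂ] LL p))).trans (Sim.cj G₂ _)

end

end Pool.Agent.Helper623_LS
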