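import Pool.Agent.Helper623_LS.Cut
import Pool.Agent.Helper623_LS.LocDil
import Pool.Agent.Helper623_LS.Sigma

/-! Task GLOBDIL: the global dilation, from the local ones.

Local data `M_n, w_n, V_n, W_n, c_n` of `local_dilation` for `δ = 1 / (n + 1)`, same `lam`. Cut-offs from `exists_cuts` with
`a n ≥ c_m` for all `m ≤ n + 3` and `η n = 2^(-n) / (1 + ∑_{m ≤ n+3} (‖V_m‖ + ‖W_m‖))`. `E_n = MO p (e n)`, `χ_n = MO p (eChi e n)`.
`χ_n = (1 - P_c) χ_n` with `c = c_n` for `n ≥ 3`, hence `‖V_n χ_n‖ ≤ lam`, `‖χ_n W_n‖ ≤ lam` (`n ≥ 3`).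
`Φ : lp (fun n => lp (fun i => YH M (n, i)) p) p ≃ lp (YH M) p` from `exists_lpSigma` (note
`(fun i => YH M (n, i)) = AH (M n) (fun _ : ℕ => ℂ)` definitionally). `V = Φ ∘ dsum (V_n χ_n) ∘ P`, `W = D ∘ dsum (χ_n W_n) ∘ Φ⁻¹`,
`uY p M w = Φ ∘ dsum (u_n) ∘ Φ⁻¹`, `u_n = gop (diagonal w_n)`.
`W V = D ∘ dsum (χ_n W_n V_n χ_n) ∘ P = 1`.
`Φ⁻¹ (V T - uY V) = dsum (V_n χ_n) (P T - dsum T P) + dsum (V_n χ_n T - u_n V_n χ_n) P`, and
`V_n χ_n T - u_n V_n χ_n = V_n [χ_n, T] + (V_n T - u_n V_n) χ_n` has norm `→ 0`.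
`(W uY - T W) Φ = (D dsum T - T D) dsum (χ_n W_n) + D dsum (χ_n W_n u_n - T χ_n W_n)`, and
`χ_n W_n u_n - T χ_n W_n = χ_n (W_n u_n - T W_n) + [χ_n, T] W_n`.
Bands: `ePhi e n i ≠ 0` implies `|ν i - n| ≤ 2`, `eD e n i ≠ 0` implies `n = ν i` or `n = ν i + 1`. -/

set_option autoImplicit false
open scoped ENNReal NNReal Topology
open Filter
namespace Pool.Agent.Helper623_LS

noncomputable section

variable {p : ℝ≥0∞} [Fact (1 ≤ p)]

section given










end given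

section aux

/-! Elementary facts on the cut-offs. -/

theorem gd_chi_abs {e : ℕ → ℕ → ℝ} (h : Cuts e) (n i : ℕ) : |eChi e n i| ≤ 1 := by
  unfold eChi
  split_ifs
  · simp
  · rw [abs_le]
    constructor <;> linarith [h.nonneg (n - 3) i, h.le_one (n - 3) i]

theorem gd_e_abs {e : ℕ → ℕ → ℝ} (h : Cuts e) (n i : ℕ) : |e n i| ≤ 1 := by
  rw [abs_le]
  constructor <;> linarith [h.nonneg n i, h.le_one n i]

theorem gd_phi_abs {e : ℕ → ℕ → ℝ} (h : Cuts e) (n i : ℕ) : |ePhi e n i| ≤ 1 := by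
  unfold ePhi
  split_ifs
  · exact gd_e_abs h _ _
  · rw [abs_le]
    constructor <;> linarith [h.nonneg (n - 2) i, h.le_one (n - 2) i, h.nonneg (n + 1) i,
      h.le_one (n + 1) i]

theorem gd_chi_small {e : ℕ → ℕ → ℝ} {n : ℕ} (hn : n < 3) :
    MO p (eChi e n) = ContinuousLinearMap.id ℂ (LL p) := by
  refine ContinuousLinearMap.ext fun x => lp.ext (funext fun i => ?_)
  have h1 : ∀ i, |eChi e n i| ≤ 1 := by
    intro i; unfold eChi; rw [if_pos hn]; simp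
  rw [qc_MO_apply h1]
  unfold eChi
  rw [if_pos hn]
  simp

theorem gd_chi_big {e : ℕ → ℕ → ℝ} (h : Cuts e) {n : ℕ} (hn : ¬ n < 3) :
    MO p (eChi e n) = 1 - MO p (e (n - 3)) := by
  refine ContinuousLinearMap.ext fun x => lp.ext (funext fun i => ?_)
  have h1 : ((1 - MO p (e (n - 3)) : LL p →L[ℂ] LL p) x) i = x i - (MO p (e (n - 3)) x) i := rfl
  rw [h1, qc_MO_apply (gd_chi_abs h n), qc_MO_apply (gd_e_abs h (n - 3))]
  unfold eChi
  rw [if_neg hn]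
  push_cast
  ring

theorem gd_chi_cut_left {e : ℕ → ℕ → ℝ} (h : Cuts e) {n c : ℕ} (hn : ¬ n < 3)
    (hc : ∀ i, i < c → e (n - 3) i = 1) :
    (1 - MO p (cut c)) ∘L MO p (eChi e n) = MO p (eChi e n) := by
  refine ContinuousLinearMap.ext fun x => lp.ext (funext fun i => ?_)
  have h1 : (((1 - MO p (cut c) : LL p →L[ℂ] LL p) ∘L MO p (eChi e n)) x) i =
      (MO p (eChi e n) x) i - (MO p (cut c) (MO p (eChi e n) x)) i := rfl
  rw [h1, qc_cut_apply]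
  by_cases hi : i < c
  · rw [if_pos hi, sub_self, qc_MO_apply (gd_chi_abs h n)]
    unfold eChi
    rw [if_neg hn, hc i hi]
    simp
  · rw [if_neg hi, sub_zero]

theorem gd_chi_cut_right {e : ℕ → ℕ → ℝ} (h : Cuts e) {n c : ℕ} (hn : ¬ n < 3)
    (hc : ∀ i, i < c → e (n - 3) i = 1) :
    MO p (eChi e n) ∘L (1 - MO p (cut c)) = MO p (eChi e n) := by
  refine ContinuousLinearMap.ext fun x => lp.ext (funext fun i => ?_)
  have h1 : ((MO p (eChi e n) ∘L (1 - MO p (cut c) : LL p →L[ℂ] LL p)) x) i =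
      (MO p (eChi e n) (x - MO p (cut c) x)) i := rfl
  rw [h1, qc_MO_apply (gd_chi_abs h n), qc_MO_apply (gd_chi_abs h n), lp.coeFn_sub, Pi.sub_apply,
    qc_cut_apply]
  by_cases hi : i < c
  · rw [if_pos hi, sub_self]
    unfold eChi
    rw [if_neg hn, hc i hi]
    simp
  · rw [if_neg hi, sub_zero]

theorem gd_norm_chi {e : ℕ → ℕ → ℝ} (h : Cuts e) (n : ℕ) : ‖MO p (eChi e n)‖ ≤ 1 :=
  qc_norm_MO_le (gd_chi_abs h n)

theorem gd_e_zero {e : ℕ → ℕ → ℝ} {ν : ℕ → ℕ} (hν : ∀ n i, e n i ≠ 0 ↔ ν i ≤ n) {n i : ℕ}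
    (hn : n < ν i) : e n i = 0 := by
  by_contra hne
  have := (hν n i).1 hne
  omega

theorem gd_e_one {e : ℕ → ℕ → ℝ} {ν : ℕ → ℕ} (h : Cuts e) (hν : ∀ n i, e n i ≠ 0 ↔ ν i ≤ n)
    {n i : ℕ} (hn : ν i < n) : e n i = 1 := by
  obtain ⟨m, rfl⟩ : ∃ m, n = m + 1 := ⟨n - 1, by omega⟩
  exact h.succ m i ((hν m i).2 (by omega))

theorem gd_phi_band {e : ℕ → ℕ → ℝ} {ν : ℕ → ℕ} (h : Cuts e) (hν : ∀ n i, e n i ≠ 0 ↔ ν i ≤ n)
    {n i : ℕ} (hn : ν i + 2 < n ∨ n + 2 < ν i) : ePhi e n i = 0 := by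
  unfold ePhi
  rcases hn with hn | hn
  · rw [if_neg (by omega), gd_e_one h hν (by omega), gd_e_one h hν (by omega), sub_self]
  · split_ifs
    · exact gd_e_zero hν (by omega)
    · rw [gd_e_zero hν (by omega), gd_e_zero hν (by omega), sub_self]

theorem gd_D_band {e : ℕ → ℕ → ℝ} {ν : ℕ → ℕ} (h : Cuts e) (hν : ∀ n i, e n i ≠ 0 ↔ ν i ≤ n)
    {n i : ℕ} (hn : n ≠ ν i) (hn' : n ≠ ν i + 1) : eD e n i = 0 := by
  unfold eD
  split_ifs with h0
  · exact gd_e_zero hν (by omega)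
  · rcases lt_or_gt_of_ne hn with h1 | h1
    · rw [gd_e_zero hν h1, gd_e_zero hν (by omega), sub_self]
    · rw [gd_e_one h hν h1, gd_e_one h hν (by omega), sub_self]

end aux

/-! To be proved: -/

theorem global_dilation (hp1 : 1 < p) (hp : p ≠ ∞) (T S : LL p →L[ℂ] LL p) (hTS : T * S = 1)
    (hST : S * T = 1) (C : ℝ) (hE : Ess C T S) :
    ∃ (M : ℕ → ℕ) (w : ∀ n, Fin (M n) → ℂ) (V : LL p →L[ℂ] lp (YH M) p)
      (W : lp (YH M) p →L[ℂ] LL p) (e : ℕ → ℕ → ℝ) (ν : ℕ → ℕ),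
      (∀ n k, ‖w n k‖ = 1) ∧ W ∘L V = ContinuousLinearMap.id ℂ (LL p) ∧
      IsCompactOperator (V ∘L T - uY p M w ∘L V) ∧ IsCompactOperator (W ∘L uY p M w - T ∘L W) ∧
      Cuts e ∧ Tendsto (fun n => ‖MO p (e n) ∘L T - T ∘L MO p (e n)‖) atTop (𝓝 0) ∧
      (∀ n i, e n i ≠ 0 ↔ ν i ≤ n) ∧ Tendsto ν atTop atTop ∧
      Banded (H := fun _ : ℕ => ℂ) (H' := YH M) ν Prod.fst V ∧
      Banded (H := YH M) (H' := fun _ : ℕ => ℂ) Prod.fst ν W := by
  obtain ⟨lam, hlam, hloc⟩ := local_dilation hp1 hp T S hTS hST C hE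
  have hδ : ∀ n : ℕ, (0 : ℝ) < 1 / ((n : ℝ) + 1) := fun n => by positivity
  choose M w Vn Wn c₀ hw hWV hbd using fun n : ℕ => hloc (1 / ((n : ℝ) + 1)) (hδ n)
  -- the cut-offs
  set N : ℕ → ℝ := fun n => 1 + ∑ m ∈ Finset.range (n + 4), (‖Vn m‖ + ‖Wn m‖) with hN
  have hN1 : ∀ n, 1 ≤ N n := by
    intro n
    have : 0 ≤ ∑ m ∈ Finset.range (n + 4), (‖Vn m‖ + ‖Wn m‖) :=
      Finset.sum_nonneg fun m _ => add_nonneg (norm_nonneg _) (norm_nonneg _)
    simp only [hN]; linarith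
  have hNV : ∀ n, ‖Vn (n + 3)‖ ≤ N n ∧ ‖Wn (n + 3)‖ ≤ N n := by
    intro n
    have h1 : ‖Vn (n + 3)‖ + ‖Wn (n + 3)‖ ≤ ∑ m ∈ Finset.range (n + 4), (‖Vn m‖ + ‖Wn m‖) :=
      Finset.single_le_sum (f := fun m => ‖Vn m‖ + ‖Wn m‖)
        (fun m _ => add_nonneg (norm_nonneg _) (norm_nonneg _)) (Finset.mem_range.2 (by omega))
    have h2 := norm_nonneg (Vn (n + 3))
    have h3 := norm_nonneg (Wn (n + 3))
    simp only [hN]
    constructor <;> linarith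
  obtain ⟨e, ν, he, hea, heη, hν, hνt⟩ := exists_cuts hp1 hp T
    (fun n => (Finset.range (n + 4)).sup c₀) (fun n => (1 / 2) ^ n / N n)
    (fun n => div_pos (by positivity) (lt_of_lt_of_le one_pos (hN1 n)))
  have hca : ∀ n, ∀ i, i < c₀ (n + 3) → e n i = 1 := by
    intro n i hi
    apply hea
    exact lt_of_lt_of_le hi (Finset.le_sup (f := c₀) (Finset.mem_range.2 (by omega)))
  have hη1 : ∀ n, ‖MO p (e n) ∘L T - T ∘L MO p (e n)‖ ≤ (1 / 2) ^ n := by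
    intro n
    refine (heη n).trans ?_
    exact div_le_self (by positivity) (hN1 n)
  have hηN : ∀ n, N n * ‖MO p (e n) ∘L T - T ∘L MO p (e n)‖ ≤ (1 / 2) ^ n := by
    intro n
    have h0 : 0 < N n := lt_of_lt_of_le one_pos (hN1 n)
    calc N n * ‖MO p (e n) ∘L T - T ∘L MO p (e n)‖ ≤ N n * ((1 / 2) ^ n / N n) :=
          mul_le_mul_of_nonneg_left (heη n) h0.le
      _ = (1 / 2) ^ n := by field_simp
  have hhalf : Tendsto (fun n : ℕ => ((1 : ℝ) / 2) ^ n) atTop (𝓝 0) :=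
    tendsto_pow_atTop_nhds_zero_of_lt_one (by norm_num) (by norm_num)
  have hsum : Summable (fun n => ‖MO p (e n) ∘L T - T ∘L MO p (e n)‖) :=
    Summable.of_nonneg_of_le (fun n => norm_nonneg _) hη1
      (summable_geometric_of_lt_one (by norm_num) (by norm_num))
  obtain ⟨P, hP⟩ := cuts_P hp he
  obtain ⟨D, hD⟩ := cuts_D hp he
  have hDP := cuts_DP hp he P hP D hD
  have hcP := cuts_comm_P hp he P hP T hsum
  have hcD := cuts_comm_D hp he D hD T hsum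
  obtain ⟨Φ, hΦ⟩ : ∃ Φ : lp (fun n : ℕ => lp (AH (M n) (fun _ : ℕ => ℂ)) p) p ≃ₗᵢ[ℂ] lp (YH M) p,
      ∀ (x : lp (fun n : ℕ => lp (AH (M n) (fun _ : ℕ => ℂ)) p) p) (n i : ℕ),
        Φ x (n, i) = x n i := exists_lpSigma hp ℕ ℕ (YH M)
  -- abbreviations
  set χ : ℕ → (LL p →L[ℂ] LL p) := fun n => MO p (eChi e n) with hχ
  have hχ1 : ∀ n, ‖χ n‖ ≤ 1 := gd_norm_chi he
  set u : ∀ n, lp (AH (M n) (fun _ : ℕ => ℂ)) p →L[ℂ] lp (AH (M n) (fun _ : ℕ => ℂ)) p :=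
    fun n => gop p (fun _ : ℕ => ℂ) (fun _ => Matrix.diagonal (w n)) with hu
  have hmat : ∀ n, ‖mat ℂ (Matrix.diagonal (w n))‖ ≤ 1 := fun n =>
    norm_mat_diagonal (w n) 1 zero_le_one fun k => (hw n k).le
  have bu0 : ∀ n, Bd (J := ℕ) (X := AH (M n) (fun _ : ℕ => ℂ)) (Y := AH (M n) (fun _ : ℕ => ℂ))
      (fun _ => mat ℂ (Matrix.diagonal (w n))) := fun n => ⟨1, fun _ => hmat n⟩
  have bu : Bd u := ⟨1, fun n => norm_dsum_le zero_le_one fun _ => hmat n⟩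
  have bY : Bd (J := ℕ × ℕ) (X := YH M) (Y := YH M) (fun j => mat ℂ (Matrix.diagonal (w j.1))) :=
    ⟨1, fun j => hmat j.1⟩
  set Vb : ∀ n, LL p →L[ℂ] lp (AH (M n) (fun _ : ℕ => ℂ)) p := fun n => Vn n ∘L χ n with hVb
  set Wb : ∀ n, lp (AH (M n) (fun _ : ℕ => ℂ)) p →L[ℂ] LL p := fun n => χ n ∘L Wn n with hWb
  have hVbn : ∀ n, ‖Vb n‖ ≤ lam + ‖Vn 0‖ + ‖Vn 1‖ + ‖Vn 2‖ := by
    intro n
    have n0 := norm_nonneg (Vn 0)
    have n1 := norm_nonneg (Vn 1)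
    have n2 := norm_nonneg (Vn 2)
    by_cases hn : n < 3
    · have e1 : Vb n = Vn n := by
        simp only [hVb, hχ]
        rw [gd_chi_small hn]
        exact ContinuousLinearMap.comp_id _
      rw [e1]
      interval_cases n <;> linarith
    · obtain ⟨m, rfl⟩ : ∃ m, n = m + 3 := ⟨n - 3, by omega⟩
      have h1 := (hbd (m + 3) (c₀ (m + 3)) le_rfl).1
      have e1 : Vb (m + 3) = (Vn (m + 3) ∘L (1 - MO p (cut (c₀ (m + 3))))) ∘L χ (m + 3) := by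
        simp only [hVb, hχ]
        rw [ContinuousLinearMap.comp_assoc, gd_chi_cut_left he hn (hca m)]
      have h2 : ‖Vb (m + 3)‖ ≤ lam := by
        rw [e1]
        calc _ ≤ ‖Vn (m + 3) ∘L (1 - MO p (cut (c₀ (m + 3))))‖ * ‖χ (m + 3)‖ :=
              ContinuousLinearMap.opNorm_comp_le _ _
          _ ≤ lam * 1 := mul_le_mul h1 (hχ1 _) (norm_nonneg _) hlam
          _ = lam := mul_one _
      linarith
  have hWbn : ∀ n, ‖Wb n‖ ≤ lam + ‖Wn 0‖ + ‖Wn 1‖ + ‖Wn 2‖ := by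
    intro n
    have n0 := norm_nonneg (Wn 0)
    have n1 := norm_nonneg (Wn 1)
    have n2 := norm_nonneg (Wn 2)
    by_cases hn : n < 3
    · have e1 : Wb n = Wn n := by
        simp only [hWb, hχ]
        rw [gd_chi_small hn]
        exact ContinuousLinearMap.id_comp _
      rw [e1]
      interval_cases n <;> linarith
    · obtain ⟨m, rfl⟩ : ∃ m, n = m + 3 := ⟨n - 3, by omega⟩
      have h1 := (hbd (m + 3) (c₀ (m + 3)) le_rfl).2.1
      have e1 : Wb (m + 3) = χ (m + 3) ∘L ((1 - MO p (cut (c₀ (m + 3)))) ∘L Wn (m + 3)) := by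
        simp only [hWb, hχ]
        rw [← ContinuousLinearMap.comp_assoc, gd_chi_cut_right he hn (hca m)]
      have h2 : ‖Wb (m + 3)‖ ≤ lam := by
        rw [e1]
        calc _ ≤ ‖χ (m + 3)‖ * ‖(1 - MO p (cut (c₀ (m + 3)))) ∘L Wn (m + 3)‖ :=
              ContinuousLinearMap.opNorm_comp_le _ _
          _ ≤ 1 * lam := mul_le_mul (hχ1 _) h1 (norm_nonneg _) zero_le_one
          _ = lam := one_mul _
      linarith
  have bV : Bd Vb := ⟨_, hVbn⟩
  have bW : Bd Wb := ⟨_, hWbn⟩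
  have bT : Bd (J := ℕ) (X := fun _ => LL p) (Y := fun _ => LL p) (fun _ => T) :=
    ⟨‖T‖, fun _ => le_rfl⟩
  set A : ∀ n, LL p →L[ℂ] lp (AH (M n) (fun _ : ℕ => ℂ)) p := fun n => Vb n ∘L T - u n ∘L Vb n
    with hA
  set B : ∀ n, lp (AH (M n) (fun _ : ℕ => ℂ)) p →L[ℂ] LL p := fun n => Wb n ∘L u n - T ∘L Wb n
    with hB
  have hcomm : ∀ m, χ (m + 3) ∘L T - T ∘L χ (m + 3) =
      -(MO p (e m) ∘L T - T ∘L MO p (e m)) := by
    intro m
    simp only [hχ]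
    rw [gd_chi_big he (by omega : ¬ m + 3 < 3)]
    rw [show m + 3 - 3 = m by omega]
    ext x : 1
    show (T x - MO p (e m) (T x)) - T (x - MO p (e m) x) = -(MO p (e m) (T x) - T (MO p (e m) x))
    rw [map_sub]; abel
  have hAn : ∀ m, ‖A (m + 3)‖ ≤ (1 / 2) ^ m + 1 / (((m + 3 : ℕ) : ℝ) + 1) := by
    intro m
    have hn : ¬ m + 3 < 3 := by omega
    have e1 : A (m + 3) = Vn (m + 3) ∘L (χ (m + 3) ∘L T - T ∘L χ (m + 3)) +
        ((Vn (m + 3) ∘L T - u (m + 3) ∘L Vn (m + 3)) ∘L (1 - MO p (cut (c₀ (m + 3))))) ∘L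
          χ (m + 3) := by
      rw [ContinuousLinearMap.comp_assoc]
      have e2 : (1 - MO p (cut (c₀ (m + 3)))) ∘L χ (m + 3) = χ (m + 3) :=
        gd_chi_cut_left he hn (hca m)
      rw [e2]
      ext x : 1
      show Vn (m + 3) (χ (m + 3) (T x)) - u (m + 3) (Vn (m + 3) (χ (m + 3) x)) =
        Vn (m + 3) (χ (m + 3) (T x) - T (χ (m + 3) x)) +
          (Vn (m + 3) (T (χ (m + 3) x)) - u (m + 3) (Vn (m + 3) (χ (m + 3) x)))
      rw [map_sub (Vn (m + 3))]; abel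
    rw [e1]
    refine (norm_add_le _ _).trans (add_le_add ?_ ?_)
    · calc _ ≤ ‖Vn (m + 3)‖ * ‖χ (m + 3) ∘L T - T ∘L χ (m + 3)‖ :=
            ContinuousLinearMap.opNorm_comp_le _ _
        _ = ‖Vn (m + 3)‖ * ‖MO p (e m) ∘L T - T ∘L MO p (e m)‖ := by rw [hcomm, norm_neg]
        _ ≤ N m * ‖MO p (e m) ∘L T - T ∘L MO p (e m)‖ :=
            mul_le_mul_of_nonneg_right (hNV m).1 (norm_nonneg _)
        _ ≤ (1 / 2) ^ m := hηN m
    · have h1 := (hbd (m + 3) (c₀ (m + 3)) le_rfl).2.2.1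
      calc _ ≤ ‖(Vn (m + 3) ∘L T - u (m + 3) ∘L Vn (m + 3)) ∘L (1 - MO p (cut (c₀ (m + 3))))‖ *
            ‖χ (m + 3)‖ := ContinuousLinearMap.opNorm_comp_le _ _
        _ ≤ (1 / (((m + 3 : ℕ) : ℝ) + 1)) * 1 :=
            mul_le_mul h1 (hχ1 _) (norm_nonneg _) (hδ _).le
        _ = _ := mul_one _
  have hBn : ∀ m, ‖B (m + 3)‖ ≤ (1 / 2) ^ m + 1 / (((m + 3 : ℕ) : ℝ) + 1) := by
    intro m
    have hn : ¬ m + 3 < 3 := by omega
    have e1 : B (m + 3) = (χ (m + 3) ∘L T - T ∘L χ (m + 3)) ∘L Wn (m + 3) +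
        χ (m + 3) ∘L ((1 - MO p (cut (c₀ (m + 3)))) ∘L
          (Wn (m + 3) ∘L u (m + 3) - T ∘L Wn (m + 3))) := by
      rw [← ContinuousLinearMap.comp_assoc]
      have e2 : χ (m + 3) ∘L (1 - MO p (cut (c₀ (m + 3)))) = χ (m + 3) :=
        gd_chi_cut_right he hn (hca m)
      rw [e2]
      ext x : 1
      show χ (m + 3) (Wn (m + 3) (u (m + 3) x)) - T (χ (m + 3) (Wn (m + 3) x)) =
        (χ (m + 3) (T (Wn (m + 3) x)) - T (χ (m + 3) (Wn (m + 3) x))) +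
          χ (m + 3) (Wn (m + 3) (u (m + 3) x) - T (Wn (m + 3) x))
      rw [map_sub (χ (m + 3))]; abel
    rw [e1]
    refine (norm_add_le _ _).trans (add_le_add ?_ ?_)
    · calc _ ≤ ‖χ (m + 3) ∘L T - T ∘L χ (m + 3)‖ * ‖Wn (m + 3)‖ :=
            ContinuousLinearMap.opNorm_comp_le _ _
        _ = ‖Wn (m + 3)‖ * ‖MO p (e m) ∘L T - T ∘L MO p (e m)‖ := by
            rw [hcomm, norm_neg, mul_comm]
        _ ≤ N m * ‖MO p (e m) ∘L T - T ∘L MO p (e m)‖ :=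
            mul_le_mul_of_nonneg_right (hNV m).2 (norm_nonneg _)
        _ ≤ (1 / 2) ^ m := hηN m
    · have h1 := (hbd (m + 3) (c₀ (m + 3)) le_rfl).2.2.2
      calc _ ≤ ‖χ (m + 3)‖ * ‖(1 - MO p (cut (c₀ (m + 3)))) ∘L
            (Wn (m + 3) ∘L u (m + 3) - T ∘L Wn (m + 3))‖ :=
            ContinuousLinearMap.opNorm_comp_le _ _
        _ ≤ 1 * (1 / (((m + 3 : ℕ) : ℝ) + 1)) :=
            mul_le_mul (hχ1 _) h1 (norm_nonneg _) zero_le_one
        _ = _ := one_mul _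
  have hlim : Tendsto (fun m : ℕ => ((1 : ℝ) / 2) ^ m + 1 / (((m + 3 : ℕ) : ℝ) + 1)) atTop
      (𝓝 0) := by
    have h1 : Tendsto (fun m : ℕ => 1 / (((m + 3 : ℕ) : ℝ) + 1)) atTop (𝓝 0) :=
      (tendsto_one_div_add_atTop_nhds_zero_nat (𝕜 := ℝ)).comp (tendsto_add_atTop_nat 3)
    simpa using hhalf.add h1
  have hA0 : Tendsto (fun n => ‖A n‖) atTop (𝓝 0) := by
    rw [← tendsto_add_atTop_iff_nat 3]
    exact squeeze_zero (fun _ => norm_nonneg _) hAn hlim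
  have hB0 : Tendsto (fun n => ‖B n‖) atTop (𝓝 0) := by
    rw [← tendsto_add_atTop_iff_nat 3]
    exact squeeze_zero (fun _ => norm_nonneg _) hBn hlim
  have hcA := cuts_compact_P hp he P hP (fun n => lp (AH (M n) (fun _ : ℕ => ℂ)) p) A hA0
  have hcB := cuts_compact_D hp he D hD (fun n => lp (AH (M n) (fun _ : ℕ => ℂ)) p) B hB0
  have eA : dsum p A = dsum p Vb ∘L dsum p (fun _ => T) - dsum p u ∘L dsum p Vb := by
    rw [dsum_comp bV bT, dsum_comp bu bV, ← dsum_sub (bV.comp bT) (bu.comp bV)]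
  have eB : dsum p B = dsum p Wb ∘L dsum p u - dsum p (fun _ => T) ∘L dsum p Wb := by
    rw [dsum_comp bW bu, dsum_comp bT bW, ← dsum_sub (bW.comp bu) (bT.comp bW)]
  -- the unitary
  have hΦs : ∀ (z : lp (YH M) p) (n i : ℕ), (Φ.symm z) n i = z (n, i) := by
    intro z n i
    rw [← hΦ (Φ.symm z) n i, Φ.apply_symm_apply]
  have huY : ∀ z : lp (fun n : ℕ => lp (AH (M n) (fun _ : ℕ => ℂ)) p) p,
      uY p M w (Φ z) = Φ (dsum p u z) := by
    intro z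
    refine lp.ext (funext fun j => ?_)
    obtain ⟨n, i⟩ := j
    rw [hΦ, dsum_apply bu]
    have h1 : (uY p M w (Φ z)) (n, i) = mat ℂ (Matrix.diagonal (w n)) ((Φ z) (n, i)) :=
      dsum_apply bY (Φ z) (n, i)
    have h2 : (u n (z n)) i = mat ℂ (Matrix.diagonal (w n)) (z n i) := dsum_apply (bu0 n) (z n) i
    rw [h1, h2, hΦ]
  let Φc : lp (fun n : ℕ => lp (AH (M n) (fun _ : ℕ => ℂ)) p) p →L[ℂ] lp (YH M) p :=
    (Φ.toContinuousLinearEquiv : _ →L[ℂ] lp (YH M) p)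
  let Φi : lp (YH M) p →L[ℂ] lp (fun n : ℕ => lp (AH (M n) (fun _ : ℕ => ℂ)) p) p :=
    (Φ.symm.toContinuousLinearEquiv : lp (YH M) p →L[ℂ] _)
  have hΦc : ∀ z, Φc z = Φ z := fun z => rfl
  have hΦi : ∀ z, Φi z = Φ.symm z := fun z => rfl
  refine ⟨M, w, Φc ∘L dsum p Vb ∘L P, D ∘L dsum p Wb ∘L Φi, e, ν, hw, ?_, ?_, ?_, he, ?_, hν, hνt,
    ?_, ?_⟩
  · -- W V = 1
    have e1 : dsum p Wb ∘L dsum p Vb = dsum p (fun n => MO p (eChi e n) ∘L MO p (eChi e n)) := by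
      rw [dsum_comp bW bV]
      congr 1
      funext n
      ext x : 1
      show χ n (Wn n (Vn n (χ n x))) = χ n (χ n x)
      have h1 : Wn n (Vn n (χ n x)) = χ n x := by
        have := congrArg (fun R => R (χ n x)) (hWV n)
        simpa using this
      rw [h1]
    rw [← hDP, ← e1]
    ext x : 1
    show D (dsum p Wb (Φi (Φc (dsum p Vb (P x))))) = D (dsum p Wb (dsum p Vb (P x)))
    rw [hΦc, hΦi, Φ.symm_apply_apply]
  · -- V T - u V
    have h1 : IsCompactOperator (Φc ∘L (dsum p Vb ∘L (P ∘L T - dsum p (fun _ => T) ∘L P) +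
        dsum p A ∘L P)) := by
      have h2 := (KEq.of_compact hcP).comp_left (dsum p Vb)
      have h3 := (h2.add (KEq.of_compact hcA)).comp_left Φc
      have h4 : Φc ∘L (dsum p Vb ∘L (0 : LL p →L[ℂ] lp (fun _ : ℕ => LL p) p) + 0) = 0 := by
        ext x : 1
        show Φc (dsum p Vb 0 + 0) = 0
        rw [map_zero, add_zero, map_zero]
      rw [h4] at h3
      exact h3.compact
    refine isCompactOperator_congr h1 fun x => ?_
    show Φc (dsum p Vb (P (T x))) - uY p M w (Φc (dsum p Vb (P x))) =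
      Φc (dsum p Vb (P (T x) - dsum p (fun _ => T) (P x)) + dsum p A (P x))
    rw [hΦc, hΦc, hΦc, huY, ← map_sub, eA]
    congr 1
    show _ = _ + (dsum p Vb (dsum p (fun _ => T) (P x)) - dsum p u (dsum p Vb (P x)))
    rw [map_sub (dsum p Vb)]; abel
  · -- W u - T W
    have h1 : IsCompactOperator (((D ∘L dsum p (fun _ => T) - T ∘L D) ∘L dsum p Wb +
        D ∘L dsum p B) ∘L Φi) := by
      have h2 := (KEq.of_compact hcD).comp_right (dsum p Wb)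
      have h3 := (h2.add (KEq.of_compact hcB)).comp_right Φi
      have h4 : ((0 : lp (fun _ : ℕ => LL p) p →L[ℂ] LL p) ∘L dsum p Wb + 0) ∘L Φi = 0 := by
        ext x : 1
        show (0 : LL p) + 0 = 0
        rw [add_zero]
      rw [h4] at h3
      exact h3.compact
    refine isCompactOperator_congr h1 fun x => ?_
    show D (dsum p Wb (Φi (uY p M w x))) - T (D (dsum p Wb (Φi x))) =
      (D (dsum p (fun _ => T) (dsum p Wb (Φi x))) - T (D (dsum p Wb (Φi x)))) +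
        D (dsum p B (Φi x))
    have e1 : Φi (uY p M w x) = dsum p u (Φi x) := by
      rw [hΦi, hΦi]
      have := huY (Φ.symm x)
      rw [Φ.apply_symm_apply] at this
      rw [this, Φ.symm_apply_apply]
    rw [e1, eB]
    show _ = _ + D (dsum p Wb (dsum p u (Φi x)) - dsum p (fun _ => T) (dsum p Wb (Φi x)))
    rw [map_sub D]; abel
  · exact squeeze_zero (fun _ => norm_nonneg _) hη1 hhalf
  · -- V is banded
    rintro x ⟨n, i⟩ hx
    show (Φc (dsum p Vb (P x))) (n, i) = 0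
    rw [hΦc, hΦ, dsum_apply bV]
    have h1 : P x n = 0 := by
      rw [hP]
      refine lp.ext (funext fun k => ?_)
      rw [qc_MO_apply (gd_phi_abs he n)]
      by_cases hk : x k = 0
      · rw [hk, mul_zero]; rfl
      · rw [gd_phi_band he hν (hx k hk)]
        simp
    rw [h1, map_zero]
    rfl
  · -- W is banded
    intro x i hx
    show (D (dsum p Wb (Φi x))) i = 0
    rw [hD]
    have h1 : ∀ n, (eD e n i : ℂ) * (dsum p Wb (Φi x) n) i = 0 := by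
      intro n
      by_cases hn : n = ν i ∨ n = ν i + 1
      · have h2 : (Φi x) n = 0 := by
          rw [hΦi]
          refine lp.ext (funext fun k => ?_)
          rw [hΦs]
          by_contra hne
          have := hx (n, k) hne
          simp only at this
          omega
        rw [dsum_apply bW, h2, map_zero]
        simp
      · push Not at hn
        rw [gd_D_band he hν hn.1 hn.2]
        simp
    rw [tsum_congr h1, tsum_zero]

end

end Pool.Agent.Helper623_LS
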