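import Pool.Agent.Helper623_LS.Step2
import Pool.Agent.Helper623_LS.GlobDil

/-! The dilation of the twisted copies of `T`, for all `m`. -/

set_option autoImplicit false

open scoped ENNReal NNReal Topology
open Filter

namespace Pool.Agent.Helper623_LS

noncomputable section

section UL

variable {X : Type} [NormedAddCommGroup X] [NormedSpace ℂ X]

theorem CB_single (n : ℤ) : CB (Finsupp.single n (1 : ℂ)) 1 := by
  intro v hv
  rw [Finsupp.sum_single_index (by simp)]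
  rw [one_mul, norm_zpow, hv, one_zpow]

theorem UL.norm_le {C : ℝ} {A B : X →L[ℂ] X} (h : UL C A B) : ‖A‖ ≤ C := by
  have h1 := h.bound _ 1 (CB_single 1)
  unfold lau at h1
  rw [Finsupp.sum_single_index (by simp)] at h1
  simpa using h1

theorem UL.norm_le' {C : ℝ} {A B : X →L[ℂ] X} (h : UL C A B) : ‖B‖ ≤ C := by
  have h1 := h.bound _ 1 (CB_single (-1))
  unfold lau at h1
  rw [Finsupp.sum_single_index (by simp)] at h1
  simpa using h1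

end UL

theorem coprod_err {X Y : Type} [NormedAddCommGroup X] [NormedSpace ℂ X] [NormedAddCommGroup Y]
    [NormedSpace ℂ Y] (A : Y →L[ℂ] X) (B : X →L[ℂ] X) (U₁ : Y →L[ℂ] Y) (U₂ T : X →L[ℂ] X) :
    (A.coprod B) ∘L (U₁.prodMap U₂) - T ∘L (A.coprod B) =
      (A ∘L U₁ - T ∘L A).coprod (B ∘L U₂ - T ∘L B) := by
  refine ContinuousLinearMap.ext fun x => ?_
  show (A (U₁ x.1) + B (U₂ x.2)) - T (A x.1 + B x.2) =
    (A (U₁ x.1) - T (A x.1)) + (B (U₂ x.2) - T (B x.2))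
  rw [map_add]
  abel

theorem ext1_one {N : ℕ} : ext1 (1 : Matrix (Fin N) (Fin N) ℂ) = 1 := by
  ext i j
  unfold ext1
  refine Fin.lastCases ?_ (fun i' => ?_) i
  · refine Fin.lastCases ?_ (fun j' => ?_) j
    · simp
    · simp only [Fin.lastCases_last, Fin.lastCases_castSucc]
      rw [Matrix.one_apply_ne]
      exact (Fin.castSucc_lt_last j').ne'
  · refine Fin.lastCases ?_ (fun j' => ?_) j
    · simp only [Fin.lastCases_last, Fin.lastCases_castSucc]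
      rw [Matrix.one_apply_ne]
      exact (Fin.castSucc_lt_last i').ne
    · simp only [Fin.lastCases_castSucc, Matrix.one_apply, Fin.castSucc_inj]

section

variable {p : ℝ≥0∞} [Fact (1 ≤ p)]

theorem Vm_err {M : ℕ → ℕ} (w : ∀ n, Fin (M n) → ℂ) (m : ℕ) (V : LL p →L[ℂ] lp (YH M) p)
    (e : ℕ → ℕ → ℝ) (ν : ℕ → ℕ) (T : LL p →L[ℂ] LL p)
    (Γ : ℕ → Matrix (Fin (m + 1)) (Fin (m + 1)) ℂ) (G' : XM p m →L[ℂ] XM p m) :
    Vm m V e G' ∘L Tm m (fun i => Γ (ν i)) T - Um M w m Γ ∘L Vm m V e G' =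
      (eA m V e ν T (uY p M w) Γ).prod (eB m e ν T Γ G') := by
  refine ContinuousLinearMap.ext fun x => ?_
  rfl

theorem Wm_err {M : ℕ → ℕ} (w : ∀ n, Fin (M n) → ℂ) (m : ℕ) (W : lp (YH M) p →L[ℂ] LL p)
    (e : ℕ → ℕ → ℝ) (ν : ℕ → ℕ) (T : LL p →L[ℂ] LL p)
    (Γ : ℕ → Matrix (Fin (m + 1)) (Fin (m + 1)) ℂ) (G : XM p m →L[ℂ] XM p m) :
    Wm m W e G ∘L Um M w m Γ - Tm m (fun i => Γ (ν i)) T ∘L Wm m W e G =
      (eC m W e ν T (uY p M w) Γ).coprod (eDD m e ν T Γ G) := by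
  unfold Wm Um Tm eC eDD
  exact coprod_err _ _ _ _ _

theorem norm_Vm_le {β : ℝ}
    (hβ : ∀ (N : ℕ) (J J' : Type) (H : J → Type) (H' : J' → Type)
      [∀ j, NormedAddCommGroup (H j)] [∀ j, InnerProductSpace ℂ (H j)]
      [∀ j, NormedAddCommGroup (H' j)] [∀ j, InnerProductSpace ℂ (H' j)]
      (A : lp H p →L[ℂ] lp H' p), ‖amp p N A‖ ≤ β * ‖A‖)
    {M : ℕ → ℕ} (m : ℕ) (V : LL p →L[ℂ] lp (YH M) p) {e : ℕ → ℕ → ℝ} (he : Cuts e)
    (G' : XM p m →L[ℂ] XM p m) {c : ℝ} (hc : ‖G'‖ ≤ c) :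
    ‖Vm m V e G'‖ ≤ β * ‖V‖ * 1 + c * 1 := by
  have h1 : ‖amp p (m + 1) V‖ ≤ β * ‖V‖ := hβ (m + 1) ℕ (ℕ × ℕ) C1 (YH M) V
  have h2 : ‖1 - mulOp p (AH (m + 1) C1) (e m)‖ ≤ 1 := he.norm_one_sub m
  have h3 : ‖mulOp p (AH (m + 1) C1) (e (m + 2))‖ ≤ 1 := he.norm_mulOp (m + 2)
  exact (norm_prod_le' _ _).trans (add_le_add (ncomp h1 h2) (ncomp hc h3))

theorem norm_Wm_le {β : ℝ}
    (hβ : ∀ (N : ℕ) (J J' : Type) (H : J → Type) (H' : J' → Type)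
      [∀ j, NormedAddCommGroup (H j)] [∀ j, InnerProductSpace ℂ (H j)]
      [∀ j, NormedAddCommGroup (H' j)] [∀ j, InnerProductSpace ℂ (H' j)]
      (A : lp H p →L[ℂ] lp H' p), ‖amp p N A‖ ≤ β * ‖A‖)
    {M : ℕ → ℕ} (m : ℕ) (W : lp (YH M) p →L[ℂ] LL p) {e : ℕ → ℕ → ℝ} (he : Cuts e)
    (G : XM p m →L[ℂ] XM p m) {c : ℝ} (hc : ‖G‖ ≤ c) :
    ‖Wm m W e G‖ ≤ 1 * (β * ‖W‖) + 1 * c := by
  have h1 : ‖amp p (m + 1) W‖ ≤ β * ‖W‖ := hβ (m + 1) (ℕ × ℕ) ℕ (YH M) C1 W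
  have h2 : ‖1 - mulOp p (AH (m + 1) C1) (e (m + 1))‖ ≤ 1 := he.norm_one_sub (m + 1)
  have h3 : ‖mulOp p (AH (m + 1) C1) (e (m + 1))‖ ≤ 1 := he.norm_mulOp (m + 1)
  exact (norm_coprod_le' _ _).trans (add_le_add (ncomp h2 h1) (ncomp h3 hc))

theorem tendsto_bound {f a b c d : ℕ → ℝ} {A B C D : ℝ} (h0 : ∀ m, 0 ≤ f m)
    (hf : ∀ m, f m ≤ A * a m + B * b m + C * c m + D * d m) (ha : Tendsto a atTop (𝓝 0))
    (hb : Tendsto b atTop (𝓝 0)) (hc : Tendsto c atTop (𝓝 0)) (hd : Tendsto d atTop (𝓝 0)) :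
    Tendsto f atTop (𝓝 0) := by
  refine squeeze_zero h0 hf ?_
  have := (((ha.const_mul A).add (hb.const_mul B)).add (hc.const_mul C)).add (hd.const_mul D)
  simpa using this

set_option maxHeartbeats 2000000 in
theorem main_dilation (hp1 : 1 < p) (hp : p ≠ ∞) (T S : LL p →L[ℂ] LL p) (hTS : T * S = 1)
    (hST : S * T = 1) (C : ℝ) (hE : Ess C T S) (Ns : List (LL p →L[ℂ] LL p))
    (hN : ∀ N ∈ Ns, N * N = 0) (hT : T = (Ns.map (fun N => 1 + N)).prod) :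
    ∃ (M : ℕ → ℕ) (g : ∀ m, ℕ → Matrix (Fin (m + 1)) (Fin (m + 1)) ℂ) (δ : ℕ → ℝ)
      (U U' : ∀ m, (YM p M m × XM p m) →L[ℂ] (YM p M m × XM p m))
      (V : ∀ m, XM p m →L[ℂ] (YM p M m × XM p m)) (W : ∀ m, (YM p M m × XM p m) →L[ℂ] XM p m),
      (∀ m i, g m i ∈ Matrix.unitaryGroup (Fin (m + 1)) ℂ) ∧ (∀ i, g 0 i = 1) ∧
      (∀ m, {i | g (m + 1) i ≠ ext1 (g m i)}.Finite) ∧ Tendsto δ atTop (𝓝 0) ∧
      (∀ m i, ‖mat ℂ (g (m + 1) i - ext1 (g m i))‖ ≤ δ m) ∧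
      (∀ m, UL 1 (U m) (U' m)) ∧ Bd V ∧ Bd W ∧
      (∀ m, W m ∘L V m = ContinuousLinearMap.id ℂ (XM p m)) ∧
      (∀ m, KEq (V m ∘L Tm m (g m) T) (U m ∘L V m)) ∧
      Tendsto (fun m => ‖V m ∘L Tm m (g m) T - U m ∘L V m‖) atTop (𝓝 0) ∧
      (∀ m, KEq (W m ∘L U m) (Tm m (g m) T ∘L W m)) ∧
      Tendsto (fun m => ‖W m ∘L U m - Tm m (g m) T ∘L W m‖) atTop (𝓝 0) := by
  obtain ⟨M, w, V, W, e, ν, hw, hWV, hκ, hκ', he, ha, hν, hνt, hbV, hbW⟩ :=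
    global_dilation hp1 hp T S hTS hST C hE
  obtain ⟨Γ, K, δ, hΓu, hΓ0, hΓs, hΓ1, hK, hKt, hΓk, hδ, hδn, hδm⟩ := exists_Gamma
  obtain ⟨β, hβ1, hβ⟩ := amp_norm (p := p) hp1 hp
  obtain ⟨c, hc0, hR⟩ := region2 (H := C1) hp1 hp Ns hN
  have hR' : ∀ m, ∃ G G' : XM p m →L[ℂ] XM p m, G * G' = 1 ∧ G' * G = 1 ∧ ‖G‖ ≤ c ∧ ‖G'‖ ≤ c ∧
      ‖gop p C1 (fun _ => Γ m 0) * theta p m T * G - G * gop p C1 (fun _ => Γ m 0)‖ ≤
        c / ((K m : ℝ) + 1) := by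
    intro m
    rw [hT]
    exact hR m (K m) (hK m) (Γ m 0) (hΓu m 0) (hΓk m)
  choose G G' hGG' hG'G hGc hG'c hγ using hR'
  have hγt : Tendsto (fun m => c / ((K m : ℝ) + 1)) atTop (𝓝 0) := by
    have h1 : Tendsto (fun n : ℕ => c / ((n : ℝ) + 1)) atTop (𝓝 0) := by
      have := tendsto_one_div_add_atTop_nhds_zero_nat (𝕜 := ℝ)
      simpa [div_eq_mul_inv] using this.const_mul c
    exact h1.comp hKt
  have ha1 := (tendsto_add_atTop_iff_nat 1).2 ha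
  have ha2 := (tendsto_add_atTop_iff_nat 2).2 ha
  have hk := compact_tail_right (p := p) hp1 hp _ hκ
  have hk' := (tendsto_add_atTop_iff_nat 1).2 (compact_tail_left (p := p) hp _ hκ')
  refine ⟨M, fun m i => Γ m (ν i), δ, fun m => Um M w m (Γ m), fun m => Um' M w m (Γ m),
    fun m => Vm m V e (G' m), fun m => Wm m W e (G m), fun m i => hΓu m _, fun i => hΓ0 _, ?_, hδ,
    fun m i => hδm m _, fun m => Um_UL hw m (Γ m) (hΓu m), ?_, ?_, ?_, ?_, ?_, ?_, ?_⟩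
  · intro m
    refine (he.fin (2 * (m + 1 + 3))).subset fun i hi => (hν _ i).2 ?_
    by_contra hcon
    refine hi ?_
    show Γ (m + 1) (ν i) = ext1 (Γ m (ν i))
    rw [hΓ1 (m + 1) (ν i) (by omega), hΓ1 m (ν i) (by omega), ext1_one]
  · exact ⟨β * ‖V‖ * 1 + c * 1, fun m => norm_Vm_le hβ m V he (G' m) (hG'c m)⟩
  · exact ⟨1 * (β * ‖W‖) + 1 * c, fun m => norm_Wm_le hβ m W he (G m) (hGc m)⟩
  · exact fun m => Wm_Vm m V W hWV he (G m) (G' m) (hGG' m)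
  · intro m
    unfold KEq
    rw [Vm_err w m V e ν T (Γ m) (G' m)]
    exact compact_prod (eA_compact hp m V he hν hbV T (uY p M w) (hΓu m) (hΓ1 m) hκ)
      (eB_compact m he hν T (hΓu m) (hΓs m) (G m) (G' m) (hGG' m) (hG'G m))
  · have h1 := tendsto_bound (f := fun m => ‖eA m V e ν T (uY p M w) (Γ m)‖)
      (A := β * ‖V‖ * β) (B := 10 * (β * ‖V‖) * (‖T‖ + 2)) (C := β) (D := 0)
      (fun m => norm_nonneg _) (fun m => ?_) ha hδ hk hδ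
    have h2 := tendsto_bound (f := fun m => ‖eB m e ν T (Γ m) (G' m)‖)
      (A := c * β) (B := c * c) (C := 0) (D := 0)
      (fun m => norm_nonneg _) (fun m => ?_) ha2 hγt hδ hδ
    · refine squeeze_zero (fun m => norm_nonneg _) (fun m => ?_) (by simpa using h1.add h2)
      rw [Vm_err w m V e ν T (Γ m) (G' m)]
      exact norm_prod_le' _ _
    · refine (eB_norm hβ m he hν T (hΓu m) (hΓs m) (G m) (G' m) (hGG' m) (hG'G m) (hG'c m)
        (hγ m)).trans (le_of_eq ?_)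
      ring
    · refine (eA_norm hp hβ1 hβ m V he hbV T (uY p M w) (hΓu m) (hδn m)).trans (le_of_eq ?_)
      ring
  · intro m
    unfold KEq
    rw [Wm_err w m W e ν T (Γ m) (G m)]
    exact compact_coprod (eC_compact hp m W he hν hbW T (uY p M w) (hΓu m) (hΓ1 m) hκ')
      (eDD_compact m he hν T (hΓu m) (hΓs m) (G m))
  · have h1 := tendsto_bound (f := fun m => ‖eC m W e ν T (uY p M w) (Γ m)‖)
      (A := β * ‖W‖ * β) (B := 10 * (β * ‖W‖) * (‖uY p M w‖ + 2)) (C := β) (D := 0)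
      (fun m => norm_nonneg _) (fun m => ?_) ha1 hδ hk' hδ
    have h2 := tendsto_bound (f := fun m => ‖eDD m e ν T (Γ m) (G m)‖)
      (A := β * c) (B := 1) (C := 0) (D := 0)
      (fun m => norm_nonneg _) (fun m => ?_) ha1 hγt hδ hδ
    · refine squeeze_zero (fun m => norm_nonneg _) (fun m => ?_) (by simpa using h1.add h2)
      rw [Wm_err w m W e ν T (Γ m) (G m)]
      exact norm_coprod_le' _ _
    · refine (eDD_norm hβ m he hν T (hΓu m) (hΓs m) (G m) (hGc m) (hγ m)).trans (le_of_eq ?_)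
      ring
    · refine (eC_norm hp hβ1 hβ m W he hbW T (uY p M w) (hΓu m) (hδn m)).trans (le_of_eq ?_)
      ring

end

end

end Pool.Agent.Helper623_LS
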