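import Pool.Agent.Helper623_LS.Rel

/-! Calculus of block diagonal operators. -/

set_option autoImplicit false

open scoped ENNReal NNReal Topology
open Filter

namespace Pool.Agent.Helper623_LS

noncomputable section

section dsum

variable {p : ℝ≥0∞} [Fact (1 ≤ p)] {J : Type} {X Y Z : J → Type}
  [∀ j, NormedAddCommGroup (X j)] [∀ j, NormedSpace ℂ (X j)]
  [∀ j, NormedAddCommGroup (Y j)] [∀ j, NormedSpace ℂ (Y j)]
  [∀ j, NormedAddCommGroup (Z j)] [∀ j, NormedSpace ℂ (Z j)]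

theorem Bd.of_le {a : ∀ j, X j →L[ℂ] Y j} {C : ℝ} (h : ∀ j, ‖a j‖ ≤ C) : Bd a := ⟨C, h⟩

theorem Bd.comp {b : ∀ j, Y j →L[ℂ] Z j} {a : ∀ j, X j →L[ℂ] Y j} (hb : Bd b) (ha : Bd a) :
    Bd (fun j => b j ∘L a j) := by
  obtain ⟨C, hC0, hC⟩ := hb.exists_nonneg
  obtain ⟨D, hD0, hD⟩ := ha.exists_nonneg
  exact ⟨C * D, fun j => ((b j).opNorm_comp_le (a j)).trans
    (mul_le_mul (hC j) (hD j) (norm_nonneg _) hC0)⟩

theorem Bd.add {a b : ∀ j, X j →L[ℂ] Y j} (ha : Bd a) (hb : Bd b) : Bd (fun j => a j + b j) := by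
  obtain ⟨C, hC⟩ := ha
  obtain ⟨D, hD⟩ := hb
  exact ⟨C + D, fun j => (norm_add_le _ _).trans (add_le_add (hC j) (hD j))⟩

theorem Bd.sub {a b : ∀ j, X j →L[ℂ] Y j} (ha : Bd a) (hb : Bd b) : Bd (fun j => a j - b j) := by
  obtain ⟨C, hC⟩ := ha
  obtain ⟨D, hD⟩ := hb
  exact ⟨C + D, fun j => (norm_sub_le _ _).trans (add_le_add (hC j) (hD j))⟩

theorem Bd.smul {a : ∀ j, X j →L[ℂ] Y j} (c : ℂ) (ha : Bd a) : Bd (fun j => c • a j) := by
  obtain ⟨C, hC⟩ := ha
  exact ⟨‖c‖ * C, fun j => (ContinuousLinearMap.opNorm_smul_le _ _).trans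
    (mul_le_mul_of_nonneg_left (hC j) (norm_nonneg _))⟩

theorem Bd.id : Bd (fun j => ContinuousLinearMap.id ℂ (X j)) :=
  ⟨1, fun _ => ContinuousLinearMap.norm_id_le⟩

theorem Bd.one : Bd (fun j => (1 : X j →L[ℂ] X j)) :=
  ⟨1, fun _ => ContinuousLinearMap.norm_id_le⟩

theorem Bd.zero : Bd (fun j => (0 : X j →L[ℂ] Y j)) := ⟨0, fun _ => by simp⟩

theorem Bd.of_eventually_zero {a b : ∀ j, X j →L[ℂ] Y j} (ha : Bd a)
    (h : ∀ j, b j = a j ∨ b j = 0) : Bd b := by
  obtain ⟨C, hC0, hC⟩ := ha.exists_nonneg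
  refine ⟨C, fun j => ?_⟩
  rcases h j with h | h
  · rw [h]; exact hC j
  · rw [h, norm_zero]; exact hC0

theorem norm_le_norm_dsum {a : ∀ j, X j →L[ℂ] Y j} (ha : Bd a) (j : J) : ‖a j‖ ≤ ‖dsum p a‖ := by
  classical
  have hp : p ≠ 0 := (lt_of_lt_of_le one_pos (Fact.out : (1 : ℝ≥0∞) ≤ p)).ne'
  have hp0 : 0 < p := pos_iff_ne_zero.2 hp
  refine ContinuousLinearMap.opNorm_le_bound _ (norm_nonneg _) fun x => ?_
  have h1 : a j x = dsum p a (lp.single p j x) j := by
    rw [dsum_apply ha, lp.single_apply_self]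
  rw [h1]
  calc ‖dsum p a (lp.single p j x) j‖ ≤ ‖dsum p a (lp.single p j x)‖ :=
        lp.norm_apply_le_norm hp _ j
    _ ≤ ‖dsum p a‖ * ‖lp.single p j x‖ := (dsum p a).le_opNorm _
    _ = ‖dsum p a‖ * ‖x‖ := by rw [lp.norm_single hp0]

theorem dsum_comp {b : ∀ j, Y j →L[ℂ] Z j} {a : ∀ j, X j →L[ℂ] Y j} (hb : Bd b) (ha : Bd a) :
    dsum p b ∘L dsum p a = dsum p (fun j => b j ∘L a j) := by
  ext x j
  show dsum p b (dsum p a x) j = _
  rw [dsum_apply hb, dsum_apply ha, dsum_apply (hb.comp ha)]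
  rfl

theorem dsum_id : dsum p (fun j => ContinuousLinearMap.id ℂ (X j)) =
    ContinuousLinearMap.id ℂ (lp X p) := by
  ext x j
  rw [dsum_apply Bd.id]
  rfl

theorem dsum_one : dsum p (fun j => (1 : X j →L[ℂ] X j)) = 1 := dsum_id

theorem dsum_add {a b : ∀ j, X j →L[ℂ] Y j} (ha : Bd a) (hb : Bd b) :
    dsum p (fun j => a j + b j) = dsum p a + dsum p b := by
  ext x j
  rw [dsum_apply (ha.add hb)]
  show _ = (dsum p a x + dsum p b x) j
  rw [lp.coeFn_add, Pi.add_apply, dsum_apply ha, dsum_apply hb]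
  rfl

theorem dsum_sub {a b : ∀ j, X j →L[ℂ] Y j} (ha : Bd a) (hb : Bd b) :
    dsum p (fun j => a j - b j) = dsum p a - dsum p b := by
  ext x j
  rw [dsum_apply (ha.sub hb)]
  show _ = (dsum p a x - dsum p b x) j
  rw [lp.coeFn_sub, Pi.sub_apply, dsum_apply ha, dsum_apply hb]
  rfl

theorem dsum_smul {a : ∀ j, X j →L[ℂ] Y j} (c : ℂ) (ha : Bd a) :
    dsum p (fun j => c • a j) = c • dsum p a := by
  ext x j
  rw [dsum_apply (ha.smul c)]
  show _ = (c • dsum p a x) j
  rw [lp.coeFn_smul, Pi.smul_apply, dsum_apply ha]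
  rfl

theorem dsum_zero : dsum p (fun j => (0 : X j →L[ℂ] Y j)) = 0 := by
  ext x j
  rw [dsum_apply Bd.zero]
  rfl

theorem Bd.mul {a b : ∀ j, X j →L[ℂ] X j} (hb : Bd b) (ha : Bd a) :
    Bd (fun j => b j * a j) := hb.comp ha

theorem dsum_mul {a b : ∀ j, X j →L[ℂ] X j} (hb : Bd b) (ha : Bd a) :
    dsum p b * dsum p a = dsum p (fun j => b j * a j) := dsum_comp hb ha

theorem Bd.pow {a : ∀ j, X j →L[ℂ] X j} (ha : Bd a) (n : ℕ) : Bd (fun j => a j ^ n) := by
  induction n with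
  | zero => simpa using Bd.one
  | succ n ih => simpa only [pow_succ] using ih.mul ha

theorem dsum_pow {a : ∀ j, X j →L[ℂ] X j} (ha : Bd a) (n : ℕ) :
    (dsum p a) ^ n = dsum p (fun j => a j ^ n) := by
  induction n with
  | zero => simp only [pow_zero]; exact dsum_one.symm
  | succ n ih => rw [pow_succ, ih, dsum_mul (ha.pow n) ha]; simp only [pow_succ]

theorem Bd.sum {ι : Type} (s : Finset ι) {a : ι → ∀ j, X j →L[ℂ] Y j} (ha : ∀ i ∈ s, Bd (a i)) :
    Bd (fun j => ∑ i ∈ s, a i j) := by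
  classical
  induction s using Finset.induction_on with
  | empty => simpa using Bd.zero
  | insert i s hi ih =>
    simp only [Finset.sum_insert hi]
    exact (ha i (Finset.mem_insert_self i s)).add
      (ih fun k hk => ha k (Finset.mem_insert_of_mem hk))

theorem dsum_sum {ι : Type} (s : Finset ι) {a : ι → ∀ j, X j →L[ℂ] Y j}
    (ha : ∀ i ∈ s, Bd (a i)) :
    dsum p (fun j => ∑ i ∈ s, a i j) = ∑ i ∈ s, dsum p (a i) := by
  classical
  induction s using Finset.induction_on with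
  | empty => simpa using dsum_zero
  | insert i s hi ih =>
    simp only [Finset.sum_insert hi]
    rw [dsum_add (ha i (Finset.mem_insert_self i s))
      (Bd.sum s fun k hk => ha k (Finset.mem_insert_of_mem hk)),
      ih fun k hk => ha k (Finset.mem_insert_of_mem hk)]

theorem lau_dsum (f : ℤ →₀ ℂ) {a b : ∀ j, X j →L[ℂ] X j} (ha : Bd a) (hb : Bd b) :
    lau f (dsum p a) (dsum p b) = dsum p (fun j => lau f (a j) (b j)) := by
  unfold lau Finsupp.sum
  rw [dsum_sum]
  · refine Finset.sum_congr rfl fun n _ => ?_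
    by_cases h : 0 ≤ n
    · simp only [if_pos h]
      rw [dsum_pow ha, dsum_smul _ (ha.pow _)]
    · simp only [if_neg h]
      rw [dsum_pow hb, dsum_smul _ (hb.pow _)]
  · intro n _
    by_cases h : 0 ≤ n
    · simp only [if_pos h]; exact (ha.pow _).smul _
    · simp only [if_neg h]; exact (hb.pow _).smul _

theorem UL.dsum {C : ℝ} (hC : 0 ≤ C) {a b : ∀ j, X j →L[ℂ] X j} (ha : Bd a) (hb : Bd b)
    (h : ∀ j, UL C (a j) (b j)) : UL C (dsum p a) (dsum p b) where
  mul := by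
    rw [dsum_mul ha hb]
    simp only [fun j => (h j).mul]
    exact dsum_one
  mul' := by
    rw [dsum_mul hb ha]
    simp only [fun j => (h j).mul']
    exact dsum_one
  bound f M hf := by
    rw [lau_dsum f ha hb]
    exact norm_dsum_le (mul_nonneg hC hf.nonneg) fun j => (h j).bound f M hf

/-! ### Compactness -/

theorem dsum_single_compact [DecidableEq J] (i : J) (A : X i →L[ℂ] Y i) (hA : IsCompactOperator A) :
    IsCompactOperator ((lp.singleContinuousLinearMap ℂ Y p i) ∘L A ∘L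
      (lp.evalCLM ℂ X p i)) :=
  (((KEq.of_compact hA).comp_right _).comp_left _).trans (KEq.of_eq (by ext; simp)) |>.compact

/-- A block diagonal operator with compact entries whose norms tend to zero is compact. -/
theorem dsum_compact [∀ j, CompleteSpace (Y j)] {a : ∀ j, X j →L[ℂ] Y j}
    (hc : ∀ j, IsCompactOperator (a j)) (h0 : Tendsto (fun j => ‖a j‖) cofinite (𝓝 0)) :
    IsCompactOperator (dsum p a) := by
  classical
  have ha : Bd a := by
    have h1 : ∀ᶠ j in cofinite, ‖a j‖ ≤ 1 := (h0.eventually (ge_mem_nhds one_pos))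
    rw [eventually_cofinite] at h1
    have hfin : (Set.range fun x : {j // ¬ ‖a j‖ ≤ 1} => ‖a x.1‖).Finite := by
      haveI : Finite {j // ¬ ‖a j‖ ≤ 1} := h1
      exact Set.finite_range _
    obtain ⟨C, hC⟩ := hfin.bddAbove
    refine ⟨max C 1, fun j => ?_⟩
    by_cases hj : ‖a j‖ ≤ 1
    · exact hj.trans (le_max_right _ _)
    · exact (hC ⟨⟨j, hj⟩, rfl⟩).trans (le_max_left _ _)
  -- truncations
  let tr : Finset J → (lp X p →L[ℂ] lp Y p) := fun s => dsum p (fun j => if j ∈ s then a j else 0)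
  have htr : ∀ s : Finset J, Bd (fun j => if j ∈ s then a j else 0) := fun s =>
    ha.of_eventually_zero fun j => by by_cases h : j ∈ s <;> simp [h]
  have hcomp : ∀ s, IsCompactOperator (tr s) := by
    intro s
    have e : tr s = ∑ i ∈ s, (lp.singleContinuousLinearMap ℂ Y p i) ∘L (a i) ∘L
        (lp.evalCLM ℂ X p i) := by
      ext x j
      rw [dsum_apply (htr s), ContinuousLinearMap.sum_apply, lp.coeFn_sum, Finset.sum_apply]
      by_cases hj : j ∈ s
      · rw [if_pos hj, Finset.sum_eq_single j]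
        · simp [lp.evalCLM]
        · intro i _ hij
          simp only [ContinuousLinearMap.comp_apply, lp.singleContinuousLinearMap_apply]
          exact lp.single_apply_ne p i _ hij.symm
        · exact fun h => absurd hj h
      · rw [if_neg hj, Finset.sum_eq_zero]
        · rfl
        · intro i hi
          have hij : j ≠ i := fun h => hj (h ▸ hi)
          simp only [ContinuousLinearMap.comp_apply, lp.singleContinuousLinearMap_apply]
          exact lp.single_apply_ne p i _ hij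
    rw [e]
    refine KEq.compact ?_
    have := KEq.sum s (A := fun i => (lp.singleContinuousLinearMap ℂ Y p i) ∘L (a i) ∘L
        (lp.evalCLM ℂ X p i)) (B := fun _ => 0) fun i _ =>
          KEq.of_compact (dsum_single_compact (p := p) i (a i) (hc i))
    simpa using this
  have hlim : Tendsto tr atTop (𝓝 (dsum p a)) := by
    rw [Metric.tendsto_atTop]
    intro ε hε
    have h1 : ∀ᶠ j in cofinite, ‖a j‖ ≤ ε / 2 := h0.eventually (ge_mem_nhds (by positivity))
    rw [eventually_cofinite] at h1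
    refine ⟨h1.toFinset, fun s hs => ?_⟩
    rw [dist_eq_norm]
    have e : tr s - dsum p a = dsum p (fun j => (if j ∈ s then a j else 0) - a j) :=
      (dsum_sub (htr s) ha).symm
    rw [e]
    refine lt_of_le_of_lt (norm_dsum_le (C := ε / 2) (by positivity) fun j => ?_) (by linarith)
    by_cases hj : j ∈ s
    · rw [if_pos hj, sub_self, norm_zero]; positivity
    · rw [if_neg hj, zero_sub, norm_neg]
      by_contra hcon
      exact hj (hs (by simpa using hcon))
  exact isCompactOperator_of_tendsto hlim (Eventually.of_forall hcomp)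

end dsum

/-! ### Sums of families of equivalences -/

section equiv

variable {p : ℝ≥0∞} [Fact (1 ≤ p)] {J : Type} {X Y Z : J → Type}
  [∀ j, NormedAddCommGroup (X j)] [∀ j, NormedSpace ℂ (X j)]
  [∀ j, NormedAddCommGroup (Y j)] [∀ j, NormedSpace ℂ (Y j)]

/-- direct sum of a uniformly bounded family of isomorphisms -/
def dsumEquiv (p : ℝ≥0∞) [Fact (1 ≤ p)] (e : ∀ j, X j ≃L[ℂ] Y j)
    (h1 : Bd (fun j => (e j : X j →L[ℂ] Y j))) (h2 : Bd (fun j => ((e j).symm : Y j →L[ℂ] X j))) :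
    lp X p ≃L[ℂ] lp Y p :=
  ContinuousLinearEquiv.equivOfInverse (dsum p fun j => (e j : X j →L[ℂ] Y j))
    (dsum p fun j => ((e j).symm : Y j →L[ℂ] X j))
    (fun x => by
      ext j
      rw [dsum_apply h2, dsum_apply h1]; simp)
    (fun x => by
      ext j
      rw [dsum_apply h1, dsum_apply h2]; simp)

theorem dsumEquiv_apply (e : ∀ j, X j ≃L[ℂ] Y j)
    (h1 : Bd (fun j => (e j : X j →L[ℂ] Y j))) (h2 : Bd (fun j => ((e j).symm : Y j →L[ℂ] X j)))
    (x : lp X p) (j : J) : dsumEquiv p e h1 h2 x j = e j (x j) := by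
  show dsum p (fun j => (e j : X j →L[ℂ] Y j)) x j = _
  rw [dsum_apply h1]; rfl

theorem coe_dsumEquiv (e : ∀ j, X j ≃L[ℂ] Y j)
    (h1 : Bd (fun j => (e j : X j →L[ℂ] Y j))) (h2 : Bd (fun j => ((e j).symm : Y j →L[ℂ] X j))) :
    (dsumEquiv p e h1 h2 : lp X p →L[ℂ] lp Y p) = dsum p fun j => (e j : X j →L[ℂ] Y j) := rfl

/-- Similarity of block diagonal operators from blockwise similarities with errors tending to zero. -/
theorem Sim.dsum [∀ j, CompleteSpace (Y j)] {a : ∀ j, X j →L[ℂ] X j} {b : ∀ j, Y j →L[ℂ] Y j}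
    (ha : Bd a) (hb : Bd b) (e : ∀ j, X j ≃L[ℂ] Y j)
    (h1 : Bd (fun j => (e j : X j →L[ℂ] Y j))) (h2 : Bd (fun j => ((e j).symm : Y j →L[ℂ] X j)))
    (hc : ∀ j, KEq ((e j : X j →L[ℂ] Y j) ∘L a j) (b j ∘L (e j : X j →L[ℂ] Y j)))
    (h0 : Tendsto (fun j => ‖(e j : X j →L[ℂ] Y j) ∘L a j - b j ∘L (e j : X j →L[ℂ] Y j)‖)
      cofinite (𝓝 0)) : Sim (Helper623_LS.dsum p a) (Helper623_LS.dsum p b) := by
  refine ⟨dsumEquiv p e h1 h2, ?_⟩
  rw [coe_dsumEquiv, dsum_comp h1 ha, dsum_comp hb h1]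
  unfold KEq
  rw [← dsum_sub (h1.comp ha) (hb.comp h1)]
  exact dsum_compact hc h0

/-- `ℓ^p`-sum of products. -/
def lpProd (p : ℝ≥0∞) [Fact (1 ≤ p)] (X Y : J → Type)
    [∀ j, NormedAddCommGroup (X j)] [∀ j, NormedSpace ℂ (X j)]
    [∀ j, NormedAddCommGroup (Y j)] [∀ j, NormedSpace ℂ (Y j)] :
    lp (fun j => X j × Y j) p ≃L[ℂ] (lp X p × lp Y p) :=
  ContinuousLinearEquiv.equivOfInverse
    ((dsum p fun j => ContinuousLinearMap.fst ℂ (X j) (Y j)).prod
      (dsum p fun j => ContinuousLinearMap.snd ℂ (X j) (Y j)))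
    ((dsum p fun j => ContinuousLinearMap.inl ℂ (X j) (Y j)).coprod
      (dsum p fun j => ContinuousLinearMap.inr ℂ (X j) (Y j)))
    (fun x => by
      have hf : Bd (fun j => ContinuousLinearMap.fst ℂ (X j) (Y j)) :=
        ⟨1, fun j => ContinuousLinearMap.norm_fst_le ..⟩
      have hs : Bd (fun j => ContinuousLinearMap.snd ℂ (X j) (Y j)) :=
        ⟨1, fun j => ContinuousLinearMap.norm_snd_le ..⟩
      have hl : Bd (fun j => ContinuousLinearMap.inl ℂ (X j) (Y j)) :=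
        ⟨1, fun j => ContinuousLinearMap.norm_inl_le_one ..⟩
      have hr : Bd (fun j => ContinuousLinearMap.inr ℂ (X j) (Y j)) :=
        ⟨1, fun j => ContinuousLinearMap.norm_inr_le_one ..⟩
      ext j
      · show ((dsum p (fun j => ContinuousLinearMap.inl ℂ (X j) (Y j)) _ +
          dsum p (fun j => ContinuousLinearMap.inr ℂ (X j) (Y j)) _ :
            lp (fun j => X j × Y j) p) j).1 = _
        rw [lp.coeFn_add, Pi.add_apply, dsum_apply hl, dsum_apply hr, Prod.fst_add]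
        show (dsum p (fun j => ContinuousLinearMap.fst ℂ (X j) (Y j)) x) j + 0 = _
        rw [dsum_apply hf, add_zero]; rfl
      · show ((dsum p (fun j => ContinuousLinearMap.inl ℂ (X j) (Y j)) _ +
          dsum p (fun j => ContinuousLinearMap.inr ℂ (X j) (Y j)) _ :
            lp (fun j => X j × Y j) p) j).2 = _
        rw [lp.coeFn_add, Pi.add_apply, dsum_apply hl, dsum_apply hr, Prod.snd_add]
        show 0 + (dsum p (fun j => ContinuousLinearMap.snd ℂ (X j) (Y j)) x) j = _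
        rw [dsum_apply hs, zero_add]; rfl)
    (fun x => by
      have hf : Bd (fun j => ContinuousLinearMap.fst ℂ (X j) (Y j)) :=
        ⟨1, fun j => ContinuousLinearMap.norm_fst_le ..⟩
      have hs : Bd (fun j => ContinuousLinearMap.snd ℂ (X j) (Y j)) :=
        ⟨1, fun j => ContinuousLinearMap.norm_snd_le ..⟩
      have hl : Bd (fun j => ContinuousLinearMap.inl ℂ (X j) (Y j)) :=
        ⟨1, fun j => ContinuousLinearMap.norm_inl_le_one ..⟩
      have hr : Bd (fun j => ContinuousLinearMap.inr ℂ (X j) (Y j)) :=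
        ⟨1, fun j => ContinuousLinearMap.norm_inr_le_one ..⟩
      refine Prod.ext ?_ ?_
      · ext j
        show dsum p (fun j => ContinuousLinearMap.fst ℂ (X j) (Y j))
          (dsum p (fun j => ContinuousLinearMap.inl ℂ (X j) (Y j)) x.1 +
          dsum p (fun j => ContinuousLinearMap.inr ℂ (X j) (Y j)) x.2) j = _
        rw [dsum_apply hf, lp.coeFn_add, Pi.add_apply, dsum_apply hl, dsum_apply hr]
        simp
      · ext j
        show dsum p (fun j => ContinuousLinearMap.snd ℂ (X j) (Y j))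
          (dsum p (fun j => ContinuousLinearMap.inl ℂ (X j) (Y j)) x.1 +
          dsum p (fun j => ContinuousLinearMap.inr ℂ (X j) (Y j)) x.2) j = _
        rw [dsum_apply hs, lp.coeFn_add, Pi.add_apply, dsum_apply hl, dsum_apply hr]
        simp)

theorem lpProd_fst (x : lp (fun j => X j × Y j) p) (j : J) : (lpProd p X Y x).1 j = (x j).1 := by
  have hf : Bd (fun j => ContinuousLinearMap.fst ℂ (X j) (Y j)) :=
    ⟨1, fun j => ContinuousLinearMap.norm_fst_le ..⟩
  show (dsum p (fun j => ContinuousLinearMap.fst ℂ (X j) (Y j)) x) j = _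
  rw [dsum_apply hf]; rfl

theorem lpProd_snd (x : lp (fun j => X j × Y j) p) (j : J) : (lpProd p X Y x).2 j = (x j).2 := by
  have hs : Bd (fun j => ContinuousLinearMap.snd ℂ (X j) (Y j)) :=
    ⟨1, fun j => ContinuousLinearMap.norm_snd_le ..⟩
  show (dsum p (fun j => ContinuousLinearMap.snd ℂ (X j) (Y j)) x) j = _
  rw [dsum_apply hs]; rfl

theorem Bd.prodMap {X' Y' : J → Type}
    [∀ j, NormedAddCommGroup (X' j)] [∀ j, NormedSpace ℂ (X' j)]
    [∀ j, NormedAddCommGroup (Y' j)] [∀ j, NormedSpace ℂ (Y' j)]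
    {a : ∀ j, X j →L[ℂ] X' j} {b : ∀ j, Y j →L[ℂ] Y' j} (ha : Bd a) (hb : Bd b) :
    Bd (fun j => (a j).prodMap (b j)) := by
  obtain ⟨C, hC⟩ := ha
  obtain ⟨D, hD⟩ := hb
  exact ⟨max C D, fun j => norm_prodMap_le _ _ ((hC j).trans (le_max_left _ _))
    ((hD j).trans (le_max_right _ _))⟩

theorem Sim.lpProd {a : ∀ j, X j →L[ℂ] X j} {b : ∀ j, Y j →L[ℂ] Y j} (ha : Bd a) (hb : Bd b) :
    Sim (Helper623_LS.dsum p (fun j => (a j).prodMap (b j)))
      ((Helper623_LS.dsum p a).prodMap (Helper623_LS.dsum p b)) := by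
  refine Sim.of_comm (Helper623_LS.lpProd p X Y) fun x => ?_
  refine Prod.ext ?_ ?_
  · ext j
    rw [lpProd_fst, dsum_apply (ha.prodMap hb)]
    show a j (x j).1 = Helper623_LS.dsum p a (Helper623_LS.lpProd p X Y x).1 j
    rw [dsum_apply ha, lpProd_fst]
  · ext j
    rw [lpProd_snd, dsum_apply (ha.prodMap hb)]
    show b j (x j).2 = Helper623_LS.dsum p b (Helper623_LS.lpProd p X Y x).2 j
    rw [dsum_apply hb, lpProd_snd]

end equiv

/-! ### Splitting off the first summand -/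

section succ

variable {p : ℝ≥0∞} [Fact (1 ≤ p)] {X : ℕ → Type}
  [∀ j, NormedAddCommGroup (X j)] [∀ j, NormedSpace ℂ (X j)]

omit [∀ j, NormedSpace ℂ (X j)] in
theorem memℓp_succ_iff (hp : p ≠ ∞) (f : ∀ n, X n) :
    Memℓp (fun n => f (n + 1)) p ↔ Memℓp f p := by
  have hp0 : 0 < p.toReal := ENNReal.toReal_pos
    ((lt_of_lt_of_le one_pos (Fact.out : (1 : ℝ≥0∞) ≤ p)).ne') hp
  rw [memℓp_gen_iff hp0, memℓp_gen_iff hp0]
  exact summable_nat_add_iff (f := fun n => ‖f n‖ ^ p.toReal) 1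

omit [∀ j, NormedSpace ℂ (X j)] in
theorem norm_rpow_succ (hp : p ≠ ∞) (x : lp X p) (y : lp (fun n => X (n + 1)) p)
    (h : ∀ n, y n = x (n + 1)) :
    ‖x‖ ^ p.toReal = ‖x 0‖ ^ p.toReal + ‖y‖ ^ p.toReal := by
  have hp0 : 0 < p.toReal := ENNReal.toReal_pos
    ((lt_of_lt_of_le one_pos (Fact.out : (1 : ℝ≥0∞) ≤ p)).ne') hp
  rw [lp.norm_rpow_eq_tsum hp0, lp.norm_rpow_eq_tsum hp0,
    ((lp.memℓp x).summable hp0).tsum_eq_zero_add]
  simp only [h]

/-- the tail of a sequence -/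
def lpTail (hp : p ≠ ∞) : lp X p →L[ℂ] lp (fun n => X (n + 1)) p :=
  LinearMap.mkContinuous
    { toFun := fun x => (⟨fun n => x (n + 1), (memℓp_succ_iff hp _).2 (lp.memℓp x)⟩ :
        lp (fun n => X (n + 1)) p)
      map_add' := fun x y => by ext n; rfl
      map_smul' := fun c x => by ext n; rfl } 1 (by
    intro x
    have hp0 : 0 < p.toReal := ENNReal.toReal_pos
      ((lt_of_lt_of_le one_pos (Fact.out : (1 : ℝ≥0∞) ≤ p)).ne') hp
    rw [one_mul]
    rw [← Real.rpow_le_rpow_iff (norm_nonneg _) (norm_nonneg _) hp0]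
    have h1 := norm_rpow_succ hp x (⟨fun n => x (n + 1), (memℓp_succ_iff hp _).2 (lp.memℓp x)⟩ :
        lp (fun n => X (n + 1)) p) (fun n => rfl)
    rw [h1]
    exact le_add_of_nonneg_left (by positivity))

theorem lpTail_apply (hp : p ≠ ∞) (x : lp X p) (n : ℕ) : lpTail hp x n = x (n + 1) := rfl

/-- prepend an entry to a sequence -/
def lpConsFun (x : X 0) (y : ∀ n, X (n + 1)) : ∀ n, X n
  | 0 => x
  | n + 1 => y n

/-- prepend an entry to a sequence -/
def lpCons (hp : p ≠ ∞) : (X 0 × lp (fun n => X (n + 1)) p) →L[ℂ] lp X p :=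
  LinearMap.mkContinuous
    { toFun := fun x => (⟨lpConsFun x.1 (fun n => x.2 n),
        (memℓp_succ_iff hp (lpConsFun x.1 (fun n => x.2 n))).1 (lp.memℓp x.2)⟩ : lp X p)
      map_add' := fun x y => by ext n; cases n <;> rfl
      map_smul' := fun c x => by ext n; cases n <;> rfl } (2 ^ (1 / p.toReal)) (by
    intro x
    have hp0 : 0 < p.toReal := ENNReal.toReal_pos
      ((lt_of_lt_of_le one_pos (Fact.out : (1 : ℝ≥0∞) ≤ p)).ne') hp
    rw [← Real.rpow_le_rpow_iff (norm_nonneg _) (by positivity) hp0]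
    rw [Real.mul_rpow (by positivity) (norm_nonneg _), ← Real.rpow_mul (by norm_num),
      one_div_mul_cancel hp0.ne', Real.rpow_one]
    refine (le_of_eq (norm_rpow_succ hp (⟨lpConsFun x.1 (fun n => x.2 n),
        (memℓp_succ_iff hp (lpConsFun x.1 (fun n => x.2 n))).1 (lp.memℓp x.2)⟩ : lp X p) x.2
        (fun n => rfl))).trans ?_
    have h1 : ‖lpConsFun x.1 (fun n => x.2 n) 0‖ ^ p.toReal ≤ ‖x‖ ^ p.toReal :=
      Real.rpow_le_rpow (norm_nonneg _) (norm_fst_le x) hp0.le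
    have h2 : ‖x.2‖ ^ p.toReal ≤ ‖x‖ ^ p.toReal :=
      Real.rpow_le_rpow (norm_nonneg _) (norm_snd_le x) hp0.le
    calc _ ≤ ‖x‖ ^ p.toReal + ‖x‖ ^ p.toReal := add_le_add h1 h2
      _ = _ := by ring)

/-- `ℓ^p(X) ≅ X 0 × ℓ^p(X (· + 1))` -/
def lpSucc (hp : p ≠ ∞) : lp X p ≃L[ℂ] (X 0 × lp (fun n => X (n + 1)) p) :=
  ContinuousLinearEquiv.equivOfInverse
    ((lp.evalCLM ℂ X p 0).prod (lpTail hp)) (lpCons hp)
    (fun x => by ext n; cases n <;> rfl)
    (fun x => by
      refine Prod.ext ?_ ?_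
      · rfl
      · ext n; rfl)

theorem lpSucc_fst (hp : p ≠ ∞) (x : lp X p) : (lpSucc hp x).1 = x 0 := rfl

theorem lpSucc_snd (hp : p ≠ ∞) (x : lp X p) (n : ℕ) : (lpSucc hp x).2 n = x (n + 1) := rfl

theorem Sim.lpSucc (hp : p ≠ ∞) {a : ∀ j, X j →L[ℂ] X j} (ha : Bd a) :
    Sim (Helper623_LS.dsum p a) ((a 0).prodMap (Helper623_LS.dsum p (fun n => a (n + 1)))) := by
  have ha' : Bd (fun n => a (n + 1)) := by
    obtain ⟨C, hC⟩ := ha
    exact ⟨C, fun n => hC _⟩
  refine Sim.of_comm (Helper623_LS.lpSucc hp) fun x => ?_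
  refine Prod.ext ?_ ?_
  · rw [lpSucc_fst, dsum_apply ha]; rfl
  · ext n
    rw [lpSucc_snd, dsum_apply ha]
    show _ = Helper623_LS.dsum p (fun n => a (n + 1)) (Helper623_LS.lpSucc hp x).2 n
    rw [dsum_apply ha', lpSucc_snd]

end succ

end

end Pool.Agent.Helper623_LS
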