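import Pool.Agent.Helper623_LS.Rel

/-! Task FRED: index zero operators are compact perturbations of invertible ones.

Proof. `T₂` has finite dimensional kernel and cokernel, so its range is closed and both are complemented.
Let `R` be the pseudo-inverse: `E = ker T₂ ⊕ X₁`, `E = ran T₂ ⊕ Z₂`, `R = 0` on `Z₂`, `R = (T₂|X₁)⁻¹` on
`ran T₂`. -/

set_option autoImplicit false
open scoped ENNReal NNReal Topology
open Filter
namespace Pool.Agent.Helper623_LS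

namespace Fred

variable {E : Type} [NormedAddCommGroup E] [NormedSpace ℂ E]

/-- Decompositions of the domain and of the range of a Fredholm operator. -/
structure FD (T : E →L[ℂ] E) where
  X : Submodule ℂ E
  K : Submodule ℂ E
  Z : Submodule ℂ E
  fK : FiniteDimensional ℂ K
  fZ : FiniteDimensional ℂ Z
  Φ : (X × K) ≃L[ℂ] E
  Ψ : (X × Z) ≃L[ℂ] E
  h : ∀ x k, T (Φ (x, k)) = Ψ (x, 0)
  hK : Module.finrank ℂ K = Module.finrank ℂ (LinearMap.ker (T : E →ₗ[ℂ] E))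
  hZ : Module.finrank ℂ Z = Module.finrank ℂ (E ⧸ LinearMap.range (T : E →ₗ[ℂ] E))

theorem nonempty_FD [CompleteSpace E] (T : E →L[ℂ] E)
    (hk : FiniteDimensional ℂ (LinearMap.ker (T : E →ₗ[ℂ] E)))
    (hc : FiniteDimensional ℂ (E ⧸ LinearMap.range (T : E →ₗ[ℂ] E))) : Nonempty (FD T) := by
  obtain ⟨X, hXc, hX⟩ := (Submodule.ClosedComplemented.of_finiteDimensional
    (𝕜 := ℂ) (LinearMap.ker (T : E →ₗ[ℂ] E))).exists_isClosed_isCompl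
  obtain ⟨Z, hZ⟩ := Submodule.exists_isCompl (LinearMap.range (T : E →ₗ[ℂ] E))
  have eZ := Submodule.quotientEquivOfIsCompl _ _ hZ
  have fZ : FiniteDimensional ℂ Z := Module.Finite.equiv eZ
  have : CompleteSpace X := hXc.completeSpace_coe
  have : CompleteSpace Z := FiniteDimensional.complete ℂ Z
  have : CompleteSpace (LinearMap.ker (T : E →ₗ[ℂ] E)) := FiniteDimensional.complete ℂ _
  let Φ0 : (X × LinearMap.ker (T : E →ₗ[ℂ] E)) →L[ℂ] E :=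
    X.subtypeL.coprod (LinearMap.ker (T : E →ₗ[ℂ] E)).subtypeL
  let Ψ0 : (X × Z) →L[ℂ] E := (T ∘L X.subtypeL).coprod Z.subtypeL
  have hΦ0 : ∀ x k, Φ0 (x, k) = (x : E) + k := fun x k => by simp [Φ0]
  have hΨ0 : ∀ x z, Ψ0 (x, z) = T x + z := fun x z => by simp [Ψ0]
  have hdec : ∀ e : E, ∃ (x : X) (k : LinearMap.ker (T : E →ₗ[ℂ] E)), (x : E) + k = e := by
    intro e
    have : e ∈ X ⊔ LinearMap.ker (T : E →ₗ[ℂ] E) := by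
      rw [sup_comm, hX.sup_eq_top]; exact Submodule.mem_top
    obtain ⟨x, hx, k, hk, hxk⟩ := Submodule.mem_sup.1 this
    exact ⟨⟨x, hx⟩, ⟨k, hk⟩, hxk⟩
  have hTk : ∀ k : LinearMap.ker (T : E →ₗ[ℂ] E), T k = 0 := fun k => LinearMap.mem_ker.1 k.2
  have hXK : ∀ e : E, e ∈ X → T e = 0 → e = 0 := by
    intro e he hT
    have : e ∈ LinearMap.ker (T : E →ₗ[ℂ] E) ⊓ X := ⟨LinearMap.mem_ker.2 hT, he⟩
    rw [hX.inf_eq_bot] at this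
    exact (Submodule.mem_bot ℂ).1 this
  have hRZ : ∀ e : E, (∃ e', T e' = e) → e ∈ Z → e = 0 := by
    rintro e ⟨e', he'⟩ hz
    have : e ∈ LinearMap.range (T : E →ₗ[ℂ] E) ⊓ Z := ⟨⟨e', he'⟩, hz⟩
    rw [hZ.inf_eq_bot] at this
    exact (Submodule.mem_bot ℂ).1 this
  have hΦi : LinearMap.ker (Φ0 : (X × LinearMap.ker (T : E →ₗ[ℂ] E)) →ₗ[ℂ] E) = ⊥ := by
    rw [LinearMap.ker_eq_bot']
    rintro ⟨x, k⟩ h
    have h : Φ0 (x, k) = 0 := h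
    rw [hΦ0] at h
    have hx : (x : E) = 0 := by
      apply hXK _ x.2
      have := congrArg T h
      rw [map_add, hTk, add_zero, map_zero] at this
      exact this
    have hk0 : (k : E) = 0 := by rw [hx, zero_add] at h; exact h
    exact Prod.ext (Subtype.ext hx) (Subtype.ext hk0)
  have hΦs : LinearMap.range (Φ0 : (X × LinearMap.ker (T : E →ₗ[ℂ] E)) →ₗ[ℂ] E) = ⊤ := by
    rw [LinearMap.range_eq_top]
    intro e
    obtain ⟨x, k, hxk⟩ := hdec e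
    exact ⟨(x, k), by rw [← hxk]; exact hΦ0 x k⟩
  have hΨi : LinearMap.ker (Ψ0 : (X × Z) →ₗ[ℂ] E) = ⊥ := by
    rw [LinearMap.ker_eq_bot']
    rintro ⟨x, z⟩ h
    have h : Ψ0 (x, z) = 0 := h
    rw [hΨ0] at h
    have hz : (z : E) = 0 := by
      apply hRZ _ ⟨-x, _⟩ z.2
      rw [map_neg]
      exact (eq_neg_of_add_eq_zero_right h).symm
    have hx : (x : E) = 0 := by
      apply hXK _ x.2
      rw [hz, add_zero] at h; exact h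
    exact Prod.ext (Subtype.ext hx) (Subtype.ext hz)
  have hΨs : LinearMap.range (Ψ0 : (X × Z) →ₗ[ℂ] E) = ⊤ := by
    rw [LinearMap.range_eq_top]
    intro e
    have : e ∈ LinearMap.range (T : E →ₗ[ℂ] E) ⊔ Z := by
      rw [hZ.sup_eq_top]; exact Submodule.mem_top
    obtain ⟨_, ⟨e', rfl⟩, z, hz, hxz⟩ := Submodule.mem_sup.1 this
    obtain ⟨x, k, hxk⟩ := hdec e'
    refine ⟨(x, ⟨z, hz⟩), ?_⟩
    rw [← hxz]
    change Ψ0 (x, ⟨z, hz⟩) = T e' + z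
    rw [hΨ0, ← hxk, map_add, hTk, add_zero]
  exact ⟨{
    X := X
    K := LinearMap.ker (T : E →ₗ[ℂ] E)
    Z := Z
    fK := hk
    fZ := fZ
    Φ := ContinuousLinearEquiv.ofBijective Φ0 hΦi hΦs
    Ψ := ContinuousLinearEquiv.ofBijective Ψ0 hΨi hΨs
    h := fun x k => by
      simp only [ContinuousLinearEquiv.coeFn_ofBijective]
      rw [hΦ0, hΨ0, map_add, hTk]
      simp
    hK := rfl
    hZ := eZ.finrank_eq.symm }⟩

theorem compact_factor {V W U : Type} [NormedAddCommGroup V] [NormedSpace ℂ V]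
    [FiniteDimensional ℂ V] [NormedAddCommGroup W] [NormedSpace ℂ W]
    [NormedAddCommGroup U] [NormedSpace ℂ U] (F : V →L[ℂ] U) (G : W →L[ℂ] V)
    {A B : W →L[ℂ] U} (h : ∀ x, A x - B x = F (G x)) : KEq A B := by
  have : ProperSpace V := FiniteDimensional.proper ℂ V
  have h1 : IsCompactOperator (F ∘ G) :=
    (isCompactOperator_of_locallyCompactSpace_rng F).comp_clm G
  exact isCompactOperator_congr h1 fun x => by simpa using h x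

/-- the pseudo-inverse -/
noncomputable def FD.R {T : E →L[ℂ] E} (d : FD T) : E →L[ℂ] E :=
  (d.Φ : (d.X × d.K) →L[ℂ] E) ∘L (ContinuousLinearMap.inl ℂ d.X d.K) ∘L
    (ContinuousLinearMap.fst ℂ d.X d.Z) ∘L (d.Ψ.symm : E →L[ℂ] (d.X × d.Z))

theorem FD.R_apply {T : E →L[ℂ] E} (d : FD T) (x : d.X) (z : d.Z) :
    d.R (d.Ψ (x, z)) = d.Φ (x, 0) := by
  simp [FD.R]

theorem FD.TR {T : E →L[ℂ] E} (d : FD T) : KEq (T * d.R) 1 := by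
  have := d.fZ
  refine compact_factor (V := d.Z)
    (-((d.Ψ : (d.X × d.Z) →L[ℂ] E) ∘L ContinuousLinearMap.inr ℂ d.X d.Z))
    ((ContinuousLinearMap.snd ℂ d.X d.Z) ∘L (d.Ψ.symm : E →L[ℂ] (d.X × d.Z))) fun y => ?_
  obtain ⟨⟨x, z⟩, rfl⟩ := d.Ψ.surjective y
  have e1 : (T * d.R) (d.Ψ (x, z)) = d.Ψ (x, 0) := by
    change T (d.R (d.Ψ (x, z))) = _
    rw [d.R_apply, d.h]
  rw [e1]
  have e2 : d.Ψ (x, z) = d.Ψ (x, 0) + d.Ψ (0, z) := by rw [← map_add]; simp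
  simp [e2]

theorem FD.RT {T : E →L[ℂ] E} (d : FD T) : KEq (d.R * T) 1 := by
  have := d.fK
  refine compact_factor (V := d.K)
    (-((d.Φ : (d.X × d.K) →L[ℂ] E) ∘L ContinuousLinearMap.inr ℂ d.X d.K))
    ((ContinuousLinearMap.snd ℂ d.X d.K) ∘L (d.Φ.symm : E →L[ℂ] (d.X × d.K))) fun y => ?_
  obtain ⟨⟨x, k⟩, rfl⟩ := d.Φ.surjective y
  have e1 : (d.R * T) (d.Φ (x, k)) = d.Φ (x, 0) := by
    change d.R (T (d.Φ (x, k))) = _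
    rw [d.h, d.R_apply]
  rw [e1]
  have e2 : d.Φ (x, k) = d.Φ (x, 0) + d.Φ (0, k) := by rw [← map_add]; simp
  simp [e2]

theorem FD.inv {T₁ T₂ : E →L[ℂ] E} (d₁ : FD T₁) (d₂ : FD T₂)
    (hdim : Module.finrank ℂ d₁.K + Module.finrank ℂ d₂.Z =
      Module.finrank ℂ d₁.Z + Module.finrank ℂ d₂.K) :
    ∃ A B : (E × E) →L[ℂ] (E × E), A * B = 1 ∧ B * A = 1 ∧ KEq A (T₁.prodMap d₂.R) := by
  have := d₁.fK
  have := d₁.fZ
  have := d₂.fK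
  have := d₂.fZ
  have hfr : Module.finrank ℂ (d₁.K × d₂.Z) = Module.finrank ℂ (d₁.Z × d₂.K) := by
    rw [Module.finrank_prod, Module.finrank_prod]; exact hdim
  let θ : (d₁.K × d₂.Z) ≃L[ℂ] (d₁.Z × d₂.K) := ContinuousLinearEquiv.ofFinrankEq hfr
  let W : ((d₁.X × d₁.K) × (d₂.X × d₂.Z)) ≃L[ℂ] ((d₁.X × d₁.Z) × (d₂.X × d₂.K)) :=
    ((ContinuousLinearEquiv.prodProdProdComm ℂ d₁.X d₁.K d₂.X d₂.Z).trans
      ((ContinuousLinearEquiv.refl ℂ (d₁.X × d₂.X)).prodCongr θ)).trans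
      (ContinuousLinearEquiv.prodProdProdComm ℂ d₁.X d₂.X d₁.Z d₂.K)
  let e : (E × E) ≃L[ℂ] (E × E) :=
    ((d₁.Φ.symm.prodCongr d₂.Ψ.symm).trans W).trans (d₁.Ψ.prodCongr d₂.Φ)
  refine ⟨(e : (E × E) →L[ℂ] (E × E)), (e.symm : (E × E) →L[ℂ] (E × E)), ?_, ?_, ?_⟩
  · exact ContinuousLinearMap.ext fun x => e.apply_symm_apply x
  · exact ContinuousLinearMap.ext fun x => e.symm_apply_apply x
  · refine compact_factor (V := d₁.K × d₂.Z)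
      (((d₁.Ψ : (d₁.X × d₁.Z) →L[ℂ] E) ∘L ContinuousLinearMap.inr ℂ d₁.X d₁.Z).prodMap
        ((d₂.Φ : (d₂.X × d₂.K) →L[ℂ] E) ∘L ContinuousLinearMap.inr ℂ d₂.X d₂.K) ∘L
          (θ : (d₁.K × d₂.Z) →L[ℂ] (d₁.Z × d₂.K)))
      (((ContinuousLinearMap.snd ℂ d₁.X d₁.K) ∘L (d₁.Φ.symm : E →L[ℂ] (d₁.X × d₁.K))).prodMap
        ((ContinuousLinearMap.snd ℂ d₂.X d₂.Z) ∘L (d₂.Ψ.symm : E →L[ℂ] (d₂.X × d₂.Z))))
      fun y => ?_
    obtain ⟨y₁, y₂⟩ := y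
    obtain ⟨⟨x₁, k₁⟩, rfl⟩ := d₁.Φ.surjective y₁
    obtain ⟨⟨x₂, z₂⟩, rfl⟩ := d₂.Ψ.surjective y₂
    have e1 : e (d₁.Φ (x₁, k₁), d₂.Ψ (x₂, z₂)) =
        (d₁.Ψ (x₁, (θ (k₁, z₂)).1), d₂.Φ (x₂, (θ (k₁, z₂)).2)) := by
      simp [e, W]
    have e2 : (T₁.prodMap d₂.R) (d₁.Φ (x₁, k₁), d₂.Ψ (x₂, z₂)) =
        (d₁.Ψ (x₁, 0), d₂.Φ (x₂, 0)) := by
      change (T₁ (d₁.Φ (x₁, k₁)), d₂.R (d₂.Ψ (x₂, z₂))) = _
      rw [d₁.h, d₂.R_apply]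
    change e (d₁.Φ (x₁, k₁), d₂.Ψ (x₂, z₂)) - _ = _
    rw [e1, e2]
    have f1 : ∀ a, d₁.Ψ (x₁, a) = d₁.Ψ (x₁, 0) + d₁.Ψ (0, a) := fun a => by
      rw [← map_add]; simp
    have f2 : ∀ a, d₂.Φ (x₂, a) = d₂.Φ (x₂, 0) + d₂.Φ (0, a) := fun a => by
      rw [← map_add]; simp
    rw [f1, f2]
    simp
    rfl

end Fred

open Fred

theorem fredholm_reduction {E : Type} [NormedAddCommGroup E] [NormedSpace ℂ E] [CompleteSpace E]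
    (T₁ T₂ : E →L[ℂ] E)
    (h1k : FiniteDimensional ℂ (LinearMap.ker (T₁ : E →ₗ[ℂ] E)))
    (h1c : FiniteDimensional ℂ (E ⧸ LinearMap.range (T₁ : E →ₗ[ℂ] E)))
    (h2k : FiniteDimensional ℂ (LinearMap.ker (T₂ : E →ₗ[ℂ] E)))
    (h2c : FiniteDimensional ℂ (E ⧸ LinearMap.range (T₂ : E →ₗ[ℂ] E)))
    (hind : (Module.finrank ℂ (LinearMap.ker (T₁ : E →ₗ[ℂ] E)) : ℤ) -
        (Module.finrank ℂ (E ⧸ LinearMap.range (T₁ : E →ₗ[ℂ] E)) : ℤ) =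
      (Module.finrank ℂ (LinearMap.ker (T₂ : E →ₗ[ℂ] E)) : ℤ) -
        (Module.finrank ℂ (E ⧸ LinearMap.range (T₂ : E →ₗ[ℂ] E)) : ℤ)) :
    ∃ (R : E →L[ℂ] E) (A₁ B₁ A₂ B₂ : (E × E) →L[ℂ] (E × E)),
      KEq (T₂ * R) 1 ∧ KEq (R * T₂) 1 ∧
      A₁ * B₁ = 1 ∧ B₁ * A₁ = 1 ∧ KEq A₁ (T₁.prodMap R) ∧
      A₂ * B₂ = 1 ∧ B₂ * A₂ = 1 ∧ KEq A₂ (T₂.prodMap R) := by
  obtain ⟨d₁⟩ := nonempty_FD T₁ h1k h1c
  obtain ⟨d₂⟩ := nonempty_FD T₂ h2k h2c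
  have k1 := d₁.hK
  have z1 := d₁.hZ
  have k2 := d₂.hK
  have z2 := d₂.hZ
  obtain ⟨A₁, B₁, a1, a2, a3⟩ := d₁.inv d₂ (by rw [k1, z1, k2, z2]; omega)
  obtain ⟨A₂, B₂, b1, b2, b3⟩ := d₂.inv d₂ (by omega)
  exact ⟨d₂.R, A₁, B₁, A₂, B₂, d₂.TR, d₂.RT, a1, a2, a3, b1, b2, b3⟩

end Pool.Agent.Helper623_LS
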