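import Pool.Agent.Helper623_LS.Triv
import Pool.Agent.Helper623_LS.Fred

/-! The stable similarity theorem. -/

set_option autoImplicit false

open scoped ENNReal NNReal Topology
open Filter

namespace Pool.Agent.Helper623_LS

noncomputable section

section shuffle

variable {A B C D E F : Type} [NormedAddCommGroup A] [NormedSpace ℂ A]
  [NormedAddCommGroup B] [NormedSpace ℂ B] [NormedAddCommGroup C] [NormedSpace ℂ C]
  [NormedAddCommGroup D] [NormedSpace ℂ D] [NormedAddCommGroup E] [NormedSpace ℂ E]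
  [NormedAddCommGroup F] [NormedSpace ℂ F]

theorem Sim.absorb_left {w : A →L[ℂ] A} {y : B →L[ℂ] B} (x : C →L[ℂ] C)
    (h : Sim (w.prodMap y) y) : Sim (w.prodMap (y.prodMap x)) (y.prodMap x) :=
  (Sim.prod_assoc w y x).symm.trans (h.prod (Sim.refl x))

theorem Sim.absorb_right {w : A →L[ℂ] A} {x : C →L[ℂ] C} (y : B →L[ℂ] B)
    (h : Sim (w.prodMap x) x) : Sim (w.prodMap (y.prodMap x)) (y.prodMap x) := by
  have s1 : Sim (w.prodMap (y.prodMap x)) ((w.prodMap y).prodMap x) := (Sim.prod_assoc w y x).symm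
  have s2 : Sim ((w.prodMap y).prodMap x) ((y.prodMap w).prodMap x) :=
    (Sim.prod_comm w y).prod (Sim.refl x)
  have s3 : Sim ((y.prodMap w).prodMap x) (y.prodMap (w.prodMap x)) := Sim.prod_assoc y w x
  exact ((s1.trans s2).trans s3).trans ((Sim.refl y).prod h)

/-- rearrangement of six summands -/
theorem Sim.shuffle (a : A →L[ℂ] A) (b : B →L[ℂ] B) (c : C →L[ℂ] C) (d : D →L[ℂ] D)
    (e : E →L[ℂ] E) (f : F →L[ℂ] F) :
    Sim (a.prodMap (b.prodMap (((c.prodMap d).prodMap e).prodMap f)))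
      (c.prodMap (((a.prodMap d).prodMap b).prodMap (e.prodMap f))) := by
  -- `b × (((c × d) × e) × f) ~ (c × d) × (b × (e × f))`
  have s1 : Sim (b.prodMap (((c.prodMap d).prodMap e).prodMap f))
      ((c.prodMap d).prodMap (b.prodMap (e.prodMap f))) := by
    have t1 : Sim (b.prodMap (((c.prodMap d).prodMap e).prodMap f))
        (b.prodMap ((c.prodMap d).prodMap (e.prodMap f))) :=
      (Sim.refl b).prod (Sim.prod_assoc _ _ _)
    have t2 : Sim (b.prodMap ((c.prodMap d).prodMap (e.prodMap f)))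
        ((b.prodMap (c.prodMap d)).prodMap (e.prodMap f)) := (Sim.prod_assoc _ _ _).symm
    have t3 : Sim ((b.prodMap (c.prodMap d)).prodMap (e.prodMap f))
        (((c.prodMap d).prodMap b).prodMap (e.prodMap f)) :=
      (Sim.prod_comm _ _).prod (Sim.refl _)
    exact ((t1.trans t2).trans t3).trans (Sim.prod_assoc _ _ _)
  -- `a × ((c × d) × g) ~ c × (((a × d) × b) × (e × f))`, `g = b × (e × f)`
  have s2 : Sim (a.prodMap ((c.prodMap d).prodMap (b.prodMap (e.prodMap f))))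
      ((a.prodMap (c.prodMap d)).prodMap (b.prodMap (e.prodMap f))) := (Sim.prod_assoc _ _ _).symm
  have s3 : Sim (a.prodMap (c.prodMap d)) (c.prodMap (a.prodMap d)) :=
    ((Sim.prod_assoc a c d).symm.trans ((Sim.prod_comm a c).prod (Sim.refl d))).trans
      (Sim.prod_assoc c a d)
  have s4 : Sim ((c.prodMap (a.prodMap d)).prodMap (b.prodMap (e.prodMap f)))
      (c.prodMap ((a.prodMap d).prodMap (b.prodMap (e.prodMap f)))) := Sim.prod_assoc _ _ _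
  have s5 : Sim ((a.prodMap d).prodMap (b.prodMap (e.prodMap f)))
      (((a.prodMap d).prodMap b).prodMap (e.prodMap f)) := (Sim.prod_assoc _ _ _).symm
  exact (((((Sim.refl a).prod s1).trans s2).trans (s3.prod (Sim.refl _))).trans s4).trans
    ((Sim.refl c).prod s5)

/-- The cancellation argument. -/
theorem sim_of_triv {t₁ t₂ : A →L[ℂ] A} {r : B →L[ℂ] B} {a₁ a₂ : C →L[ℂ] C} {u₁ v₁ u₂ v₂ : D →L[ℂ] D}
    {t : E →L[ℂ] E} (h₁ : Sim a₁ (t₁.prodMap r)) (h₂ : Sim a₂ (t₂.prodMap r))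
    (k₁ : Sim (a₁.prodMap u₁) v₁) (k₂ : Sim (a₂.prodMap u₂) v₂) (m₁ : Sim (u₁.prodMap t) t)
    (n₁ : Sim (v₁.prodMap t) t) (m₂ : Sim (u₂.prodMap t) t) (n₂ : Sim (v₂.prodMap t) t) :
    Sim (t₁.prodMap t) (t₂.prodMap t) := by
  have k₁' : Sim ((t₁.prodMap r).prodMap u₁) v₁ := (h₁.symm.prod (Sim.refl u₁)).trans k₁
  have k₂' : Sim ((t₂.prodMap r).prodMap u₂) v₂ := (h₂.symm.prod (Sim.refl u₂)).trans k₂
  have s1 : Sim (t₁.prodMap t) (t₁.prodMap (u₁.prodMap t)) := (Sim.refl t₁).prod m₁.symm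
  have s2 : Sim (t₁.prodMap (u₁.prodMap t)) (t₁.prodMap (u₁.prodMap (v₂.prodMap t))) :=
    (Sim.refl t₁).prod ((Sim.refl u₁).prod n₂.symm)
  have s3 : Sim (t₁.prodMap (u₁.prodMap (v₂.prodMap t)))
      (t₁.prodMap (u₁.prodMap (((t₂.prodMap r).prodMap u₂).prodMap t))) :=
    (Sim.refl t₁).prod ((Sim.refl u₁).prod (k₂'.symm.prod (Sim.refl t)))
  have s4 := Sim.shuffle t₁ u₁ t₂ r u₂ t
  have s5 : Sim (t₂.prodMap (((t₁.prodMap r).prodMap u₁).prodMap (u₂.prodMap t)))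
      (t₂.prodMap (v₁.prodMap t)) := (Sim.refl t₂).prod (k₁'.prod m₂)
  exact ((((s1.trans s2).trans s3).trans s4).trans s5).trans ((Sim.refl t₂).prod n₁)

end shuffle

variable {p : ℝ≥0∞} [Fact (1 ≤ p)]

theorem Bd.const {X Y : Type} [NormedAddCommGroup X] [NormedSpace ℂ X] [NormedAddCommGroup Y]
    [NormedSpace ℂ Y] (A : X →L[ℂ] Y) : Bd (fun _ : ℕ => A) := ⟨‖A‖, fun _ => le_rfl⟩

theorem absorb_dsum (hp : p ≠ ∞) (W : LL p →L[ℂ] LL p) :
    Sim (W.prodMap (dsum p (fun _ : ℕ => W))) (dsum p (fun _ : ℕ => W)) :=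
  (Sim.lpSucc hp (Bd.const W)).symm

theorem UL.dsum_const {C : ℝ} (hC : 0 ≤ C) {W W' : LL p →L[ℂ] LL p} (h : UL C W W') :
    UL C (Helper623_LS.dsum p (fun _ : ℕ => W)) (Helper623_LS.dsum p (fun _ : ℕ => W')) :=
  UL.dsum hC (Bd.const W) (Bd.const W') fun _ => h

/-- The theorem, for pairs of Fredholm operators with inverses modulo compacts. -/
theorem stable_similarity (hp1 : 1 < p) (hp : p ≠ ∞) {E : Type} [NormedAddCommGroup E]
    [NormedSpace ℂ E] (σ : E ≃L[ℂ] LL p) (C : ℝ) (T₁ T₂ S₁ S₂ : E →L[ℂ] E)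
    (h₁ : Ess C T₁ S₁) (h₂ : Ess C T₂ S₂)
    (h1k : FiniteDimensional ℂ (LinearMap.ker (T₁ : E →ₗ[ℂ] E)))
    (h1c : FiniteDimensional ℂ (E ⧸ LinearMap.range (T₁ : E →ₗ[ℂ] E)))
    (h2k : FiniteDimensional ℂ (LinearMap.ker (T₂ : E →ₗ[ℂ] E)))
    (h2c : FiniteDimensional ℂ (E ⧸ LinearMap.range (T₂ : E →ₗ[ℂ] E)))
    (hind : (Module.finrank ℂ (LinearMap.ker (T₁ : E →ₗ[ℂ] E)) : ℤ) -
        (Module.finrank ℂ (E ⧸ LinearMap.range (T₁ : E →ₗ[ℂ] E)) : ℤ) =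
      (Module.finrank ℂ (LinearMap.ker (T₂ : E →ₗ[ℂ] E)) : ℤ) -
        (Module.finrank ℂ (E ⧸ LinearMap.range (T₂ : E →ₗ[ℂ] E)) : ℤ)) :
    ∃ (C' : ℝ) (T₀ U : E →L[ℂ] E), 1 ≤ C' ∧ UL C' T₀ U ∧ Sim (T₁.prodMap T₀) (T₂.prodMap T₀) := by
  have hcomplete : CompleteSpace E :=
    (completeSpace_congr (e := σ.toEquiv) σ.isUniformEmbedding).2 inferInstance
  obtain ⟨R, A₁, B₁, A₂, B₂, hT₂R, hRT₂, hAB₁, hBA₁, hA₁, hAB₂, hBA₂, hA₂⟩ :=
    fredholm_reduction T₁ T₂ h1k h1c h2k h2c hind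
  -- the pseudo-inverse is in the class
  have hRS : KEq S₂ R := by
    have e1 : KEq (S₂ * (T₂ * R)) (S₂ * 1) := (KEq.refl S₂).mul hT₂R
    have e2 : KEq ((S₂ * T₂) * R) (1 * R) := h₂.mul'.mul (KEq.refl R)
    rw [mul_one] at e1
    rw [one_mul, mul_assoc] at e2
    exact e1.symm.trans e2
  have hR : Ess C R T₂ := h₂.swap.congr hRS (KEq.refl T₂)
  have key : ∀ (T S : E →L[ℂ] E) (A B : (E × E) →L[ℂ] (E × E)), Ess C T S → A * B = 1 → B * A = 1 →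
      KEq A (T.prodMap R) → Triv p A := by
    intro T S A B hTS hAB hBA hA
    have h3 : Ess C (T.prodMap R) (S.prodMap T₂) := hTS.prod hR
    have hB : KEq (S.prodMap T₂) B := by
      have e1 : KEq ((S.prodMap T₂) * A * B) ((S.prodMap T₂) * (T.prodMap R) * B) :=
        ((KEq.refl _).mul hA).mul (KEq.refl B)
      have e2 : KEq ((S.prodMap T₂) * (T.prodMap R) * B) (1 * B) := h3.mul'.mul (KEq.refl B)
      rw [mul_assoc, hAB, mul_one] at e1
      rw [one_mul] at e2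
      exact e1.trans e2
    have h4 : Ess C A B := h3.congr hA.symm hB
    obtain ⟨b⟩ := exists_prodLL (p := p) hp
    exact triv_of_inv hp1 hp ((σ.prodCongr σ).trans b) A B hAB hBA C h4
  obtain ⟨C₁, U₁, U₁', V₁, V₁', hU₁, hV₁, k₁⟩ := key T₁ S₁ A₁ B₁ h₁ hAB₁ hBA₁ hA₁
  obtain ⟨C₂, U₂, U₂', V₂, V₂', hU₂, hV₂, k₂⟩ := key T₂ S₂ A₂ B₂ h₂ hAB₂ hBA₂ hA₂
  -- a common constant
  set c : ℝ := max (max C₁ C₂) 1 with hc
  have hc0 : 0 ≤ c := zero_le_one.trans (le_max_right _ _)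
  have hc1 : C₁ ≤ c := (le_max_left _ _).trans (le_max_left _ _)
  have hc2 : C₂ ≤ c := (le_max_right _ _).trans (le_max_left _ _)
  -- the operator `t`
  obtain ⟨a⟩ := exists_lpLL (p := p) hp
  obtain ⟨b⟩ := exists_prodLL (p := p) hp
  let Z : Type := lp (fun _ : ℕ => LL p) p
  let dd : (LL p →L[ℂ] LL p) → (Z →L[ℂ] Z) := fun W => dsum p (fun _ : ℕ => W)
  have hdd : ∀ W, Sim (W.prodMap (dd W)) (dd W) := fun W => absorb_dsum hp W
  have hUL : ∀ W W', UL c W W' → UL c (dd W) (dd W') := fun W W' h => UL.dsum_const hc0 h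
  let t : (Z × (Z × (Z × Z))) →L[ℂ] (Z × (Z × (Z × Z))) :=
    (dd U₁).prodMap ((dd V₁).prodMap ((dd U₂).prodMap (dd V₂)))
  let t' : (Z × (Z × (Z × Z))) →L[ℂ] (Z × (Z × (Z × Z))) :=
    (dd U₁').prodMap ((dd V₁').prodMap ((dd U₂').prodMap (dd V₂')))
  have ht : UL c t t' :=
    (hUL _ _ (hU₁.mono hc1)).prod ((hUL _ _ (hV₁.mono hc1)).prod
      ((hUL _ _ (hU₂.mono hc2)).prod (hUL _ _ (hV₂.mono hc2))))
  have m₁ : Sim (U₁.prodMap t) t := Sim.absorb_left _ (hdd U₁)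
  have n₁ : Sim (V₁.prodMap t) t := Sim.absorb_right _ (Sim.absorb_left _ (hdd V₁))
  have m₂ : Sim (U₂.prodMap t) t :=
    Sim.absorb_right _ (Sim.absorb_right _ (Sim.absorb_left _ (hdd U₂)))
  have n₂ : Sim (V₂.prodMap t) t :=
    Sim.absorb_right _ (Sim.absorb_right _ (Sim.absorb_right _ (hdd V₂)))
  have main : Sim (T₁.prodMap t) (T₂.prodMap t) :=
    sim_of_triv (Sim.of_KEq hA₁) (Sim.of_KEq hA₂) k₁ k₂ m₁ n₁ m₂ n₂
  -- transport to `E`
  let zz : (Z × Z) ≃L[ℂ] LL p := (a.prodCongr a).trans b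
  let z3 : (Z × (Z × Z)) ≃L[ℂ] LL p := (a.prodCongr zz).trans b
  let z4 : (Z × (Z × (Z × Z))) ≃L[ℂ] E := ((a.prodCongr z3).trans b).trans σ.symm
  have hz : UL _ (cj z4 t) (cj z4 t') := ht.conj z4
  refine ⟨_, cj z4 t, cj z4 t', le_max_right _ 1, hz.mono (le_max_left _ _), ?_⟩
  have f1 : Sim (T₁.prodMap (cj z4 t)) (T₁.prodMap t) := (Sim.refl T₁).prod (Sim.cj z4 t).symm
  have f2 : Sim (T₂.prodMap t) (T₂.prodMap (cj z4 t)) := (Sim.refl T₂).prod (Sim.cj z4 t)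
  exact (f1.trans main).trans f2

end

end Pool.Agent.Helper623_LS
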