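import Pool.Agent.Helper623_LS.Rel

/-! Slowly varying unitary matrices (job of helper623, done by helper202). -/

set_option autoImplicit false
open scoped ENNReal NNReal Topology
open Filter
namespace Pool.Agent.Helper623_LS

namespace GA

open scoped Matrix Matrix.Norms.L2Operator

/-- the operator of a matrix -/
theorem mat_eq {N : ℕ} (a : Matrix (Fin N) (Fin N) ℂ) :
    (mat ℂ a : EuclideanSpace ℂ (Fin N) →L[ℂ] EuclideanSpace ℂ (Fin N)) =
      Matrix.toEuclideanCLM (n := Fin N) (𝕜 := ℂ) a := by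
  ext x i
  rw [Matrix.ofLp_toEuclideanCLM]
  unfold mat
  simp only [sum_apply, smul_apply,
    ContinuousLinearMap.comp_apply, Matrix.mulVec, dotProduct]
  have key : ∀ k l : Fin N, (a k l • (sgl N ℂ k) ((PiLp.proj (𝕜 := ℂ) 2 (fun _ : Fin N => ℂ) l) x)
      : PiLp 2 (fun _ : Fin N => ℂ)) i = if i = k then a k l * x l else 0 := by
    intro k l
    simp only [sgl, ContinuousLinearMap.comp_apply, PiLp.smul_apply, smul_eq_mul]
    by_cases h : i = k
    · subst h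
      simp
    · simp [h]
  rw [WithLp.ofLp_sum, Finset.sum_apply]
  rw [Finset.sum_eq_single i]
  · rw [WithLp.ofLp_sum, Finset.sum_apply]
    refine Finset.sum_congr rfl fun l _ => ?_
    rw [key, if_pos rfl]
  · intro k _ hk
    rw [WithLp.ofLp_sum, Finset.sum_apply]
    refine Finset.sum_eq_zero fun l _ => ?_
    rw [key, if_neg hk.symm]
  · intro h; exact absurd (Finset.mem_univ i) h

theorem norm_mat {N : ℕ} (a : Matrix (Fin N) (Fin N) ℂ) : ‖mat ℂ a‖ = ‖a‖ := by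
  rw [← Matrix.l2_opNorm_toEuclideanCLM, ← mat_eq]

/-- basis vectors -/
def ev (N k : ℕ) : Fin N → ℂ := fun i => if (i : ℕ) = k then 1 else 0

/-- the vector `e_0 - e_j` -/
def vv (N j : ℕ) : Fin N → ℂ := ev N 0 - ev N j

/-- the projection -/
noncomputable def Q (N j : ℕ) : Matrix (Fin N) (Fin N) ℂ :=
  (1 / 2 : ℂ) • Matrix.vecMulVec (vv N j) (vv N j)

theorem ev_dot (N i j : ℕ) (hi : i < N) : ev N i ⬝ᵥ ev N j = if i = j then 1 else 0 := by
  unfold ev dotProduct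
  rw [Finset.sum_eq_single (⟨i, hi⟩ : Fin N)]
  · simp
  · intro k _ hk
    have : (k : ℕ) ≠ i := fun h => hk (Fin.ext h)
    simp [this]
  · intro h; exact absurd (Finset.mem_univ _) h

theorem vv_dot (N j : ℕ) (h1 : 1 ≤ j) (h2 : j < N) : vv N j ⬝ᵥ vv N j = 2 := by
  unfold vv
  rw [sub_dotProduct, dotProduct_sub, dotProduct_sub, ev_dot _ _ _ (by omega), ev_dot _ _ _ (by omega),
    ev_dot _ _ _ h2, ev_dot _ _ _ h2]
  have h3 : (0 : ℕ) ≠ j := by omega
  have h4 : j ≠ 0 := by omega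
  simp [h3, h4]
  norm_num

theorem Q_sq (N j : ℕ) (h1 : 1 ≤ j) (h2 : j < N) : Q N j * Q N j = Q N j := by
  unfold Q
  rw [smul_mul_smul_comm, Matrix.vecMulVec_mul_vecMulVec, vv_dot N j h1 h2]
  rw [Matrix.vecMulVec_smul, smul_smul]
  norm_num

theorem star_vv (N j : ℕ) : star (vv N j) = vv N j := by
  funext i
  simp only [vv, ev, Pi.star_apply, Pi.sub_apply, star_sub]
  split_ifs <;> simp

theorem Q_star (N j : ℕ) : star (Q N j) = Q N j := by
  unfold Q
  rw [star_smul, Matrix.star_eq_conjTranspose, Matrix.conjTranspose_vecMulVec, star_vv]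
  congr 1
  simp

theorem Q_norm (N j : ℕ) (h1 : 1 ≤ j) (h2 : j < N) : ‖Q N j‖ ≤ 1 := by
  have h3 : ‖Q N j‖ * ‖Q N j‖ = ‖Q N j‖ := by
    rw [← CStarRing.norm_star_mul_self, Q_star, Q_sq N j h1 h2]
  nlinarith [norm_nonneg (Q N j)]

/-- the phase -/
noncomputable def zz (c : ℝ) : ℂ := Complex.exp ((Real.pi * c : ℝ) * Complex.I)

theorem zz_norm (c : ℝ) : ‖zz c‖ = 1 := Complex.norm_exp_ofReal_mul_I _

theorem zz_mul (c : ℝ) : zz c * star (zz c) = 1 := by
  rw [Complex.star_def, Complex.mul_conj, Complex.normSq_eq_norm_sq, zz_norm]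
  simp

theorem zz_sub (c d : ℝ) : ‖zz c - zz d‖ ≤ Real.pi * |c - d| := by
  have h : ‖zz c - zz d‖ = ‖Complex.exp (((Real.pi * (c - d) : ℝ)) * Complex.I) - 1‖ := by
    have : zz c - zz d = zz d * (Complex.exp (((Real.pi * (c - d) : ℝ)) * Complex.I) - 1) := by
      rw [mul_sub, mul_one]
      congr 1
      unfold zz
      rw [← Complex.exp_add]
      congr 1
      push_cast
      ring
    rw [this, norm_mul, zz_norm, one_mul]
  rw [h]
  have h2 := Real.norm_exp_I_mul_ofReal_sub_one_le (x := Real.pi * (c - d))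
  rw [mul_comm] at h2
  refine h2.trans ?_
  rw [Real.norm_eq_abs, abs_mul, abs_of_pos Real.pi_pos]

/-- the partial swap -/
noncomputable def sgm (N j : ℕ) (c : ℝ) : Matrix (Fin N) (Fin N) ℂ := 1 + (zz c - 1) • Q N j

theorem zz_zero : zz 0 = 1 := by simp [zz]

theorem zz_one : zz 1 = -1 := by
  unfold zz
  rw [mul_one]
  exact Complex.exp_pi_mul_I

theorem sgm_zero (N j : ℕ) : sgm N j 0 = 1 := by
  unfold sgm
  rw [zz_zero]; simp

theorem sgm_unitary (N j : ℕ) (c : ℝ) (h1 : 1 ≤ j) (h2 : j < N) :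
    sgm N j c ∈ Matrix.unitaryGroup (Fin N) ℂ := by
  rw [Matrix.mem_unitaryGroup_iff]
  unfold sgm
  rw [star_add, star_one, star_smul, Q_star, mul_add, add_mul, add_mul, one_mul, mul_one, one_mul,
    smul_mul_smul_comm, Q_sq N j h1 h2, star_sub, star_one]
  have : (1 : Matrix (Fin N) (Fin N) ℂ) + (zz c - 1) • Q N j +
      ((star (zz c) - 1) • Q N j + ((zz c - 1) * (star (zz c) - 1)) • Q N j) =
      1 + (zz c * star (zz c) - 1) • Q N j := by
    rw [add_assoc, ← add_smul, ← add_smul]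
    congr 2
    ring
  rw [this, zz_mul, sub_self, zero_smul, add_zero]

theorem sgm_sub (N j : ℕ) (c d : ℝ) (h1 : 1 ≤ j) (h2 : j < N) :
    ‖sgm N j c - sgm N j d‖ ≤ Real.pi * |c - d| := by
  have : sgm N j c - sgm N j d = (zz c - zz d) • Q N j := by
    unfold sgm
    rw [add_sub_add_left_eq_sub, ← sub_smul]
    congr 1
    ring
  rw [this, norm_smul]
  calc ‖zz c - zz d‖ * ‖Q N j‖ ≤ ‖zz c - zz d‖ * 1 :=
        mul_le_mul_of_nonneg_left (Q_norm N j h1 h2) (norm_nonneg _)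
    _ ≤ _ := by rw [mul_one]; exact zz_sub c d

/-- the products -/
noncomputable def pr (N : ℕ) (c : ℕ → ℝ) : ℕ → Matrix (Fin N) (Fin N) ℂ
  | 0 => 1
  | j + 1 => sgm N (j + 1) (c (j + 1)) * pr N c j

theorem pr_unitary (N : ℕ) (c : ℕ → ℝ) : ∀ j, j < N → pr N c j ∈ Matrix.unitaryGroup (Fin N) ℂ
  | 0, _ => (Matrix.unitaryGroup (Fin N) ℂ).one_mem
  | j + 1, h => (Matrix.unitaryGroup (Fin N) ℂ).mul_mem
      (sgm_unitary N (j + 1) _ (by omega) h) (pr_unitary N c j (by omega))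

theorem unitary_norm {N : ℕ} {U : Matrix (Fin N) (Fin N) ℂ}
    (hU : U ∈ Matrix.unitaryGroup (Fin N) ℂ) : ‖U‖ ≤ 1 := by
  have h1 : star U * U = 1 := Matrix.mem_unitaryGroup_iff'.1 hU
  have h2 : ‖U‖ * ‖U‖ = ‖(1 : Matrix (Fin N) (Fin N) ℂ)‖ := by
    rw [← CStarRing.norm_star_mul_self, h1]
  have h3 : ‖(1 : Matrix (Fin N) (Fin N) ℂ)‖ * ‖(1 : Matrix (Fin N) (Fin N) ℂ)‖ =
      ‖(1 : Matrix (Fin N) (Fin N) ℂ)‖ := by
    rw [← CStarRing.norm_star_mul_self, star_one, one_mul]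
  have h4 : ‖(1 : Matrix (Fin N) (Fin N) ℂ)‖ ≤ 1 := by
    nlinarith [norm_nonneg (1 : Matrix (Fin N) (Fin N) ℂ)]
  nlinarith [norm_nonneg U]

theorem pr_sub (N : ℕ) (c d : ℕ → ℝ) : ∀ j, j < N →
    ‖pr N c j - pr N d j‖ ≤ Real.pi * ∑ i ∈ Finset.range j, |c (i + 1) - d (i + 1)|
  | 0, _ => by simp [pr]
  | j + 1, h => by
    have ih := pr_sub N c d j (by omega)
    have e : pr N c (j + 1) - pr N d (j + 1) =
        sgm N (j + 1) (c (j + 1)) * (pr N c j - pr N d j) +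
        (sgm N (j + 1) (c (j + 1)) - sgm N (j + 1) (d (j + 1))) * pr N d j := by
      simp only [pr]
      noncomm_ring
    rw [e, Finset.sum_range_succ, mul_add]
    refine (norm_add_le _ _).trans (add_le_add ?_ ?_)
    · refine (norm_mul_le _ _).trans ?_
      have h1 := unitary_norm (sgm_unitary N (j + 1) (c (j + 1)) (by omega) h)
      calc _ ≤ 1 * ‖pr N c j - pr N d j‖ := mul_le_mul_of_nonneg_right h1 (norm_nonneg _)
        _ ≤ _ := by rw [one_mul]; exact ih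
    · refine (norm_mul_le _ _).trans ?_
      have h1 := unitary_norm (pr_unitary N d j (by omega))
      have h2 := sgm_sub N (j + 1) (c (j + 1)) (d (j + 1)) (by omega) h
      calc _ ≤ ‖sgm N (j + 1) (c (j + 1)) - sgm N (j + 1) (d (j + 1))‖ * 1 :=
            mul_le_mul_of_nonneg_left h1 (norm_nonneg _)
        _ ≤ _ := by rw [mul_one]; exact h2

theorem pr_zero (N : ℕ) (c : ℕ → ℝ) : ∀ j, (∀ i, i < j → c (i + 1) = 0) → pr N c j = 1
  | 0, _ => rfl
  | j + 1, h => by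
    rw [pr, pr_zero N c j (fun i hi => h i (by omega)), h j (by omega), sgm_zero, one_mul]

/-! extension -/

theorem ext1_last_last {N : ℕ} (a : Matrix (Fin N) (Fin N) ℂ) :
    ext1 a (Fin.last N) (Fin.last N) = 1 := by simp [ext1]

theorem ext1_last_cast {N : ℕ} (a : Matrix (Fin N) (Fin N) ℂ) (j : Fin N) :
    ext1 a (Fin.last N) j.castSucc = 0 := by simp [ext1]

theorem ext1_cast_last {N : ℕ} (a : Matrix (Fin N) (Fin N) ℂ) (i : Fin N) :
    ext1 a i.castSucc (Fin.last N) = 0 := by simp [ext1]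

theorem ext1_cast_cast {N : ℕ} (a : Matrix (Fin N) (Fin N) ℂ) (i j : Fin N) :
    ext1 a i.castSucc j.castSucc = a i j := by simp [ext1]

theorem ext1_one {N : ℕ} : ext1 (1 : Matrix (Fin N) (Fin N) ℂ) = 1 := by
  ext i j
  refine Fin.lastCases ?_ (fun i => ?_) i
  · refine Fin.lastCases ?_ (fun j => ?_) j
    · rw [ext1_last_last]; simp
    · rw [ext1_last_cast, Matrix.one_apply_ne]
      exact (Fin.castSucc_lt_last j).ne'
  · refine Fin.lastCases ?_ (fun j => ?_) j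
    · rw [ext1_cast_last, Matrix.one_apply_ne]
      exact (Fin.castSucc_lt_last i).ne
    · rw [ext1_cast_cast, Matrix.one_apply, Matrix.one_apply]
      simp [Fin.castSucc_inj]

theorem ext1_mul {N : ℕ} (a b : Matrix (Fin N) (Fin N) ℂ) : ext1 (a * b) = ext1 a * ext1 b := by
  ext i j
  rw [Matrix.mul_apply, Fin.sum_univ_castSucc]
  refine Fin.lastCases ?_ (fun i => ?_) i
  · refine Fin.lastCases ?_ (fun j => ?_) j
    · simp only [ext1_last_last, ext1_last_cast, ext1_cast_last]; simp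
    · simp only [ext1_last_last, ext1_last_cast]; simp
  · refine Fin.lastCases ?_ (fun j => ?_) j
    · simp only [ext1_last_last, ext1_cast_last]; simp
    · simp only [ext1_cast_last, ext1_cast_cast, ext1_last_cast, Matrix.mul_apply]; simp

theorem ev_cast (N k : ℕ) (i : Fin N) : ev (N + 1) k i.castSucc = ev N k i := rfl

theorem ev_last (N k : ℕ) (hk : k < N) : ev (N + 1) k (Fin.last N) = 0 := by
  unfold ev
  rw [if_neg]
  simp
  omega

theorem ext1_sgm (N j : ℕ) (c : ℝ) (h2 : j < N) : ext1 (sgm N j c) = sgm (N + 1) j c := by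
  have h0 : 0 < N := by omega
  have hl : vv (N + 1) j (Fin.last N) = 0 := by
    unfold vv
    rw [Pi.sub_apply, ev_last N 0 h0, ev_last N j h2, sub_zero]
  have hc : ∀ i : Fin N, vv (N + 1) j i.castSucc = vv N j i := fun i => rfl
  ext i k
  have e : ∀ (M : ℕ) (i k : Fin M), sgm M j c i k = (1 : Matrix (Fin M) (Fin M) ℂ) i k +
      (zz c - 1) * ((1 / 2) * (vv M j i * vv M j k)) := fun M i k => rfl
  refine Fin.lastCases ?_ (fun i => ?_) i
  · refine Fin.lastCases ?_ (fun k => ?_) k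
    · rw [ext1_last_last, e, hl]; simp
    · rw [ext1_last_cast, e, hl, Matrix.one_apply_ne (Fin.castSucc_lt_last k).ne']; simp
  · refine Fin.lastCases ?_ (fun k => ?_) k
    · rw [ext1_cast_last, e, hl, Matrix.one_apply_ne (Fin.castSucc_lt_last i).ne]; simp
    · rw [ext1_cast_cast, e, e, hc, hc]
      congr 1
      rw [Matrix.one_apply, Matrix.one_apply]
      simp [Fin.castSucc_inj]

theorem ext1_pr (N : ℕ) (c : ℕ → ℝ) : ∀ j, j < N → ext1 (pr N c j) = pr (N + 1) c j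
  | 0, _ => ext1_one
  | j + 1, h => by
    rw [pr, pr, ext1_mul, ext1_sgm N _ _ h, ext1_pr N c j (by omega)]

/-! the shift -/

theorem Q_mulVec (N j : ℕ) (x : Fin N → ℂ) :
    Q N j *ᵥ x = ((1 / 2 : ℂ) * (vv N j ⬝ᵥ x)) • vv N j := by
  unfold Q
  rw [Matrix.smul_mulVec, Matrix.vecMulVec_mulVec]
  funext i
  simp only [Pi.smul_apply, smul_eq_mul, MulOpposite.smul_eq_mul_unop, MulOpposite.unop_op]
  ring

theorem sgm_mulVec (N j : ℕ) (c : ℝ) (x : Fin N → ℂ) :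
    sgm N j c *ᵥ x = x + ((zz c - 1) * ((1 / 2 : ℂ) * (vv N j ⬝ᵥ x))) • vv N j := by
  unfold sgm
  rw [Matrix.add_mulVec, Matrix.one_mulVec, Matrix.smul_mulVec, Q_mulVec, smul_smul]

theorem vv_ev (N j k : ℕ) (hj : j < N) : vv N j ⬝ᵥ ev N k =
    (if 0 = k then 1 else 0) - (if j = k then 1 else 0) := by
  unfold vv
  rw [sub_dotProduct, ev_dot _ _ _ (by omega), ev_dot _ _ _ hj]

theorem sgm_fix (N j k : ℕ) (c : ℝ) (hj : j < N) (h0 : k ≠ 0) (h1 : k ≠ j) :
    sgm N j c *ᵥ ev N k = ev N k := by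
  rw [sgm_mulVec, vv_ev N j k hj, if_neg h0.symm, if_neg h1.symm]
  simp

theorem sgm_swap0 (N j : ℕ) (hj : j < N) (h1 : 1 ≤ j) : sgm N j 1 *ᵥ ev N 0 = ev N j := by
  rw [sgm_mulVec, vv_ev N j 0 hj, if_pos rfl, if_neg (by omega), zz_one]
  unfold vv
  funext i
  simp only [Pi.add_apply, Pi.smul_apply, Pi.sub_apply, smul_eq_mul]
  ring

theorem sgm_swapj (N j : ℕ) (hj : j < N) (h1 : 1 ≤ j) : sgm N j 1 *ᵥ ev N j = ev N 0 := by
  rw [sgm_mulVec, vv_ev N j j hj, if_pos rfl, if_neg (by omega), zz_one]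
  unfold vv
  funext i
  simp only [Pi.add_apply, Pi.smul_apply, Pi.sub_apply, smul_eq_mul]
  ring

theorem pr_fix (N k : ℕ) (c : ℕ → ℝ) (h0 : k ≠ 0) : ∀ j, j < N → j < k →
    pr N c j *ᵥ ev N k = ev N k
  | 0, _, _ => by rw [pr, Matrix.one_mulVec]
  | j + 1, h, hk => by
    rw [pr, ← Matrix.mulVec_mulVec, pr_fix N k c h0 j (by omega) (by omega)]
    exact sgm_fix N (j + 1) k _ h h0 (by omega)

theorem pr_at (N k : ℕ) (c : ℕ → ℝ) (hk : k < N) (hc : ∀ j, 1 ≤ j → j ≤ k → c j = 1) :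
    pr N c k *ᵥ ev N k = ev N 0 := by
  cases k with
  | zero => rw [pr, Matrix.one_mulVec]
  | succ k =>
    rw [pr, ← Matrix.mulVec_mulVec, pr_fix N (k + 1) c (by omega) k (by omega) (by omega),
      hc (k + 1) (by omega) le_rfl]
    exact sgm_swapj N (k + 1) hk (by omega)

theorem pr_shift (N k : ℕ) (c : ℕ → ℝ) (hc : ∀ j, 1 ≤ j → j ≤ k + 1 → c j = 1) :
    ∀ d, k + 1 + d < N → pr N c (k + 1 + d) *ᵥ ev N k = ev N (k + 1)
  | 0, h => by
    rw [Nat.add_zero, pr, ← Matrix.mulVec_mulVec,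
      pr_at N k c (by omega) (fun j h1 h2 => hc j h1 (by omega)), hc (k + 1) (by omega) le_rfl]
    exact sgm_swap0 N (k + 1) (by omega) (by omega)
  | d + 1, h => by
    have e : k + 1 + (d + 1) = (k + 1 + d) + 1 := by ring
    rw [e, pr, ← Matrix.mulVec_mulVec, pr_shift N k c hc d (by omega)]
    exact sgm_fix N _ (k + 1) _ (by omega) (by omega) (by omega)

/-! the coefficients -/

/-- the coefficients -/
noncomputable def cf (s : ℝ) (j : ℕ) : ℝ := min 1 (max 0 (s - j))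

theorem cf_sum (s : ℝ) : ∀ m : ℕ, ∑ i ∈ Finset.range m, cf s (i + 1) = min (m : ℝ) (max 0 (s - 1))
  | 0 => by simp
  | m + 1 => by
    rw [Finset.sum_range_succ, cf_sum s m]
    unfold cf
    push_cast
    have hm : (0 : ℝ) ≤ m := Nat.cast_nonneg m
    rcases le_total (s - 1) 0 with h | h
    · rw [max_eq_left h, min_eq_right hm, max_eq_left (by linarith), min_eq_right (by norm_num),
        min_eq_right (by linarith)]
      ring
    · rw [max_eq_right h]
      rcases le_total (s - 1) m with h1 | h1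
      · rw [min_eq_right h1, max_eq_left (by linarith), min_eq_right (by norm_num),
          min_eq_right (by linarith)]
        ring
      · rw [min_eq_left h1, max_eq_right (by linarith)]
        rcases le_total (s - 1) (m + 1) with h2 | h2
        · rw [min_eq_right (by linarith), min_eq_right h2]
          ring
        · rw [min_eq_left (by linarith), min_eq_left h2]

theorem cf_mono {s t : ℝ} (h : s ≤ t) (j : ℕ) : cf s j ≤ cf t j := by
  unfold cf
  exact min_le_min le_rfl (max_le_max le_rfl (by linarith))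

theorem cf_lip_aux {s t : ℝ} (h : s ≤ t) (m : ℕ) :
    ∑ i ∈ Finset.range m, |cf s (i + 1) - cf t (i + 1)| ≤ |s - t| := by
  have e : ∑ i ∈ Finset.range m, |cf s (i + 1) - cf t (i + 1)| =
      ∑ i ∈ Finset.range m, cf t (i + 1) - ∑ i ∈ Finset.range m, cf s (i + 1) := by
    rw [← Finset.sum_sub_distrib]
    refine Finset.sum_congr rfl fun i _ => ?_
    rw [abs_sub_comm, abs_of_nonneg (sub_nonneg.2 (cf_mono h _))]
  rw [e, cf_sum, cf_sum]
  have h1 : |min (m : ℝ) (max 0 (t - 1)) - min (m : ℝ) (max 0 (s - 1))| ≤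
      |max 0 (t - 1) - max 0 (s - 1)| := by
    have := abs_min_sub_min_le_max (m : ℝ) (max 0 (t - 1)) (m : ℝ) (max 0 (s - 1))
    simpa using this
  have h2 : |max 0 (t - 1) - max 0 (s - 1)| ≤ |(t - 1) - (s - 1)| := by
    have := abs_max_sub_max_le_max (0 : ℝ) (t - 1) 0 (s - 1)
    simpa using this
  calc _ ≤ |min (m : ℝ) (max 0 (t - 1)) - min (m : ℝ) (max 0 (s - 1))| := le_abs_self _
    _ ≤ _ := h1.trans (h2.trans (by rw [abs_sub_comm s t]; ring_nf; rfl))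

theorem cf_lip (s t : ℝ) (m : ℕ) :
    ∑ i ∈ Finset.range m, |cf s (i + 1) - cf t (i + 1)| ≤ |s - t| := by
  rcases le_total s t with h | h
  · exact cf_lip_aux h m
  · have := cf_lip_aux h m
    rw [abs_sub_comm s t]
    refine le_trans (le_of_eq ?_) this
    exact Finset.sum_congr rfl fun i _ => abs_sub_comm _ _

/-- the parameter -/
noncomputable def ss (m n : ℕ) : ℝ :=
  max 0 (Real.sqrt (2 * (m + 3)) - Real.sqrt (max n (m + 3)))

theorem sqrt_diff {x y : ℝ} (hx : 0 < x) (hxy : x ≤ y) (hy : y ≤ x + 2) :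
    Real.sqrt y - Real.sqrt x ≤ 1 / Real.sqrt x := by
  have h1 : 0 < Real.sqrt x := Real.sqrt_pos.2 hx
  have h2 : Real.sqrt x ≤ Real.sqrt y := Real.sqrt_le_sqrt hxy
  rw [le_div_iff₀ h1]
  have h3 := Real.sq_sqrt hx.le
  have h4 := Real.sq_sqrt (hx.le.trans hxy)
  nlinarith [sq_nonneg (Real.sqrt y - Real.sqrt x)]

theorem ss_step (m n : ℕ) : |ss m (n + 1) - ss m n| ≤ 1 / Real.sqrt (m + 3) := by
  have hm : (0 : ℝ) < m + 3 := by positivity
  have h1 : |ss m (n + 1) - ss m n| ≤ |Real.sqrt (max n (m + 3)) -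
      Real.sqrt (max ((n + 1 : ℕ) : ℝ) (m + 3))| := by
    unfold ss
    have := abs_max_sub_max_le_max (0 : ℝ)
      (Real.sqrt (2 * (m + 3)) - Real.sqrt (max ((n + 1 : ℕ) : ℝ) (m + 3))) 0
      (Real.sqrt (2 * (m + 3)) - Real.sqrt (max n (m + 3)))
    refine this.trans (le_of_eq ?_)
    rw [sub_zero, abs_zero, max_eq_right (abs_nonneg _)]
    congr 1
    ring
  refine h1.trans ?_
  have h2 : max (n : ℝ) (m + 3) ≤ max ((n + 1 : ℕ) : ℝ) (m + 3) := by
    refine max_le_max ?_ le_rfl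
    push_cast
    linarith
  have h3 : max ((n + 1 : ℕ) : ℝ) (m + 3) ≤ max (n : ℝ) (m + 3) + 2 := by
    refine max_le ?_ ?_
    · push_cast
      linarith [le_max_left (n : ℝ) (m + 3)]
    · linarith [le_max_right (n : ℝ) (m + 3)]
  have h4 : (m : ℝ) + 3 ≤ max (n : ℝ) (m + 3) := le_max_right _ _
  have h5 : 0 < max (n : ℝ) (m + 3) := hm.trans_le h4
  rw [abs_sub_comm, abs_of_nonneg (sub_nonneg.2 (Real.sqrt_le_sqrt h2))]
  refine (sqrt_diff h5 h2 h3).trans ?_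
  exact one_div_le_one_div_of_le (Real.sqrt_pos.2 hm) (Real.sqrt_le_sqrt h4)

theorem ss_step' (m n : ℕ) : |ss (m + 1) n - ss m n| ≤ 2 / Real.sqrt (m + 3) := by
  have hm : (0 : ℝ) < m + 3 := by positivity
  have e : ((m + 1 : ℕ) : ℝ) + 3 = m + 3 + 1 := by push_cast; ring
  have h1 : |ss (m + 1) n - ss m n| ≤
      |(Real.sqrt (2 * ((m : ℝ) + 3 + 1)) - Real.sqrt (2 * (m + 3))) -
      (Real.sqrt (max n ((m : ℝ) + 3 + 1)) - Real.sqrt (max (n : ℝ) (m + 3)))| := by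
    unfold ss
    rw [e]
    have := abs_max_sub_max_le_max (0 : ℝ)
      (Real.sqrt (2 * ((m : ℝ) + 3 + 1)) - Real.sqrt (max n ((m : ℝ) + 3 + 1))) 0
      (Real.sqrt (2 * (m + 3)) - Real.sqrt (max n (m + 3)))
    refine this.trans (le_of_eq ?_)
    rw [sub_zero, abs_zero, max_eq_right (abs_nonneg _)]
    congr 1
    ring
  have h2 : max (n : ℝ) (m + 3) ≤ max (n : ℝ) (m + 3 + 1) := max_le_max le_rfl (by linarith)
  have h3 : max (n : ℝ) (m + 3 + 1) ≤ max (n : ℝ) (m + 3) + 2 := by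
    refine max_le ?_ ?_
    · linarith [le_max_left (n : ℝ) (m + 3)]
    · linarith [le_max_right (n : ℝ) (m + 3)]
  have h4 : (m : ℝ) + 3 ≤ max (n : ℝ) (m + 3) := le_max_right _ _
  have h5 : 0 < max (n : ℝ) (m + 3) := hm.trans_le h4
  have h6 : Real.sqrt (max n ((m : ℝ) + 3 + 1)) - Real.sqrt (max (n : ℝ) (m + 3)) ≤
      1 / Real.sqrt (m + 3) := (sqrt_diff h5 h2 h3).trans
    (one_div_le_one_div_of_le (Real.sqrt_pos.2 hm) (Real.sqrt_le_sqrt h4))
  have h7 : Real.sqrt (2 * ((m : ℝ) + 3 + 1)) - Real.sqrt (2 * (m + 3)) ≤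
      1 / Real.sqrt (m + 3) := (sqrt_diff (by positivity) (by linarith) (by linarith)).trans
    (one_div_le_one_div_of_le (Real.sqrt_pos.2 hm) (Real.sqrt_le_sqrt (by linarith)))
  have h8 : 0 ≤ Real.sqrt (max n ((m : ℝ) + 3 + 1)) - Real.sqrt (max (n : ℝ) (m + 3)) :=
    sub_nonneg.2 (Real.sqrt_le_sqrt h2)
  have h9 : 0 ≤ Real.sqrt (2 * ((m : ℝ) + 3 + 1)) - Real.sqrt (2 * (m + 3)) :=
    sub_nonneg.2 (Real.sqrt_le_sqrt (by linarith))
  refine h1.trans ?_
  have e2 : 2 / Real.sqrt ((m : ℝ) + 3) = 1 / Real.sqrt (m + 3) + 1 / Real.sqrt (m + 3) := by ring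
  rw [e2, abs_le]
  constructor <;> linarith

theorem ss_nonneg (m n : ℕ) : 0 ≤ ss m n := le_max_left _ _

theorem ss_lt (m : ℕ) : ss m 0 < m + 1 := by
  have hm : (0 : ℝ) ≤ m := Nat.cast_nonneg m
  unfold ss
  refine max_lt (by linarith) ?_
  rw [Nat.cast_zero, max_eq_right (by linarith), sub_lt_iff_lt_add]
  have h1 : (3 / 2 : ℝ) ≤ Real.sqrt (m + 3) := Real.le_sqrt_of_sq_le (by nlinarith)
  have h2 := Real.sq_sqrt (show (0 : ℝ) ≤ m + 3 by linarith)
  rw [Real.sqrt_lt' (by linarith)]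
  nlinarith

theorem ss_le (m n : ℕ) : ss (m + 1) n ≤ m + 1 := by
  have hm : (0 : ℝ) ≤ m := Nat.cast_nonneg m
  unfold ss
  refine max_le (by linarith) ?_
  have e : ((m + 1 : ℕ) : ℝ) + 3 = m + 4 := by push_cast; ring
  rw [e]
  have h0 : Real.sqrt (m + 4) ≤ Real.sqrt (max (n : ℝ) (m + 4)) :=
    Real.sqrt_le_sqrt (le_max_right _ _)
  have h1 : (2 : ℝ) ≤ Real.sqrt (m + 4) := Real.le_sqrt_of_sq_le (by nlinarith)
  have h2 := Real.sq_sqrt (show (0 : ℝ) ≤ m + 4 by linarith)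
  have h3 : Real.sqrt (2 * ((m : ℝ) + 4)) ≤ m + 1 + Real.sqrt (m + 4) := by
    rw [Real.sqrt_le_left (by linarith)]
    nlinarith
  linarith

theorem ss_ge (m : ℕ) : (2 / 5 : ℝ) * Real.sqrt (m + 3) ≤ ss m 0 := by
  have hm : (0 : ℝ) ≤ m := Nat.cast_nonneg m
  unfold ss
  refine le_trans ?_ (le_max_right _ _)
  rw [Nat.cast_zero, max_eq_right (by linarith)]
  have h2 := Real.sq_sqrt (show (0 : ℝ) ≤ m + 3 by linarith)
  have h3 : (7 / 5 : ℝ) * Real.sqrt (m + 3) ≤ Real.sqrt (2 * (m + 3)) := by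
    refine Real.le_sqrt_of_sq_le ?_
    rw [mul_pow, h2]
    nlinarith
  linarith

theorem mulVec_ev {N : ℕ} (M : Matrix (Fin N) (Fin N) ℂ) (k : ℕ) (hk : k < N) (i : Fin N) :
    (M *ᵥ ev N k) i = M i ⟨k, hk⟩ := by
  unfold Matrix.mulVec dotProduct ev
  rw [Finset.sum_eq_single ⟨k, hk⟩]
  · simp
  · intro l _ hl
    have : (l : ℕ) ≠ k := fun h => hl (Fin.ext h)
    simp [this]
  · intro h; exact absurd (Finset.mem_univ _) h

theorem tendsto_sq : Tendsto (fun m : ℕ => Real.sqrt ((m : ℝ) + 3)) atTop atTop :=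
  Real.tendsto_sqrt_atTop.comp (tendsto_atTop_add_const_right _ _ tendsto_natCast_atTop_atTop)

end GA

open GA in
theorem exists_Gamma : ∃ (Γ : ∀ m : ℕ, ℕ → Matrix (Fin (m + 1)) (Fin (m + 1)) ℂ) (K : ℕ → ℕ)
    (δ : ℕ → ℝ),
    (∀ m n, Γ m n ∈ Matrix.unitaryGroup (Fin (m + 1)) ℂ) ∧
    (∀ n, Γ 0 n = 1) ∧
    (∀ m n, n ≤ m + 3 → Γ m n = Γ m 0) ∧
    (∀ m n, 2 * (m + 3) ≤ n → Γ m n = 1) ∧
    (∀ m, K m ≤ m) ∧ Tendsto K atTop atTop ∧
    (∀ (m k : ℕ) (hk : k < K m) (hk1 : k < m + 1) (hk2 : k + 1 < m + 1) (i : Fin (m + 1)),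
      Γ m 0 i ⟨k, hk1⟩ = if i = ⟨k + 1, hk2⟩ then 1 else 0) ∧
    Tendsto δ atTop (𝓝 0) ∧
    (∀ m n, ‖mat ℂ (Γ m (n + 1) - Γ m n)‖ ≤ δ m) ∧
    (∀ m n, ‖mat ℂ (Γ (m + 1) n - ext1 (Γ m n))‖ ≤ δ m) := by
  refine ⟨fun m n => pr (m + 1) (cf (ss m n)) m, fun m => ⌊ss m 0⌋₊ - 1,
    fun m => Real.pi * (2 / Real.sqrt ((m : ℝ) + 3)), ?_, ?_, ?_, ?_, ?_, ?_, ?_, ?_, ?_, ?_⟩
  · intro m n
    exact pr_unitary _ _ _ (by omega)
  · intro n; rfl
  · intro m n hn
    have : ss m n = ss m 0 := by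
      unfold ss
      have h1 : (n : ℝ) ≤ m + 3 := by exact_mod_cast hn
      have h2 : ((0 : ℕ) : ℝ) ≤ m + 3 := by push_cast; positivity
      rw [max_eq_right h1, max_eq_right h2]
    simp only [this]
  · intro m n hn
    have : ss m n = 0 := by
      unfold ss
      have h1 : (2 * (m + 3) : ℝ) ≤ n := by exact_mod_cast hn
      refine max_eq_left ?_
      rw [sub_nonpos]
      exact Real.sqrt_le_sqrt (h1.trans (le_max_left _ _))
    refine pr_zero _ _ _ fun i _ => ?_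
    rw [this]
    unfold cf
    have h2 : (0 : ℝ) - ((i + 1 : ℕ) : ℝ) ≤ 0 := by
      have : (0 : ℝ) ≤ ((i + 1 : ℕ) : ℝ) := Nat.cast_nonneg _
      linarith
    rw [max_eq_left h2]
    norm_num
  · intro m
    have h1 : ⌊ss m 0⌋₊ < m + 1 := by
      rw [Nat.floor_lt (ss_nonneg m 0)]
      exact_mod_cast ss_lt m
    show ⌊ss m 0⌋₊ - 1 ≤ m
    omega
  · refine tendsto_atTop.2 fun b => ?_
    have h1 : Tendsto (fun m : ℕ => (2 / 5 : ℝ) * Real.sqrt ((m : ℝ) + 3)) atTop atTop :=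
      tendsto_sq.const_mul_atTop (by norm_num)
    filter_upwards [h1.eventually_ge_atTop ((b + 1 : ℕ) : ℝ)] with m hm
    have h2 : b + 1 ≤ ⌊ss m 0⌋₊ := Nat.le_floor (hm.trans (ss_ge m))
    show b ≤ ⌊ss m 0⌋₊ - 1
    omega
  · intro m k hk hk1 hk2 i
    have h1 : k + 2 ≤ ⌊ss m 0⌋₊ := by
      have : k < ⌊ss m 0⌋₊ - 1 := hk
      omega
    have h2 : ((k + 2 : ℕ) : ℝ) ≤ ss m 0 := (Nat.le_floor_iff (ss_nonneg m 0)).1 h1
    have hc : ∀ j, 1 ≤ j → j ≤ k + 1 → cf (ss m 0) j = 1 := by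
      intro j _ hj
      unfold cf
      have h3 : (j : ℝ) ≤ k + 1 := by exact_mod_cast hj
      push_cast at h2
      refine min_eq_left (le_trans ?_ (le_max_right _ _))
      linarith
    have h3 := pr_shift (m + 1) k (cf (ss m 0)) hc (m - (k + 1)) (by omega)
    have e : k + 1 + (m - (k + 1)) = m := by omega
    rw [e] at h3
    have h4 := mulVec_ev (pr (m + 1) (cf (ss m 0)) m) k hk1 i
    change pr (m + 1) (cf (ss m 0)) m i ⟨k, hk1⟩ = _
    rw [← h4, h3]
    unfold ev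
    simp only [Fin.ext_iff]
  · have h1 : Tendsto (fun m : ℕ => 2 / Real.sqrt ((m : ℝ) + 3)) atTop (𝓝 0) :=
      tendsto_sq.const_div_atTop 2
    simpa using h1.const_mul Real.pi
  · intro m n
    rw [norm_mat]
    refine (pr_sub (m + 1) _ _ m (by omega)).trans ?_
    refine mul_le_mul_of_nonneg_left ?_ Real.pi_pos.le
    refine (cf_lip _ _ m).trans ((ss_step m n).trans ?_)
    gcongr
    norm_num
  · intro m n
    have h1 : pr (m + 1 + 1) (cf (ss (m + 1) n)) (m + 1) =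
        pr (m + 1 + 1) (cf (ss (m + 1) n)) m := by
      rw [pr]
      have h2 : cf (ss (m + 1) n) (m + 1) = 0 := by
        unfold cf
        have := ss_le m n
        rw [max_eq_left (by push_cast; linarith)]
        norm_num
      rw [h2, sgm_zero, one_mul]
    simp only [h1]
    rw [norm_mat, ext1_pr (m + 1) _ m (by omega)]
    refine (pr_sub (m + 1 + 1) _ _ m (by omega)).trans ?_
    refine mul_le_mul_of_nonneg_left ?_ Real.pi_pos.le
    exact (cf_lip _ _ m).trans (ss_step' m n)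

end Pool.Agent.Helper623_LS
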