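import Pool.Agent.Helper623_LS.Khin

/-! Finite dimensional Hilbert spaces are uniformly complemented in `ℓ^p`. -/

set_option autoImplicit false
open scoped ENNReal NNReal Topology
open Filter
namespace Pool.Agent.Helper623_LS


private theorem gf_sg_sq (b : Bool) : sg b * sg b = 1 := by cases b <;> simp [sg]

private theorem gf_sg_not (b : Bool) : sg (!b) = - sg b := by cases b <;> simp [sg]

private theorem gf_sum_sg (N : ℕ) (k l : Fin N) :
    ∑ ε : Fin N → Bool, sg (ε k) * sg (ε l) = if k = l then (2 : ℂ) ^ N else 0 := by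
  by_cases h : k = l
  · subst h
    simp [gf_sg_sq]
  · rw [if_neg h]
    have hinv : Function.Involutive (fun ε : Fin N → Bool => Function.update ε k (!ε k)) := by
      intro ε; funext j; by_cases hj : j = k
      · subst hj; simp
      · simp [hj]
    have h1 := Equiv.sum_comp (hinv.toPerm _) (fun ε : Fin N → Bool => sg (ε k) * sg (ε l))
    have h2 : ∀ ε : Fin N → Bool, sg ((hinv.toPerm _ ε) k) * sg ((hinv.toPerm _ ε) l) =
        -(sg (ε k) * sg (ε l)) := by
      intro ε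
      simp only [Function.Involutive.coe_toPerm, Function.update_self,
        Function.update_of_ne (Ne.symm h), gf_sg_not]
      ring
    simp_rw [h2] at h1
    rw [Finset.sum_neg_distrib] at h1
    have h3 : (2 : ℂ) * ∑ ε : Fin N → Bool, sg (ε k) * sg (ε l) = 0 := by
      linear_combination -h1
    rcases mul_eq_zero.1 h3 with h4 | h4
    · norm_num at h4
    · exact h4

private theorem gf_norm_sum {p : ℝ≥0∞} [Fact (1 ≤ p)] (hp : 0 < p.toReal) {E : Type} [Fintype E]
    (ι : E → ℕ) (hι : Function.Injective ι) (a : E → ℂ) :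
    ‖(∑ ε, lp.single p (ι ε) (a ε) : LL p)‖ ^ p.toReal = ∑ ε, ‖a ε‖ ^ p.toReal := by
  have h := lp.norm_sum_single (E := fun _ : ℕ => ℂ) hp (Function.extend ι a 0)
    (Finset.univ.map ⟨ι, hι⟩)
  rw [Finset.sum_map, Finset.sum_map] at h
  simpa only [Function.Embedding.coeFn_mk, hι.extend_apply] using h

private theorem gf_sum_le {p : ℝ≥0∞} [Fact (1 ≤ p)] (hp : 0 < p.toReal) {E : Type} [Fintype E]
    (ι : E → ℕ) (hι : Function.Injective ι) (y : LL p) :
    ∑ ε, ‖y (ι ε)‖ ^ p.toReal ≤ ‖y‖ ^ p.toReal := by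
  have h := lp.sum_rpow_le_norm_rpow hp y (Finset.univ.map ⟨ι, hι⟩)
  rw [Finset.sum_map] at h
  simpa only [Function.Embedding.coeFn_mk] using h

private theorem gf_root {A K x P : ℝ} (hP : 0 < P) (hA : 0 ≤ A) (hK : 0 ≤ K) (hx : 0 ≤ x)
    (h : A ^ P ≤ K * x ^ P) : A ≤ K ^ (1 / P) * x := by
  have h1 : (A ^ P) ^ (1 / P) ≤ (K * x ^ P) ^ (1 / P) :=
    Real.rpow_le_rpow (by positivity) h (by positivity)
  rwa [← Real.rpow_mul hA, mul_one_div_cancel hP.ne', Real.rpow_one,
    Real.mul_rpow hK (by positivity), ← Real.rpow_mul hx, mul_one_div_cancel hP.ne',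
    Real.rpow_one] at h1

private theorem gf_khin {q : ℝ} (hq : 0 < q) {K : ℝ}
    (hK : ∀ (N : ℕ) (H : Type) [NormedAddCommGroup H] [InnerProductSpace ℂ H] (v : Fin N → H),
      avg (fun ε : Fin N → Bool => ‖∑ k, sg (ε k) • v k‖ ^ q) ≤
        K * (∑ k, ‖v k‖ ^ 2) ^ (q / 2)) {N : ℕ} (z : Fin N → ℂ) {r : ℝ} (hr : 0 ≤ r)
    (hz : ∑ k, ‖z k‖ ^ 2 = r ^ 2) :
    ∑ ε : Fin N → Bool, ‖∑ k, sg (ε k) * z k‖ ^ q ≤ 2 ^ N * (K * r ^ q) := by
  have h := hK N ℂ z
  rw [hz] at h
  have h2 : (r ^ 2) ^ (q / 2) = r ^ q := by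
    rw [← Real.rpow_natCast r 2, ← Real.rpow_mul hr]
    congr 1
    push_cast
    ring
  rw [h2] at h
  unfold avg at h
  rw [div_le_iff₀ (by positivity)] at h
  simp only [smul_eq_mul] at h
  linarith

theorem good_finite {p : ℝ≥0∞} [Fact (1 ≤ p)] (hp1 : 1 < p) (hp : p ≠ ∞) :
    ∃ c : ℝ, 1 ≤ c ∧ ∀ (H : Type) [NormedAddCommGroup H] [InnerProductSpace ℂ H]
      [FiniteDimensional ℂ H], Good p c H := by
  set P : ℝ := p.toReal with hPdef
  have hP1 : 1 < P := by
    have := (ENNReal.toReal_lt_toReal (by simp) hp).2 hp1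
    simpa using this
  have hP0 : 0 < P := by linarith
  have hconj : P.HolderConjugate (Real.conjExponent P) := Real.HolderConjugate.conjExponent hP1
  set P' : ℝ := Real.conjExponent P with hP'def
  have hP'0 : 0 < P' := hconj.symm.pos
  obtain ⟨K, hK1, hK⟩ := khin_upper P hP0
  obtain ⟨K', hK1', hK'⟩ := khin_upper P' hP'0
  have hK0 : 0 ≤ K := by linarith
  have hK0' : 0 ≤ K' := by linarith
  refine ⟨max (K ^ (1 / P)) (K' ^ (1 / P')), ?_, ?_⟩
  · refine le_max_of_le_left ?_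
    exact Real.one_le_rpow hK1 (by positivity)
  intro H _ _ _
  set N : ℕ := Module.finrank ℂ H with hN
  let b : OrthonormalBasis (Fin N) ℂ H := stdOrthonormalBasis ℂ H
  let ι : (Fin N → Bool) → ℕ := Encodable.encode
  have hι : Function.Injective ι := Encodable.encode_injective
  let c1 : ℝ := (2 : ℝ) ^ (-(N : ℝ) / P)
  let c2 : ℝ := (2 : ℝ) ^ (-(N : ℝ) / P')
  have hc1 : 0 < c1 := by positivity
  have hc2 : 0 < c2 := by positivity
  have hc12 : c1 * c2 = ((2 : ℝ) ^ N)⁻¹ := by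
    show (2 : ℝ) ^ (-(N : ℝ) / P) * (2 : ℝ) ^ (-(N : ℝ) / P') = _
    rw [← Real.rpow_add (by norm_num), ← Real.rpow_natCast, ← Real.rpow_neg (by norm_num)]
    congr 1
    have h := hconj.inv_add_inv_eq_one
    have : -(N : ℝ) / P + -(N : ℝ) / P' = -(N : ℝ) * (P⁻¹ + P'⁻¹) := by ring
    rw [this, h, mul_one]
  have hc1P : c1 ^ P = ((2 : ℝ) ^ N)⁻¹ := by
    show ((2 : ℝ) ^ (-(N : ℝ) / P)) ^ P = _
    rw [← Real.rpow_mul (by norm_num), div_mul_cancel₀ _ hP0.ne', Real.rpow_neg (by norm_num),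
      Real.rpow_natCast]
  have hc2P : c2 ^ P' = ((2 : ℝ) ^ N)⁻¹ := by
    show ((2 : ℝ) ^ (-(N : ℝ) / P')) ^ P' = _
    rw [← Real.rpow_mul (by norm_num), div_mul_cancel₀ _ hP'0.ne', Real.rpow_neg (by norm_num),
      Real.rpow_natCast]
  -- the coefficient functional
  let iL : H →ₗ[ℂ] LL p :=
    { toFun := fun x => ∑ ε : Fin N → Bool,
        lp.single p (ι ε) ((c1 : ℂ) * ∑ k, sg (ε k) * (inner ℂ (b k) x))
      map_add' := by
        intro x y
        rw [← Finset.sum_add_distrib]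
        refine Finset.sum_congr rfl fun ε _ => ?_
        rw [← lp.single_add, ← mul_add, ← Finset.sum_add_distrib]
        congr 2
        refine Finset.sum_congr rfl fun k _ => ?_
        rw [inner_add_right]; ring
      map_smul' := by
        intro c x
        rw [Finset.smul_sum]
        refine Finset.sum_congr rfl fun ε _ => ?_
        rw [RingHom.id_apply, ← lp.single_smul, smul_eq_mul, Finset.mul_sum, Finset.mul_sum,
          Finset.mul_sum]
        congr 1
        refine Finset.sum_congr rfl fun k _ => ?_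
        rw [inner_smul_right]; ring }
  have hiL : ∀ x, iL x = ∑ ε : Fin N → Bool,
        lp.single p (ι ε) ((c1 : ℂ) * ∑ k, sg (ε k) * (inner ℂ (b k) x)) := fun x => rfl
  have hib : ∀ x, ‖iL x‖ ≤ K ^ (1 / P) * ‖x‖ := by
    intro x
    refine gf_root hP0 (norm_nonneg _) hK0 (norm_nonneg _) ?_
    rw [hiL, hPdef, gf_norm_sum hP0 ι hι]
    have h1 : ∀ ε : Fin N → Bool, ‖(c1 : ℂ) * ∑ k, sg (ε k) * (inner ℂ (b k) x)‖ ^ P =
        ((2 : ℝ) ^ N)⁻¹ * ‖∑ k, sg (ε k) * (inner ℂ (b k) x)‖ ^ P := by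
      intro ε
      rw [norm_mul, Complex.norm_real, Real.norm_of_nonneg hc1.le,
        Real.mul_rpow hc1.le (norm_nonneg _), hc1P]
    rw [← hPdef]
    simp_rw [h1]
    rw [← Finset.mul_sum]
    have h2 := gf_khin hP0 hK (fun k => inner ℂ (b k) x) (norm_nonneg x)
      (b.sum_sq_norm_inner_right x)
    rw [inv_mul_le_iff₀ (by positivity)]
    exact h2
  let qL : LL p →ₗ[ℂ] H :=
    { toFun := fun y => ∑ k, ((c2 : ℂ) * ∑ ε : Fin N → Bool, sg (ε k) * y (ι ε)) • b k
      map_add' := by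
        intro x y
        rw [← Finset.sum_add_distrib]
        refine Finset.sum_congr rfl fun k _ => ?_
        rw [← add_smul, ← mul_add, ← Finset.sum_add_distrib]
        congr 2
        refine Finset.sum_congr rfl fun ε _ => ?_
        rw [lp.coeFn_add, Pi.add_apply]; ring
      map_smul' := by
        intro c x
        rw [Finset.smul_sum]
        refine Finset.sum_congr rfl fun k _ => ?_
        rw [RingHom.id_apply, smul_smul, Finset.mul_sum, Finset.mul_sum, Finset.mul_sum]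
        congr 1
        refine Finset.sum_congr rfl fun ε _ => ?_
        rw [lp.coeFn_smul, Pi.smul_apply, smul_eq_mul]; ring }
  have hqL : ∀ y, qL y = ∑ k, ((c2 : ℂ) * ∑ ε : Fin N → Bool, sg (ε k) * y (ι ε)) • b k :=
    fun y => rfl
  have hqb : ∀ y, ‖qL y‖ ≤ K' ^ (1 / P') * ‖y‖ := by
    intro y
    set z : Fin N → ℂ := fun k => (c2 : ℂ) * ∑ ε : Fin N → Bool, sg (ε k) * y (ι ε) with hz
    have hnz : ∑ k, ‖z k‖ ^ 2 = ‖qL y‖ ^ 2 := by
      rw [← b.sum_sq_norm_inner_right (qL y)]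
      refine Finset.sum_congr rfl fun k _ => ?_
      congr 2
      rw [hqL]
      have := b.orthonormal.inner_right_fintype z k
      rw [this]
    rcases eq_or_lt_of_le (norm_nonneg (qL y)) with h0 | h0
    · rw [← h0]; positivity
    have hsq : ‖qL y‖ ^ 2 ≤ (K' ^ (1 / P') * ‖y‖) * ‖qL y‖ := by
      -- duality
      have h1 : ((‖qL y‖ ^ 2 : ℝ) : ℂ) =
          (c2 : ℂ) * ∑ ε : Fin N → Bool, y (ι ε) * ∑ k, sg (ε k) * (starRingEnd ℂ) (z k) := by
        rw [← hnz]
        push_cast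
        have : ∀ k, ((‖z k‖ : ℂ)) ^ 2 = (c2 : ℂ) * ∑ ε : Fin N → Bool,
            y (ι ε) * (sg (ε k) * (starRingEnd ℂ) (z k)) := by
          intro k
          rw [← Complex.mul_conj']
          nth_rewrite 1 [hz]
          simp only
          rw [mul_assoc, Finset.sum_mul]
          congr 1
          refine Finset.sum_congr rfl fun ε _ => ?_
          ring
        simp_rw [this]
        rw [← Finset.mul_sum, Finset.sum_comm]
        congr 1
        refine Finset.sum_congr rfl fun ε _ => ?_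
        rw [Finset.mul_sum]
      have h2 : ‖qL y‖ ^ 2 ≤
          c2 * ∑ ε : Fin N → Bool, ‖y (ι ε)‖ * ‖∑ k, sg (ε k) * (starRingEnd ℂ) (z k)‖ := by
        have h3 : ‖qL y‖ ^ 2 = ‖((‖qL y‖ ^ 2 : ℝ) : ℂ)‖ := by
          rw [Complex.norm_real, Real.norm_of_nonneg (by positivity)]
        rw [h3, h1, norm_mul, Complex.norm_real, Real.norm_of_nonneg hc2.le]
        refine mul_le_mul_of_nonneg_left ?_ hc2.le
        refine (norm_sum_le _ _).trans (le_of_eq ?_)
        refine Finset.sum_congr rfl fun ε _ => ?_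
        rw [norm_mul]
      refine h2.trans ?_
      have h4 := Real.inner_le_Lp_mul_Lq_of_nonneg (Finset.univ : Finset (Fin N → Bool)) hconj
        (f := fun ε => ‖y (ι ε)‖) (g := fun ε => ‖∑ k, sg (ε k) * (starRingEnd ℂ) (z k)‖)
        (fun _ _ => norm_nonneg _) (fun _ _ => norm_nonneg _)
      have h5 : (∑ ε : Fin N → Bool, ‖y (ι ε)‖ ^ P) ^ (1 / P) ≤ ‖y‖ := by
        have h6 := gf_sum_le (p := p) hP0 ι hι y
        calc (∑ ε : Fin N → Bool, ‖y (ι ε)‖ ^ P) ^ (1 / P) ≤ (‖y‖ ^ P) ^ (1 / P) :=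
              Real.rpow_le_rpow (Finset.sum_nonneg fun _ _ => by positivity) h6 (by positivity)
          _ = ‖y‖ := by
              rw [← Real.rpow_mul (norm_nonneg _), mul_one_div_cancel hP0.ne', Real.rpow_one]
      have h7 : (∑ ε : Fin N → Bool, ‖∑ k, sg (ε k) * (starRingEnd ℂ) (z k)‖ ^ P') ^ (1 / P') ≤
          c2⁻¹ * (K' ^ (1 / P') * ‖qL y‖) := by
        have h8 := gf_khin hP'0 hK' (fun k => (starRingEnd ℂ) (z k)) (norm_nonneg (qL y))
          (by simp only [RCLike.norm_conj]; exact hnz)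
        calc (∑ ε : Fin N → Bool, ‖∑ k, sg (ε k) * (starRingEnd ℂ) (z k)‖ ^ P') ^ (1 / P')
            ≤ (2 ^ N * (K' * ‖qL y‖ ^ P')) ^ (1 / P') :=
              Real.rpow_le_rpow (Finset.sum_nonneg fun _ _ => by positivity) h8 (by positivity)
          _ = c2⁻¹ * (K' ^ (1 / P') * ‖qL y‖) := by
              have h9 : (2 : ℝ) ^ N = (c2⁻¹) ^ P' := by
                rw [Real.inv_rpow hc2.le, hc2P, inv_inv]
              rw [h9, Real.mul_rpow (by positivity) (by positivity),
                Real.mul_rpow hK0' (by positivity),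
                ← Real.rpow_mul (by positivity), ← Real.rpow_mul (norm_nonneg _),
                mul_one_div_cancel hP'0.ne', Real.rpow_one, Real.rpow_one]
      calc c2 * ∑ ε : Fin N → Bool, ‖y (ι ε)‖ * ‖∑ k, sg (ε k) * (starRingEnd ℂ) (z k)‖
          ≤ c2 * (‖y‖ * (c2⁻¹ * (K' ^ (1 / P') * ‖qL y‖))) := by
            refine mul_le_mul_of_nonneg_left ?_ hc2.le
            refine h4.trans ?_
            exact mul_le_mul h5 h7 (by positivity) (norm_nonneg _)
        _ = (K' ^ (1 / P') * ‖y‖) * ‖qL y‖ := by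
            field_simp
    rw [pow_two] at hsq
    exact le_of_mul_le_mul_right hsq h0
  let i : H →L[ℂ] LL p := iL.mkContinuous (K ^ (1 / P)) hib
  let q : LL p →L[ℂ] H := qL.mkContinuous (K' ^ (1 / P')) hqb
  refine ⟨i, q, ?_, ?_, ?_⟩
  · ext x
    show qL (iL x) = x
    have hval : ∀ ε' : Fin N → Bool, (iL x) (ι ε') =
        (c1 : ℂ) * ∑ k, sg (ε' k) * (inner ℂ (b k) x) := by
      intro ε'
      rw [hiL, lp.coeFn_sum, Finset.sum_apply, Finset.sum_eq_single ε']
      · rw [lp.single_apply_self]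
      · intro ε _ hne
        rw [lp.single_apply_ne]
        exact fun h => hne (hι h).symm
      · intro h; exact absurd (Finset.mem_univ _) h
    rw [hqL]
    have hk : ∀ k, (c2 : ℂ) * ∑ ε : Fin N → Bool, sg (ε k) * (iL x) (ι ε) = inner ℂ (b k) x := by
      intro k
      simp_rw [hval]
      have h1 : ∀ ε : Fin N → Bool, sg (ε k) * ((c1 : ℂ) * ∑ l, sg (ε l) * (inner ℂ (b l) x)) =
          ∑ l, (c1 : ℂ) * ((sg (ε k) * sg (ε l)) * (inner ℂ (b l) x)) := by
        intro ε
        rw [Finset.mul_sum, Finset.mul_sum]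
        refine Finset.sum_congr rfl fun l _ => ?_
        ring
      simp_rw [h1]
      rw [Finset.sum_comm]
      simp_rw [← Finset.mul_sum, ← Finset.sum_mul, gf_sum_sg]
      simp only [ite_mul, zero_mul, Finset.sum_ite_eq, Finset.mem_univ, if_true]
      have h3 : (c1 : ℂ) * (c2 : ℂ) = ((2 : ℂ) ^ N)⁻¹ := by
        rw [← Complex.ofReal_mul, hc12]; push_cast; rfl
      have h4 : (2 : ℂ) ^ N ≠ 0 := pow_ne_zero _ two_ne_zero
      calc (c2 : ℂ) * ((c1 : ℂ) * ((2 : ℂ) ^ N * inner ℂ (b k) x))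
          = ((c1 : ℂ) * (c2 : ℂ)) * (2 : ℂ) ^ N * inner ℂ (b k) x := by ring
        _ = inner ℂ (b k) x := by rw [h3, inv_mul_cancel₀ h4, one_mul]
    simp_rw [hk]
    exact b.sum_repr' x
  · exact (LinearMap.mkContinuous_norm_le _ (by positivity) _).trans (le_max_left _ _)
  · exact (LinearMap.mkContinuous_norm_le _ (by positivity) _).trans (le_max_right _ _)

end Pool.Agent.Helper623_LS
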