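import Pool.Agent.Helper623_LS.Rel

/-! Task MAT: scalar matrices acting on `ℓ₂^N(H)`. `norm_mat_le` : if `c = ‖mat ℂ a‖` then `c² - a* a` is positive
semidefinite, hence `= b* b`, and `c² ‖v‖² - ‖mat H a v‖² = ‖mat H b v‖² ≥ 0`. (Or reduce to the span of the coordinates
of `v` with an orthonormal basis.) -/

set_option autoImplicit false
open scoped ENNReal NNReal Topology
open Filter
namespace Pool.Agent.Helper623_LS

section
variable {N : ℕ} {H : Type} [NormedAddCommGroup H] [InnerProductSpace ℂ H]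

theorem sgl_apply (k l : Fin N) (x : H) : (sgl N H k x) l = if l = k then x else 0 := by
  show (Pi.single k x : Fin N → H) l = _
  rw [Pi.single_apply]

theorem mat_apply (a : Matrix (Fin N) (Fin N) ℂ) (v : PiLp 2 (fun _ : Fin N => H)) (k : Fin N) :
    (mat H a v) k = ∑ l, a k l • v l := by
  unfold mat
  have h1 : ∀ (s : Finset (Fin N)) (f : Fin N → PiLp 2 (fun _ : Fin N => H)),
      (∑ i ∈ s, f i) k = ∑ i ∈ s, (f i) k := by
    intro s f
    induction s using Finset.induction_on with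
    | empty => simp
    | insert i s hi ih => rw [Finset.sum_insert hi, Finset.sum_insert hi, ← ih]; rfl
  rw [ContinuousLinearMap.sum_apply, h1]
  rw [Finset.sum_eq_single k]
  · rw [ContinuousLinearMap.sum_apply, h1]
    refine Finset.sum_congr rfl fun l _ => ?_
    show a k l • (sgl N H k (v l)) k = _
    rw [sgl_apply, if_pos rfl]
  · intro k' _ hk'
    rw [ContinuousLinearMap.sum_apply, h1]
    refine Finset.sum_eq_zero fun l _ => ?_
    show a k' l • (sgl N H k' (v l)) k = _
    rw [sgl_apply, if_neg (Ne.symm hk'), smul_zero]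
  · intro h
    exact absurd (Finset.mem_univ k) h

theorem mat_mul (a b : Matrix (Fin N) (Fin N) ℂ) : mat H (a * b) = mat H a ∘L mat H b := by
  ext v k
  show (mat H (a * b) v) k = (mat H a (mat H b v)) k
  rw [mat_apply, mat_apply]
  simp only [mat_apply, Matrix.mul_apply, Finset.sum_smul, Finset.smul_sum, smul_smul]
  rw [Finset.sum_comm]

theorem mat_one : mat H (1 : Matrix (Fin N) (Fin N) ℂ) = ContinuousLinearMap.id ℂ _ := by
  ext v k
  show (mat H 1 v) k = v k
  rw [mat_apply]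
  simp [Matrix.one_apply]

theorem mat_add (a b : Matrix (Fin N) (Fin N) ℂ) : mat H (a + b) = mat H a + mat H b := by
  ext v k
  show (mat H (a + b) v) k = (mat H a v) k + (mat H b v) k
  simp only [mat_apply, Matrix.add_apply, add_smul, Finset.sum_add_distrib]

theorem mat_sub (a b : Matrix (Fin N) (Fin N) ℂ) : mat H (a - b) = mat H a - mat H b := by
  ext v k
  show (mat H (a - b) v) k = (mat H a v) k - (mat H b v) k
  simp only [mat_apply, Matrix.sub_apply, sub_smul, Finset.sum_sub_distrib]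

theorem mat_smul (c : ℂ) (a : Matrix (Fin N) (Fin N) ℂ) : mat H (c • a) = c • mat H a := by
  ext v k
  show (mat H (c • a) v) k = c • (mat H a v) k
  simp only [mat_apply, Matrix.smul_apply, smul_eq_mul, mul_smul, Finset.smul_sum]

theorem inner_mat (a : Matrix (Fin N) (Fin N) ℂ) (v w : PiLp 2 (fun _ : Fin N => H)) :
    inner ℂ (mat H a v) w = inner ℂ v (mat H a.conjTranspose w) := by
  rw [PiLp.inner_apply, PiLp.inner_apply]
  simp only [mat_apply, sum_inner, inner_sum, inner_smul_left, inner_smul_right,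
    Matrix.conjTranspose_apply]
  rw [Finset.sum_comm]
  rfl

theorem norm_mat_unitary (a : Matrix (Fin N) (Fin N) ℂ) (ha : a ∈ Matrix.unitaryGroup (Fin N) ℂ)
    (v : PiLp 2 (fun _ : Fin N => H)) : ‖mat H a v‖ = ‖v‖ := by
  have h1 : a.conjTranspose * a = 1 := by
    have := (Matrix.mem_unitaryGroup_iff'.1 ha)
    exact this
  have h2 : mat H a.conjTranspose (mat H a v) = v := by
    have h3 := mat_mul (H := H) a.conjTranspose a
    rw [h1, mat_one] at h3
    exact (congrArg (fun T => T v) h3).symm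
  have h4 : inner ℂ (mat H a v) (mat H a v) = inner ℂ v v := by
    rw [inner_mat, h2]
  rw [inner_self_eq_norm_sq_to_K, inner_self_eq_norm_sq_to_K] at h4
  have h5 : ‖mat H a v‖ ^ 2 = ‖v‖ ^ 2 := by exact_mod_cast h4
  exact (pow_left_inj₀ (norm_nonneg _) (norm_nonneg _) (by norm_num)).1 h5

theorem norm_mat_diagonal (t : Fin N → ℂ) (c : ℝ) (hc : 0 ≤ c) (ht : ∀ k, ‖t k‖ ≤ c) :
    ‖mat H (Matrix.diagonal t)‖ ≤ c := by
  refine ContinuousLinearMap.opNorm_le_bound _ hc fun v => ?_
  have h1 : ∀ k, (mat H (Matrix.diagonal t) v) k = t k • v k := by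
    intro k
    rw [mat_apply, Finset.sum_eq_single k]
    · rw [Matrix.diagonal_apply_eq]
    · intro l _ hl
      rw [Matrix.diagonal_apply_ne _ (Ne.symm hl), zero_smul]
    · intro h
      exact absurd (Finset.mem_univ k) h
  refine (pow_le_pow_iff_left₀ (norm_nonneg _) (by positivity) (two_ne_zero)).1 ?_
  rw [mul_pow, PiLp.norm_sq_eq_of_L2, PiLp.norm_sq_eq_of_L2, Finset.mul_sum]
  refine Finset.sum_le_sum fun k _ => ?_
  rw [h1, norm_smul, mul_pow]
  exact mul_le_mul_of_nonneg_right (pow_le_pow_left₀ (norm_nonneg _) (ht k) 2) (by positivity)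

theorem norm_mat_le (a : Matrix (Fin N) (Fin N) ℂ) : ‖mat H a‖ ≤ ‖mat ℂ a‖ := by
  refine ContinuousLinearMap.opNorm_le_bound _ (norm_nonneg _) fun v => ?_
  let S : Submodule ℂ H := Submodule.span ℂ (Set.range (fun l => v l))
  have : FiniteDimensional ℂ S := FiniteDimensional.span_of_finite ℂ (Set.finite_range _)
  let b := stdOrthonormalBasis ℂ S
  have hpars : ∀ x ∈ S, ‖x‖ ^ 2 = ∑ i, ‖inner ℂ (b i : H) x‖ ^ 2 := by
    intro x hx
    have h1 := b.sum_sq_norm_inner_right ⟨x, hx⟩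
    exact h1.symm
  have hv : ∀ l, v l ∈ S := fun l => Submodule.subset_span ⟨l, rfl⟩
  let w : Fin (Module.finrank ℂ S) → PiLp 2 (fun _ : Fin N => ℂ) :=
    fun i => WithLp.toLp 2 (fun l => inner ℂ (b i : H) (v l))
  have hw0 : ∀ i l, (w i) l = inner ℂ (b i : H) (v l) := fun i l => rfl
  have hw : ‖v‖ ^ 2 = ∑ i, ‖w i‖ ^ 2 := by
    rw [PiLp.norm_sq_eq_of_L2]
    have h1 : ∀ i, ‖w i‖ ^ 2 = ∑ l, ‖inner ℂ (b i : H) (v l)‖ ^ 2 := by
      intro i
      rw [PiLp.norm_sq_eq_of_L2]
    simp only [h1]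
    rw [Finset.sum_comm]
    exact Finset.sum_congr rfl fun l _ => hpars _ (hv l)
  have hm : ‖mat H a v‖ ^ 2 = ∑ i, ‖mat ℂ a (w i)‖ ^ 2 := by
    rw [PiLp.norm_sq_eq_of_L2]
    have h1 : ∀ i, ‖mat ℂ a (w i)‖ ^ 2 = ∑ k, ‖inner ℂ (b i : H) ((mat H a v) k)‖ ^ 2 := by
      intro i
      rw [PiLp.norm_sq_eq_of_L2]
      refine Finset.sum_congr rfl fun k _ => ?_
      rw [mat_apply, mat_apply, inner_sum]
      congr 2
      refine Finset.sum_congr rfl fun l _ => ?_
      rw [hw0, inner_smul_right, smul_eq_mul]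
    simp only [h1]
    rw [Finset.sum_comm]
    refine Finset.sum_congr rfl fun k _ => hpars _ ?_
    rw [mat_apply]
    exact Submodule.sum_mem _ fun l _ => Submodule.smul_mem _ _ (hv l)
  refine (pow_le_pow_iff_left₀ (norm_nonneg _) (by positivity) (two_ne_zero)).1 ?_
  rw [hm, mul_pow, hw, Finset.mul_sum]
  refine Finset.sum_le_sum fun i _ => ?_
  rw [← mul_pow]
  exact pow_le_pow_left₀ (norm_nonneg _) ((mat ℂ a).le_opNorm _) 2

end

end Pool.Agent.Helper623_LS
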