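import Pool.Agent.Helper623_LS.Rel

/-! Task UNIT: the von Neumann inequality for unitaries, as a `UL` statement.

Proof. `B = A⁻¹`, `A` is a surjective isometry so `A` is unitary in the C*-algebra of operators on `H` and `B = A†`.
`lau f A B = cfc (fun v => ∑ a_n v^n) A` (or: `lau f A B` is normal, its spectrum is contained in the image of the
spectrum of `A`, a subset of the circle, by spectral mapping) so its norm is at most the sup over the circle. -/

set_option autoImplicit false
open scoped ENNReal NNReal Topology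
open Filter
namespace Pool.Agent.Helper623_LS

theorem UL.of_unitary {H : Type} [NormedAddCommGroup H] [InnerProductSpace ℂ H] [CompleteSpace H]
    (A B : H →L[ℂ] H) (hAB : A * B = 1) (hBA : B * A = 1) (hA : ∀ x, ‖A x‖ = ‖x‖) : UL 1 A B := by
  refine ⟨hAB, hBA, fun f M hf => ?_⟩
  have h1 : star A * A = 1 := by
    have := (ContinuousLinearMap.norm_map_iff_adjoint_comp_self A).1 hA
    exact this
  have h2 : star A = B := by
    calc star A = star A * (A * B) := by rw [hAB, mul_one]
      _ = (star A * A) * B := by rw [mul_assoc]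
      _ = B := by rw [h1, one_mul]
  have h3 : A * star A = 1 := by rw [h2, hAB]
  have hu : A ∈ unitary (H →L[ℂ] H) := ⟨h1, h3⟩
  have hn : IsStarNormal A := ⟨by change star A * A = A * star A; rw [h1, h3]⟩
  have hsp : ∀ v ∈ spectrum ℂ A, ‖v‖ = 1 := fun v hv => by
    have := spectrum.subset_circle_of_unitary hu hv
    simpa using this
  let u : (H →L[ℂ] H)ˣ := ⟨A, B, hAB, hBA⟩
  have hcont : ∀ n : ℤ, ContinuousOn (fun v : ℂ => v ^ n) (spectrum ℂ A) := by
    intro n v hv
    refine (continuousAt_zpow₀ v n (Or.inl ?_)).continuousWithinAt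
    intro h0
    have := hsp v hv
    rw [h0, norm_zero] at this
    norm_num at this
  have hzp : ∀ n : ℤ, cfc (fun v : ℂ => v ^ n) A = if 0 ≤ n then A ^ n.toNat else B ^ (-n).toNat := by
    intro n
    have hz : cfc (fun v : ℂ => v ^ n) A = ((u ^ n : (H →L[ℂ] H)ˣ) : H →L[ℂ] H) := cfc_zpow u n hn
    rw [hz]
    split_ifs with h
    · obtain ⟨k, rfl⟩ := Int.eq_ofNat_of_zero_le h
      simp [u]
    · obtain ⟨k, hk⟩ := Int.eq_ofNat_of_zero_le (show 0 ≤ -n by omega)
      have hk' : n = -(k : ℤ) := by omega
      subst hk'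
      simp [u]
  have hlau : lau f A B = cfc (∑ n ∈ f.support, fun v : ℂ => f n * v ^ n) A := by
    rw [cfc_sum (fun (n : ℤ) (v : ℂ) => f n * v ^ n) A f.support
      (fun n _ => continuousOn_const.mul (hcont n))]
    unfold lau Finsupp.sum
    refine Finset.sum_congr rfl fun n _ => ?_
    rw [cfc_const_mul (f n) (fun v : ℂ => v ^ n) A (hcont n), hzp n]
  rw [hlau, one_mul]
  refine norm_cfc_le hf.nonneg fun v hv => ?_
  have := hf v (hsp v hv)
  rw [Finset.sum_apply]
  exact this

end Pool.Agent.Helper623_LS
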