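import Pool.Agent.Helper623_LS.Amp
import Pool.Agent.Helper623_LS.MatAlg
import Pool.Agent.Helper623_LS.Unit

/-! Task GOP: matrix valued multiplication operators `gop`, and `theta` of the diagonal unitary. All is computed
coordinatewise with `dsum_apply`. -/

set_option autoImplicit false
open scoped ENNReal NNReal Topology
open Filter
namespace Pool.Agent.Helper623_LS

noncomputable section

section given
variable {N : ℕ} {H : Type} [NormedAddCommGroup H] [InnerProductSpace ℂ H]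


end given

variable {p : ℝ≥0∞} [Fact (1 ≤ p)] {J J' J'' : Type} {H : J → Type} {H' : J' → Type} {H'' : J'' → Type}
  [∀ j, NormedAddCommGroup (H j)] [∀ j, InnerProductSpace ℂ (H j)]
  [∀ j, NormedAddCommGroup (H' j)] [∀ j, InnerProductSpace ℂ (H' j)]
  [∀ j, NormedAddCommGroup (H'' j)] [∀ j, InnerProductSpace ℂ (H'' j)]


/-! To be proved: -/

theorem norm_mat_of_unitary {N : ℕ} {H : Type} [NormedAddCommGroup H] [InnerProductSpace ℂ H]
    (a : Matrix (Fin N) (Fin N) ℂ) (ha : a ∈ Matrix.unitaryGroup (Fin N) ℂ) : ‖mat H a‖ ≤ 1 := by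
  refine ContinuousLinearMap.opNorm_le_bound _ zero_le_one fun v => ?_
  rw [norm_mat_unitary a ha, one_mul]

/-- boundedness of a matrix valued function -/
def Bg {N : ℕ} (g : J → Matrix (Fin N) (Fin N) ℂ) : Prop := ∃ C, ∀ j, ‖mat ℂ (g j)‖ ≤ C

omit [Fact (1 ≤ p)] in
theorem Bg.unitary {N : ℕ} {g : J → Matrix (Fin N) (Fin N) ℂ}
    (h : ∀ j, g j ∈ Matrix.unitaryGroup (Fin N) ℂ) : Bg g := by
  exact ⟨1, fun j => norm_mat_of_unitary (g j) (h j)⟩

omit [Fact (1 ≤ p)] in
theorem Bg.const {N : ℕ} (a : Matrix (Fin N) (Fin N) ℂ) : Bg (fun _ : J => a) := by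
  exact ⟨‖mat ℂ a‖, fun _ => le_rfl⟩

omit [Fact (1 ≤ p)] in
theorem Bg.bd {N : ℕ} {g : J → Matrix (Fin N) (Fin N) ℂ} (hg : Bg g) :
    Bd (fun j => mat (H j) (g j)) := by
  obtain ⟨C, hC⟩ := hg
  exact ⟨C, fun j => (norm_mat_le _).trans (hC j)⟩

theorem mat_smul' {N : ℕ} {H : Type} [NormedAddCommGroup H] [InnerProductSpace ℂ H] (c : ℂ)
    (a : Matrix (Fin N) (Fin N) ℂ) : mat H (c • a) = c • mat H a := by
  ext v k
  rw [mat_apply]
  show _ = c • ((mat H a v) k)
  rw [mat_apply, Finset.smul_sum]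
  exact Finset.sum_congr rfl fun l _ => by rw [Matrix.smul_apply, smul_assoc]

theorem mat_zero' {N : ℕ} {H : Type} [NormedAddCommGroup H] [InnerProductSpace ℂ H] :
    mat H (0 : Matrix (Fin N) (Fin N) ℂ) = 0 := by
  have h := mat_sub (H := H) (0 : Matrix (Fin N) (Fin N) ℂ) 0
  rwa [sub_self, sub_self] at h

theorem gop_apply {N : ℕ} {g : J → Matrix (Fin N) (Fin N) ℂ} (hg : Bg g) (z : lp (AH N H) p) (j : J) :
    gop p H g z j = mat (H j) (g j) (z j) := by
  unfold gop
  rw [dsum_apply hg.bd]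

theorem comp_gop {N : ℕ} (a : Matrix (Fin N) (Fin N) ℂ) (z : lp (AH N H) p) (k : Fin N) :
    comp p N k (gop p H (fun _ => a) z) = ∑ l, a k l • comp p N l z := by
  ext j
  rw [comp_apply, gop_apply (Bg.const a), mat_apply, lp.coeFn_sum, Finset.sum_apply]
  refine Finset.sum_congr rfl fun l _ => ?_
  rw [lp.coeFn_smul, Pi.smul_apply, comp_apply]

theorem norm_gop_le {N : ℕ} {g : J → Matrix (Fin N) (Fin N) ℂ} {C : ℝ} (hC : 0 ≤ C)
    (hg : ∀ j, ‖mat ℂ (g j)‖ ≤ C) : ‖gop p H g‖ ≤ C := by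
  exact norm_dsum_le hC fun j => (norm_mat_le _).trans (hg j)

theorem gop_mul {N : ℕ} {g h : J → Matrix (Fin N) (Fin N) ℂ} (hg : Bg g) (hh : Bg h) :
    gop p H g * gop p H h = gop p H (fun j => g j * h j) := by
  unfold gop
  rw [dsum_mul hg.bd hh.bd]
  congr 1
  funext j
  exact (mat_mul _ _).symm

theorem gop_one {N : ℕ} : gop p H (fun _ => (1 : Matrix (Fin N) (Fin N) ℂ)) = 1 := by
  unfold gop
  simp only [mat_one]
  exact dsum_id

theorem gop_add {N : ℕ} {g h : J → Matrix (Fin N) (Fin N) ℂ} (hg : Bg g) (hh : Bg h) :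
    gop p H (fun j => g j + h j) = gop p H g + gop p H h := by
  unfold gop
  rw [← dsum_add hg.bd hh.bd]
  congr 1
  funext j
  exact mat_add _ _

theorem gop_sub {N : ℕ} {g h : J → Matrix (Fin N) (Fin N) ℂ} (hg : Bg g) (hh : Bg h) :
    gop p H (fun j => g j - h j) = gop p H g - gop p H h := by
  unfold gop
  rw [← dsum_sub hg.bd hh.bd]
  congr 1
  funext j
  exact mat_sub _ _

theorem gop_smul {N : ℕ} {g : J → Matrix (Fin N) (Fin N) ℂ} (c : ℂ) (hg : Bg g) :
    gop p H (fun j => c • g j) = c • gop p H g := by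
  unfold gop
  rw [← dsum_smul c hg.bd]
  congr 1
  funext j
  exact mat_smul' _ _

/-- scalar matrices commute with ampliations -/
theorem gop_const_amp {N : ℕ} (a : Matrix (Fin N) (Fin N) ℂ) (A : lp H p →L[ℂ] lp H' p) :
    gop p H' (fun _ => a) ∘L amp p N A = amp p N A ∘L gop p H (fun _ => a) := by
  refine ContinuousLinearMap.ext fun z => ext_comp fun k => ?_
  show comp p N k (gop p H' (fun _ => a) (amp p N A z)) =
    comp p N k (amp p N A (gop p H (fun _ => a) z))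
  rw [comp_amp, comp_gop, comp_gop, map_sum]
  refine Finset.sum_congr rfl fun l _ => ?_
  rw [comp_amp, map_smul]

theorem gop_mulOp {N : ℕ} {g : J → Matrix (Fin N) (Fin N) ℂ} (hg : Bg g) {e : J → ℝ}
    (he : ∃ C, ∀ j, |e j| ≤ C) :
    gop p H g * mulOp p (AH N H) e = mulOp p (AH N H) e * gop p H g := by
  refine ContinuousLinearMap.ext fun z => lp.ext (funext fun j => ?_)
  show gop p H g (mulOp p (AH N H) e z) j = mulOp p (AH N H) e (gop p H g z) j
  rw [gop_apply hg, mulOp_apply he, mulOp_apply he, gop_apply hg, map_smul]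

/-- only the values of `g` on the support of `e` matter -/
theorem gop_mulOp_congr {N : ℕ} {g h : J → Matrix (Fin N) (Fin N) ℂ} (hg : Bg g) (hh : Bg h)
    {e : J → ℝ} (he : ∃ C, ∀ j, |e j| ≤ C) (hgh : ∀ j, e j ≠ 0 → g j = h j) :
    gop p H g * mulOp p (AH N H) e = gop p H h * mulOp p (AH N H) e := by
  refine ContinuousLinearMap.ext fun z => lp.ext (funext fun j => ?_)
  show gop p H g (mulOp p (AH N H) e z) j = gop p H h (mulOp p (AH N H) e z) j
  rw [gop_apply hg, gop_apply hh, mulOp_apply he]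
  by_cases hj : e j = 0
  · rw [hj]; simp
  · rw [hgh j hj]

/-- `gop g` is compact if `g` is finitely supported and the fibres have finite dimension. -/
theorem gop_compact {N : ℕ} {g : J → Matrix (Fin N) (Fin N) ℂ} (hfin : {j | g j ≠ 0}.Finite)
    [∀ j, FiniteDimensional ℂ (H j)] : IsCompactOperator (gop p H g) := by
  have : ∀ j, CompleteSpace (H j) := fun j => FiniteDimensional.complete ℂ (H j)
  have : ∀ j, CompleteSpace (AH N H j) := fun j => inferInstance
  have : ∀ j, ProperSpace (AH N H j) := fun j => FiniteDimensional.proper ℂ (AH N H j)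
  refine dsum_compact (fun j => ?_) ?_
  · exact isCompactOperator_of_locallyCompactSpace_dom _
  · refine tendsto_const_nhds.congr' ?_
    have : ∀ᶠ j in cofinite, g j = 0 := by
      rw [eventually_cofinite]; exact hfin
    filter_upwards [this] with j hj
    rw [hj, mat_zero', norm_zero]

theorem sgl_apply'' {N : ℕ} {H : Type} [NormedAddCommGroup H] [InnerProductSpace ℂ H]
    (k l : Fin N) (x : H) : (sgl N H k x) l = if l = k then x else 0 := by
  show (Pi.single k x : Fin N → H) l = _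
  rw [Pi.single_apply]

theorem norm_sgl'' {N : ℕ} {H : Type} [NormedAddCommGroup H] [InnerProductSpace ℂ H]
    (k : Fin N) (x : H) : ‖sgl N H k x‖ = ‖x‖ := by
  have h : ‖sgl N H k x‖ ^ 2 = ‖x‖ ^ 2 := by
    rw [PiLp.norm_sq_eq_of_L2, Finset.sum_eq_single k]
    · rw [sgl_apply'', if_pos rfl]
    · intro l _ hl
      rw [sgl_apply'', if_neg hl, norm_zero]; ring
    · intro h; exact absurd (Finset.mem_univ k) h
  exact (pow_left_inj₀ (norm_nonneg _) (norm_nonneg _) two_ne_zero).1 h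

theorem norm_sgl_le'' {N : ℕ} {H : Type} [NormedAddCommGroup H] [InnerProductSpace ℂ H]
    (k : Fin N) : ‖sgl N H k‖ ≤ 1 := by
  refine ContinuousLinearMap.opNorm_le_bound _ zero_le_one fun x => ?_
  rw [one_mul, norm_sgl'']

theorem inc_apply_apply'' {N : ℕ} (k l : Fin N) (x : lp H p) (j : J) :
    (inc p N k x j) l = if l = k then x j else 0 := by
  have h : Bd (fun j => sgl N (H j) k) := ⟨1, fun j => norm_sgl_le'' k⟩
  unfold inc
  rw [dsum_apply h, sgl_apply'']

theorem comp_inc_self' {N : ℕ} (k : Fin N) (x : lp H p) : comp p N k (inc p N k x) = x := by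
  ext j
  rw [comp_apply, inc_apply_apply'', if_pos rfl]

theorem comp_inc_ne' {N : ℕ} (k l : Fin N) (h : k ≠ l) (x : lp H p) :
    comp p N k (inc p N l x) = 0 := by
  ext j
  rw [comp_apply, inc_apply_apply'', if_neg h]
  rfl

theorem q0_eq_gop {m : ℕ} : q0 p H m = gop p H (fun _ => Matrix.single 0 0 1) := by
  refine ContinuousLinearMap.ext fun z => ext_comp fun k => ?_
  rw [comp_gop]
  by_cases hk : k = 0
  · subst hk
    rw [Finset.sum_eq_single 0]
    · rw [Matrix.single_apply_same, one_smul]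
      exact comp_inc_self' 0 _
    · intro l _ hl
      rw [Matrix.single_apply_of_ne _ _ _ _ _ (by simp [hl.symm]), zero_smul]
    · intro h; exact absurd (Finset.mem_univ _) h
  · rw [Finset.sum_eq_zero]
    · exact comp_inc_ne' k 0 hk _
    · intro l _
      rw [Matrix.single_apply_of_ne _ _ _ _ _ (by simp [Ne.symm hk]), zero_smul]

theorem UL.gop {N : ℕ} {g : J → Matrix (Fin N) (Fin N) ℂ} [∀ j, CompleteSpace (H j)]
    (hg : ∀ j, g j ∈ Matrix.unitaryGroup (Fin N) ℂ) :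
    UL 1 (Helper623_LS.gop p H g) (Helper623_LS.gop p H (fun j => star (g j))) := by
  have hg' : ∀ j, star (g j) ∈ Matrix.unitaryGroup (Fin N) ℂ := fun j => Unitary.star_mem (hg j)
  refine UL.dsum zero_le_one (Bg.unitary hg).bd (Bg.unitary hg').bd fun j => ?_
  refine UL.of_unitary _ _ ?_ ?_ fun x => norm_mat_unitary _ (hg j) x
  · show mat (H j) (g j) ∘L mat (H j) (star (g j)) = 1
    rw [← mat_mul, Unitary.mul_star_self_of_mem (hg j), mat_one]
    rfl
  · show mat (H j) (star (g j)) ∘L mat (H j) (g j) = 1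
    rw [← mat_mul, Unitary.star_mul_self_of_mem (hg j), mat_one]
    rfl

/-- the block acting by the diagonal matrix in the zeroth coordinate -/
def blk {m : ℕ} (M : ℕ → ℕ) (w : ∀ n, Fin (M n) → ℂ) (j : ℕ × ℕ) :
    AH (m + 1) (YH M) j →L[ℂ] AH (m + 1) (YH M) j :=
  sgl (m + 1) (YH M j) 0 ∘L mat ℂ (Matrix.diagonal (w j.1)) ∘L
    PiLp.proj (𝕜 := ℂ) 2 (fun _ : Fin (m + 1) => YH M j) 0 +
  (1 - sgl (m + 1) (YH M j) 0 ∘L PiLp.proj (𝕜 := ℂ) 2 (fun _ : Fin (m + 1) => YH M j) 0)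

theorem blk_apply_zero {m : ℕ} (M : ℕ → ℕ) (w : ∀ n, Fin (M n) → ℂ) (j : ℕ × ℕ)
    (x : AH (m + 1) (YH M) j) : (blk M w j x) 0 = mat ℂ (Matrix.diagonal (w j.1)) (x 0) := by
  show (sgl (m + 1) (YH M j) 0 (mat ℂ (Matrix.diagonal (w j.1)) (x 0))) 0 +
    (x 0 - (sgl (m + 1) (YH M j) 0 (x 0)) 0) = _
  rw [sgl_apply'', sgl_apply'', if_pos rfl, if_pos rfl, sub_self, add_zero]

theorem blk_apply_ne {m : ℕ} (M : ℕ → ℕ) (w : ∀ n, Fin (M n) → ℂ) (j : ℕ × ℕ)
    (x : AH (m + 1) (YH M) j) (k : Fin (m + 1)) (hk : k ≠ 0) : (blk M w j x) k = x k := by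
  show (sgl (m + 1) (YH M j) 0 (mat ℂ (Matrix.diagonal (w j.1)) (x 0))) k +
    (x k - (sgl (m + 1) (YH M j) 0 (x 0)) k) = _
  rw [sgl_apply'', sgl_apply'', if_neg hk, if_neg hk, sub_zero, zero_add]

theorem diag_mem {n : ℕ} (w : Fin n → ℂ) (hw : ∀ k, ‖w k‖ = 1) :
    Matrix.diagonal w ∈ Matrix.unitaryGroup (Fin n) ℂ := by
  rw [Matrix.mem_unitaryGroup_iff, Matrix.star_eq_conjTranspose, Matrix.diagonal_conjTranspose,
    Matrix.diagonal_mul_diagonal, ← Matrix.diagonal_one]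
  congr 1
  funext k
  rw [Pi.star_apply, Complex.star_def, Complex.mul_conj, Complex.normSq_eq_norm_sq, hw]
  norm_num

theorem norm_blk {m : ℕ} (M : ℕ → ℕ) (w : ∀ n, Fin (M n) → ℂ) (hw : ∀ n k, ‖w n k‖ = 1)
    (j : ℕ × ℕ) (x : AH (m + 1) (YH M) j) : ‖blk M w j x‖ = ‖x‖ := by
  have h : ‖blk M w j x‖ ^ 2 = ‖x‖ ^ 2 := by
    rw [PiLp.norm_sq_eq_of_L2, PiLp.norm_sq_eq_of_L2]
    refine Finset.sum_congr rfl fun k _ => ?_
    by_cases hk : k = 0
    · subst hk
      rw [blk_apply_zero, norm_mat_unitary _ (diag_mem _ (hw j.1))]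
    · rw [blk_apply_ne _ _ _ _ _ hk]
  exact (pow_left_inj₀ (norm_nonneg _) (norm_nonneg _) two_ne_zero).1 h

theorem Bd_blk {m : ℕ} (M : ℕ → ℕ) (w : ∀ n, Fin (M n) → ℂ) (hw : ∀ n k, ‖w n k‖ = 1) :
    Bd (fun j => (blk M w j : AH (m + 1) (YH M) j →L[ℂ] AH (m + 1) (YH M) j)) := by
  refine ⟨1, fun j => ContinuousLinearMap.opNorm_le_bound _ zero_le_one fun x => ?_⟩
  rw [norm_blk M w hw, one_mul]

theorem blk_mul {m : ℕ} (M : ℕ → ℕ) (w w' : ∀ n, Fin (M n) → ℂ) (j : ℕ × ℕ)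
    (h : ∀ k, w j.1 k * w' j.1 k = 1) :
    blk M w j * blk M w' j = (1 : AH (m + 1) (YH M) j →L[ℂ] AH (m + 1) (YH M) j) := by
  refine ContinuousLinearMap.ext fun x => ?_
  show blk M w j (blk M w' j x) = x
  ext k : 1
  by_cases hk : k = 0
  · subst hk
    rw [blk_apply_zero, blk_apply_zero]
    show (mat ℂ (Matrix.diagonal (w j.1)) ∘L mat ℂ (Matrix.diagonal (w' j.1))) (x 0) = x 0
    rw [← mat_mul, Matrix.diagonal_mul_diagonal]
    have : (fun i => w j.1 i * w' j.1 i) = fun _ => 1 := funext h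
    rw [this, Matrix.diagonal_one, mat_one]
    rfl
  · rw [blk_apply_ne _ _ _ _ _ hk, blk_apply_ne _ _ _ _ _ hk]

theorem Bd_uY (M : ℕ → ℕ) (w : ∀ n, Fin (M n) → ℂ) (hw : ∀ n k, ‖w n k‖ = 1) :
    Bd (fun j : ℕ × ℕ => mat ℂ (Matrix.diagonal (w j.1))) :=
  ⟨1, fun j => norm_mat_of_unitary _ (diag_mem _ (hw j.1))⟩

theorem theta_uY {m : ℕ} (M : ℕ → ℕ) (w : ∀ n, Fin (M n) → ℂ) (hw : ∀ n k, ‖w n k‖ = 1) :
    theta p m (uY p M w) = dsum p (fun j => blk M w j) := by
  refine ContinuousLinearMap.ext fun z => ext_comp fun k => lp.ext (funext fun j => ?_)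
  have e : comp p (m + 1) k (dsum p (fun j => blk M w j) z) j = (blk M w j (z j)) k := by
    rw [comp_apply, dsum_apply (Bd_blk M w hw)]
  rw [e]
  by_cases hk : k = 0
  · subst hk
    rw [theta_apply_zero, blk_apply_zero]
    unfold uY
    rw [dsum_apply (Bd_uY M w hw), comp_apply]
  · rw [theta_apply_ne _ _ _ hk, blk_apply_ne _ _ _ _ _ hk, comp_apply]

/-- `G θ(u)` is coordinatewise unitary. Write it as a `dsum` (`theta p m (dsum p a) = dsum p b`, `b j` acting as `a j` in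
the zeroth coordinate of `ℓ₂^{m+1}(H j)` and as the identity in the others), then `UL.dsum` and `UL.of_unitary`. -/
theorem UL.gop_theta {m : ℕ} (M : ℕ → ℕ) (w : ∀ n, Fin (M n) → ℂ) (hw : ∀ n k, ‖w n k‖ = 1)
    (g : ℕ × ℕ → Matrix (Fin (m + 1)) (Fin (m + 1)) ℂ)
    (hg : ∀ j, g j ∈ Matrix.unitaryGroup (Fin (m + 1)) ℂ) :
    UL 1 (Helper623_LS.gop p (YH M) g * theta p m (uY p M w))
      (theta p m (uY p M (fun n k => star (w n k))) *
        Helper623_LS.gop p (YH M) (fun j => star (g j))) := by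
  have hg' : ∀ j, star (g j) ∈ Matrix.unitaryGroup (Fin (m + 1)) ℂ :=
    fun j => Unitary.star_mem (hg j)
  have hw' : ∀ n k, ‖star (w n k)‖ = 1 := fun n k => by rw [norm_star]; exact hw n k
  have hb := Bd_blk (m := m) M w hw
  have hb' := Bd_blk (m := m) M (fun n k => star (w n k)) hw'
  rw [theta_uY M w hw, theta_uY M (fun n k => star (w n k)) hw']
  unfold Helper623_LS.gop
  rw [dsum_mul (Bg.unitary hg).bd hb, dsum_mul hb' (Bg.unitary hg').bd]
  refine UL.dsum zero_le_one ((Bg.unitary hg).bd.mul hb) (hb'.mul (Bg.unitary hg').bd) fun j => ?_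
  have e1 : blk M w j * blk M (fun n k => star (w n k)) j = (1 : AH (m + 1) (YH M) j →L[ℂ] _) :=
    blk_mul M w _ j (fun k => by
      have := hw j.1 k
      have h2 : w j.1 k * star (w j.1 k) = 1 := by
        rw [Complex.star_def, Complex.mul_conj, Complex.normSq_eq_norm_sq, this]; norm_num
      exact h2)
  have e2 : blk M (fun n k => star (w n k)) j * blk M w j = (1 : AH (m + 1) (YH M) j →L[ℂ] _) :=
    blk_mul M _ w j (fun k => by
      have := hw j.1 k
      have h2 : star (w j.1 k) * w j.1 k = 1 := by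
        rw [mul_comm, Complex.star_def, Complex.mul_conj, Complex.normSq_eq_norm_sq, this]; norm_num
      exact h2)
  have e3 : mat (YH M j) (g j) * mat (YH M j) (star (g j)) = 1 := by
    show mat (YH M j) (g j) ∘L mat (YH M j) (star (g j)) = 1
    rw [← mat_mul, Unitary.mul_star_self_of_mem (hg j), mat_one]
    rfl
  have e4 : mat (YH M j) (star (g j)) * mat (YH M j) (g j) = 1 := by
    show mat (YH M j) (star (g j)) ∘L mat (YH M j) (g j) = 1
    rw [← mat_mul, Unitary.star_mul_self_of_mem (hg j), mat_one]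
    rfl
  refine UL.of_unitary _ _ ?_ ?_ fun x => ?_
  · calc _ = mat (YH M j) (g j) * (blk M w j * blk M (fun n k => star (w n k)) j) *
          mat (YH M j) (star (g j)) := by simp only [mul_assoc]
      _ = 1 := by rw [e1, mul_one, e3]
  · calc _ = blk M (fun n k => star (w n k)) j * (mat (YH M j) (star (g j)) * mat (YH M j) (g j)) *
          blk M w j := by simp only [mul_assoc]
      _ = 1 := by rw [e4, mul_one, e2]
  · show ‖mat (YH M j) (g j) (blk M w j x)‖ = ‖x‖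
    rw [norm_mat_unitary _ (hg j), norm_blk M w hw]

end

end Pool.Agent.Helper623_LS
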