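import Pool.Agent.Helper623_LS.Gop

/-! Task LOC: banded operators almost commute with slowly varying matrix multipliers. -/

set_option autoImplicit false
open scoped ENNReal NNReal Topology
open Filter
namespace Pool.Agent.Helper623_LS

noncomputable section

variable {p : ℝ≥0∞} [Fact (1 ≤ p)] {J J' : Type} {H : J → Type} {H' : J' → Type}
  [∀ j, NormedAddCommGroup (H j)] [∀ j, InnerProductSpace ℂ (H j)]
  [∀ j, NormedAddCommGroup (H' j)] [∀ j, InnerProductSpace ℂ (H' j)]

section given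












end given

/-! To be proved: -/

theorem amp_banded (b : J → ℕ) (b' : J' → ℕ) (V : lp H p →L[ℂ] lp H' p)
    (hV : Banded b b' V) {N : ℕ} (z : lp (AH N H) p) (j' : J')
    (h : ∀ j, z j ≠ 0 → b j + 2 < b' j' ∨ b' j' + 2 < b j) : amp p N V z j' = 0 := by
  ext k
  have h1 := comp_apply k (amp p N V z) j'
  rw [comp_amp] at h1
  rw [← h1]
  refine hV _ j' fun j hj => h j fun h0 => hj ?_
  rw [comp_apply, h0]
  rfl

/-- the restricted difference -/
def hdiff {N : ℕ} (b : J → ℕ) (g : ℕ → Matrix (Fin N) (Fin N) ℂ) (n : ℕ) (j : J) :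
    Matrix (Fin N) (Fin N) ℂ :=
  if b j + 2 < n ∨ n + 2 < b j then 0 else g (b j) - g n

theorem loc_mat_zero {N : ℕ} {E : Type} [NormedAddCommGroup E] [InnerProductSpace ℂ E] :
    mat E (0 : Matrix (Fin N) (Fin N) ℂ) = 0 := by
  have h := mat_sub (H := E) (0 : Matrix (Fin N) (Fin N) ℂ) 0
  rw [sub_self, sub_self] at h
  exact h

theorem Bg.comp_fun {N : ℕ} {g : ℕ → Matrix (Fin N) (Fin N) ℂ} (hg : Bg g) (b : J → ℕ) :
    Bg (fun j => g (b j)) := by
  obtain ⟨C, hC⟩ := hg
  exact ⟨C, fun j => hC _⟩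

theorem Bg.hdiff {N : ℕ} {g : ℕ → Matrix (Fin N) (Fin N) ℂ} (hg : Bg g) (b : J → ℕ) (n : ℕ) :
    Bg (hdiff b g n) := by
  obtain ⟨C, hC⟩ := hg
  refine ⟨C + C, fun j => ?_⟩
  have h0 : 0 ≤ C := (norm_nonneg _).trans (hC 0)
  unfold Helper623_LS.hdiff
  split_ifs
  · rw [loc_mat_zero, norm_zero]; positivity
  · rw [mat_sub]
    exact (norm_sub_le _ _).trans (add_le_add (hC _) (hC _))

theorem loc_apply (b : J → ℕ) (b' : J' → ℕ) (V : lp H p →L[ℂ] lp H' p)
    (hV : Banded b b' V) {N : ℕ} (g : ℕ → Matrix (Fin N) (Fin N) ℂ) (hg : Bg g)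
    (z : lp (AH N H) p) (j' : J') :
    (amp p N V ∘L gop p H (fun j => g (b j)) - gop p H' (fun j => g (b' j)) ∘L amp p N V) z j' =
      amp p N V (gop p H (hdiff b g (b' j')) z) j' := by
  have e1 : (gop p H' (fun j => g (b' j)) (amp p N V z)) j' =
      (amp p N V (gop p H (fun _ => g (b' j')) z)) j' := by
    have h1 := congrArg (fun T => (T z) j') (gop_const_amp (p := p) (H := H) (H' := H') (g (b' j')) V)
    simp only [ContinuousLinearMap.comp_apply] at h1
    rw [← h1, gop_apply (hg.comp_fun b'), gop_apply (Bg.const _)]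
  have e2 : amp p N V (gop p H (fun j => g (b j)) z - gop p H (fun _ => g (b' j')) z -
      gop p H (hdiff b g (b' j')) z) j' = 0 := by
    refine amp_banded b b' V hV _ j' fun j hj => ?_
    by_contra hc
    apply hj
    have h2 : (gop p H (fun j => g (b j)) z - gop p H (fun _ => g (b' j')) z -
      gop p H (hdiff b g (b' j')) z) j = gop p H (fun j => g (b j)) z j -
        gop p H (fun _ => g (b' j')) z j - gop p H (hdiff b g (b' j')) z j := rfl
    rw [h2, gop_apply (hg.comp_fun b), gop_apply (Bg.const _), gop_apply (hg.hdiff b _)]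
    unfold hdiff
    rw [if_neg hc, mat_sub]
    simp
  rw [map_sub, map_sub] at e2
  have h3 : (amp p N V (gop p H (fun j => g (b j)) z) - amp p N V (gop p H (fun _ => g (b' j')) z) -
      amp p N V (gop p H (hdiff b g (b' j')) z)) j' = amp p N V (gop p H (fun j => g (b j)) z) j' -
      amp p N V (gop p H (fun _ => g (b' j')) z) j' - amp p N V (gop p H (hdiff b g (b' j')) z) j' := rfl
  rw [h3] at e2
  have h4 : (amp p N V ∘L gop p H (fun j => g (b j)) - gop p H' (fun j => g (b' j)) ∘L amp p N V) z j'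
      = amp p N V (gop p H (fun j => g (b j)) z) j' - (gop p H' (fun j => g (b' j)) (amp p N V z)) j' := rfl
  rw [h4, e1]
  exact sub_eq_zero.1 e2

theorem norm_gdiff {N : ℕ} (g : ℕ → Matrix (Fin N) (Fin N) ℂ) (ε : ℝ)
    (hε : ∀ n, ‖mat ℂ (g (n + 1) - g n)‖ ≤ ε) (k m : ℕ) :
    ‖mat ℂ (g (k + m) - g k)‖ ≤ m * ε := by
  induction m with
  | zero => simp [loc_mat_zero]
  | succ m ih =>
    have e : g (k + (m + 1)) - g k = (g (k + m + 1) - g (k + m)) + (g (k + m) - g k) := by
      rw [← add_assoc]; abel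
    rw [e, mat_add]
    refine (norm_add_le _ _).trans ?_
    push_cast
    have := hε (k + m)
    linarith

theorem norm_hdiff {N : ℕ} (b : J → ℕ) (g : ℕ → Matrix (Fin N) (Fin N) ℂ) (ε : ℝ)
    (hε : ∀ n, ‖mat ℂ (g (n + 1) - g n)‖ ≤ ε) (n : ℕ) (j : J) :
    ‖mat ℂ (hdiff b g n j)‖ ≤ 2 * ε := by
  have h0 : 0 ≤ ε := (norm_nonneg _).trans (hε 0)
  unfold hdiff
  split_ifs with h
  · rw [loc_mat_zero, norm_zero]; positivity
  · push Not at h
    rcases le_total n (b j) with h1 | h1
    · obtain ⟨m, hm⟩ := Nat.exists_eq_add_of_le h1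
      rw [hm]
      refine (norm_gdiff g ε hε n m).trans ?_
      have : (m : ℝ) ≤ 2 := by exact_mod_cast (by omega : m ≤ 2)
      nlinarith
    · obtain ⟨m, hm⟩ := Nat.exists_eq_add_of_le h1
      have e : g (b j) - g n = -(g (b j + m) - g (b j)) := by rw [← hm]; abel
      have e2 : mat ℂ (-(g (b j + m) - g (b j))) = - mat ℂ (g (b j + m) - g (b j)) := by
        rw [← zero_sub, mat_sub, loc_mat_zero, zero_sub]
      rw [e, e2, norm_neg]
      refine (norm_gdiff g ε hε (b j) m).trans ?_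
      have : (m : ℝ) ≤ 2 := by exact_mod_cast (by omega : m ≤ 2)
      nlinarith

theorem loc_norm (hp : p ≠ ∞) (b : J → ℕ) (b' : J' → ℕ) (V : lp H p →L[ℂ] lp H' p)
    (hV : Banded b b' V) {N : ℕ} (g : ℕ → Matrix (Fin N) (Fin N) ℂ) (hg : Bg g) (ε : ℝ)
    (hε : ∀ n, ‖mat ℂ (g (n + 1) - g n)‖ ≤ ε) :
    ‖amp p N V ∘L gop p H (fun j => g (b j)) - gop p H' (fun j => g (b' j)) ∘L amp p N V‖ ≤
      10 * ‖amp p N V‖ * ε := by
  classical
  have hε0 : 0 ≤ ε := (norm_nonneg _).trans (hε 0)
  have hp0 : p ≠ 0 := (lt_of_lt_of_le one_pos (Fact.out : (1 : ℝ≥0∞) ≤ p)).ne'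
  have hp' : 0 < p.toReal := ENNReal.toReal_pos hp0 hp
  have hp1 : 1 ≤ p.toReal := by
    have := (ENNReal.toReal_le_toReal ENNReal.one_ne_top hp).2 (Fact.out : (1 : ℝ≥0∞) ≤ p)
    simpa using this
  have hA : 0 ≤ ‖amp p N V‖ := (amp p N V).opNorm_nonneg
  refine ContinuousLinearMap.opNorm_le_bound _ (by positivity) fun z => ?_
  refine lp.norm_le_of_forall_sum_le hp' (by positivity) fun s => ?_
  -- pointwise bound of the restricted difference
  have hR : ∀ n j, ‖gop p H (hdiff b g n) z j‖ ^ p.toReal ≤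
      if b j + 2 < n ∨ n + 2 < b j then 0 else (2 * ε) ^ p.toReal * ‖z j‖ ^ p.toReal := by
    intro n j
    rw [gop_apply (hg.hdiff b n)]
    split_ifs with h
    · have : hdiff b g n j = 0 := if_pos h
      rw [this, loc_mat_zero]
      simp [Real.zero_rpow hp'.ne']
    · rw [← Real.mul_rpow (by positivity) (norm_nonneg _)]
      refine Real.rpow_le_rpow (norm_nonneg _) ?_ hp'.le
      refine ((mat (H j) (hdiff b g n j)).le_opNorm _).trans ?_
      exact mul_le_mul_of_nonneg_right ((norm_mat_le _).trans (norm_hdiff b g ε hε n j)) (norm_nonneg _)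
  have hsum : ∀ t : Finset ℕ, ∑ n ∈ t, ‖gop p H (hdiff b g n) z‖ ^ p.toReal ≤
      5 * (2 * ε) ^ p.toReal * ‖z‖ ^ p.toReal := by
    intro t
    have h1 : ∀ n, HasSum (fun j => ‖gop p H (hdiff b g n) z j‖ ^ p.toReal)
        (‖gop p H (hdiff b g n) z‖ ^ p.toReal) := fun n => lp.hasSum_norm hp' _
    have h2 : HasSum (fun j => ∑ n ∈ t, ‖gop p H (hdiff b g n) z j‖ ^ p.toReal)
        (∑ n ∈ t, ‖gop p H (hdiff b g n) z‖ ^ p.toReal) := hasSum_sum fun n _ => h1 n
    have h3 : HasSum (fun j => 5 * (2 * ε) ^ p.toReal * ‖z j‖ ^ p.toReal)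
        (5 * (2 * ε) ^ p.toReal * ‖z‖ ^ p.toReal) := (lp.hasSum_norm hp' z).mul_left _
    refine hasSum_le (fun j => ?_) h2 h3
    calc ∑ n ∈ t, ‖gop p H (hdiff b g n) z j‖ ^ p.toReal
        ≤ ∑ n ∈ t, if b j + 2 < n ∨ n + 2 < b j then 0 else (2 * ε) ^ p.toReal * ‖z j‖ ^ p.toReal :=
          Finset.sum_le_sum fun n _ => hR n j
      _ = ∑ n ∈ t.filter (fun n => ¬ (b j + 2 < n ∨ n + 2 < b j)),
            (2 * ε) ^ p.toReal * ‖z j‖ ^ p.toReal := by
          rw [Finset.sum_filter]
          refine Finset.sum_congr rfl fun n _ => ?_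
          by_cases hh : b j + 2 < n ∨ n + 2 < b j
          · rw [if_pos hh, if_neg (not_not.2 hh)]
          · rw [if_neg hh, if_pos hh]
      _ = ((t.filter (fun n => ¬ (b j + 2 < n ∨ n + 2 < b j))).card : ℝ) *
            ((2 * ε) ^ p.toReal * ‖z j‖ ^ p.toReal) := by
          rw [Finset.sum_const, nsmul_eq_mul]
      _ ≤ 5 * ((2 * ε) ^ p.toReal * ‖z j‖ ^ p.toReal) := by
          refine mul_le_mul_of_nonneg_right ?_ (by positivity)
          have hsub : t.filter (fun n => ¬ (b j + 2 < n ∨ n + 2 < b j)) ⊆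
              Finset.Icc (b j - 2) (b j + 2) := by
            intro n hn
            have := (Finset.mem_filter.1 hn).2
            push Not at this
            rw [Finset.mem_Icc]
            omega
          have hc := Finset.card_le_card hsub
          rw [Nat.card_Icc] at hc
          have : (t.filter (fun n => ¬ (b j + 2 < n ∨ n + 2 < b j))).card ≤ 5 := by omega
          exact_mod_cast this
      _ = 5 * (2 * ε) ^ p.toReal * ‖z j‖ ^ p.toReal := by ring
  calc ∑ i ∈ s, ‖(amp p N V ∘L gop p H (fun j => g (b j)) -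
          gop p H' (fun j => g (b' j)) ∘L amp p N V) z i‖ ^ p.toReal
      = ∑ n ∈ s.image b', ∑ i ∈ s.filter (fun i => b' i = n),
          ‖amp p N V (gop p H (hdiff b g n) z) i‖ ^ p.toReal := by
        rw [← Finset.sum_fiberwise_of_maps_to (g := b') (t := s.image b')
          (fun i hi => Finset.mem_image_of_mem _ hi)]
        refine Finset.sum_congr rfl fun n _ => Finset.sum_congr rfl fun i hi => ?_
        rw [loc_apply b b' V hV g hg z i, (Finset.mem_filter.1 hi).2]
    _ ≤ ∑ n ∈ s.image b', ‖amp p N V (gop p H (hdiff b g n) z)‖ ^ p.toReal :=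
        Finset.sum_le_sum fun n _ => lp.sum_rpow_le_norm_rpow hp' _ _
    _ ≤ ∑ n ∈ s.image b', ‖amp p N V‖ ^ p.toReal * ‖gop p H (hdiff b g n) z‖ ^ p.toReal := by
        refine Finset.sum_le_sum fun n _ => ?_
        rw [← Real.mul_rpow hA (norm_nonneg _)]
        exact Real.rpow_le_rpow (norm_nonneg _) ((amp p N V).le_opNorm _) hp'.le
    _ = ‖amp p N V‖ ^ p.toReal * ∑ n ∈ s.image b', ‖gop p H (hdiff b g n) z‖ ^ p.toReal := by
        rw [Finset.mul_sum]
    _ ≤ ‖amp p N V‖ ^ p.toReal * (5 * (2 * ε) ^ p.toReal * ‖z‖ ^ p.toReal) :=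
        mul_le_mul_of_nonneg_left (hsum _) (by positivity)
    _ ≤ ‖amp p N V‖ ^ p.toReal * (5 ^ p.toReal * (2 * ε) ^ p.toReal * ‖z‖ ^ p.toReal) := by
        have h5 : (5 : ℝ) ≤ 5 ^ p.toReal := by
          calc (5 : ℝ) = 5 ^ (1 : ℝ) := (Real.rpow_one _).symm
            _ ≤ 5 ^ p.toReal := Real.rpow_le_rpow_of_exponent_le (by norm_num) hp1
        gcongr
    _ = (10 * ‖amp p N V‖ * ε * ‖z‖) ^ p.toReal := by
        rw [← Real.mul_rpow (by norm_num) (by positivity), ← Real.mul_rpow (by positivity) (norm_nonneg _),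
          ← Real.mul_rpow hA (by positivity)]
        congr 1
        ring

theorem loc_compact_left (hp : p ≠ ∞) (b : J → ℕ) (b' : J' → ℕ) (V : lp H p →L[ℂ] lp H' p)
    (hV : Banded b b' V) {N : ℕ} (g : ℕ → Matrix (Fin N) (Fin N) ℂ) (hg : Bg g)
    (h1 : ∃ n₀, ∀ n, n₀ ≤ n → g n = 1) (hfin : ∀ n, {j | b j ≤ n}.Finite)
    [∀ j, FiniteDimensional ℂ (H j)] :
    IsCompactOperator
      (amp p N V ∘L gop p H (fun j => g (b j)) - gop p H' (fun j => g (b' j)) ∘L amp p N V) := by
  classical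
  obtain ⟨n₀, hn₀⟩ := h1
  set D := amp p N V ∘L gop p H (fun j => g (b j)) - gop p H' (fun j => g (b' j)) ∘L amp p N V
    with hD
  let e : J → ℝ := fun j => if b j ≤ n₀ + 4 then 1 else 0
  have he : ∃ C, ∀ j, |e j| ≤ C := ⟨1, fun j => by simp only [e]; split_ifs <;> simp⟩
  have hcomp : IsCompactOperator (mulOp p (AH N H) e) := by
    refine mulOp_compact ((hfin (n₀ + 4)).subset ?_)
    intro j hj
    by_contra hc
    exact hj (if_neg hc)
  have heq : D = D ∘L mulOp p (AH N H) e := by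
    ext z j'
    rw [ContinuousLinearMap.comp_apply]
    have h2 : D z - D (mulOp p (AH N H) e z) = D (z - mulOp p (AH N H) e z) := (map_sub _ _ _).symm
    have h3 : D (z - mulOp p (AH N H) e z) j' = 0 := by
      rw [hD, loc_apply b b' V hV g hg]
      have hz : ∀ j, b j ≤ n₀ + 4 → (z - mulOp p (AH N H) e z) j = 0 := by
        intro j hj
        have : (z - mulOp p (AH N H) e z) j = z j - mulOp p (AH N H) e z j := rfl
        rw [this, mulOp_apply he]
        simp only [e, if_pos hj]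
        simp
      by_cases hj' : n₀ ≤ b' j'
      · -- the restricted difference vanishes
        have h5 : gop p H (hdiff b g (b' j')) (z - mulOp p (AH N H) e z) = 0 := by
          ext j
          rw [gop_apply (hg.hdiff b _)]
          by_cases hb : b j ≤ n₀ + 4
          · rw [hz j hb, map_zero]; rfl
          · have h6 : hdiff b g (b' j') j = 0 := by
              unfold hdiff
              split_ifs with hh
              · rfl
              · rw [hn₀ (b j) (by omega), hn₀ _ hj', sub_self]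
            rw [h6, loc_mat_zero]; rfl
        rw [h5, map_zero]; rfl
      · refine amp_banded b b' V hV _ j' fun j hj => ?_
        right
        by_contra hc
        apply hj
        rw [gop_apply (hg.hdiff b _), hz j (by omega), map_zero]
    have h4 : (D z - D (mulOp p (AH N H) e z)) j' = D z j' - D (mulOp p (AH N H) e z) j' := rfl
    rw [h2, h3] at h4
    rw [sub_eq_zero.1 h4.symm]
  rw [heq]
  exact hcomp.clm_comp D

theorem loc_compact_right (hp : p ≠ ∞) (b : J → ℕ) (b' : J' → ℕ) (V : lp H p →L[ℂ] lp H' p)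
    (hV : Banded b b' V) {N : ℕ} (g : ℕ → Matrix (Fin N) (Fin N) ℂ) (hg : Bg g)
    (h1 : ∃ n₀, ∀ n, n₀ ≤ n → g n = 1) (hfin : ∀ n, {j | b' j ≤ n}.Finite)
    [∀ j, FiniteDimensional ℂ (H' j)] :
    IsCompactOperator
      (amp p N V ∘L gop p H (fun j => g (b j)) - gop p H' (fun j => g (b' j)) ∘L amp p N V) := by
  classical
  obtain ⟨n₀, hn₀⟩ := h1
  set D := amp p N V ∘L gop p H (fun j => g (b j)) - gop p H' (fun j => g (b' j)) ∘L amp p N V
    with hD
  let e : J' → ℝ := fun j => if b' j ≤ n₀ + 4 then 1 else 0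
  have he : ∃ C, ∀ j, |e j| ≤ C := ⟨1, fun j => by simp only [e]; split_ifs <;> simp⟩
  have hcomp : IsCompactOperator (mulOp p (AH N H') e) := by
    refine mulOp_compact ((hfin (n₀ + 4)).subset ?_)
    intro j hj
    by_contra hc
    exact hj (if_neg hc)
  have heq : D = mulOp p (AH N H') e ∘L D := by
    ext z j'
    rw [ContinuousLinearMap.comp_apply, mulOp_apply he]
    by_cases hj : b' j' ≤ n₀ + 4
    · simp only [e, if_pos hj]
      simp
    · have h3 : D z j' = 0 := by
        rw [hD, loc_apply b b' V hV g hg]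
        have h5 : gop p H (hdiff b g (b' j')) z = 0 := by
          ext j
          rw [gop_apply (hg.hdiff b _)]
          have h6 : hdiff b g (b' j') j = 0 := by
            unfold hdiff
            split_ifs with hh
            · rfl
            · rw [hn₀ (b j) (by omega), hn₀ _ (by omega), sub_self]
          rw [h6, loc_mat_zero]; rfl
        rw [h5, map_zero]; rfl
      rw [h3, smul_zero]
  rw [heq]
  exact hcomp.comp_clm D

end

end Pool.Agent.Helper623_LS
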