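import Pool.Agent.Helper623_LS.Gop
import Pool.Agent.Helper623_LS.AmpKL

/-! Task REG2: the operators `G` of region II.

`K = 0`: take `G = 1`. `K ≥ 1`: `t_k = 1 - (k - 1) / K` for `1 ≤ k ≤ K`, `τ = diagonal (0, t_1, ..., t_K, 0, ...)`,
`G = ∏ (1 + amp N_i * gop τ)`, inverse the reversed product of the `1 - amp N_i * gop τ` (`amp N_i` commutes with constant matrices,
`N_i² = 0`). `theta (∏ (1 + N_i)) = ∏ (1 + amp N_i * q0)` and `q0 τ = τ q0 = 0`, so
`theta T * G = ∏ (1 + amp N_i * (q0 + τ))` (induction; the factors with `q0` commute with the factors with `τ`).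
As `g e_k = e_{k+1}` for `k < K` and `g` is unitary, `g⁻¹ e_{k+1} e_{k+1}* g = e_k e_k*`, so `g⁻¹ τ g = e_0 e_0* + τ''`,
`τ'' = diagonal (0, t_2, ..., t_K, 0, ...)`, `‖τ - τ''‖ ≤ 1 / K`, and `g⁻¹ G g = ∏ (1 + amp N_i * (q0 + τ''))`. All factors have norm
`≤ 1 + β ‖N_i‖` (`‖q0 + τ‖ ≤ 1`, a diagonal matrix), so the difference of the two products is at most `C / K`. -/

set_option autoImplicit false
open scoped ENNReal NNReal Topology
open Filter
namespace Pool.Agent.Helper623_LS

noncomputable section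

variable {p : ℝ≥0∞} [Fact (1 ≤ p)] {J J' : Type} {H : J → Type} {H' : J' → Type}
  [∀ j, NormedAddCommGroup (H j)] [∀ j, InnerProductSpace ℂ (H j)]
  [∀ j, NormedAddCommGroup (H' j)] [∀ j, InnerProductSpace ℂ (H' j)]

section given



















end given

/-! Auxiliary lemmas (products of `1 + A s` in a normed ring). -/

section aux

variable {R S : Type} [NormedRing R]

/-- the product of the `1 + a n * s` -/
def PP (a : S → R) (L : List S) (s : R) : R := (L.map (fun n => 1 + a n * s)).prod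

theorem PP_nil (a : S → R) (s : R) : PP a [] s = 1 := rfl

theorem PP_cons (a : S → R) (n : S) (L : List S) (s : R) :
    PP a (n :: L) s = (1 + a n * s) * PP a L s := by
  unfold PP
  rw [List.map_cons, List.prod_cons]

theorem PP_comm (a : S → R) (L : List S) (s x : R) (h : ∀ n ∈ L, Commute (1 + a n * s) x) :
    Commute (PP a L s) x := by
  induction L with
  | nil => rw [PP_nil]; exact Commute.one_left x
  | cons n L ih =>
    rw [PP_cons]
    exact (h n (List.mem_cons_self ..)).mul_left (ih fun k hk => h k (List.mem_cons_of_mem _ hk))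

theorem PP_mul (a : S → R) (L : List S) (e t : R) (he : ∀ n, Commute (a n) e)
    (ht : ∀ n, Commute (a n) t) (h1 : e * t = 0) (h2 : t * e = 0) :
    PP a L e * PP a L t = PP a L (e + t) := by
  have key : ∀ n k, a n * e * (a k * t) = 0 := by
    intro n k
    calc a n * e * (a k * t) = a n * (e * a k) * t := by simp only [mul_assoc]
      _ = a n * (a k * e) * t := by rw [(he k).eq]
      _ = a n * a k * (e * t) := by simp only [mul_assoc]
      _ = 0 := by rw [h1, mul_zero]
  have key' : ∀ n k, a n * t * (a k * e) = 0 := by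
    intro n k
    calc a n * t * (a k * e) = a n * (t * a k) * e := by simp only [mul_assoc]
      _ = a n * (a k * t) * e := by rw [(ht k).eq]
      _ = a n * a k * (t * e) := by simp only [mul_assoc]
      _ = 0 := by rw [h2, mul_zero]
  induction L with
  | nil => rw [PP_nil, PP_nil, PP_nil, one_mul]
  | cons n L ih =>
    have hc : Commute (PP a L e) (1 + a n * t) := by
      refine PP_comm a L e _ fun k _ => ?_
      show (1 + a k * e) * (1 + a n * t) = (1 + a n * t) * (1 + a k * e)
      have e1 := key k n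
      have e2 := key' n k
      simp only [mul_add, add_mul, e1, e2, mul_one, one_mul, add_zero]
      abel
    rw [PP_cons, PP_cons, PP_cons, ← ih]
    calc (1 + a n * e) * PP a L e * ((1 + a n * t) * PP a L t)
        = (1 + a n * e) * (PP a L e * (1 + a n * t)) * PP a L t := by simp only [mul_assoc]
      _ = (1 + a n * e) * ((1 + a n * t) * PP a L e) * PP a L t := by rw [hc.eq]
      _ = ((1 + a n * e) * (1 + a n * t)) * (PP a L e * PP a L t) := by simp only [mul_assoc]
      _ = (1 + a n * (e + t)) * (PP a L e * PP a L t) := by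
          congr 1
          have e1 := key n n
          rw [mul_add, add_mul, add_mul, e1]
          simp only [mul_one, one_mul, add_zero, mul_add, add_assoc]

theorem PP_conj (a : S → R) (L : List S) (t u u' : R) (hu : ∀ n, Commute (a n) u')
    (h1 : u * u' = 1) (h2 : u' * u = 1) :
    u' * PP a L t * u = PP a L (u' * t * u) := by
  induction L with
  | nil => rw [PP_nil, PP_nil, mul_one, h2]
  | cons n L ih =>
    rw [PP_cons, PP_cons, ← ih]
    have e1 : u' * (1 + a n * t) * u = 1 + a n * (u' * t * u) := by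
      rw [mul_add, add_mul, mul_one, h2]
      congr 1
      calc u' * (a n * t) * u = (u' * a n) * t * u := by simp only [mul_assoc]
        _ = (a n * u') * t * u := by rw [(hu n).eq]
        _ = a n * (u' * t * u) := by simp only [mul_assoc]
    calc u' * ((1 + a n * t) * PP a L t) * u
        = u' * (1 + a n * t) * 1 * PP a L t * u := by simp only [mul_assoc, mul_one]
      _ = u' * (1 + a n * t) * (u * u') * PP a L t * u := by rw [h1]
      _ = (u' * (1 + a n * t) * u) * (u' * PP a L t * u) := by simp only [mul_assoc]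
      _ = _ := by rw [e1]

/-- the bound for the norm of the product -/
def BB (b : S → ℝ) (L : List S) : ℝ := (L.map (fun n => 1 + b n)).prod

theorem BB_cons (b : S → ℝ) (n : S) (L : List S) : BB b (n :: L) = (1 + b n) * BB b L := by
  unfold BB
  rw [List.map_cons, List.prod_cons]

theorem BB_nonneg (b : S → ℝ) (hb : ∀ n, 0 ≤ b n) (L : List S) : 0 ≤ BB b L := by
  induction L with
  | nil => exact zero_le_one
  | cons n L ih =>
    rw [BB_cons]
    exact mul_nonneg (by linarith [hb n]) ih

theorem norm_fac_le (a : S → R) (b : S → ℝ) (hab : ∀ n, ‖a n‖ ≤ b n) (h1 : ‖(1 : R)‖ ≤ 1)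
    (s : R) (hs : ‖s‖ ≤ 1) (n : S) : ‖1 + a n * s‖ ≤ 1 + b n := by
  refine (norm_add_le _ _).trans (add_le_add h1 ((norm_mul_le _ _).trans ?_))
  calc ‖a n‖ * ‖s‖ ≤ b n * 1 := mul_le_mul (hab n) hs (norm_nonneg _) ((norm_nonneg _).trans (hab n))
    _ = b n := mul_one _

theorem PP_norm (a : S → R) (b : S → ℝ) (hab : ∀ n, ‖a n‖ ≤ b n) (h1 : ‖(1 : R)‖ ≤ 1)
    (s : R) (hs : ‖s‖ ≤ 1) (L : List S) : ‖PP a L s‖ ≤ BB b L := by
  have hb : ∀ n, 0 ≤ b n := fun n => (norm_nonneg _).trans (hab n)
  induction L with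
  | nil => exact h1
  | cons n L ih =>
    rw [PP_cons, BB_cons]
    exact (norm_mul_le _ _).trans
      (mul_le_mul (norm_fac_le a b hab h1 s hs n) ih (norm_nonneg _) (by linarith [hb n]))

theorem PP_diff (a : S → R) (b : S → ℝ) (hab : ∀ n, ‖a n‖ ≤ b n) (h1 : ‖(1 : R)‖ ≤ 1)
    (s s' : R) (hs : ‖s‖ ≤ 1) (hs' : ‖s'‖ ≤ 1) (L : List S) :
    ‖PP a L s - PP a L s'‖ ≤ (L.length * BB b L) * ‖s - s'‖ := by
  have hb : ∀ n, 0 ≤ b n := fun n => (norm_nonneg _).trans (hab n)
  induction L with
  | nil => rw [PP_nil, PP_nil]; simp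
  | cons n L ih =>
    rw [PP_cons, PP_cons, BB_cons]
    have e1 : (1 + a n * s) * PP a L s - (1 + a n * s') * PP a L s' =
        (1 + a n * s) * (PP a L s - PP a L s') + a n * (s - s') * PP a L s' := by
      simp only [mul_sub, sub_mul, add_mul]
      abel
    rw [e1]
    have hB := BB_nonneg b hb L
    have hd := norm_nonneg (s - s')
    calc ‖(1 + a n * s) * (PP a L s - PP a L s') + a n * (s - s') * PP a L s'‖
        ≤ ‖1 + a n * s‖ * ‖PP a L s - PP a L s'‖ + ‖a n‖ * ‖s - s'‖ * ‖PP a L s'‖ := by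
          refine (norm_add_le _ _).trans (add_le_add (norm_mul_le _ _) ?_)
          refine (norm_mul_le _ _).trans (mul_le_mul_of_nonneg_right (norm_mul_le _ _) (norm_nonneg _))
      _ ≤ (1 + b n) * ((L.length * BB b L) * ‖s - s'‖) + b n * ‖s - s'‖ * BB b L := by
          refine add_le_add (mul_le_mul (norm_fac_le a b hab h1 s hs n) ih (norm_nonneg _)
            (by linarith [hb n])) ?_
          exact mul_le_mul (mul_le_mul_of_nonneg_right (hab n) hd)
            (PP_norm a b hab h1 s' hs' L) (norm_nonneg _) (mul_nonneg (hb n) hd)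
      _ ≤ (((n :: L).length : ℕ) * ((1 + b n) * BB b L)) * ‖s - s'‖ := by
          rw [List.length_cons]
          push_cast
          nlinarith [mul_nonneg hB hd, hb n]

theorem PP_rev (a : S → R) (L : List S) (t : R) (ht : ∀ n ∈ L, a n * t * (a n * t) = 0) :
    ∃ Q : R, PP a L t * Q = 1 ∧ Q * PP a L t = 1 ∧
      ∀ (b : S → ℝ), (∀ n, ‖a n‖ ≤ b n) → ‖(1 : R)‖ ≤ 1 → ‖t‖ ≤ 1 → ‖Q‖ ≤ BB b L := by
  induction L with
  | nil => exact ⟨1, by rw [PP_nil, one_mul], by rw [PP_nil, one_mul], fun b _ h1 _ => h1⟩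
  | cons n L ih =>
    obtain ⟨Q, hQ1, hQ2, hQ3⟩ := ih fun k hk => ht k (List.mem_cons_of_mem _ hk)
    have h0 := ht n (List.mem_cons_self ..)
    refine ⟨Q * (1 - a n * t), ?_, ?_, ?_⟩
    · rw [PP_cons]
      calc (1 + a n * t) * PP a L t * (Q * (1 - a n * t))
          = (1 + a n * t) * (PP a L t * Q) * (1 - a n * t) := by simp only [mul_assoc]
        _ = (1 + a n * t) * (1 - a n * t) := by rw [hQ1, mul_one]
        _ = 1 := by
            rw [add_mul, mul_sub, mul_sub, h0]
            simp only [mul_one, one_mul, sub_zero]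
            abel
    · rw [PP_cons]
      calc Q * (1 - a n * t) * ((1 + a n * t) * PP a L t)
          = Q * ((1 - a n * t) * (1 + a n * t)) * PP a L t := by simp only [mul_assoc]
        _ = Q * 1 * PP a L t := by
            congr 2
            rw [sub_mul, mul_add, mul_add, h0]
            simp only [mul_one, one_mul, add_zero]
            abel
        _ = 1 := by rw [mul_one, hQ2]
    · intro b hab h1 hs
      have hb : ∀ n, 0 ≤ b n := fun n => (norm_nonneg _).trans (hab n)
      rw [BB_cons, mul_comm]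
      refine (norm_mul_le _ _).trans ?_
      refine mul_le_mul (hQ3 b hab h1 hs) ?_ (norm_nonneg _) (BB_nonneg b hb L)
      refine (norm_sub_le _ _).trans (add_le_add h1 ((norm_mul_le _ _).trans ?_))
      calc ‖a n‖ * ‖t‖ ≤ b n * 1 := mul_le_mul (hab n) hs (norm_nonneg _) (hb n)
        _ = b n := mul_one _

end aux

/-- the weights -/
def tw (K : ℕ) (k : ℕ) : ℂ := if k = 0 then 0 else if k ≤ K then ((1 - ((k : ℝ) - 1) / K : ℝ) : ℂ) else 0

/-- the shifted weights -/
def tw' (K : ℕ) (k : ℕ) : ℂ := if k < K then ((1 - (k : ℝ) / K : ℝ) : ℂ) else 0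

theorem tw_succ (K k : ℕ) : tw K (k + 1) = tw' K k := by
  unfold tw tw'
  rw [if_neg (Nat.succ_ne_zero k)]
  by_cases h : k < K
  · rw [if_pos h, if_pos (by omega)]
    push_cast
    ring
  · rw [if_neg h, if_neg (by omega)]

theorem norm_tw'_le (K k : ℕ) : ‖tw' K k‖ ≤ 1 := by
  unfold tw'
  split_ifs with h
  · rw [Complex.norm_real, Real.norm_eq_abs]
    have hK : (0 : ℝ) < K := by
      have : 0 < K := by omega
      exact_mod_cast this
    have h2 : (k : ℝ) / K ≤ 1 := by
      rw [div_le_one hK]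
      exact_mod_cast h.le
    have h3 : (0 : ℝ) ≤ (k : ℝ) / K := by positivity
    rw [abs_le]
    constructor <;> linarith
  · rw [norm_zero]; exact zero_le_one

/-- `e_0 + τ` -/
def sw (K k : ℕ) : ℂ := (if k = 0 then 1 else 0) + tw K k

theorem norm_sw_le (K k : ℕ) : ‖sw K k‖ ≤ 1 := by
  unfold sw
  rcases Nat.eq_zero_or_pos k with rfl | h
  · simp [tw]
  · rw [if_neg h.ne', zero_add]
    obtain ⟨k, rfl⟩ : ∃ l, k = l + 1 := ⟨k - 1, by omega⟩
    rw [tw_succ]
    exact norm_tw'_le K k

theorem norm_sw_sub_le (K k : ℕ) (hK : 1 ≤ K) : ‖sw K k - tw' K k‖ ≤ 1 / K := by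
  have hK0 : (0 : ℝ) < K := by exact_mod_cast hK
  unfold sw
  rcases Nat.eq_zero_or_pos k with rfl | h
  · have : tw' K 0 = 1 := by
      unfold tw'
      rw [if_pos (by omega)]
      simp
    rw [this]
    simp [tw]
  · rw [if_neg h.ne', zero_add]
    obtain ⟨k, rfl⟩ : ∃ l, k = l + 1 := ⟨k - 1, by omega⟩
    rw [tw_succ]
    unfold tw'
    by_cases h1 : k + 1 < K
    · rw [if_pos (by omega), if_pos h1, ← Complex.ofReal_sub, Complex.norm_real, Real.norm_eq_abs]
      have : (1 - (k : ℝ) / K) - (1 - ((k + 1 : ℕ) : ℝ) / K) = 1 / K := by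
        push_cast
        ring
      rw [this, abs_of_pos (by positivity)]
    · rw [if_neg h1, sub_zero]
      by_cases h2 : k < K
      · have h3 : k + 1 = K := by omega
        rw [if_pos h2, Complex.norm_real, Real.norm_eq_abs]
        have : (1 - (k : ℝ) / K) = 1 / K := by
          rw [← h3]
          have : ((k + 1 : ℕ) : ℝ) ≠ 0 := by positivity
          field_simp
          push_cast
          ring
        rw [this, abs_of_pos (by positivity)]
      · rw [if_neg h2, norm_zero]
        positivity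

/-! To be proved: -/

theorem theta_fac {m : ℕ} (A : lp H p →L[ℂ] lp H p) :
    theta p m (1 + A) = 1 + amp p (m + 1) A * q0 p H m := by
  rw [theta_eq, amp_add, amp_one]
  rw [add_mul, one_mul]
  abel

theorem theta_prod {m : ℕ} (Ns : List (lp H p →L[ℂ] lp H p)) :
    theta p m (Ns.map (fun N => 1 + N)).prod =
      PP (fun A : lp H p →L[ℂ] lp H p => amp p (m + 1) A) Ns (q0 p H m) := by
  induction Ns with
  | nil => rw [PP_nil]; exact theta_one
  | cons N Ns ih =>
    rw [PP_cons, List.map_cons, List.prod_cons, theta_mul, theta_fac, ih]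

theorem region2 (hp1 : 1 < p) (hp : p ≠ ∞) (Ns : List (lp H p →L[ℂ] lp H p))
    (hN : ∀ N ∈ Ns, N * N = 0) :
    ∃ Cst : ℝ, 0 ≤ Cst ∧ ∀ (m K : ℕ) (_ : K ≤ m) (g : Matrix (Fin (m + 1)) (Fin (m + 1)) ℂ),
      g ∈ Matrix.unitaryGroup (Fin (m + 1)) ℂ →
      (∀ (k : ℕ) (_ : k < K) (hk1 : k < m + 1) (hk2 : k + 1 < m + 1) (i : Fin (m + 1)),
        g i ⟨k, hk1⟩ = if i = ⟨k + 1, hk2⟩ then 1 else 0) →
      ∃ G G' : lp (AH (m + 1) H) p →L[ℂ] lp (AH (m + 1) H) p,
        G * G' = 1 ∧ G' * G = 1 ∧ ‖G‖ ≤ Cst ∧ ‖G'‖ ≤ Cst ∧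
        ‖gop p H (fun _ => g) * theta p m (Ns.map (fun N => 1 + N)).prod * G -
          G * gop p H (fun _ => g)‖ ≤ Cst / (K + 1) := by
  obtain ⟨β, hβ1, hβ⟩ := amp_norm hp1 hp
  set T : lp H p →L[ℂ] lp H p := (Ns.map (fun N => 1 + N)).prod with hT
  set b : (lp H p →L[ℂ] lp H p) → ℝ := fun A => β * ‖A‖ with hb
  have hb0 : ∀ A, 0 ≤ b A := fun A => by
    have h1 : 0 ≤ ‖A‖ := norm_nonneg A
    have h2 : (0 : ℝ) ≤ β := by linarith
    exact mul_nonneg h2 h1
  have hB := BB_nonneg b hb0 Ns
  have hLB : 0 ≤ (Ns.length : ℝ) * BB b Ns := mul_nonneg (Nat.cast_nonneg _) hB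
  have hTn := norm_nonneg T
  refine ⟨‖T‖ + 3 + BB b Ns + 2 * (Ns.length * BB b Ns), by linarith, ?_⟩
  intro m K hK g hg hshift
  have hone : ‖(1 : lp (AH (m + 1) H) p →L[ℂ] lp (AH (m + 1) H) p)‖ ≤ 1 :=
    ContinuousLinearMap.norm_id_le
  have hgn : ‖gop p H (fun _ => g)‖ ≤ 1 := by
    refine norm_gop_le zero_le_one fun _ => ?_
    refine ContinuousLinearMap.opNorm_le_bound _ zero_le_one fun v => ?_
    rw [norm_mat_unitary g hg v, one_mul]
  rcases Nat.eq_zero_or_pos K with rfl | hK1
  · refine ⟨1, 1, one_mul _, one_mul _, by linarith, by linarith, ?_⟩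
    rw [mul_one, one_mul]
    have h1 := norm_theta_le (m := m) T
    have h2 : ‖gop p H (fun _ => g) * theta p m T‖ ≤ ‖T‖ + 2 := by
      refine (norm_mul_le (gop p H (fun _ => g)) (theta p m T)).trans ?_
      calc ‖gop p H (fun _ => g)‖ * ‖theta p m T‖ ≤ 1 * (‖T‖ + 2) :=
            mul_le_mul hgn h1 (norm_nonneg (theta p m T)) zero_le_one
        _ = ‖T‖ + 2 := one_mul _
    have h3 := norm_sub_le (gop p H (fun _ => g) * theta p m T) (gop p H (fun _ => g))
    have h4 : (‖T‖ + 3 + BB b Ns + 2 * (Ns.length * BB b Ns)) / ((0 : ℕ) + 1 : ℝ) =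
      ‖T‖ + 3 + BB b Ns + 2 * (Ns.length * BB b Ns) := by simp
    rw [h4]
    linarith
  · set a : (lp H p →L[ℂ] lp H p) → (lp (AH (m + 1) H) p →L[ℂ] lp (AH (m + 1) H) p) :=
      fun A => amp p (m + 1) A with ha
    have hab : ∀ A, ‖a A‖ ≤ b A := fun A => hβ (m + 1) J J H H A
    -- the matrices
    let τ : Matrix (Fin (m + 1)) (Fin (m + 1)) ℂ := Matrix.diagonal (fun i => tw K i)
    let σ : Matrix (Fin (m + 1)) (Fin (m + 1)) ℂ := Matrix.diagonal (fun i => sw K i)
    let ρ : Matrix (Fin (m + 1)) (Fin (m + 1)) ℂ := Matrix.diagonal (fun i => tw' K i)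
    have hdn : ∀ (t : Fin (m + 1) → ℂ) (c : ℝ), 0 ≤ c → (∀ k, ‖t k‖ ≤ c) →
        ‖gop p H (fun _ => Matrix.diagonal t)‖ ≤ c := fun t c hc ht =>
      norm_gop_le hc fun _ => norm_mat_diagonal t c hc ht
    have hτn : ‖gop p H (fun _ => τ)‖ ≤ 1 := by
      refine hdn _ _ zero_le_one fun k => ?_
      rcases Nat.eq_zero_or_pos (k : ℕ) with h | h
      · rw [h]; simp [tw]
      · have : (k : ℕ) = ((k : ℕ) - 1) + 1 := by omega
        rw [this, tw_succ]
        exact norm_tw'_le _ _
    have hσn : ‖gop p H (fun _ => σ)‖ ≤ 1 := hdn _ _ zero_le_one fun k => norm_sw_le _ _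
    have hρn : ‖gop p H (fun _ => ρ)‖ ≤ 1 := hdn _ _ zero_le_one fun k => norm_tw'_le _ _
    have hσρ : ‖gop p H (fun _ => σ) - gop p H (fun _ => ρ)‖ ≤ 1 / K := by
      rw [← gop_sub (Bg.const σ) (Bg.const ρ)]
      have h1 : σ - ρ = Matrix.diagonal (fun i : Fin (m + 1) => sw K i - tw' K i) := by
        show Matrix.diagonal _ - Matrix.diagonal _ = _
        rw [← Matrix.diagonal_sub]
      have h2 : (fun _ : J => σ - ρ) = fun _ : J =>
          Matrix.diagonal (fun i : Fin (m + 1) => sw K i - tw' K i) := by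
        funext _; exact h1
      rw [h2]
      exact hdn _ _ (by positivity) fun k => norm_sw_sub_le _ _ hK1
    have hcomm : ∀ (x : Matrix (Fin (m + 1)) (Fin (m + 1)) ℂ) (A : lp H p →L[ℂ] lp H p),
        Commute (a A) (gop p H (fun _ => x)) := fun x A => (gop_const_amp x A).symm
    have hgmul : ∀ (x y : Matrix (Fin (m + 1)) (Fin (m + 1)) ℂ),
        gop p H (fun _ => x) * gop p H (fun _ => y) = gop p H (fun _ => x * y) :=
      fun x y => gop_mul (Bg.const x) (Bg.const y)
    have hzero : gop p H (fun _ : J => (0 : Matrix (Fin (m + 1)) (Fin (m + 1)) ℂ)) = 0 := by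
      have h1 := gop_sub (p := p) (H := H) (Bg.const (J := J) g) (Bg.const g)
      rw [sub_self] at h1
      rw [h1]
      exact sub_self _
    have hsingle : (Matrix.single 0 0 1 : Matrix (Fin (m + 1)) (Fin (m + 1)) ℂ) =
        Matrix.diagonal (fun i : Fin (m + 1) => if (i : ℕ) = 0 then 1 else 0) := by
      ext i j
      rw [Matrix.single_apply, Matrix.diagonal_apply]
      by_cases hij : i = j
      · subst hij
        rw [if_pos rfl]
        by_cases h0 : (i : ℕ) = 0
        · have : i = 0 := Fin.ext h0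
          rw [if_pos h0, this]; simp
        · rw [if_neg h0, if_neg]
          rintro ⟨h, _⟩
          exact h0 (by rw [← h]; rfl)
      · rw [if_neg hij, if_neg]
        rintro ⟨h1, h2⟩
        exact hij (h1.symm.trans h2)
    have hq0 : q0 p H m = gop p H (fun _ => Matrix.single 0 0 1) := q0_eq_gop
    have hqτ : q0 p H m * gop p H (fun _ => τ) = 0 := by
      rw [hq0, hgmul, ← hzero]
      congr 1
      funext _
      rw [hsingle]
      show Matrix.diagonal _ * Matrix.diagonal _ = _
      rw [Matrix.diagonal_mul_diagonal, ← Matrix.diagonal_zero]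
      congr 1
      funext i
      by_cases h : (i : ℕ) = 0
      · rw [if_pos h, h]; simp [tw]
      · rw [if_neg h, zero_mul]
    have hτq : gop p H (fun _ => τ) * q0 p H m = 0 := by
      rw [hq0, hgmul, ← hzero]
      congr 1
      funext _
      rw [hsingle]
      show Matrix.diagonal _ * Matrix.diagonal _ = _
      rw [Matrix.diagonal_mul_diagonal, ← Matrix.diagonal_zero]
      congr 1
      funext i
      by_cases h : (i : ℕ) = 0
      · rw [if_pos h, h]; simp [tw]
      · rw [if_neg h, mul_zero]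
    have hqσ : q0 p H m + gop p H (fun _ => τ) = gop p H (fun _ => σ) := by
      rw [hq0, ← gop_add (Bg.const _) (Bg.const _)]
      congr 1
      funext _
      rw [hsingle]
      show Matrix.diagonal _ + Matrix.diagonal _ = Matrix.diagonal _
      rw [Matrix.diagonal_add]
      rfl
    have hgs : g * g.conjTranspose = 1 := Matrix.mem_unitaryGroup_iff.1 hg
    have hsg : g.conjTranspose * g = 1 := Matrix.mem_unitaryGroup_iff'.1 hg
    -- `g ρ = τ g`
    have hgρ : τ * g = g * ρ := by
      have hcol : ∀ (k : ℕ) (_ : k < K) (hk1 : k < m + 1) (i : Fin (m + 1)),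
          τ i i * g i ⟨k, hk1⟩ = g i ⟨k, hk1⟩ * tw' K k := by
        intro k hk hk1 i
        rw [hshift k hk hk1 (by omega) i]
        by_cases h : i = ⟨k + 1, by omega⟩
        · rw [if_pos h, mul_one, one_mul, ← tw_succ, h]
          show Matrix.diagonal _ _ _ = _
          rw [Matrix.diagonal_apply_eq]
        · rw [if_neg h, mul_zero, zero_mul]
      have hrow : ∀ (k : ℕ) (hk : k < K) (j : Fin (m + 1)), (j : ℕ) ≠ k →
          g ⟨k + 1, by omega⟩ j = 0 := by
        intro k hk j hj
        have h1 : (g.conjTranspose * g) ⟨k, by omega⟩ j = 0 := by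
          rw [hsg, Matrix.one_apply_ne]
          intro h
          exact hj (by rw [← h])
        rw [Matrix.mul_apply, Finset.sum_eq_single ⟨k + 1, by omega⟩] at h1
        · rw [Matrix.conjTranspose_apply, hshift k hk (by omega) (by omega), if_pos rfl, star_one,
            one_mul] at h1
          exact h1
        · intro i _ hi
          rw [Matrix.conjTranspose_apply, hshift k hk (by omega) (by omega), if_neg hi, star_zero,
            zero_mul]
        · intro h
          exact absurd (Finset.mem_univ _) h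
      ext i j
      show ((Matrix.diagonal (fun i : Fin (m + 1) => tw K i) : Matrix _ _ ℂ) * g) i j =
        (g * (Matrix.diagonal (fun i : Fin (m + 1) => tw' K i) : Matrix _ _ ℂ)) i j
      rw [Matrix.diagonal_mul, Matrix.mul_diagonal]
      by_cases hj : (j : ℕ) < K
      · have h1 := hcol j hj j.2 i
        have h2 : τ i i = tw K i := Matrix.diagonal_apply_eq _ _
        rw [h2] at h1
        exact h1
      · have h2 : tw' K j = 0 := by
          unfold tw'
          rw [if_neg hj]
        rw [h2, mul_zero]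
        rcases Nat.eq_zero_or_pos (i : ℕ) with h | h
        · have : tw K i = 0 := by rw [h]; simp [tw]
          rw [this, zero_mul]
        · by_cases hi : (i : ℕ) ≤ K
          · have h3 := hrow ((i : ℕ) - 1) (by omega) j (by omega)
            have h4 : (⟨(i : ℕ) - 1 + 1, by omega⟩ : Fin (m + 1)) = i := by
              apply Fin.ext
              show (i : ℕ) - 1 + 1 = i
              omega
            rw [h4] at h3
            rw [h3, mul_zero]
          · have : tw K i = 0 := by
              unfold tw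
              rw [if_neg h.ne', if_neg hi]
            rw [this, zero_mul]
    have hconj : gop p H (fun _ => g.conjTranspose) * gop p H (fun _ => τ) * gop p H (fun _ => g) =
        gop p H (fun _ => ρ) := by
      rw [hgmul, hgmul]
      congr 1
      funext _
      rw [Matrix.mul_assoc, hgρ, ← Matrix.mul_assoc, hsg, Matrix.one_mul]
    have hu1 : gop p H (fun _ => g) * gop p H (fun _ => g.conjTranspose) = 1 := by
      rw [hgmul, hgs]; exact gop_one
    have hu2 : gop p H (fun _ => g.conjTranspose) * gop p H (fun _ => g) = 1 := by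
      rw [hgmul, hsg]; exact gop_one
    have hsq : ∀ N ∈ Ns, a N * gop p H (fun _ => τ) * (a N * gop p H (fun _ => τ)) = 0 := by
      intro N hNN
      calc a N * gop p H (fun _ => τ) * (a N * gop p H (fun _ => τ))
          = a N * (gop p H (fun _ => τ) * a N) * gop p H (fun _ => τ) := by simp only [mul_assoc]
        _ = a N * (a N * gop p H (fun _ => τ)) * gop p H (fun _ => τ) := by
            rw [(hcomm τ N).eq]
        _ = (a N * a N) * (gop p H (fun _ => τ) * gop p H (fun _ => τ)) := by
            simp only [mul_assoc]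
        _ = 0 := by
            have : a N * a N = 0 := by
              show amp p (m + 1) N * amp p (m + 1) N = 0
              rw [← amp_mul, hN N hNN, amp_zero]
            rw [this, zero_mul]
    obtain ⟨Q, hQ1, hQ2, hQ3⟩ := PP_rev a Ns (gop p H (fun _ => τ)) hsq
    have hGn := PP_norm a b hab hone _ hτn Ns
    have hQn := hQ3 b hab hone hτn
    refine ⟨PP a Ns (gop p H (fun _ => τ)), Q, hQ1, hQ2, by linarith, by linarith, ?_⟩
    have e1 : theta p m T * PP a Ns (gop p H (fun _ => τ)) = PP a Ns (gop p H (fun _ => σ)) := by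
      rw [hT, theta_prod, ← hqσ]
      refine PP_mul a Ns _ _ (fun A => ?_) (fun A => hcomm τ A) hqτ hτq
      rw [hq0]
      exact hcomm _ A
    have e2 : PP a Ns (gop p H (fun _ => τ)) * gop p H (fun _ => g) =
        gop p H (fun _ => g) * PP a Ns (gop p H (fun _ => ρ)) := by
      rw [← hconj, ← PP_conj a Ns (gop p H (fun _ => τ)) (gop p H (fun _ => g))
        (gop p H (fun _ => g.conjTranspose)) (fun A => hcomm _ A) hu1 hu2]
      rw [← mul_assoc, ← mul_assoc, hu1, one_mul]
    rw [mul_assoc, e1, e2, ← mul_sub]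
    have hK0 : (0 : ℝ) < K := by exact_mod_cast hK1
    have h5 := PP_diff a b hab hone _ _ hσn hρn Ns
    have h6 : ‖PP a Ns (gop p H (fun _ => σ)) - PP a Ns (gop p H (fun _ => ρ))‖ ≤
        (Ns.length * BB b Ns) * (1 / K) := h5.trans (mul_le_mul_of_nonneg_left hσρ hLB)
    have h7 : (1 : ℝ) / K ≤ 2 / (K + 1) := by
      rw [div_le_div_iff₀ hK0 (by linarith)]
      have : (1 : ℝ) ≤ K := by exact_mod_cast hK1
      linarith
    calc ‖gop p H (fun _ => g) * (PP a Ns (gop p H (fun _ => σ)) - PP a Ns (gop p H (fun _ => ρ)))‖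
        ≤ 1 * ((Ns.length * BB b Ns) * (1 / K)) :=
          (norm_mul_le (gop p H (fun _ => g))
            (PP a Ns (gop p H (fun _ => σ)) - PP a Ns (gop p H (fun _ => ρ)))).trans
            (mul_le_mul hgn h6 (norm_nonneg
              (PP a Ns (gop p H (fun _ => σ)) - PP a Ns (gop p H (fun _ => ρ)))) zero_le_one)
      _ ≤ 1 * ((Ns.length * BB b Ns) * (2 / (K + 1))) :=
          mul_le_mul_of_nonneg_left (mul_le_mul_of_nonneg_left h7 hLB) zero_le_one
      _ = (2 * (Ns.length * BB b Ns)) / (K + 1) := by ring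
      _ ≤ (‖T‖ + 3 + BB b Ns + 2 * (Ns.length * BB b Ns)) / (K + 1) :=
          div_le_div_of_nonneg_right (by linarith) (by positivity)

end

end Pool.Agent.Helper623_LS
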