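import Pool.Agent.Helper623_LS.Defs

/-! Calculus of the relations `KEq` and `Sim`, and of `lau`, `UL`, `Ess`. -/

set_option autoImplicit false

open scoped ENNReal NNReal Topology
open Filter

namespace Pool.Agent.Helper623_LS

noncomputable section

section rel

variable {X Y Z W : Type} [NormedAddCommGroup X] [NormedSpace ℂ X]
  [NormedAddCommGroup Y] [NormedSpace ℂ Y] [NormedAddCommGroup Z] [NormedSpace ℂ Z]
  [NormedAddCommGroup W] [NormedSpace ℂ W]

theorem KEq.refl (A : X →L[ℂ] Y) : KEq A A := by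
  unfold KEq; rw [sub_self]; exact isCompactOperator_zero

theorem KEq.of_eq {A B : X →L[ℂ] Y} (h : A = B) : KEq A B := h ▸ KEq.refl A

omit [NormedSpace ℂ X] [NormedSpace ℂ Y] in
theorem isCompactOperator_congr {f g : X → Y} (hf : IsCompactOperator f) (h : ∀ x, g x = f x) :
    IsCompactOperator g := by
  have : g = f := funext h
  rw [this]; exact hf

theorem KEq.symm {A B : X →L[ℂ] Y} (h : KEq A B) : KEq B A :=
  isCompactOperator_congr (IsCompactOperator.neg h) fun x => by simp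

theorem KEq.trans {A B C : X →L[ℂ] Y} (h1 : KEq A B) (h2 : KEq B C) : KEq A C :=
  isCompactOperator_congr (IsCompactOperator.add h1 h2) fun x => by simp

theorem KEq.add {A B A' B' : X →L[ℂ] Y} (h1 : KEq A B) (h2 : KEq A' B') :
    KEq (A + A') (B + B') :=
  isCompactOperator_congr (IsCompactOperator.add h1 h2) fun x => by simp; abel

theorem KEq.sub {A B A' B' : X →L[ℂ] Y} (h1 : KEq A B) (h2 : KEq A' B') :
    KEq (A - A') (B - B') :=
  isCompactOperator_congr (IsCompactOperator.sub h1 h2) fun x => by simp; abel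

theorem KEq.comp_left {A B : X →L[ℂ] Y} (C : Y →L[ℂ] Z) (h : KEq A B) :
    KEq (C ∘L A) (C ∘L B) :=
  isCompactOperator_congr (IsCompactOperator.clm_comp h C) fun x => by simp

theorem KEq.comp_right {A B : Y →L[ℂ] Z} (C : X →L[ℂ] Y) (h : KEq A B) :
    KEq (A ∘L C) (B ∘L C) :=
  isCompactOperator_congr (IsCompactOperator.comp_clm h C) fun x => by simp

theorem KEq.smul {A B : X →L[ℂ] Y} (c : ℂ) (h1 : KEq A B) :
    KEq (c • A) (c • B) :=
  isCompactOperator_congr (h1.comp_left (c • ContinuousLinearMap.id ℂ Y)) fun x => by simp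

theorem KEq.comp {A B : Y →L[ℂ] Z} {C D : X →L[ℂ] Y} (h : KEq A B) (h' : KEq C D) :
    KEq (A ∘L C) (B ∘L D) :=
  (h.comp_right C).trans (h'.comp_left B)

theorem KEq.mul {A B C D : X →L[ℂ] X} (h : KEq A B) (h' : KEq C D) :
    KEq (A * C) (B * D) := KEq.comp h h'

theorem KEq.pow {A B : X →L[ℂ] X} (h : KEq A B) (n : ℕ) : KEq (A ^ n) (B ^ n) := by
  induction n with
  | zero => simpa using KEq.refl _
  | succ n ih => rw [pow_succ, pow_succ]; exact ih.mul h

theorem KEq.of_compact {A : X →L[ℂ] Y} (h : IsCompactOperator A) : KEq A 0 := by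
  unfold KEq; simpa using h

theorem KEq.compact {A : X →L[ℂ] Y} (h : KEq A 0) : IsCompactOperator A := by
  unfold KEq at h; simpa using h

theorem KEq.compact_of {A B : X →L[ℂ] Y} (h : KEq A B) (hB : IsCompactOperator B) :
    IsCompactOperator A := (h.trans (KEq.of_compact hB)).compact

theorem KEq.sum {ι : Type} (s : Finset ι) {A B : ι → X →L[ℂ] Y} (h : ∀ i ∈ s, KEq (A i) (B i)) :
    KEq (∑ i ∈ s, A i) (∑ i ∈ s, B i) := by
  classical
  induction s using Finset.induction_on with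
  | empty => simpa using KEq.refl _
  | insert a s ha ih =>
    rw [Finset.sum_insert ha, Finset.sum_insert ha]
    exact (h a (Finset.mem_insert_self a s)).add
      (ih fun i hi => h i (Finset.mem_insert_of_mem hi))

theorem KEq.congr {A B C D : X →L[ℂ] Y} (h : KEq A B) (h' : ∀ x, C x - D x = A x - B x) :
    KEq C D := isCompactOperator_congr h fun x => by simpa using h' x

theorem KEq.prodMap {A B : X →L[ℂ] Y} {C D : Z →L[ℂ] W} (h : KEq A B) (h' : KEq C D) :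
    KEq (A.prodMap C) (B.prodMap D) := by
  have h1 := ((h.comp_right (ContinuousLinearMap.fst ℂ X Z)).comp_left
    (ContinuousLinearMap.inl ℂ Y W)).add ((h'.comp_right (ContinuousLinearMap.snd ℂ X Z)).comp_left
    (ContinuousLinearMap.inr ℂ Y W))
  exact h1.congr fun x => by ext <;> simp

theorem KEq.lau {A A' B B' : X →L[ℂ] X} (hA : KEq A A') (hB : KEq B B') (f : ℤ →₀ ℂ) :
    KEq (lau f A B) (lau f A' B') := by
  unfold Helper623_LS.lau Finsupp.sum
  refine KEq.sum _ fun n _ => ?_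
  show KEq (_ • _) (_ • _)
  split_ifs
  · exact (hA.pow _).smul _
  · exact (hB.pow _).smul _

/-! ### Similarity modulo compacts -/

theorem Sim.refl (A : X →L[ℂ] X) : Sim A A :=
  ⟨ContinuousLinearEquiv.refl ℂ X, KEq.of_eq (by ext; simp)⟩

theorem Sim.of_KEq {A B : X →L[ℂ] X} (h : KEq A B) : Sim A B :=
  ⟨ContinuousLinearEquiv.refl ℂ X, by
    have h1 : (((ContinuousLinearEquiv.refl ℂ X : X ≃L[ℂ] X) : X →L[ℂ] X) ∘L A) = A := by ext; simp
    have h2 : B ∘L ((ContinuousLinearEquiv.refl ℂ X : X ≃L[ℂ] X) : X →L[ℂ] X) = B := by ext; simp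
    rw [h1, h2]; exact h⟩

theorem Sim.of_comm {A : X →L[ℂ] X} {B : Y →L[ℂ] Y} (G : X ≃L[ℂ] Y)
    (h : ∀ x, G (A x) = B (G x)) : Sim A B :=
  ⟨G, KEq.of_eq (by ext x; simpa using h x)⟩

theorem Sim.symm {A : X →L[ℂ] X} {B : Y →L[ℂ] Y} (h : Sim A B) : Sim B A := by
  obtain ⟨G, hG⟩ := h
  refine ⟨G.symm, ?_⟩
  have h1 := ((hG.comp_right (G.symm : Y →L[ℂ] X)).comp_left (G.symm : Y →L[ℂ] X)).symm
  exact h1.congr fun x => by simp

theorem Sim.trans {A : X →L[ℂ] X} {B : Y →L[ℂ] Y} {C : Z →L[ℂ] Z} (h : Sim A B) (h' : Sim B C) :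
    Sim A C := by
  obtain ⟨G, hG⟩ := h
  obtain ⟨G', hG'⟩ := h'
  refine ⟨G.trans G', ?_⟩
  have h1 := (hG.comp_left (G' : Y →L[ℂ] Z))
  have h2 := (hG'.comp_right (G : X →L[ℂ] Y))
  exact h1.trans h2

theorem Sim.prod {A : X →L[ℂ] X} {B : Y →L[ℂ] Y} {C : Z →L[ℂ] Z} {D : W →L[ℂ] W}
    (h : Sim A B) (h' : Sim C D) : Sim (A.prodMap C) (B.prodMap D) := by
  obtain ⟨G, hG⟩ := h
  obtain ⟨G', hG'⟩ := h'
  refine ⟨G.prodCongr G', ?_⟩
  exact (hG.prodMap hG').congr fun x => rfl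

theorem Sim.prod_comm (A : X →L[ℂ] X) (B : Y →L[ℂ] Y) : Sim (A.prodMap B) (B.prodMap A) :=
  Sim.of_comm (ContinuousLinearEquiv.prodComm ℂ X Y) fun _ => rfl

theorem Sim.prod_assoc (A : X →L[ℂ] X) (B : Y →L[ℂ] Y) (C : Z →L[ℂ] Z) :
    Sim ((A.prodMap B).prodMap C) (A.prodMap (B.prodMap C)) :=
  Sim.of_comm (ContinuousLinearEquiv.prodAssoc ℂ X Y Z) fun _ => rfl

/-! ### Laurent polynomials of operators -/

theorem lau_apply (f : ℤ →₀ ℂ) (A B : X →L[ℂ] X) (x : X) :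
    lau f A B x = f.sum (fun n a => a • (if 0 ≤ n then (A ^ n.toNat) x else (B ^ (-n).toNat) x)) := by
  unfold lau Finsupp.sum
  rw [ContinuousLinearMap.sum_apply]
  refine Finset.sum_congr rfl fun n _ => ?_
  by_cases h : 0 ≤ n
  · simp only [if_pos h]; rfl
  · simp only [if_neg h]; rfl

theorem prodMap_pow (C : X →L[ℂ] X) (C' : Y →L[ℂ] Y) (n : ℕ) :
    (C.prodMap C') ^ n = (C ^ n).prodMap (C' ^ n) := by
  induction n with
  | zero => ext <;> simp
  | succ n ih => rw [pow_succ, ih, pow_succ, pow_succ]; ext <;> simp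

theorem lau_prodMap (f : ℤ →₀ ℂ) (A B : X →L[ℂ] X) (A' B' : Y →L[ℂ] Y) :
    lau f (A.prodMap A') (B.prodMap B') = (lau f A B).prodMap (lau f A' B') := by
  refine ContinuousLinearMap.ext fun x => ?_
  rw [lau_apply]
  show _ = (lau f A B x.1, lau f A' B' x.2)
  rw [lau_apply, lau_apply]
  unfold Finsupp.sum
  ext
  · rw [Prod.fst_sum]
    refine Finset.sum_congr rfl fun n _ => ?_
    simp only [prodMap_pow]
    split_ifs <;> rfl
  · rw [Prod.snd_sum]
    refine Finset.sum_congr rfl fun n _ => ?_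
    simp only [prodMap_pow]
    split_ifs <;> rfl

theorem conj_pow (G : X ≃L[ℂ] Y) (A : X →L[ℂ] X) (n : ℕ) :
    ((G : X →L[ℂ] Y) ∘L A ∘L (G.symm : Y →L[ℂ] X)) ^ n =
      (G : X →L[ℂ] Y) ∘L (A ^ n) ∘L (G.symm : Y →L[ℂ] X) := by
  induction n with
  | zero => ext; simp
  | succ n ih => rw [pow_succ, ih, pow_succ]; ext; simp

theorem lau_conj (G : X ≃L[ℂ] Y) (f : ℤ →₀ ℂ) (A B : X →L[ℂ] X) :
    lau f ((G : X →L[ℂ] Y) ∘L A ∘L (G.symm : Y →L[ℂ] X))
      ((G : X →L[ℂ] Y) ∘L B ∘L (G.symm : Y →L[ℂ] X)) =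
      (G : X →L[ℂ] Y) ∘L (lau f A B) ∘L (G.symm : Y →L[ℂ] X) := by
  refine ContinuousLinearMap.ext fun x => ?_
  rw [lau_apply]
  show _ = G (lau f A B (G.symm x))
  rw [lau_apply]
  unfold Finsupp.sum
  rw [map_sum]
  refine Finset.sum_congr rfl fun n _ => ?_
  simp only [conj_pow]
  split_ifs <;> simp

theorem lau_one (f : ℤ →₀ ℂ) :
    lau f (1 : X →L[ℂ] X) 1 = (f.sum fun _ a => a) • (1 : X →L[ℂ] X) := by
  unfold lau Finsupp.sum
  rw [Finset.sum_smul]
  refine Finset.sum_congr rfl fun n _ => ?_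
  simp

theorem CB.one {f : ℤ →₀ ℂ} {M : ℝ} (h : CB f M) : ‖f.sum fun _ a => a‖ ≤ M := by
  simpa using h 1 (by simp)

theorem CB.nonneg {f : ℤ →₀ ℂ} {M : ℝ} (h : CB f M) : 0 ≤ M := (norm_nonneg _).trans h.one

theorem UL.one : UL 1 (1 : X →L[ℂ] X) 1 where
  mul := by simp
  mul' := by simp
  bound f M h := by
    rw [lau_one, one_mul]
    calc ‖(f.sum fun _ a => a) • (1 : X →L[ℂ] X)‖ ≤ ‖f.sum fun _ a => a‖ * ‖(1 : X →L[ℂ] X)‖ :=
          ContinuousLinearMap.opNorm_smul_le _ _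
      _ ≤ ‖f.sum fun _ a => a‖ * 1 :=
          mul_le_mul_of_nonneg_left ContinuousLinearMap.norm_id_le (norm_nonneg _)
      _ ≤ M := by rw [mul_one]; exact h.one

theorem UL.mono {C C' : ℝ} {A B : X →L[ℂ] X} (h : UL C A B) (hC : C ≤ C') : UL C' A B where
  mul := h.mul
  mul' := h.mul'
  bound f M hf := (h.bound f M hf).trans (mul_le_mul_of_nonneg_right hC hf.nonneg)

theorem norm_prodMap_le (A : X →L[ℂ] Z) (B : Y →L[ℂ] W) {M : ℝ} (hA : ‖A‖ ≤ M) (hB : ‖B‖ ≤ M) :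
    ‖A.prodMap B‖ ≤ M := by
  have h0 : 0 ≤ M := (norm_nonneg _).trans hA
  refine ContinuousLinearMap.opNorm_le_bound _ h0 fun x => ?_
  show ‖(A x.1, B x.2)‖ ≤ _
  rw [Prod.norm_def]
  refine max_le ?_ ?_
  · exact (A.le_of_opNorm_le hA _).trans (mul_le_mul_of_nonneg_left (norm_fst_le x) h0)
  · exact (B.le_of_opNorm_le hB _).trans (mul_le_mul_of_nonneg_left (norm_snd_le x) h0)

theorem UL.prod {C : ℝ} {A B : X →L[ℂ] X} {A' B' : Y →L[ℂ] Y} (h : UL C A B) (h' : UL C A' B') :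
    UL C (A.prodMap A') (B.prodMap B') where
  mul := by
    have e : A.prodMap A' * B.prodMap B' = (A * B).prodMap (A' * B') := by ext <;> simp
    rw [e, h.mul, h'.mul]; ext <;> simp
  mul' := by
    have e : B.prodMap B' * A.prodMap A' = (B * A).prodMap (B' * A') := by ext <;> simp
    rw [e, h.mul', h'.mul']; ext <;> simp
  bound f M hf := by
    rw [lau_prodMap]
    exact norm_prodMap_le _ _ (h.bound f M hf) (h'.bound f M hf)

/-- transport along a continuous linear equivalence -/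
def cj (G : X ≃L[ℂ] Y) (A : X →L[ℂ] X) : Y →L[ℂ] Y :=
  (G : X →L[ℂ] Y) ∘L A ∘L (G.symm : Y →L[ℂ] X)

@[simp] theorem cj_apply (G : X ≃L[ℂ] Y) (A : X →L[ℂ] X) (y : Y) : cj G A y = G (A (G.symm y)) := rfl

theorem cj_mul (G : X ≃L[ℂ] Y) (A B : X →L[ℂ] X) : cj G (A * B) = cj G A * cj G B := by
  ext; simp

theorem cj_one (G : X ≃L[ℂ] Y) : cj G (1 : X →L[ℂ] X) = 1 := by ext; simp

theorem lau_cj (G : X ≃L[ℂ] Y) (f : ℤ →₀ ℂ) (A B : X →L[ℂ] X) :
    lau f (cj G A) (cj G B) = cj G (lau f A B) := lau_conj G f A B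

theorem norm_cj_le (G : X ≃L[ℂ] Y) (A : X →L[ℂ] X) :
    ‖cj G A‖ ≤ ‖(G : X →L[ℂ] Y)‖ * ‖(G.symm : Y →L[ℂ] X)‖ * ‖A‖ := by
  calc ‖cj G A‖ ≤ ‖(G : X →L[ℂ] Y)‖ * ‖A ∘L (G.symm : Y →L[ℂ] X)‖ :=
        ContinuousLinearMap.opNorm_comp_le _ _
    _ ≤ ‖(G : X →L[ℂ] Y)‖ * (‖A‖ * ‖(G.symm : Y →L[ℂ] X)‖) :=
        mul_le_mul_of_nonneg_left (ContinuousLinearMap.opNorm_comp_le _ _) (norm_nonneg _)
    _ = _ := by ring

theorem UL.conj {C : ℝ} {A B : X →L[ℂ] X} (h : UL C A B) (G : X ≃L[ℂ] Y) :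
    UL (‖(G : X →L[ℂ] Y)‖ * ‖(G.symm : Y →L[ℂ] X)‖ * C) (cj G A) (cj G B) where
  mul := by rw [← cj_mul, h.mul, cj_one]
  mul' := by rw [← cj_mul, h.mul', cj_one]
  bound f M hf := by
    rw [lau_cj, mul_assoc]
    exact (norm_cj_le G _).trans (mul_le_mul_of_nonneg_left (h.bound f M hf) (by positivity))

theorem Sim.cj (G : X ≃L[ℂ] Y) (A : X →L[ℂ] X) : Sim A (cj G A) :=
  Sim.of_comm G fun x => by simp

/-! ### `Ess` -/

theorem Ess.mono {C C' : ℝ} {A B : X →L[ℂ] X} (h : Ess C A B) (hC : C ≤ C') : Ess C' A B where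
  mul := h.mul
  mul' := h.mul'
  bound f M hf ε hε := by
    obtain ⟨K, hK, hK'⟩ := h.bound f M hf ε hε
    exact ⟨K, hK, hK'.trans (by gcongr; exact hf.nonneg)⟩

theorem Ess.congr {C : ℝ} {A B A' B' : X →L[ℂ] X} (h : Ess C A B) (hA : KEq A A') (hB : KEq B B') :
    Ess C A' B' where
  mul := (hA.symm.mul hB.symm).trans h.mul
  mul' := (hB.symm.mul hA.symm).trans h.mul'
  bound f M hf ε hε := by
    obtain ⟨K, hK, hK'⟩ := h.bound f M hf ε hε
    refine ⟨(lau f A B - lau f A' B') + K, ?_, ?_⟩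
    · exact isCompactOperator_congr (IsCompactOperator.add (KEq.lau hA hB f) hK) fun x => by simp
    · have : lau f A' B' + (lau f A B - lau f A' B' + K) = lau f A B + K := by abel
      rw [this]; exact hK'

theorem Ess.of_UL {C : ℝ} {A B : X →L[ℂ] X} (h : UL C A B) : Ess C A B where
  mul := KEq.of_eq h.mul
  mul' := KEq.of_eq h.mul'
  bound f M hf ε hε := ⟨0, isCompactOperator_zero, by
    rw [add_zero]; exact (h.bound f M hf).trans (by linarith)⟩

theorem Ess.prod {C : ℝ} {A B : X →L[ℂ] X} {A' B' : Y →L[ℂ] Y} (h : Ess C A B) (h' : Ess C A' B') :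
    Ess C (A.prodMap A') (B.prodMap B') where
  mul := by
    have e : A.prodMap A' * B.prodMap B' = (A * B).prodMap (A' * B') := by ext <;> simp
    have e1 : (1 : (X × Y) →L[ℂ] (X × Y)) = (1 : X →L[ℂ] X).prodMap (1 : Y →L[ℂ] Y) := by
      ext <;> simp
    rw [e, e1]; exact h.mul.prodMap h'.mul
  mul' := by
    have e : B.prodMap B' * A.prodMap A' = (B * A).prodMap (B' * A') := by ext <;> simp
    have e1 : (1 : (X × Y) →L[ℂ] (X × Y)) = (1 : X →L[ℂ] X).prodMap (1 : Y →L[ℂ] Y) := by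
      ext <;> simp
    rw [e, e1]; exact h.mul'.prodMap h'.mul'
  bound f M hf ε hε := by
    obtain ⟨K, hK, hK'⟩ := h.bound f M hf ε hε
    obtain ⟨K2, hK2, hK2'⟩ := h'.bound f M hf ε hε
    refine ⟨K.prodMap K2, ?_, ?_⟩
    · have := ((KEq.of_compact hK).prodMap (KEq.of_compact hK2))
      refine KEq.compact (this.congr fun x => ?_)
      ext <;> simp
    · rw [lau_prodMap]
      have e : (lau f A B).prodMap (lau f A' B') + K.prodMap K2 =
        (lau f A B + K).prodMap (lau f A' B' + K2) := by ext <;> simp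
      rw [e]
      exact norm_prodMap_le _ _ hK' hK2'

theorem Ess.conj {C : ℝ} {A B : X →L[ℂ] X} (h : Ess C A B) (G : X ≃L[ℂ] Y) :
    Ess (‖(G : X →L[ℂ] Y)‖ * ‖(G.symm : Y →L[ℂ] X)‖ * C) (cj G A) (cj G B) where
  mul := by
    rw [← cj_mul, ← cj_one G]
    exact (h.mul.comp_right _).comp_left _
  mul' := by
    rw [← cj_mul, ← cj_one G]
    exact (h.mul'.comp_right _).comp_left _
  bound f M hf ε hε := by
    set c := ‖(G : X →L[ℂ] Y)‖ * ‖(G.symm : Y →L[ℂ] X)‖ with hc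
    have hc0 : 0 ≤ c := by positivity
    obtain ⟨K, hK, hK'⟩ := h.bound f M hf (ε / (c + 1)) (by positivity)
    refine ⟨cj G K, ?_, ?_⟩
    · exact ((((KEq.of_compact hK).comp_right _).comp_left _).trans
        (KEq.of_eq (by ext; simp))).compact
    · rw [lau_cj]
      have e : cj G (lau f A B) + cj G K = cj G (lau f A B + K) := by ext; simp
      rw [e]
      refine (norm_cj_le G _).trans ?_
      rw [← hc]
      calc c * ‖lau f A B + K‖ ≤ c * (C * M + ε / (c + 1)) := mul_le_mul_of_nonneg_left hK' hc0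
        _ = c * C * M + c / (c + 1) * ε := by ring
        _ ≤ c * C * M + 1 * ε := by
            gcongr
            rw [div_le_one (by positivity)]; linarith
        _ = _ := by ring

/-- the Laurent polynomial `f(1/z)` -/
def fsw (f : ℤ →₀ ℂ) : ℤ →₀ ℂ := Finsupp.equivMapDomain (Equiv.neg ℤ) f

theorem fsw_sum {M : Type} [AddCommMonoid M] (f : ℤ →₀ ℂ) (φ : ℤ → ℂ → M) :
    (fsw f).sum φ = f.sum fun n a => φ (-n) a := by
  unfold fsw
  rw [Finsupp.equivMapDomain_eq_mapDomain, Finsupp.sum_mapDomain_index_inj]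
  · rfl
  · exact (Equiv.neg ℤ).injective

theorem CB.fsw {f : ℤ →₀ ℂ} {M : ℝ} (h : CB f M) : CB (fsw f) M := by
  intro v hv
  rw [fsw_sum]
  have := h v⁻¹ (by rw [norm_inv, hv, inv_one])
  simpa using this

theorem lau_fsw (f : ℤ →₀ ℂ) (A B : X →L[ℂ] X) : lau (fsw f) A B = lau f B A := by
  unfold lau
  rw [fsw_sum]
  unfold Finsupp.sum
  refine Finset.sum_congr rfl fun n _ => ?_
  rcases lt_trichotomy n 0 with h | h | h
  · have h1 : 0 ≤ -n := by omega
    have h2 : ¬ 0 ≤ n := by omega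
    simp only [if_pos h1, if_neg h2]
  · simp [h]
  · have h1 : ¬ 0 ≤ -n := by omega
    have h2 : 0 ≤ n := by omega
    simp only [if_pos h2, if_neg h1, neg_neg]

theorem Ess.swap {C : ℝ} {A B : X →L[ℂ] X} (h : Ess C A B) : Ess C B A where
  mul := h.mul'
  mul' := h.mul
  bound f M hf ε hε := by
    rw [← lau_fsw]
    exact h.bound _ M hf.fsw ε hε

end rel

end

end Pool.Agent.Helper623_LS
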