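import Pool.Agent.Helper623_LS.Rel

set_option autoImplicit false
open scoped ENNReal NNReal Topology
open Filter
namespace Pool.Agent.Helper623_LS

noncomputable section

variable {p : ℝ≥0∞} [Fact (1 ≤ p)]

theorem tl_bd {e : ℕ → ℝ} (he : ∀ i, |e i| ≤ 1) (j : ℕ) :
    ‖((e j : ℂ) • ContinuousLinearMap.id ℂ ℂ)‖ ≤ 1 := by
  refine (ContinuousLinearMap.opNorm_smul_le _ _).trans ?_
  rw [Complex.norm_real, Real.norm_eq_abs]
  calc |e j| * ‖ContinuousLinearMap.id ℂ ℂ‖ ≤ 1 * 1 :=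
        mul_le_mul (he j) ContinuousLinearMap.norm_id_le (norm_nonneg _) zero_le_one
    _ = 1 := one_mul 1

theorem tl_MO_apply {e : ℕ → ℝ} (he : ∀ i, |e i| ≤ 1) (x : LL p) (i : ℕ) :
    (MO p e x) i = (e i : ℂ) * x i := by
  have h : Bd (fun j : ℕ => ((e j : ℂ) • ContinuousLinearMap.id ℂ ((fun _ : ℕ => ℂ) j))) :=
    ⟨1, fun j => tl_bd he j⟩
  have h1 := dsum_apply (p := p) h x i
  exact h1

theorem tl_norm_MO {e : ℕ → ℝ} (he : ∀ i, |e i| ≤ 1) : ‖MO p e‖ ≤ 1 :=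
  norm_dsum_le (p := p)
    (a := fun j : ℕ => ((e j : ℂ) • ContinuousLinearMap.id ℂ ((fun _ : ℕ => ℂ) j)))
    zero_le_one (fun j => tl_bd he j)

theorem tl_cut_abs (c i : ℕ) : |cut c i| ≤ 1 := by
  unfold cut; split_ifs <;> simp

theorem tl_P_apply (c : ℕ) (x : LL p) (i : ℕ) :
    (MO p (cut c) x) i = if i < c then x i else 0 := by
  rw [tl_MO_apply (tl_cut_abs c)]
  unfold cut
  split_ifs <;> simp

theorem tl_Q_apply (c : ℕ) (x : LL p) (i : ℕ) :
    ((1 - MO p (cut c) : LL p →L[ℂ] LL p) x) i = if i < c then 0 else x i := by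
  have h1 : ((1 - MO p (cut c) : LL p →L[ℂ] LL p) x) i = x i - (MO p (cut c) x) i := rfl
  rw [h1, tl_P_apply]
  split_ifs <;> simp

theorem tl_Q_eq (c : ℕ) :
    (1 - MO p (cut c) : LL p →L[ℂ] LL p) = MO p (fun i => 1 - cut c i) := by
  have h2 : ∀ i, |1 - cut c i| ≤ 1 := by
    intro i; unfold cut; split_ifs <;> simp
  refine ContinuousLinearMap.ext fun x => ?_
  apply lp.ext
  funext i
  rw [tl_Q_apply, tl_MO_apply h2]
  unfold cut
  split_ifs <;> simp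

theorem tl_norm_Q (c : ℕ) : ‖(1 - MO p (cut c) : LL p →L[ℂ] LL p)‖ ≤ 1 := by
  have h2 : ∀ i, |1 - cut c i| ≤ 1 := by
    intro i; unfold cut; split_ifs <;> simp
  rw [tl_Q_eq]
  exact tl_norm_MO h2

theorem tl_norm_Q_apply (c : ℕ) (x : LL p) :
    ‖(1 - MO p (cut c) : LL p →L[ℂ] LL p) x‖ ≤ ‖x‖ := by
  have := (1 - MO p (cut c) : LL p →L[ℂ] LL p).le_of_opNorm_le (tl_norm_Q c) x
  rwa [one_mul] at this

theorem tl_norm_P_apply (c : ℕ) (x : LL p) : ‖MO p (cut c) x‖ ≤ ‖x‖ := by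
  have := (MO p (cut c)).le_of_opNorm_le (tl_norm_MO (tl_cut_abs c)) x
  rwa [one_mul] at this

theorem tl_tendsto_P (hp : p ≠ ∞) (x : LL p) :
    Tendsto (fun c => MO p (cut c) x) atTop (𝓝 x) := by
  have h1 := (lp.hasSum_single hp x).tendsto_sum_nat
  refine h1.congr fun c => ?_
  apply lp.ext
  funext i
  rw [tl_P_apply, lp.coeFn_sum, Finset.sum_apply]
  simp only [lp.coeFn_single]
  split_ifs with h
  · rw [Finset.sum_eq_single i]
    · simp
    · intro b _ hb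
      simp [hb.symm]
    · intro h2
      exact absurd (Finset.mem_range.2 h) h2
  · refine Finset.sum_eq_zero fun b hb => ?_
    have hb' := Finset.mem_range.1 hb
    have : i ≠ b := by omega
    simp [this]

theorem tl_tendsto_Q (hp : p ≠ ∞) (x : LL p) :
    Tendsto (fun c => (1 - MO p (cut c) : LL p →L[ℂ] LL p) x) atTop (𝓝 0) := by
  have h1 := (tendsto_const_nhds (x := x)).sub (tl_tendsto_P hp x)
  rw [sub_self] at h1
  exact h1

theorem tl_opNorm_le {X Z : Type} [NormedAddCommGroup X] [NormedSpace ℂ X]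
    [NormedAddCommGroup Z] [NormedSpace ℂ Z] (A : X →L[ℂ] Z) {C : ℝ} (hC : 0 ≤ C)
    (h : ∀ x, ‖x‖ ≤ 1 → ‖A x‖ ≤ C) : ‖A‖ ≤ C := by
  refine ContinuousLinearMap.opNorm_le_bound _ hC fun x => ?_
  rcases eq_or_ne x 0 with rfl | hx
  · simp
  · have hx' : (0 : ℝ) < ‖x‖ := norm_pos_iff.2 hx
    have h1 := h (((‖x‖⁻¹ : ℝ) : ℂ) • x) (by
      rw [norm_smul, Complex.norm_real, norm_inv, norm_norm, inv_mul_cancel₀ hx'.ne'])
    rw [map_smul, norm_smul, Complex.norm_real, norm_inv, norm_norm] at h1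
    rw [inv_mul_le_iff₀ hx'] at h1
    linarith [mul_comm ‖x‖ C]

theorem compact_tail_left (hp : p ≠ ∞) {Z : Type} [NormedAddCommGroup Z] [NormedSpace ℂ Z]
    (K : Z →L[ℂ] LL p) (hK : IsCompactOperator K) :
    Tendsto (fun c => ‖(1 - MO p (cut c)) ∘L K‖) atTop (𝓝 0) := by
  rw [Metric.tendsto_atTop]
  intro ε hε
  have hc : IsCompact (closure ((K : Z →ₗ[ℂ] LL p) '' Metric.closedBall 0 1)) :=
    IsCompactOperator.isCompact_closure_image_closedBall (f := (K : Z →ₗ[ℂ] LL p)) hK 1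
  obtain ⟨t, htf, hts⟩ := Metric.totallyBounded_iff.1 hc.totallyBounded (ε / 3) (by positivity)
  have hev : ∀ᶠ c in atTop, ∀ y ∈ t, ‖(1 - MO p (cut c) : LL p →L[ℂ] LL p) y‖ < ε / 3 := by
    rw [Filter.eventually_all_finite htf]
    intro y _
    have h1 := (tl_tendsto_Q hp y).norm
    rw [norm_zero] at h1
    exact h1.eventually_lt_const (by positivity)
  obtain ⟨N, hN⟩ := Filter.eventually_atTop.1 hev
  refine ⟨N, fun c hcN => ?_⟩
  rw [dist_zero_right, norm_norm]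
  have h2 : ‖(1 - MO p (cut c)) ∘L K‖ ≤ 2 * (ε / 3) := by
    refine tl_opNorm_le _ (by positivity) fun x hx => ?_
    have h3 : K x ∈ closure ((K : Z →ₗ[ℂ] LL p) '' Metric.closedBall 0 1) :=
      subset_closure ⟨x, by simpa using hx, rfl⟩
    have h4 := hts h3
    simp only [Set.mem_iUnion, Metric.mem_ball] at h4
    obtain ⟨y, hy, hxy⟩ := h4
    have h5 : ((1 - MO p (cut c)) ∘L K) x =
        (1 - MO p (cut c) : LL p →L[ℂ] LL p) (K x - y) +
          (1 - MO p (cut c) : LL p →L[ℂ] LL p) y := by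
      rw [← map_add, sub_add_cancel]; rfl
    rw [h5]
    refine (norm_add_le _ _).trans ?_
    have h6 := tl_norm_Q_apply c (K x - y)
    rw [dist_eq_norm] at hxy
    have h7 := hN c hcN y hy
    linarith
  linarith

theorem tl_disj (hp : p ≠ ∞) (a b : LL p) (h : ∀ i, a i = 0 ∨ b i = 0) :
    ‖a + b‖ ^ p.toReal = ‖a‖ ^ p.toReal + ‖b‖ ^ p.toReal := by
  have hp0 : p ≠ 0 := (lt_of_lt_of_le one_pos (Fact.out : (1 : ℝ≥0∞) ≤ p)).ne'
  have hp' : 0 < p.toReal := ENNReal.toReal_pos hp0 hp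
  have h1 := (lp.hasSum_norm hp' a).add (lp.hasSum_norm hp' b)
  have h2 := lp.hasSum_norm hp' (a + b)
  have h3 : (fun i => ‖(a + b : LL p) i‖ ^ p.toReal) =
      fun i => ‖a i‖ ^ p.toReal + ‖b i‖ ^ p.toReal := by
    funext i
    have h4 : (a + b : LL p) i = a i + b i := rfl
    rw [h4]
    rcases h i with h5 | h5
    · rw [h5, zero_add, norm_zero, Real.zero_rpow hp'.ne', zero_add]
    · rw [h5, add_zero, norm_zero, Real.zero_rpow hp'.ne', add_zero]
  rw [h3] at h2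
  exact h2.unique h1

/-- Sums of disjointly supported unit vectors. -/
theorem tl_sum_norm (hp : p ≠ ∞) (X : ℕ → LL p) (c : ℕ → ℕ) (hc : StrictMono c)
    (hX1 : ∀ k, ‖X k‖ ≤ 1) (hX2 : ∀ k i, X k i ≠ 0 → c k ≤ i ∧ i < c (k + 1))
    (ψ : ℕ → ℕ) (hψ : StrictMono ψ) (m : ℕ) :
    ‖∑ j ∈ Finset.range m, X (ψ j)‖ ^ p.toReal ≤ m ∧
      ∀ i, c (ψ m) ≤ i → (∑ j ∈ Finset.range m, X (ψ j) : LL p) i = 0 := by
  have hp0 : p ≠ 0 := (lt_of_lt_of_le one_pos (Fact.out : (1 : ℝ≥0∞) ≤ p)).ne'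
  have hp' : 0 < p.toReal := ENNReal.toReal_pos hp0 hp
  induction m with
  | zero =>
    refine ⟨?_, fun i _ => ?_⟩
    · simp [Real.zero_rpow hp'.ne']
    · simp
  | succ m ih =>
    obtain ⟨ih1, ih2⟩ := ih
    rw [Finset.sum_range_succ]
    refine ⟨?_, ?_⟩
    · rw [tl_disj hp]
      · have h1 : ‖X (ψ m)‖ ^ p.toReal ≤ 1 := Real.rpow_le_one (norm_nonneg _) (hX1 _) hp'.le
        push_cast
        linarith
      · intro i
        by_cases hi : c (ψ m) ≤ i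
        · exact Or.inl (ih2 i hi)
        · right
          by_contra hne
          exact hi (hX2 _ i hne).1
    · intro i hi
      have h4 : (∑ j ∈ Finset.range m, X (ψ j) + X (ψ m) : LL p) i =
          (∑ j ∈ Finset.range m, X (ψ j) : LL p) i + X (ψ m) i := rfl
      have h5 : ψ m + 1 ≤ ψ (m + 1) := hψ (Nat.lt_succ_self m)
      have h6 : c (ψ m + 1) ≤ c (ψ (m + 1)) := hc.monotone h5
      have h7 : c (ψ m) < c (ψ m + 1) := hc (Nat.lt_succ_self _)
      rw [h4, ih2 i (by omega), zero_add]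
      by_contra hne
      have := (hX2 _ i hne).2
      omega

theorem tl_step (hp : p ≠ ∞) {Z : Type} [NormedAddCommGroup Z]
    [NormedSpace ℂ Z] (K : LL p →L[ℂ] Z) {d : ℝ} (hd : 0 ≤ d) (c : ℕ)
    (h : d < ‖K ∘L (1 - MO p (cut c))‖) :
    ∃ (n : ℕ) (x : LL p), c < n ∧ ‖x‖ ≤ 1 ∧ d < ‖K x‖ ∧ ∀ i, x i ≠ 0 → c ≤ i ∧ i < n := by
  obtain ⟨x, hx1, hx2⟩ : ∃ x : LL p, ‖x‖ ≤ 1 ∧ d < ‖(K ∘L (1 - MO p (cut c))) x‖ := by
    by_contra hcon
    have h1 : ‖K ∘L (1 - MO p (cut c))‖ ≤ d := by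
      refine tl_opNorm_le _ hd fun x hx => ?_
      by_contra h2
      exact hcon ⟨x, hx, not_le.1 h2⟩
    linarith
  set y : LL p := (1 - MO p (cut c) : LL p →L[ℂ] LL p) x with hy
  have hy1 : ‖y‖ ≤ 1 := (tl_norm_Q_apply c x).trans hx1
  have hy2 : d < ‖K y‖ := hx2
  have h3 : Tendsto (fun n => ‖K (MO p (cut n) y)‖) atTop (𝓝 ‖K y‖) :=
    ((K.continuous.tendsto y).comp (tl_tendsto_P hp y)).norm
  have h4 := (h3.eventually_const_lt hy2).and (eventually_gt_atTop c)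
  obtain ⟨n, hn1, hn2⟩ := h4.exists
  refine ⟨n, MO p (cut n) y, hn2, (tl_norm_P_apply n y).trans hy1, hn1, fun i hi => ?_⟩
  rw [tl_P_apply, hy, tl_Q_apply] at hi
  split_ifs at hi with h5 h6
  · exact absurd rfl hi
  · exact ⟨not_lt.1 h6, h5⟩
  · exact absurd rfl hi

theorem tl_anti {Z : Type} [NormedAddCommGroup Z]
    [NormedSpace ℂ Z] (K : LL p →L[ℂ] Z) (c n : ℕ) (h : c ≤ n) :
    ‖K ∘L (1 - MO p (cut n))‖ ≤ ‖K ∘L (1 - MO p (cut c))‖ := by
  have h1 : K ∘L (1 - MO p (cut n)) = (K ∘L (1 - MO p (cut c))) ∘L (1 - MO p (cut n)) := by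
    refine ContinuousLinearMap.ext fun x => ?_
    change K ((1 - MO p (cut n) : LL p →L[ℂ] LL p) x) =
      K ((1 - MO p (cut c) : LL p →L[ℂ] LL p) ((1 - MO p (cut n) : LL p →L[ℂ] LL p) x))
    congr 1
    apply lp.ext
    funext i
    rw [tl_Q_apply c, tl_Q_apply n]
    split_ifs with h2 h3 h3
    · rfl
    · rfl
    · omega
    · rfl
  rw [h1]
  refine (ContinuousLinearMap.opNorm_comp_le _ _).trans ?_
  exact mul_le_of_le_one_right (norm_nonneg _) (tl_norm_Q n)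

theorem compact_tail_right (hp1 : 1 < p) (hp : p ≠ ∞) {Z : Type} [NormedAddCommGroup Z]
    [NormedSpace ℂ Z] (K : LL p →L[ℂ] Z) (hK : IsCompactOperator K) :
    Tendsto (fun c => ‖K ∘L (1 - MO p (cut c))‖) atTop (𝓝 0) := by
  have hq : 1 < p.toReal := by
    have := (ENNReal.toReal_lt_toReal ENNReal.one_ne_top hp).2 hp1
    simpa using this
  by_contra hcon
  obtain ⟨d, hd, hdc⟩ : ∃ d : ℝ, 0 < d ∧ ∀ c, d < ‖K ∘L (1 - MO p (cut c))‖ := by
    rw [Metric.tendsto_atTop] at hcon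
    simp only [not_forall, not_exists, dist_zero_right, norm_norm] at hcon
    obtain ⟨ε, hε, h⟩ := hcon
    refine ⟨ε / 2, by positivity, fun c => ?_⟩
    obtain ⟨n, hn, hn2⟩ := h c
    have h1 := tl_anti K c n hn
    have h2 := not_lt.1 hn2
    linarith
  choose nx x hx1 hx2 hx3 hx4 using fun c => tl_step hp K hd.le c (hdc c)
  let c : ℕ → ℕ := fun k => Nat.rec 0 (fun _ a => nx a) k
  have hcs : ∀ k, c (k + 1) = nx (c k) := fun k => rfl
  have hc : StrictMono c := strictMono_nat_of_lt_succ fun k => by rw [hcs]; exact hx1 _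
  let X : ℕ → LL p := fun k => x (c k)
  have hX1 : ∀ k, ‖X k‖ ≤ 1 := fun k => hx2 _
  have hX2 : ∀ k i, X k i ≠ 0 → c k ≤ i ∧ i < c (k + 1) := fun k i hi => hx4 (c k) i hi
  have hX3 : ∀ k, d < ‖K (X k)‖ := fun k => hx3 _
  have hcp : IsCompact (closure ((K : LL p →ₗ[ℂ] Z) '' Metric.closedBall 0 1)) :=
    IsCompactOperator.isCompact_closure_image_closedBall (f := (K : LL p →ₗ[ℂ] Z)) hK 1
  obtain ⟨y, -, φ, hφ, hy⟩ := hcp.tendsto_subseq (x := fun k => K (X k))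
    (fun k => subset_closure ⟨X k, by simpa using hX1 k, rfl⟩)
  have hyd : d ≤ ‖y‖ := ge_of_tendsto' hy.norm fun k => (hX3 _).le
  have hev : ∀ᶠ k in atTop, ‖K (X (φ k)) - y‖ < d / 2 := by
    have h1 := (hy.sub_const y).norm
    rw [sub_self, norm_zero] at h1
    exact h1.eventually_lt_const (by positivity)
  obtain ⟨J, hJ⟩ := Filter.eventually_atTop.1 hev
  -- the key inequality
  have hkey : ∀ m : ℕ, (m : ℝ) * (d / 2) ≤ ‖K‖ * (m : ℝ) ^ (1 / p.toReal) := by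
    intro m
    have hψ : StrictMono (fun j => φ (J + j)) := fun a b hab => hφ (by omega)
    obtain ⟨h1, -⟩ := tl_sum_norm hp X c hc hX1 hX2 (fun j => φ (J + j)) hψ m
    set T : LL p := ∑ j ∈ Finset.range m, X (φ (J + j)) with hT
    have h2 : ‖T‖ ≤ (m : ℝ) ^ (1 / p.toReal) := by
      have h3 := Real.rpow_le_rpow (Real.rpow_nonneg (norm_nonneg _) _) h1
        (by positivity : 0 ≤ 1 / p.toReal)
      rwa [← Real.rpow_mul (norm_nonneg _), mul_one_div_cancel (by linarith), Real.rpow_one] at h3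
    have h4 : ‖K T‖ ≤ ‖K‖ * (m : ℝ) ^ (1 / p.toReal) :=
      (K.le_opNorm T).trans (mul_le_mul_of_nonneg_left h2 (norm_nonneg _))
    have h6 : K T - (m : ℂ) • y = ∑ j ∈ Finset.range m, (K (X (φ (J + j))) - y) := by
      rw [Finset.sum_sub_distrib, hT, map_sum, Finset.sum_const, Finset.card_range,
        Nat.cast_smul_eq_nsmul]
    have h7 : ‖K T - (m : ℂ) • y‖ ≤ m * (d / 2) := by
      rw [h6]
      refine (norm_sum_le _ _).trans ?_
      have h8 : ∀ j ∈ Finset.range m, ‖K (X (φ (J + j))) - y‖ ≤ d / 2 :=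
        fun j _ => (hJ (J + j) (by omega)).le
      refine (Finset.sum_le_sum h8).trans ?_
      rw [Finset.sum_const, Finset.card_range, nsmul_eq_mul]
    have h9 : ‖(m : ℂ) • y‖ ≤ ‖K T‖ + ‖K T - (m : ℂ) • y‖ := by
      have h10 : (m : ℂ) • y = K T - (K T - (m : ℂ) • y) := by abel
      calc ‖(m : ℂ) • y‖ = ‖K T - (K T - (m : ℂ) • y)‖ := by rw [← h10]
        _ ≤ _ := norm_sub_le _ _
    rw [norm_smul, Complex.norm_natCast] at h9
    have h11 : (m : ℝ) * d ≤ m * ‖y‖ := mul_le_mul_of_nonneg_left hyd (Nat.cast_nonneg _)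
    linarith
  -- contradiction as m tends to infinity
  have hs : 0 < 1 - 1 / p.toReal := by
    have : 1 / p.toReal < 1 := by rw [div_lt_one (by linarith)]; exact hq
    linarith
  have hlim : Tendsto (fun m : ℕ => (m : ℝ) ^ (1 - 1 / p.toReal)) atTop atTop :=
    (tendsto_rpow_atTop hs).comp tendsto_natCast_atTop_atTop
  obtain ⟨m, hm1, hm2⟩ := ((hlim.eventually_gt_atTop (‖K‖ / (d / 2))).and
    (eventually_gt_atTop 0)).exists
  have hm3 : (0 : ℝ) < m := by exact_mod_cast hm2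
  have hk := hkey m
  have h12 : (m : ℝ) ^ (1 - 1 / p.toReal) * (m : ℝ) ^ (1 / p.toReal) = m := by
    rw [← Real.rpow_add hm3]
    simp
  have h13 : 0 < (m : ℝ) ^ (1 / p.toReal) := Real.rpow_pos_of_pos hm3 _
  rw [div_lt_iff₀ (by positivity)] at hm1
  have h14 : ‖K‖ * (m : ℝ) ^ (1 / p.toReal) < m * (d / 2) := by
    calc ‖K‖ * (m : ℝ) ^ (1 / p.toReal)
        < ((m : ℝ) ^ (1 - 1 / p.toReal) * (d / 2)) * (m : ℝ) ^ (1 / p.toReal) :=
          mul_lt_mul_of_pos_right hm1 h13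
      _ = ((m : ℝ) ^ (1 - 1 / p.toReal) * (m : ℝ) ^ (1 / p.toReal)) * (d / 2) := by ring
      _ = m * (d / 2) := by rw [h12]
  linarith

end

end Pool.Agent.Helper623_LS
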