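import Pool.Agent.Helper623_LS.Alg
import Pool.Agent.Helper623_LS.Gop
import Pool.Agent.Helper623_LS.AmpKL
import Pool.Agent.Helper623_LS.Loc
import Pool.Agent.Helper623_LS.Reg2
import Pool.Agent.Helper623_LS.Gam
import Pool.Agent.Helper623_LS.Tail1
import Pool.Agent.Helper623_LS.Defs3

/-! The dilation of the twisted copies of `T`: norms and compactness of the errors. -/

set_option autoImplicit false

open scoped ENNReal NNReal Topology
open Filter

namespace Pool.Agent.Helper623_LS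

noncomputable section

section general

variable {X Y Z : Type} [NormedAddCommGroup X] [NormedSpace ℂ X]
  [NormedAddCommGroup Y] [NormedSpace ℂ Y] [NormedAddCommGroup Z] [NormedSpace ℂ Z]

theorem norm_prod_le' (A : X →L[ℂ] Y) (B : X →L[ℂ] Z) : ‖A.prod B‖ ≤ ‖A‖ + ‖B‖ := by
  refine ContinuousLinearMap.opNorm_le_bound _ (by positivity) fun x => ?_
  show ‖(A x, B x)‖ ≤ _
  rw [Prod.norm_def, add_mul]
  have h1 := A.le_opNorm x
  have h2 := B.le_opNorm x
  have h3 : 0 ≤ ‖A‖ * ‖x‖ := by positivity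
  have h4 : 0 ≤ ‖B‖ * ‖x‖ := by positivity
  exact max_le (by linarith) (by linarith)

theorem norm_coprod_le' (A : X →L[ℂ] Z) (B : Y →L[ℂ] Z) : ‖A.coprod B‖ ≤ ‖A‖ + ‖B‖ := by
  refine ContinuousLinearMap.opNorm_le_bound _ (by positivity) fun x => ?_
  show ‖A x.1 + B x.2‖ ≤ _
  have h1 := A.le_opNorm x.1
  have h2 := B.le_opNorm x.2
  have h3 := mul_le_mul_of_nonneg_left (norm_fst_le x) (norm_nonneg A)
  have h4 := mul_le_mul_of_nonneg_left (norm_snd_le x) (norm_nonneg B)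
  calc ‖A x.1 + B x.2‖ ≤ ‖A x.1‖ + ‖B x.2‖ := norm_add_le _ _
    _ ≤ (‖A‖ + ‖B‖) * ‖x‖ := by linarith

theorem compact_prod {A : X →L[ℂ] Y} {B : X →L[ℂ] Z} (hA : IsCompactOperator A)
    (hB : IsCompactOperator B) : IsCompactOperator (A.prod B) := by
  have h := ((KEq.of_compact hA).comp_left (ContinuousLinearMap.inl ℂ Y Z)).add
    ((KEq.of_compact hB).comp_left (ContinuousLinearMap.inr ℂ Y Z))
  refine KEq.compact (h.congr fun x => ?_)
  refine Prod.ext ?_ ?_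
  · show A x - 0 = (A x + 0) - (0 + 0)
    abel
  · show B x - 0 = (0 + B x) - (0 + 0)
    abel

theorem compact_coprod {A : X →L[ℂ] Z} {B : Y →L[ℂ] Z} (hA : IsCompactOperator A)
    (hB : IsCompactOperator B) : IsCompactOperator (A.coprod B) := by
  have h := ((KEq.of_compact hA).comp_right (ContinuousLinearMap.fst ℂ X Y)).add
    ((KEq.of_compact hB).comp_right (ContinuousLinearMap.snd ℂ X Y))
  refine KEq.compact (h.congr fun x => ?_)
  show (A x.1 + B x.2) - 0 = (A x.1 + B x.2) - (0 + 0)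
  abel

theorem compact_left {A : X →L[ℂ] Y} (hA : IsCompactOperator A) (B : Y →L[ℂ] Z) :
    IsCompactOperator (B ∘L A) := by
  have h := (KEq.of_compact hA).comp_left B
  refine KEq.compact (h.congr fun x => ?_)
  show B (A x) - 0 = B (A x) - B 0
  rw [map_zero]

theorem compact_right {A : Y →L[ℂ] Z} (hA : IsCompactOperator A) (B : X →L[ℂ] Y) :
    IsCompactOperator (A ∘L B) := by
  have h := (KEq.of_compact hA).comp_right B
  refine KEq.compact (h.congr fun x => ?_)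
  rfl

theorem compact_add {A B : X →L[ℂ] Y} (hA : IsCompactOperator A) (hB : IsCompactOperator B) :
    IsCompactOperator (A + B) := by
  have h := (KEq.of_compact hA).add (KEq.of_compact hB)
  refine KEq.compact (h.congr fun x => ?_)
  show (A x + B x) - 0 = (A x + B x) - (0 + 0)
  abel

theorem compact_sub {A B : X →L[ℂ] Y} (hA : IsCompactOperator A) (hB : IsCompactOperator B) :
    IsCompactOperator (A - B) := by
  have h := (KEq.of_compact hA).sub (KEq.of_compact hB)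
  refine KEq.compact (h.congr fun x => ?_)
  show (A x - B x) - 0 = (A x - B x) - (0 - 0)
  abel

end general

section amp

variable {p : ℝ≥0∞} [Fact (1 ≤ p)] {J J' : Type} {H : J → Type} {H' : J' → Type}
  [∀ j, NormedAddCommGroup (H j)] [∀ j, InnerProductSpace ℂ (H j)]
  [∀ j, NormedAddCommGroup (H' j)] [∀ j, InnerProductSpace ℂ (H' j)]

theorem amp_theta {m : ℕ} (A : lp H p →L[ℂ] lp H' p) (T : lp H p →L[ℂ] lp H p)
    (u : lp H' p →L[ℂ] lp H' p) (x : lp (AH (m + 1) H) p) :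
    amp p (m + 1) A (theta p m T x) - theta p m u (amp p (m + 1) A x) =
      amp p (m + 1) (A ∘L T - u ∘L A) (q0 p H m x) := by
  refine ext_comp fun k => ?_
  rw [map_sub, comp_amp, comp_amp]
  by_cases hk : k = 0
  · subst hk
    rw [theta_apply_zero, theta_apply_zero, comp_amp, q0_apply_zero]
    rfl
  · rw [theta_apply_ne _ _ _ hk, theta_apply_ne _ _ _ hk, comp_amp, q0_apply_ne _ _ hk, sub_self,
      map_zero]

theorem amp_theta' {m : ℕ} (A T : lp H p →L[ℂ] lp H p) :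
    amp p (m + 1) A * theta p m T - theta p m T * amp p (m + 1) A =
      amp p (m + 1) (A ∘L T - T ∘L A) ∘L q0 p H m :=
  ContinuousLinearMap.ext fun x => amp_theta A T T x

theorem amp_theta'' {m : ℕ} (A T : lp H p →L[ℂ] lp H p) :
    theta p m T * amp p (m + 1) A - amp p (m + 1) A * theta p m T =
      -(amp p (m + 1) (A ∘L T - T ∘L A) ∘L q0 p H m) := by
  rw [← amp_theta']; abel

end amp

/-- `X^(m+1)` -/
abbrev XM (p : ℝ≥0∞) [Fact (1 ≤ p)] (m : ℕ) : Type := lp (AH (m + 1) (fun _ : ℕ => ℂ)) p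

/-- `Y^(m+1)` -/
abbrev YM (p : ℝ≥0∞) [Fact (1 ≤ p)] (M : ℕ → ℕ) (m : ℕ) : Type := lp (AH (m + 1) (YH M)) p

section step

variable {p : ℝ≥0∞} [Fact (1 ≤ p)]

theorem Cuts.bd {e : ℕ → ℕ → ℝ} (he : Cuts e) (n : ℕ) : ∃ C, ∀ i, |e n i| ≤ C :=
  ⟨1, fun i => abs_le.2 ⟨by linarith [he.nonneg n i], he.le_one n i⟩⟩

theorem Cuts.norm_mulOp {e : ℕ → ℕ → ℝ} (he : Cuts e) (n : ℕ) {H : ℕ → Type}
    [∀ j, NormedAddCommGroup (H j)] [∀ j, InnerProductSpace ℂ (H j)] :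
    ‖mulOp p H (e n)‖ ≤ 1 :=
  norm_mulOp_le zero_le_one fun i => abs_le.2 ⟨by linarith [he.nonneg n i], he.le_one n i⟩

theorem Cuts.norm_one_sub {e : ℕ → ℕ → ℝ} (he : Cuts e) (n : ℕ) {H : ℕ → Type}
    [∀ j, NormedAddCommGroup (H j)] [∀ j, InnerProductSpace ℂ (H j)] :
    ‖1 - mulOp p H (e n)‖ ≤ 1 := by
  rw [← mulOp_one, ← mulOp_sub ⟨1, fun _ => by simp⟩ (he.bd n)]
  exact norm_mulOp_le zero_le_one fun i =>
    abs_le.2 ⟨by linarith [he.le_one n i], by linarith [he.nonneg n i]⟩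

theorem cut_bd (c : ℕ) : ∃ C, ∀ i, |cut c i| ≤ C :=
  ⟨1, fun i => by unfold cut; split_ifs <;> simp⟩

/-- `1 - E_n = (1 - P_n) (1 - E_n)` -/
theorem Cuts.one_sub_eq {e : ℕ → ℕ → ℝ} (he : Cuts e) (n : ℕ) :
    (1 - MO p (cut n)) * (1 - MO p (e n)) = 1 - MO p (e n) := by
  have h1 : (1 : LL p →L[ℂ] LL p) - MO p (cut n) = mulOp p (fun _ : ℕ => ℂ) (fun i => 1 - cut n i) := by
    rw [mulOp_sub ⟨1, fun _ => by simp⟩ (cut_bd n), mulOp_one]
  have h2 : (1 : LL p →L[ℂ] LL p) - MO p (e n) = mulOp p (fun _ : ℕ => ℂ) (fun i => 1 - e n i) := by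
    rw [mulOp_sub ⟨1, fun _ => by simp⟩ (he.bd n), mulOp_one]
  have b1 : ∃ C, ∀ i, |1 - cut n i| ≤ C := ⟨1, fun i => by unfold cut; split_ifs <;> simp⟩
  have b2 : ∃ C, ∀ i, |1 - e n i| ≤ C := ⟨1, fun i =>
    abs_le.2 ⟨by linarith [he.le_one n i], by linarith [he.nonneg n i]⟩⟩
  rw [h1, h2, mulOp_mul b1 b2]
  congr 1
  funext i
  unfold cut
  split_ifs with h
  · rw [he.one n i h]; simp
  · simp

theorem Cuts.one_sub_eq' {e : ℕ → ℕ → ℝ} (he : Cuts e) (n : ℕ) :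
    (1 - MO p (e n)) * (1 - MO p (cut n)) = 1 - MO p (e n) := by
  have h1 : (1 : LL p →L[ℂ] LL p) - MO p (cut n) = mulOp p (fun _ : ℕ => ℂ) (fun i => 1 - cut n i) := by
    rw [mulOp_sub ⟨1, fun _ => by simp⟩ (cut_bd n), mulOp_one]
  have h2 : (1 : LL p →L[ℂ] LL p) - MO p (e n) = mulOp p (fun _ : ℕ => ℂ) (fun i => 1 - e n i) := by
    rw [mulOp_sub ⟨1, fun _ => by simp⟩ (he.bd n), mulOp_one]
  have b1 : ∃ C, ∀ i, |1 - cut n i| ≤ C := ⟨1, fun i => by unfold cut; split_ifs <;> simp⟩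
  have b2 : ∃ C, ∀ i, |1 - e n i| ≤ C := ⟨1, fun i =>
    abs_le.2 ⟨by linarith [he.le_one n i], by linarith [he.nonneg n i]⟩⟩
  rw [h1, h2, mulOp_mul b2 b1]
  congr 1
  funext i
  unfold cut
  split_ifs with h
  · rw [he.one n i h]; simp
  · simp

theorem Cuts.norm_right {e : ℕ → ℕ → ℝ} (he : Cuts e) (n : ℕ) {Z : Type} [NormedAddCommGroup Z]
    [NormedSpace ℂ Z] (κ : LL p →L[ℂ] Z) :
    ‖κ ∘L (1 - MO p (e n))‖ ≤ ‖κ ∘L (1 - MO p (cut n))‖ := by
  have h := he.one_sub_eq (p := p) n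
  rw [ContinuousLinearMap.mul_def] at h
  have e1 : κ ∘L (1 - MO p (e n)) = (κ ∘L (1 - MO p (cut n))) ∘L (1 - MO p (e n)) := by
    rw [ContinuousLinearMap.comp_assoc, h]
  rw [e1]
  refine (ContinuousLinearMap.opNorm_comp_le _ _).trans ?_
  exact mul_le_of_le_one_right (norm_nonneg _) (he.norm_one_sub n)

theorem Cuts.norm_left {e : ℕ → ℕ → ℝ} (he : Cuts e) (n : ℕ) {Z : Type} [NormedAddCommGroup Z]
    [NormedSpace ℂ Z] (κ : Z →L[ℂ] LL p) :
    ‖(1 - MO p (e n)) ∘L κ‖ ≤ ‖(1 - MO p (cut n)) ∘L κ‖ := by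
  have h := he.one_sub_eq' (p := p) n
  rw [ContinuousLinearMap.mul_def] at h
  have e1 : (1 - MO p (e n)) ∘L κ = (1 - MO p (e n)) ∘L ((1 - MO p (cut n)) ∘L κ) := by
    rw [← ContinuousLinearMap.comp_assoc, h]
  rw [e1]
  refine (ContinuousLinearMap.opNorm_comp_le _ _).trans ?_
  exact mul_le_of_le_one_left (norm_nonneg _) (he.norm_one_sub n)

end step

end

end Pool.Agent.Helper623_LS
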