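import Pool.Agent.Helper623_LS.Step

/-! The dilation of the twisted copies of `T`, for fixed `m`. -/

set_option autoImplicit false

open scoped ENNReal NNReal Topology
open Filter

namespace Pool.Agent.Helper623_LS

noncomputable section

section general

variable {X Y Z : Type} [NormedAddCommGroup X] [NormedSpace ℂ X]
  [NormedAddCommGroup Y] [NormedSpace ℂ Y] [NormedAddCommGroup Z] [NormedSpace ℂ Z]

theorem ncomp {A : Y →L[ℂ] Z} {B : X →L[ℂ] Y} {a b : ℝ} (hA : ‖A‖ ≤ a) (hB : ‖B‖ ≤ b) :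
    ‖A ∘L B‖ ≤ a * b :=
  (ContinuousLinearMap.opNorm_comp_le _ _).trans
    (mul_le_mul hA hB (norm_nonneg _) ((norm_nonneg _).trans hA))

theorem nmul {A B : X →L[ℂ] X} {a b : ℝ} (hA : ‖A‖ ≤ a) (hB : ‖B‖ ≤ b) : ‖A * B‖ ≤ a * b :=
  ncomp hA hB

theorem nadd {A B : X →L[ℂ] Y} {a b : ℝ} (hA : ‖A‖ ≤ a) (hB : ‖B‖ ≤ b) : ‖A + B‖ ≤ a + b :=
  (norm_add_le _ _).trans (add_le_add hA hB)

end general

section step

variable {p : ℝ≥0∞} [Fact (1 ≤ p)]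

/-- the fibres of `ℓ^p` -/
abbrev C1 : ℕ → Type := fun _ => ℂ

/-- the twisted copy of `T` -/
def Tm (m : ℕ) (g : ℕ → Matrix (Fin (m + 1)) (Fin (m + 1)) ℂ) (T : LL p →L[ℂ] LL p) :
    XM p m →L[ℂ] XM p m := gop p C1 g * theta p m T

/-- the dilation -/
def Um (M : ℕ → ℕ) (w : ∀ n, Fin (M n) → ℂ) (m : ℕ)
    (Γ : ℕ → Matrix (Fin (m + 1)) (Fin (m + 1)) ℂ) :
    (YM p M m × XM p m) →L[ℂ] (YM p M m × XM p m) :=
  (gop p (YH M) (fun j => Γ j.1) * theta p m (uY p M w)).prodMap (gop p C1 (fun _ => Γ 0))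

/-- its inverse -/
def Um' (M : ℕ → ℕ) (w : ∀ n, Fin (M n) → ℂ) (m : ℕ)
    (Γ : ℕ → Matrix (Fin (m + 1)) (Fin (m + 1)) ℂ) :
    (YM p M m × XM p m) →L[ℂ] (YM p M m × XM p m) :=
  (theta p m (uY p M (fun n k => star (w n k))) * gop p (YH M) (fun j => star (Γ j.1))).prodMap
    (gop p C1 (fun _ => star (Γ 0)))

/-- the embedding -/
def Vm {M : ℕ → ℕ} (m : ℕ) (V : LL p →L[ℂ] lp (YH M) p) (e : ℕ → ℕ → ℝ)
    (G' : XM p m →L[ℂ] XM p m) : XM p m →L[ℂ] (YM p M m × XM p m) :=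
  (amp p (m + 1) V ∘L (1 - mulOp p (AH (m + 1) C1) (e m))).prod
    (G' ∘L mulOp p (AH (m + 1) C1) (e (m + 2)))

/-- the projection -/
def Wm {M : ℕ → ℕ} (m : ℕ) (W : lp (YH M) p →L[ℂ] LL p) (e : ℕ → ℕ → ℝ)
    (G : XM p m →L[ℂ] XM p m) : (YM p M m × XM p m) →L[ℂ] XM p m :=
  ((1 - mulOp p (AH (m + 1) C1) (e (m + 1))) ∘L amp p (m + 1) W).coprod
    (mulOp p (AH (m + 1) C1) (e (m + 1)) ∘L G)

theorem Um_UL {M : ℕ → ℕ} {w : ∀ n, Fin (M n) → ℂ} (hw : ∀ n k, ‖w n k‖ = 1) (m : ℕ)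
    (Γ : ℕ → Matrix (Fin (m + 1)) (Fin (m + 1)) ℂ)
    (hΓ : ∀ n, Γ n ∈ Matrix.unitaryGroup (Fin (m + 1)) ℂ) :
    UL 1 (Um (p := p) M w m Γ) (Um' M w m Γ) :=
  (UL.gop_theta M w hw (fun j => Γ j.1) fun j => hΓ j.1).prod (UL.gop (fun _ => hΓ 0))

theorem Wm_Vm {M : ℕ → ℕ} (m : ℕ) (V : LL p →L[ℂ] lp (YH M) p) (W : lp (YH M) p →L[ℂ] LL p)
    (hWV : W ∘L V = ContinuousLinearMap.id ℂ (LL p)) {e : ℕ → ℕ → ℝ} (he : Cuts e)
    (G G' : XM p m →L[ℂ] XM p m) (hG : G * G' = 1) :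
    Wm m W e G ∘L Vm m V e G' = ContinuousLinearMap.id ℂ (XM p m) := by
  have hWV' : ∀ x, amp p (m + 1) W (amp p (m + 1) V x) = x := fun x => by
    have h1 : amp p (m + 1) W ∘L amp p (m + 1) V = ContinuousLinearMap.id ℂ _ := by
      rw [← amp_comp, hWV, amp_id]
    have := congrArg (fun A : XM p m →L[ℂ] XM p m => A x) h1
    simpa using this
  have hG' : ∀ x, G (G' x) = x := fun x => by
    have := congrArg (fun A : XM p m →L[ℂ] XM p m => A x) hG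
    simpa using this
  refine ContinuousLinearMap.ext fun x => ?_
  show (1 - mulOp p (AH (m + 1) C1) (e (m + 1)))
      (amp p (m + 1) W (amp p (m + 1) V ((1 - mulOp p (AH (m + 1) C1) (e m)) x))) +
    mulOp p (AH (m + 1) C1) (e (m + 1)) (G (G' (mulOp p (AH (m + 1) C1) (e (m + 2)) x))) = x
  rw [hWV', hG']
  refine lp.ext (funext fun i => ?_)
  have hx : ∀ (n : ℕ) (y : XM p m), mulOp p (AH (m + 1) C1) (e n) y i = (e n i : ℂ) • y i :=
    fun n y => mulOp_apply (he.bd n) y i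
  show ((1 - mulOp p (AH (m + 1) C1) (e m)) x -
      mulOp p (AH (m + 1) C1) (e (m + 1)) ((1 - mulOp p (AH (m + 1) C1) (e m)) x) : XM p m) i +
    (mulOp p (AH (m + 1) C1) (e (m + 1)) (mulOp p (AH (m + 1) C1) (e (m + 2)) x)) i = x i
  have h1 : ((1 - mulOp p (AH (m + 1) C1) (e m)) x : XM p m) i = x i - (e m i : ℂ) • x i := by
    rw [← hx]; rfl
  rw [lp.coeFn_sub, Pi.sub_apply, hx, hx, hx, h1]
  by_cases h0 : e m i = 0
  · by_cases h2 : e (m + 1) i = 0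
    · simp [h0, h2]
    · rw [he.succ (m + 1) i h2, h0]
      simp
  · have h2 := he.succ m i h0
    have h3 := he.succ (m + 1) i (by rw [h2]; exact one_ne_zero)
    rw [h2, h3]
    simp

theorem amp_one_sub (m n : ℕ) {e : ℕ → ℕ → ℝ} (he : Cuts e) :
    amp p (m + 1) (1 - MO p (e n)) = 1 - mulOp p (AH (m + 1) C1) (e n) := by
  rw [amp_sub, amp_one, amp_mulOp (e n) (he.bd n)]

theorem amp_compact_XY {M : ℕ → ℕ} (m : ℕ) (κ : LL p →L[ℂ] lp (YH M) p)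
    (h : IsCompactOperator κ) : IsCompactOperator (amp p (m + 1) κ : XM p m →L[ℂ] YM p M m) :=
  amp_compact h

theorem amp_compact_YX {M : ℕ → ℕ} (m : ℕ) (κ : lp (YH M) p →L[ℂ] LL p)
    (h : IsCompactOperator κ) : IsCompactOperator (amp p (m + 1) κ : YM p M m →L[ℂ] XM p m) :=
  amp_compact h

/-- `[θ(T), E]` -/
theorem comm_eq (m n : ℕ) {e : ℕ → ℕ → ℝ} (he : Cuts e) (T : LL p →L[ℂ] LL p) :
    theta p m T * mulOp p (AH (m + 1) C1) (e n) - mulOp p (AH (m + 1) C1) (e n) * theta p m T =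
      -(amp p (m + 1) (MO p (e n) ∘L T - T ∘L MO p (e n)) ∘L q0 p C1 m) := by
  rw [← amp_theta'', ← amp_mulOp (e n) (he.bd n)]

theorem comm_norm {β : ℝ}
    (hβ : ∀ (N : ℕ) (J J' : Type) (H : J → Type) (H' : J' → Type)
      [∀ j, NormedAddCommGroup (H j)] [∀ j, InnerProductSpace ℂ (H j)]
      [∀ j, NormedAddCommGroup (H' j)] [∀ j, InnerProductSpace ℂ (H' j)]
      (A : lp H p →L[ℂ] lp H' p), ‖amp p N A‖ ≤ β * ‖A‖)
    (m n : ℕ) {e : ℕ → ℕ → ℝ} (he : Cuts e) (T : LL p →L[ℂ] LL p) :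
    ‖theta p m T * mulOp p (AH (m + 1) C1) (e n) - mulOp p (AH (m + 1) C1) (e n) * theta p m T‖ ≤
      β * ‖MO p (e n) ∘L T - T ∘L MO p (e n)‖ := by
  rw [comm_eq m n he T, norm_neg]
  refine (ncomp (hβ _ _ _ _ _ _) norm_q0_le).trans ?_
  rw [mul_one]

theorem comm_compact (m n : ℕ) {e : ℕ → ℕ → ℝ} (he : Cuts e) (T : LL p →L[ℂ] LL p) :
    IsCompactOperator (theta p m T * mulOp p (AH (m + 1) C1) (e n) -
      mulOp p (AH (m + 1) C1) (e n) * theta p m T) := by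
  have hE : IsCompactOperator (mulOp p (AH (m + 1) C1) (e n)) := mulOp_compact (he.fin n)
  exact compact_sub (compact_left hE _) (compact_right hE _)

theorem comm_norm' {β : ℝ}
    (hβ : ∀ (N : ℕ) (J J' : Type) (H : J → Type) (H' : J' → Type)
      [∀ j, NormedAddCommGroup (H j)] [∀ j, InnerProductSpace ℂ (H j)]
      [∀ j, NormedAddCommGroup (H' j)] [∀ j, InnerProductSpace ℂ (H' j)]
      (A : lp H p →L[ℂ] lp H' p), ‖amp p N A‖ ≤ β * ‖A‖)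
    (m n : ℕ) {e : ℕ → ℕ → ℝ} (he : Cuts e) (T : LL p →L[ℂ] LL p) :
    ‖mulOp p (AH (m + 1) C1) (e n) * theta p m T - theta p m T * mulOp p (AH (m + 1) C1) (e n)‖ ≤
      β * ‖MO p (e n) ∘L T - T ∘L MO p (e n)‖ := by
  rw [norm_sub_rev]
  exact comm_norm hβ m n he T

theorem comm_compact' (m n : ℕ) {e : ℕ → ℕ → ℝ} (he : Cuts e) (T : LL p →L[ℂ] LL p) :
    IsCompactOperator (mulOp p (AH (m + 1) C1) (e n) * theta p m T -
      theta p m T * mulOp p (AH (m + 1) C1) (e n)) := by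
  have hE : IsCompactOperator (mulOp p (AH (m + 1) C1) (e n)) := mulOp_compact (he.fin n)
  exact compact_sub (compact_right hE _) (compact_left hE _)

theorem norm_gop_unitary {J : Type} {H : J → Type} [∀ j, NormedAddCommGroup (H j)]
    [∀ j, InnerProductSpace ℂ (H j)] {N : ℕ} {g : J → Matrix (Fin N) (Fin N) ℂ}
    (hg : ∀ j, g j ∈ Matrix.unitaryGroup (Fin N) ℂ) : ‖gop p H g‖ ≤ 1 :=
  norm_gop_le zero_le_one fun j => norm_mat_of_unitary _ (hg j)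

section errV

variable (hp1 : 1 < p) (hp : p ≠ ∞) {β : ℝ} (hβ1 : 1 ≤ β)
    (hβ : ∀ (N : ℕ) (J J' : Type) (H : J → Type) (H' : J' → Type)
      [∀ j, NormedAddCommGroup (H j)] [∀ j, InnerProductSpace ℂ (H j)]
      [∀ j, NormedAddCommGroup (H' j)] [∀ j, InnerProductSpace ℂ (H' j)]
      (A : lp H p →L[ℂ] lp H' p), ‖amp p N A‖ ≤ β * ‖A‖)
    {M : ℕ → ℕ} (m : ℕ) (V : LL p →L[ℂ] lp (YH M) p) (W : lp (YH M) p →L[ℂ] LL p)
    {e : ℕ → ℕ → ℝ} (he : Cuts e) {ν : ℕ → ℕ} (hν : ∀ n i, e n i ≠ 0 ↔ ν i ≤ n)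
    (hV : Banded (H := fun _ : ℕ => ℂ) (H' := YH M) ν Prod.fst V)
    (hW : Banded (H := YH M) (H' := fun _ : ℕ => ℂ) Prod.fst ν W)
    (T : LL p →L[ℂ] LL p) (u : lp (YH M) p →L[ℂ] lp (YH M) p)
    {Γ : ℕ → Matrix (Fin (m + 1)) (Fin (m + 1)) ℂ}
    (hΓ : ∀ n, Γ n ∈ Matrix.unitaryGroup (Fin (m + 1)) ℂ)
    (hΓ0 : ∀ n, n ≤ m + 3 → Γ n = Γ 0) (hΓ1 : ∀ n, 2 * (m + 3) ≤ n → Γ n = 1)
    {δ : ℝ} (hδ : ∀ n, ‖mat ℂ (Γ (n + 1) - Γ n)‖ ≤ δ)
    (G G' : XM p m →L[ℂ] XM p m) (hG : G * G' = 1) (hG' : G' * G = 1) {c γ : ℝ}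
    (hc : ‖G‖ ≤ c) (hc' : ‖G'‖ ≤ c)
    (hγ : ‖gop p C1 (fun _ => Γ 0) * theta p m T * G - G * gop p C1 (fun _ => Γ 0)‖ ≤ γ)

include hΓ in
theorem commA (n : ℕ) {e : ℕ → ℕ → ℝ} (he : Cuts e) (ν : ℕ → ℕ) (x : XM p m) :
    mulOp p (AH (m + 1) C1) (e n) (gop p C1 (fun i => Γ (ν i)) x) =
      gop p C1 (fun i => Γ (ν i)) (mulOp p (AH (m + 1) C1) (e n) x) := by
  have h := gop_mulOp (p := p) (H := C1) (g := fun i => Γ (ν i)) (Bg.unitary fun j => hΓ _) (he.bd n)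
  exact (congrArg (fun A : XM p m →L[ℂ] XM p m => A x) h).symm

include hΓ hΓ0 he hν in
theorem commB (n : ℕ) (hn : n ≤ m + 3) (x : XM p m) :
    mulOp p (AH (m + 1) C1) (e n) (gop p C1 (fun i => Γ (ν i)) x) =
      gop p C1 (fun _ => Γ 0) (mulOp p (AH (m + 1) C1) (e n) x) := by
  rw [commA m hΓ n he ν x]
  have h := gop_mulOp_congr (p := p) (H := C1) (g := fun i => Γ (ν i)) (h := fun _ => Γ 0)
    (Bg.unitary fun j => hΓ _) (Bg.unitary fun j => hΓ _) (he.bd n) (fun j hj =>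
      hΓ0 _ (((hν n j).1 hj).trans hn))
  exact congrArg (fun A : XM p m →L[ℂ] XM p m => A x) h

/-- the first error -/
def eA (V : LL p →L[ℂ] lp (YH M) p) (e : ℕ → ℕ → ℝ) (ν : ℕ → ℕ) (T : LL p →L[ℂ] LL p)
    (u : lp (YH M) p →L[ℂ] lp (YH M) p) (Γ : ℕ → Matrix (Fin (m + 1)) (Fin (m + 1)) ℂ) :
    XM p m →L[ℂ] YM p M m :=
  (amp p (m + 1) V ∘L (1 - mulOp p (AH (m + 1) C1) (e m))) ∘L
      (gop p C1 (fun i => Γ (ν i)) * theta p m T) -
    (gop p (YH M) (fun j => Γ j.1) * theta p m u) ∘L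
      (amp p (m + 1) V ∘L (1 - mulOp p (AH (m + 1) C1) (e m)))

include hΓ he in
theorem eA_eq : eA m V e ν T u Γ =
    amp p (m + 1) V ∘L gop p C1 (fun i => Γ (ν i)) ∘L
      (theta p m T * mulOp p (AH (m + 1) C1) (e m) - mulOp p (AH (m + 1) C1) (e m) * theta p m T) +
    (amp p (m + 1) V ∘L gop p C1 (fun i => Γ (ν i)) -
      gop p (YH M) (fun j => Γ j.1) ∘L amp p (m + 1) V) ∘L theta p m T ∘L
        (1 - mulOp p (AH (m + 1) C1) (e m)) +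
    gop p (YH M) (fun j => Γ j.1) ∘L
      (amp p (m + 1) ((V ∘L T - u ∘L V) ∘L (1 - MO p (e m)))) ∘L q0 p C1 m := by
  have h1 := commA (p := p) m hΓ m he ν
  have h2 := amp_theta (m := m) V T u
  have h3 : ∀ x, q0 p C1 m (mulOp p (AH (m + 1) C1) (e m) x) =
      mulOp p (AH (m + 1) C1) (e m) (q0 p C1 m x) := fun x => by
    rw [← amp_mulOp (e m) (he.bd m)]
    exact (congrArg (fun A : XM p m →L[ℂ] XM p m => A x)
      (amp_q0 (m := m) (mulOp p C1 (e m)))).symm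
  have h4 : amp p (m + 1) ((V ∘L T - u ∘L V) ∘L (1 - MO p (e m))) =
      amp p (m + 1) (V ∘L T - u ∘L V) ∘L (1 - mulOp p (AH (m + 1) C1) (e m)) := by
    rw [amp_comp, amp_one_sub m m he]
  rw [h4]
  exact errA (amp p (m + 1) V) (gop p C1 (fun i => Γ (ν i))) (mulOp p (AH (m + 1) C1) (e m))
    (theta p m T) (q0 p C1 m) (gop p (YH M) (fun j => Γ j.1)) (theta p m u)
    (amp p (m + 1) (V ∘L T - u ∘L V)) h1 h2 h3

include hΓ hp he hν hV hΓ1 in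
theorem eA_compact (hκ : IsCompactOperator (V ∘L T - u ∘L V)) :
    IsCompactOperator (eA m V e ν T u Γ) := by
  rw [eA_eq m V he T u hΓ]
  refine compact_add (compact_add ?_ ?_) ?_
  · exact compact_left (compact_left (comm_compact m m he T) _) _
  · refine compact_right ?_ _
    have hfin : ∀ n, {j | ν j ≤ n}.Finite := fun n =>
      (he.fin n).subset fun i hi => (hν n i).2 hi
    exact loc_compact_left hp ν Prod.fst V hV Γ (Bg.unitary hΓ) ⟨_, hΓ1⟩ hfin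
  · have h5 : IsCompactOperator ((V ∘L T - u ∘L V) ∘L (1 - MO p (e m))) :=
      compact_right hκ (1 - MO p (e m))
    have h6 := amp_compact_XY m _ h5
    exact compact_left (compact_right h6 (q0 p C1 m)) (gop p (YH M) (fun j => Γ j.1))

include hp hβ1 hβ he hV hΓ hδ in
theorem eA_norm : ‖eA m V e ν T u Γ‖ ≤
    β * ‖V‖ * β * ‖MO p (e m) ∘L T - T ∘L MO p (e m)‖ + 10 * (β * ‖V‖) * (‖T‖ + 2) * δ +
      β * ‖(V ∘L T - u ∘L V) ∘L (1 - MO p (cut m))‖ := by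
  have hδ0 : 0 ≤ δ := (norm_nonneg _).trans (hδ 0)
  rw [eA_eq m V he T u hΓ]
  refine nadd (nadd ?_ ?_) ?_
  · refine (ncomp (hβ _ _ _ _ _ V) (ncomp (norm_gop_unitary fun _ => hΓ _)
      (comm_norm hβ m m he T))).trans (le_of_eq ?_)
    ring
  · have h1 := loc_norm hp ν Prod.fst V hV Γ (Bg.unitary hΓ) δ hδ
    have h2 : 10 * ‖amp p (m + 1) V‖ * δ ≤ 10 * (β * ‖V‖) * δ := by
      have := hβ (m + 1) _ _ _ _ V
      gcongr
    refine (ncomp (h1.trans h2) (ncomp (norm_theta_le T) (he.norm_one_sub m))).trans (le_of_eq ?_)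
    ring
  · have h5 : ‖amp p (m + 1) ((V ∘L T - u ∘L V) ∘L (1 - MO p (e m)))‖ ≤
        β * ‖(V ∘L T - u ∘L V) ∘L (1 - MO p (cut m))‖ :=
      (hβ (m + 1) ℕ (ℕ × ℕ) C1 (YH M) ((V ∘L T - u ∘L V) ∘L (1 - MO p (e m)))).trans
        (mul_le_mul_of_nonneg_left (he.norm_right m (V ∘L T - u ∘L V)) (by linarith))
    have h6 : ‖q0 p C1 m‖ ≤ 1 := norm_q0_le
    have h7 : ‖gop p (YH M) (fun j => Γ j.1)‖ ≤ 1 := norm_gop_unitary fun j => hΓ j.1
    refine (ncomp h7 (ncomp h5 h6)).trans (le_of_eq ?_)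
    ring

/-- the second error -/
def eB (e : ℕ → ℕ → ℝ) (ν : ℕ → ℕ) (T : LL p →L[ℂ] LL p)
    (Γ : ℕ → Matrix (Fin (m + 1)) (Fin (m + 1)) ℂ) (G' : XM p m →L[ℂ] XM p m) :
    XM p m →L[ℂ] XM p m :=
  (G' ∘L mulOp p (AH (m + 1) C1) (e (m + 2))) ∘L (gop p C1 (fun i => Γ (ν i)) * theta p m T) -
    gop p C1 (fun _ => Γ 0) ∘L (G' ∘L mulOp p (AH (m + 1) C1) (e (m + 2)))

include hΓ hΓ0 he hν hG hG' in
theorem eB_eq : eB m e ν T Γ G' =
    G' ∘L gop p C1 (fun _ => Γ 0) ∘L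
      (mulOp p (AH (m + 1) C1) (e (m + 2)) * theta p m T -
        theta p m T * mulOp p (AH (m + 1) C1) (e (m + 2))) +
    (G' * (gop p C1 (fun _ => Γ 0) * theta p m T * G - G * gop p C1 (fun _ => Γ 0)) * G') ∘L
      mulOp p (AH (m + 1) C1) (e (m + 2)) := by
  have h1 := commB (p := p) m he hν hΓ hΓ0 (m + 2) (by omega)
  rw [← errG G G' _ _ hG hG']
  exact errB G' (mulOp p (AH (m + 1) C1) (e (m + 2))) (gop p C1 (fun _ => Γ 0))
    (gop p C1 (fun i => Γ (ν i))) (theta p m T) h1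

include hΓ hΓ0 he hν hG hG' in
theorem eB_compact : IsCompactOperator (eB m e ν T Γ G') := by
  rw [eB_eq m he hν T hΓ hΓ0 G G' hG hG']
  refine compact_add ?_ ?_
  · exact compact_left (compact_left (comm_compact' m (m + 2) he T) _) _
  · exact compact_left (mulOp_compact (he.fin (m + 2))) _

include hβ hΓ hΓ0 he hν hG hG' hc' hγ in
theorem eB_norm : ‖eB m e ν T Γ G'‖ ≤
    c * β * ‖MO p (e (m + 2)) ∘L T - T ∘L MO p (e (m + 2))‖ + c * c * γ := by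
  rw [eB_eq m he hν T hΓ hΓ0 G G' hG hG']
  refine nadd ?_ ?_
  · refine (ncomp hc' (ncomp (norm_gop_unitary fun _ => hΓ _)
      (comm_norm' hβ m (m + 2) he T))).trans (le_of_eq ?_)
    ring
  · refine (ncomp (nmul (nmul hc' hγ) hc') (he.norm_mulOp (m + 2))).trans (le_of_eq ?_)
    ring

/-- the third error -/
def eC (W : lp (YH M) p →L[ℂ] LL p) (e : ℕ → ℕ → ℝ) (ν : ℕ → ℕ) (T : LL p →L[ℂ] LL p)
    (u : lp (YH M) p →L[ℂ] lp (YH M) p) (Γ : ℕ → Matrix (Fin (m + 1)) (Fin (m + 1)) ℂ) :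
    YM p M m →L[ℂ] XM p m :=
  ((1 - mulOp p (AH (m + 1) C1) (e (m + 1))) ∘L amp p (m + 1) W) ∘L
      (gop p (YH M) (fun j => Γ j.1) * theta p m u) -
    (gop p C1 (fun i => Γ (ν i)) * theta p m T) ∘L
      ((1 - mulOp p (AH (m + 1) C1) (e (m + 1))) ∘L amp p (m + 1) W)

include hΓ he in
theorem eC_eq : eC m W e ν T u Γ =
    (1 - mulOp p (AH (m + 1) C1) (e (m + 1))) ∘L
      (amp p (m + 1) W ∘L gop p (YH M) (fun j => Γ j.1) -
        gop p C1 (fun i => Γ (ν i)) ∘L amp p (m + 1) W) ∘L theta p m u +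
    gop p C1 (fun i => Γ (ν i)) ∘L
      (amp p (m + 1) ((1 - MO p (e (m + 1))) ∘L (W ∘L u - T ∘L W))) ∘L q0 p (YH M) m +
    gop p C1 (fun i => Γ (ν i)) ∘L
      (theta p m T * mulOp p (AH (m + 1) C1) (e (m + 1)) -
        mulOp p (AH (m + 1) C1) (e (m + 1)) * theta p m T) ∘L amp p (m + 1) W := by
  have h1 := commA (p := p) m hΓ (m + 1) he ν
  have h2 := amp_theta (m := m) W u T
  have h4 : amp p (m + 1) ((1 - MO p (e (m + 1))) ∘L (W ∘L u - T ∘L W)) =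
      (1 - mulOp p (AH (m + 1) C1) (e (m + 1))) ∘L amp p (m + 1) (W ∘L u - T ∘L W) := by
    rw [amp_comp, amp_one_sub m (m + 1) he]
  rw [h4]
  exact errC (amp p (m + 1) W) (gop p C1 (fun i => Γ (ν i))) (mulOp p (AH (m + 1) C1) (e (m + 1)))
    (theta p m T) (gop p (YH M) (fun j => Γ j.1)) (theta p m u) (q0 p (YH M) m)
    (amp p (m + 1) (W ∘L u - T ∘L W)) h1 h2

include hΓ hp he hν hW hΓ1 in
theorem eC_compact (hκ : IsCompactOperator (W ∘L u - T ∘L W)) :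
    IsCompactOperator (eC m W e ν T u Γ) := by
  rw [eC_eq m W he T u hΓ]
  refine compact_add (compact_add ?_ ?_) ?_
  · refine compact_left (compact_right ?_ _) _
    have hfin : ∀ n, {j | ν j ≤ n}.Finite := fun n =>
      (he.fin n).subset fun i hi => (hν n i).2 hi
    exact loc_compact_right hp Prod.fst ν W hW Γ (Bg.unitary hΓ) ⟨_, hΓ1⟩ hfin
  · have h5 : IsCompactOperator ((1 - MO p (e (m + 1))) ∘L (W ∘L u - T ∘L W)) :=
      compact_left hκ (1 - MO p (e (m + 1)))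
    have h6 := amp_compact_YX m _ h5
    exact compact_left (compact_right h6 (q0 p (YH M) m)) (gop p C1 (fun i => Γ (ν i)))
  · exact compact_left (compact_right (comm_compact m (m + 1) he T) _) _

include hp hβ1 hβ he hW hΓ hδ in
theorem eC_norm : ‖eC m W e ν T u Γ‖ ≤
    10 * (β * ‖W‖) * (‖u‖ + 2) * δ + β * ‖(1 - MO p (cut (m + 1))) ∘L (W ∘L u - T ∘L W)‖ +
      β * ‖W‖ * β * ‖MO p (e (m + 1)) ∘L T - T ∘L MO p (e (m + 1))‖ := by
  have hδ0 : 0 ≤ δ := (norm_nonneg _).trans (hδ 0)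
  rw [eC_eq m W he T u hΓ]
  refine nadd (nadd ?_ ?_) ?_
  · have h1 := loc_norm hp Prod.fst ν W hW Γ (Bg.unitary hΓ) δ hδ
    have h2 : 10 * ‖amp p (m + 1) W‖ * δ ≤ 10 * (β * ‖W‖) * δ := by
      have := hβ (m + 1) _ _ _ _ W
      gcongr
    refine (ncomp (he.norm_one_sub (m + 1)) (ncomp (h1.trans h2) (norm_theta_le u))).trans
      (le_of_eq ?_)
    ring
  · have h5 : ‖amp p (m + 1) ((1 - MO p (e (m + 1))) ∘L (W ∘L u - T ∘L W))‖ ≤
        β * ‖(1 - MO p (cut (m + 1))) ∘L (W ∘L u - T ∘L W)‖ :=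
      (hβ (m + 1) (ℕ × ℕ) ℕ (YH M) C1 ((1 - MO p (e (m + 1))) ∘L (W ∘L u - T ∘L W))).trans
        (mul_le_mul_of_nonneg_left (he.norm_left (m + 1) (W ∘L u - T ∘L W)) (by linarith))
    have h6 : ‖q0 p (YH M) m‖ ≤ 1 := norm_q0_le
    have h7 : ‖gop p C1 (fun i => Γ (ν i))‖ ≤ 1 := norm_gop_unitary fun j => hΓ _
    refine (ncomp h7 (ncomp h5 h6)).trans (le_of_eq ?_)
    ring
  · refine (ncomp (norm_gop_unitary fun _ => hΓ _) (ncomp
      (comm_norm hβ m (m + 1) he T) (hβ _ _ _ _ _ W))).trans (le_of_eq ?_)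
    ring

/-- the fourth error -/
def eDD (e : ℕ → ℕ → ℝ) (ν : ℕ → ℕ) (T : LL p →L[ℂ] LL p)
    (Γ : ℕ → Matrix (Fin (m + 1)) (Fin (m + 1)) ℂ) (G : XM p m →L[ℂ] XM p m) :
    XM p m →L[ℂ] XM p m :=
  (mulOp p (AH (m + 1) C1) (e (m + 1)) ∘L G) ∘L gop p C1 (fun _ => Γ 0) -
    (gop p C1 (fun i => Γ (ν i)) * theta p m T) ∘L (mulOp p (AH (m + 1) C1) (e (m + 1)) ∘L G)

include hΓ hΓ0 he hν in
theorem eDD_eq : eDD m e ν T Γ G =
    mulOp p (AH (m + 1) C1) (e (m + 1)) ∘L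
      (G * gop p C1 (fun _ => Γ 0) - gop p C1 (fun _ => Γ 0) * theta p m T * G) +
    gop p C1 (fun i => Γ (ν i)) ∘L
      (mulOp p (AH (m + 1) C1) (e (m + 1)) * theta p m T -
        theta p m T * mulOp p (AH (m + 1) C1) (e (m + 1))) ∘L G := by
  have h1 := commA (p := p) m hΓ (m + 1) he ν
  have h2 := commB (p := p) m he hν hΓ hΓ0 (m + 1) (by omega)
  have h3 := commA (p := p) (Γ := fun _ => Γ 0) m (fun _ => hΓ 0) (m + 1) he ν
  exact errD G (mulOp p (AH (m + 1) C1) (e (m + 1))) (gop p C1 (fun _ => Γ 0))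
    (gop p C1 (fun i => Γ (ν i))) (theta p m T) h1 h2 h3

include hΓ hΓ0 he hν in
theorem eDD_compact : IsCompactOperator (eDD m e ν T Γ G) := by
  rw [eDD_eq m he hν T hΓ hΓ0 G]
  refine compact_add ?_ ?_
  · exact compact_right (mulOp_compact (he.fin (m + 1))) _
  · exact compact_left (compact_right (comm_compact' m (m + 1) he T) _) _

include hβ hΓ hΓ0 he hν hc hγ in
theorem eDD_norm : ‖eDD m e ν T Γ G‖ ≤
    γ + β * c * ‖MO p (e (m + 1)) ∘L T - T ∘L MO p (e (m + 1))‖ := by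
  rw [eDD_eq m he hν T hΓ hΓ0 G]
  refine nadd ?_ ?_
  · rw [← norm_neg, neg_sub] at hγ
    refine (ncomp (he.norm_mulOp (m + 1)) hγ).trans (le_of_eq ?_)
    ring
  · refine (ncomp (norm_gop_unitary fun _ => hΓ _) (ncomp
      (comm_norm' hβ m (m + 1) he T) hc)).trans (le_of_eq ?_)
    ring

end errV

end step

end

end Pool.Agent.Helper623_LS
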