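import Pool.Agent.Helper623_LS.Dil
import Pool.Agent.Helper623_LS.GoodFin

/-! The swindle: products of unipotents are trivial in the stable sense. -/

set_option autoImplicit false

open scoped ENNReal NNReal Topology
open Filter

namespace Pool.Agent.Helper623_LS

noncomputable section

section fibre

variable {N : ℕ} {H : Type} [NormedAddCommGroup H] [InnerProductSpace ℂ H]

/-- drop the last coordinate -/
def rstF (N : ℕ) (H : Type) [NormedAddCommGroup H] [InnerProductSpace ℂ H] :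
    PiLp 2 (fun _ : Fin (N + 1) => H) →L[ℂ] PiLp 2 (fun _ : Fin N => H) :=
  ∑ k : Fin N, sgl N H k ∘L PiLp.proj (𝕜 := ℂ) 2 (fun _ : Fin (N + 1) => H) k.castSucc

/-- add a zero as last coordinate -/
def extF (N : ℕ) (H : Type) [NormedAddCommGroup H] [InnerProductSpace ℂ H] :
    PiLp 2 (fun _ : Fin N => H) →L[ℂ] PiLp 2 (fun _ : Fin (N + 1) => H) :=
  ∑ k : Fin N, sgl (N + 1) H k.castSucc ∘L PiLp.proj (𝕜 := ℂ) 2 (fun _ : Fin N => H) k

theorem rstF_apply (v : PiLp 2 (fun _ : Fin (N + 1) => H)) (k : Fin N) :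
    (rstF N H v) k = v k.castSucc := by
  unfold rstF
  rw [sum_apply, WithLp.ofLp_sum, Finset.sum_apply, Finset.sum_eq_single k]
  · show (sgl N H k (v k.castSucc)) k = _
    rw [sgl_apply, if_pos rfl]
  · intro l _ hl
    show (sgl N H l (v l.castSucc)) k = _
    rw [sgl_apply, if_neg hl.symm]
  · exact fun h => absurd (Finset.mem_univ k) h

theorem extF_apply_castSucc (v : PiLp 2 (fun _ : Fin N => H)) (k : Fin N) :
    (extF N H v) k.castSucc = v k := by
  unfold extF
  rw [sum_apply, WithLp.ofLp_sum, Finset.sum_apply, Finset.sum_eq_single k]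
  · show (sgl (N + 1) H k.castSucc (v k)) k.castSucc = _
    rw [sgl_apply, if_pos rfl]
  · intro l _ hl
    show (sgl (N + 1) H l.castSucc (v l)) k.castSucc = _
    rw [sgl_apply, if_neg fun h => hl (Fin.castSucc_injective _ h).symm]
  · exact fun h => absurd (Finset.mem_univ k) h

theorem extF_apply_last (v : PiLp 2 (fun _ : Fin N => H)) :
    (extF N H v) (Fin.last N) = 0 := by
  unfold extF
  rw [sum_apply, WithLp.ofLp_sum, Finset.sum_apply, Finset.sum_eq_zero]
  intro l _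
  show (sgl (N + 1) H l.castSucc (v l)) (Fin.last N) = _
  rw [sgl_apply, if_neg (Fin.castSucc_lt_last l).ne']

theorem norm_rstF : ‖rstF N H‖ ≤ 1 := by
  refine ContinuousLinearMap.opNorm_le_bound _ zero_le_one fun v => ?_
  rw [one_mul, PiLp.norm_eq_of_L2, PiLp.norm_eq_of_L2]
  refine Real.sqrt_le_sqrt ?_
  rw [Fin.sum_univ_castSucc (n := N)]
  simp only [rstF_apply]
  have : 0 ≤ ‖v (Fin.last N)‖ ^ 2 := by positivity
  linarith

theorem norm_extF : ‖extF N H‖ ≤ 1 := by
  refine ContinuousLinearMap.opNorm_le_bound _ zero_le_one fun v => ?_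
  rw [one_mul, PiLp.norm_eq_of_L2, PiLp.norm_eq_of_L2]
  refine Real.sqrt_le_sqrt ?_
  rw [Fin.sum_univ_castSucc (n := N)]
  simp only [extF_apply_castSucc, extF_apply_last, norm_zero]
  norm_num

theorem mat_ext1_castSucc (a : Matrix (Fin N) (Fin N) ℂ) (v : PiLp 2 (fun _ : Fin (N + 1) => H))
    (k : Fin N) : (mat H (ext1 a) v) k.castSucc = (mat H a (rstF N H v)) k := by
  rw [mat_apply, mat_apply, Fin.sum_univ_castSucc]
  simp [ext1, rstF_apply]

theorem mat_ext1_last (a : Matrix (Fin N) (Fin N) ℂ) (v : PiLp 2 (fun _ : Fin (N + 1) => H)) :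
    (mat H (ext1 a) v) (Fin.last N) = v (Fin.last N) := by
  rw [mat_apply, Fin.sum_univ_castSucc]
  simp [ext1]

theorem norm_mat_ext1 (a : Matrix (Fin N) (Fin N) ℂ) (v : PiLp 2 (fun _ : Fin (N + 1) => H)) :
    ‖mat H (ext1 a) v‖ ≤ (‖mat H a‖ + 1) * ‖v‖ := by
  have e : mat H (ext1 a) v = extF N H (mat H a (rstF N H v)) +
      sgl (N + 1) H (Fin.last N) (v (Fin.last N)) := by
    ext k
    rw [PiLp.add_apply]
    refine Fin.lastCases ?_ (fun k' => ?_) k
    · rw [mat_ext1_last, extF_apply_last, sgl_apply, if_pos rfl, zero_add]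
    · rw [mat_ext1_castSucc, extF_apply_castSucc, sgl_apply,
        if_neg (Fin.castSucc_lt_last k').ne, add_zero]
  rw [e, add_mul, one_mul]
  refine (norm_add_le _ _).trans (add_le_add ?_ ?_)
  · calc ‖extF N H (mat H a (rstF N H v))‖ ≤ 1 * ‖mat H a (rstF N H v)‖ :=
        (extF N H).le_of_opNorm_le norm_extF _
      _ ≤ 1 * (‖mat H a‖ * (1 * ‖v‖)) := by
        gcongr
        refine ((mat H a).le_opNorm _).trans ?_
        gcongr
        exact (rstF N H).le_of_opNorm_le norm_rstF _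
      _ = _ := by ring
  · rw [norm_sgl]
    exact PiLp.norm_apply_le v (Fin.last N)

end fibre

section split

variable {p : ℝ≥0∞} [Fact (1 ≤ p)]

theorem bd_rst (m : ℕ) : Bd (fun j : ℕ => rstF (m + 1) (C1 j)) := ⟨1, fun _ => norm_rstF⟩

theorem bd_ext (m : ℕ) : Bd (fun j : ℕ => extF (m + 1) (C1 j)) := ⟨1, fun _ => norm_extF⟩

/-- drop the last coordinate -/
def rst (p : ℝ≥0∞) [Fact (1 ≤ p)] (m : ℕ) : XM p (m + 1) →L[ℂ] XM p m :=
  dsum p (fun j : ℕ => rstF (m + 1) (C1 j))

/-- add a zero as last coordinate -/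
def ext0 (p : ℝ≥0∞) [Fact (1 ≤ p)] (m : ℕ) : XM p m →L[ℂ] XM p (m + 1) :=
  dsum p (fun j : ℕ => extF (m + 1) (C1 j))

theorem rst_apply (m : ℕ) (x : XM p (m + 1)) (j : ℕ) : rst p m x j = rstF (m + 1) ℂ (x j) :=
  dsum_apply (bd_rst m) x j

theorem ext0_apply (m : ℕ) (x : XM p m) (j : ℕ) : ext0 p m x j = extF (m + 1) ℂ (x j) :=
  dsum_apply (bd_ext m) x j

theorem comp_rst (m : ℕ) (k : Fin (m + 1)) (x : XM p (m + 1)) :
    comp p (m + 1) k (rst p m x) = comp p (m + 2) k.castSucc x := by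
  refine lp.ext (funext fun j => ?_)
  rw [comp_apply, comp_apply, rst_apply, rstF_apply]

theorem comp_ext0 (m : ℕ) (k : Fin (m + 1)) (x : XM p m) :
    comp p (m + 2) k.castSucc (ext0 p m x) = comp p (m + 1) k x := by
  refine lp.ext (funext fun j => ?_)
  rw [comp_apply, comp_apply, ext0_apply, extF_apply_castSucc]

theorem comp_ext0_last (m : ℕ) (x : XM p m) :
    comp p (m + 2) (Fin.last (m + 1)) (ext0 p m x) = 0 := by
  refine lp.ext (funext fun j => ?_)
  rw [comp_apply, ext0_apply, extF_apply_last]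
  rfl

theorem comp_inc_last (m : ℕ) (k : Fin (m + 1)) (t : LL p) :
    comp p (m + 2) k.castSucc (inc p (m + 2) (Fin.last (m + 1)) t) = 0 :=
  comp_inc_ne _ _ (Fin.castSucc_lt_last k).ne t

/-- `X^(m+2) ≅ X^(m+1) × X` -/
def em (p : ℝ≥0∞) [Fact (1 ≤ p)] (m : ℕ) : XM p (m + 1) ≃L[ℂ] (XM p m × LL p) :=
  ContinuousLinearEquiv.equivOfInverse
    ((rst p m).prod (comp p (m + 2) (Fin.last (m + 1))))
    ((ext0 p m).coprod (inc p (m + 2) (Fin.last (m + 1))))
    (fun x => by
      show ext0 p m (rst p m x) + inc p (m + 2) (Fin.last (m + 1))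
        (comp p (m + 2) (Fin.last (m + 1)) x) = x
      refine ext_comp fun k => ?_
      rw [map_add]
      refine Fin.lastCases ?_ (fun k' => ?_) k
      · rw [comp_ext0_last, comp_inc_self, zero_add]
      · rw [comp_ext0, comp_rst, comp_inc_last, add_zero])
    (fun y => by
      refine Prod.ext ?_ ?_
      · show rst p m (ext0 p m y.1 + inc p (m + 2) (Fin.last (m + 1)) y.2) = y.1
        refine ext_comp fun k => ?_
        rw [comp_rst, map_add, comp_ext0, comp_inc_last, add_zero]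
      · show comp p (m + 2) (Fin.last (m + 1)) (ext0 p m y.1 +
          inc p (m + 2) (Fin.last (m + 1)) y.2) = y.2
        rw [map_add, comp_ext0_last, comp_inc_self, zero_add])

theorem coe_em (m : ℕ) : (em p m : XM p (m + 1) →L[ℂ] (XM p m × LL p)) =
    (rst p m).prod (comp p (m + 2) (Fin.last (m + 1))) := rfl

theorem coe_em_symm (m : ℕ) : ((em p m).symm : (XM p m × LL p) →L[ℂ] XM p (m + 1)) =
    (ext0 p m).coprod (inc p (m + 2) (Fin.last (m + 1))) := rfl

theorem em_apply (m : ℕ) (x : XM p (m + 1)) :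
    em p m x = (rst p m x, comp p (m + 2) (Fin.last (m + 1)) x) := rfl

theorem norm_em (m : ℕ) : ‖(em p m : XM p (m + 1) →L[ℂ] (XM p m × LL p))‖ ≤ 1 + 1 := by
  rw [coe_em]
  exact (norm_prod_le' _ _).trans (add_le_add (norm_dsum_le zero_le_one fun _ => norm_rstF)
    (norm_comp_le _))

theorem norm_em_symm (m : ℕ) :
    ‖((em p m).symm : (XM p m × LL p) →L[ℂ] XM p (m + 1))‖ ≤ 1 + 1 := by
  rw [coe_em_symm]
  exact (norm_coprod_le' _ _).trans (add_le_add (norm_dsum_le zero_le_one fun _ => norm_extF)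
    (norm_inc_le _))

theorem em_theta (m : ℕ) (T : LL p →L[ℂ] LL p) (x : XM p (m + 1)) :
    em p m (theta p (m + 1) T x) = ((theta p m T).prodMap 1) (em p m x) := by
  refine Prod.ext ?_ ?_
  · show rst p m (theta p (m + 1) T x) = theta p m T (rst p m x)
    refine ext_comp fun k => ?_
    rw [comp_rst]
    by_cases hk : k = 0
    · subst hk
      rw [theta_apply_zero, comp_rst]
      exact theta_apply_zero T x
    · rw [theta_apply_ne _ _ _ hk, comp_rst, theta_apply_ne]
      intro h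
      exact hk (Fin.castSucc_injective _ (by rw [h]; rfl))
  · show comp p (m + 2) (Fin.last (m + 1)) (theta p (m + 1) T x) =
      comp p (m + 2) (Fin.last (m + 1)) x
    rw [theta_apply_ne]
    exact (Fin.last_pos).ne'

theorem bg_ext1 (m : ℕ) {g : ℕ → Matrix (Fin (m + 1)) (Fin (m + 1)) ℂ} (hg : Bg g) :
    Bg (fun i => ext1 (g i)) := by
  obtain ⟨C, hC⟩ := hg
  refine ⟨C + 1, fun i => ?_⟩
  refine ContinuousLinearMap.opNorm_le_bound _ ?_ fun v => ?_
  · have := (norm_nonneg _).trans (hC i)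
    linarith
  · refine (norm_mat_ext1 (g i) v).trans ?_
    have := hC i
    gcongr

theorem em_gop (m : ℕ) {g : ℕ → Matrix (Fin (m + 1)) (Fin (m + 1)) ℂ} (hg : Bg g)
    (x : XM p (m + 1)) :
    em p m (gop p C1 (fun i => ext1 (g i)) x) = ((gop p C1 g).prodMap 1) (em p m x) := by
  refine Prod.ext ?_ ?_
  · show rst p m (gop p C1 (fun i => ext1 (g i)) x) = gop p C1 g (rst p m x)
    refine lp.ext (funext fun j => ?_)
    rw [rst_apply, gop_apply (bg_ext1 m hg), gop_apply hg, rst_apply]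
    ext k
    rw [rstF_apply, mat_ext1_castSucc]
  · show comp p (m + 2) (Fin.last (m + 1)) (gop p C1 (fun i => ext1 (g i)) x) =
      comp p (m + 2) (Fin.last (m + 1)) x
    refine lp.ext (funext fun j => ?_)
    rw [comp_apply, comp_apply, gop_apply (bg_ext1 m hg), mat_ext1_last]

theorem em_Tm (m : ℕ) {g : ℕ → Matrix (Fin (m + 1)) (Fin (m + 1)) ℂ} (hg : Bg g)
    (T : LL p →L[ℂ] LL p) (x : XM p (m + 1)) :
    em p m (Tm (m + 1) (fun i => ext1 (g i)) T x) = ((Tm m g T).prodMap 1) (em p m x) := by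
  have h1 : em p m (Tm (m + 1) (fun i => ext1 (g i)) T x) =
      ((gop p C1 g).prodMap 1) (em p m (theta p (m + 1) T x)) := em_gop m hg _
  rw [h1, em_theta]
  rfl

theorem em_err (m : ℕ) {g : ℕ → Matrix (Fin (m + 1)) (Fin (m + 1)) ℂ} (hg : Bg g)
    {g' : ℕ → Matrix (Fin (m + 2)) (Fin (m + 2)) ℂ} (hg' : Bg g') (T : LL p →L[ℂ] LL p) :
    (em p m : XM p (m + 1) →L[ℂ] (XM p m × LL p)) ∘L Tm (m + 1) g' T -
      ((Tm m g T).prodMap 1) ∘L (em p m : XM p (m + 1) →L[ℂ] (XM p m × LL p)) =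
    (em p m : XM p (m + 1) →L[ℂ] (XM p m × LL p)) ∘L
      (gop p C1 (fun i => g' i - ext1 (g i)) ∘L theta p (m + 1) T) := by
  refine ContinuousLinearMap.ext fun x => ?_
  have h1 := em_Tm m hg T x
  rw [gop_sub hg' (bg_ext1 m hg)]
  show em p m (Tm (m + 1) g' T x) - ((Tm m g T).prodMap 1) (em p m x) =
    em p m (gop p C1 g' (theta p (m + 1) T x) - gop p C1 (fun i => ext1 (g i)) (theta p (m + 1) T x))
  rw [← h1, map_sub]
  rfl

end split

end

end Pool.Agent.Helper623_LS
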