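import Pool.Agent.Helper623_LS.Rel

/-! Task WHIT: invertible operators are stably products of unipotents (Whitehead lemma, swindle).

Proof. `diag (D, D')` (`D' = D⁻¹`) is a product of six factors `1 + N`, `N² = 0`:
`(1 D; 0 1)(1 0; -D' 1)(1 D; 0 1)(1 -1; 0 1)(1 0; 1 1)(1 -1; 0 1)`.
`T × (1 × 1) = (T × (D × D')) * (1 × (D' × D))`; the second factor is `Unip` because `D' × D` is; the first one is
conjugate, through `(X × Z) × Z ≅ Z × Z` given by `σ`, to `D × D'`. -/

set_option autoImplicit false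
open scoped ENNReal NNReal Topology
open Filter
namespace Pool.Agent.Helper623_LS

variable {X Y Z : Type} [NormedAddCommGroup X] [NormedSpace ℂ X] [NormedAddCommGroup Y]
  [NormedSpace ℂ Y] [NormedAddCommGroup Z] [NormedSpace ℂ Z]

theorem Unip.cj {A : X →L[ℂ] X} (h : Unip A) (G : X ≃L[ℂ] Y) : Unip (cj G A) := by
  obtain ⟨Ns, hN, rfl⟩ := h
  refine ⟨Ns.map (Helper623_LS.cj G), ?_, ?_⟩
  · intro N hN'
    rw [List.mem_map] at hN'
    obtain ⟨M, hM, rfl⟩ := hN'
    rw [← cj_mul, hN M hM]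
    ext; simp
  · clear hN
    induction Ns with
    | nil => simp [cj_one]
    | cons N Ns ih =>
      simp only [List.map_cons, List.prod_cons]
      rw [cj_mul, ih]
      congr 1
      ext; simp

theorem Unip.mul {A B : X →L[ℂ] X} (hA : Unip A) (hB : Unip B) : Unip (A * B) := by
  obtain ⟨Ns, hN, rfl⟩ := hA
  obtain ⟨Ms, hM, rfl⟩ := hB
  refine ⟨Ns ++ Ms, ?_, ?_⟩
  · intro N h
    rw [List.mem_append] at h
    exact h.elim (hN N) (hM N)
  · rw [List.map_append, List.prod_append]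

theorem Unip.one_prod {A : Y →L[ℂ] Y} (hA : Unip A) :
    Unip ((1 : X →L[ℂ] X).prodMap A) := by
  obtain ⟨Ns, hN, rfl⟩ := hA
  refine ⟨Ns.map (fun N => (0 : X →L[ℂ] X).prodMap N), ?_, ?_⟩
  · intro N h
    rw [List.mem_map] at h
    obtain ⟨M, hM, rfl⟩ := h
    have e : (0 : X →L[ℂ] X).prodMap M * (0 : X →L[ℂ] X).prodMap M =
        (0 : X →L[ℂ] X).prodMap (M * M) := by ext <;> simp
    rw [e, hN M hM]
    ext <;> simp
  · clear hN
    induction Ns with
    | nil => ext <;> simp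
    | cons N Ns ih =>
      simp only [List.map_cons, List.prod_cons]
      rw [← ih]
      ext <;> simp

/-- Whitehead lemma -/
theorem unip_whitehead (D D' : Z →L[ℂ] Z) (hD : D * D' = 1) (hD' : D' * D = 1) :
    Unip (D.prodMap D') := by
  have h1 : ∀ z, D (D' z) = z := fun z => by
    have := congrArg (fun A : Z →L[ℂ] Z => A z) hD
    simpa using this
  have h2 : ∀ z, D' (D z) = z := fun z => by
    have := congrArg (fun A : Z →L[ℂ] Z => A z) hD'
    simpa using this
  set N1 : (Z × Z) →L[ℂ] (Z × Z) :=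
    (ContinuousLinearMap.inl ℂ Z Z) ∘L D ∘L (ContinuousLinearMap.snd ℂ Z Z) with hN1
  set N2 : (Z × Z) →L[ℂ] (Z × Z) :=
    -((ContinuousLinearMap.inr ℂ Z Z) ∘L D' ∘L (ContinuousLinearMap.fst ℂ Z Z)) with hN2
  set N4 : (Z × Z) →L[ℂ] (Z × Z) :=
    -((ContinuousLinearMap.inl ℂ Z Z) ∘L (ContinuousLinearMap.snd ℂ Z Z)) with hN4
  set N5 : (Z × Z) →L[ℂ] (Z × Z) :=
    (ContinuousLinearMap.inr ℂ Z Z) ∘L (ContinuousLinearMap.fst ℂ Z Z) with hN5
  have a1 : ∀ x : Z × Z, N1 x = (D x.2, 0) := fun x => by simp [hN1]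
  have a2 : ∀ x : Z × Z, N2 x = (0, -D' x.1) := fun x => by simp [hN2]
  have a4 : ∀ x : Z × Z, N4 x = (-x.2, 0) := fun x => by simp [hN4]
  have a5 : ∀ x : Z × Z, N5 x = (0, x.1) := fun x => by simp [hN5]
  refine ⟨[N1, N2, N1, N4, N5, N4], ?_, ?_⟩
  · intro N hN
    simp only [List.mem_cons, List.not_mem_nil, or_false] at hN
    rcases hN with rfl | rfl | rfl | rfl | rfl | rfl
    · refine ContinuousLinearMap.ext fun x => ?_
      rw [mul_apply_eq_comp, a1, a1]; simp
    · refine ContinuousLinearMap.ext fun x => ?_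
      rw [mul_apply_eq_comp, a2, a2]; simp
    · refine ContinuousLinearMap.ext fun x => ?_
      rw [mul_apply_eq_comp, a1, a1]; simp
    · refine ContinuousLinearMap.ext fun x => ?_
      rw [mul_apply_eq_comp, a4, a4]; simp
    · refine ContinuousLinearMap.ext fun x => ?_
      rw [mul_apply_eq_comp, a5, a5]; simp
    · refine ContinuousLinearMap.ext fun x => ?_
      rw [mul_apply_eq_comp, a4, a4]; simp
  · refine ContinuousLinearMap.ext fun x => ?_
    obtain ⟨x, y⟩ := x
    simp only [List.map_cons, List.map_nil, List.prod_cons, List.prod_nil, mul_one,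
      mul_apply_eq_comp, ContinuousLinearMap.add_apply,
      one_apply_eq_self, a1, a2, a4, a5,
      Prod.mk_add_mk, map_add, map_neg, h1, h2]
    ext <;> simp [h1, h2]

theorem stable_unip (T T' : X →L[ℂ] X) (hT : T * T' = 1) (hT' : T' * T = 1)
    (D D' : Z →L[ℂ] Z) (hD : D * D' = 1) (hD' : D' * D = 1) (σ : (X × Z) ≃L[ℂ] Z)
    (hσ : ∀ x z, σ (T x, D z) = D (σ (x, z))) :
    Unip (T.prodMap (1 : (Z × Z) →L[ℂ] (Z × Z))) := by
  have h1 : ∀ z, D (D' z) = z := fun z => by
    have := congrArg (fun A : Z →L[ℂ] Z => A z) hD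
    simpa using this
  have h2 : ∀ z, D' (D z) = z := fun z => by
    have := congrArg (fun A : Z →L[ℂ] Z => A z) hD'
    simpa using this
  have e : T.prodMap (1 : (Z × Z) →L[ℂ] (Z × Z)) =
      (T.prodMap (D.prodMap D')) * ((1 : X →L[ℂ] X).prodMap (D'.prodMap D)) := by
    refine ContinuousLinearMap.ext fun x => ?_
    obtain ⟨x, y, z⟩ := x
    simp [h1, h2]
  rw [e]
  refine Unip.mul ?_ (Unip.one_prod (unip_whitehead D' D hD' hD))
  set G : (Z × Z) ≃L[ℂ] (X × (Z × Z)) :=
    ((ContinuousLinearEquiv.prodAssoc ℂ X Z Z).symm.trans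
      (σ.prodCongr (ContinuousLinearEquiv.refl ℂ Z))).symm with hG
  have h3 := (unip_whitehead D D' hD hD').cj G
  have e2 : Helper623_LS.cj G (D.prodMap D') = T.prodMap (D.prodMap D') := by
    refine ContinuousLinearMap.ext fun x => ?_
    rw [cj_apply, hG]
    rw [ContinuousLinearEquiv.symm_apply_eq]
    obtain ⟨x, y, z⟩ := x
    simp only [ContinuousLinearEquiv.symm_symm]
    show (D (σ (x, y)), D' z) = (σ (T x, D y), D' z)
    rw [hσ]
  rw [e2] at h3
  exact h3

end Pool.Agent.Helper623_LS
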