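import Pool.Agent.Helper623_LS.Swindle
import Pool.Agent.Helper623_LS.Whit

/-! Products of unipotents, then invertible operators, are trivial in the stable sense. -/

set_option autoImplicit false

open scoped ENNReal NNReal Topology
open Filter

namespace Pool.Agent.Helper623_LS

noncomputable section

section algebra

variable {X Y Z A B : Type} [NormedAddCommGroup X] [NormedSpace ℂ X]
  [NormedAddCommGroup Y] [NormedSpace ℂ Y] [NormedAddCommGroup Z] [NormedSpace ℂ Z]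
  [NormedAddCommGroup A] [NormedSpace ℂ A] [NormedAddCommGroup B] [NormedSpace ℂ B]

theorem prodMap_inv {A B : X →L[ℂ] X} (h : A * B = 1) :
    (A.prodMap (1 : Y →L[ℂ] Y)) * (B.prodMap 1) = 1 := by
  refine ContinuousLinearMap.ext fun x => Prod.ext ?_ rfl
  exact congrArg (fun F : X →L[ℂ] X => F x.1) h

/-- The swindle. -/
theorem swindle (T : X →L[ℂ] X) (bT : Y →L[ℂ] Y) (bU : Z →L[ℂ] Z) (T' : A →L[ℂ] A)
    (I : B →L[ℂ] B) (h1 : Sim bU (bT.prodMap T')) (h2 : Sim bT (T.prodMap (bT.prodMap I))) :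
    Sim (T.prodMap (I.prodMap bU)) bU := by
  have s1 : Sim (T.prodMap (I.prodMap bU)) (T.prodMap (I.prodMap (bT.prodMap T'))) :=
    (Sim.refl T).prod ((Sim.refl I).prod h1)
  have s2 : Sim (T.prodMap (I.prodMap (bT.prodMap T'))) (T.prodMap ((I.prodMap bT).prodMap T')) :=
    (Sim.refl T).prod (Sim.prod_assoc I bT T').symm
  have s3 : Sim (T.prodMap ((I.prodMap bT).prodMap T')) (T.prodMap ((bT.prodMap I).prodMap T')) :=
    (Sim.refl T).prod ((Sim.prod_comm I bT).prod (Sim.refl T'))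
  have s4 : Sim (T.prodMap ((bT.prodMap I).prodMap T')) ((T.prodMap (bT.prodMap I)).prodMap T') :=
    (Sim.prod_assoc T (bT.prodMap I) T').symm
  have s5 : Sim ((T.prodMap (bT.prodMap I)).prodMap T') (bT.prodMap T') :=
    h2.symm.prod (Sim.refl T')
  exact ((((s1.trans s2).trans s3).trans s4).trans s5).trans h1.symm

end algebra

variable {p : ℝ≥0∞} [Fact (1 ≤ p)]

/-- `X^(1) ≅ X` -/
def e0 (p : ℝ≥0∞) [Fact (1 ≤ p)] : XM p 0 ≃L[ℂ] LL p :=
  ContinuousLinearEquiv.equivOfInverse (comp p 1 0) (inc p 1 0)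
    (fun x => by
      refine ext_comp fun k => ?_
      have hk : k = 0 := Fin.ext (by have := k.2; omega)
      subst hk
      rw [comp_inc_self])
    (fun x => comp_inc_self 0 x)

theorem Tm_zero (T : LL p →L[ℂ] LL p) {g : ℕ → Matrix (Fin 1) (Fin 1) ℂ} (hg : ∀ i, g i = 1) :
    Sim (Tm 0 g T) T := by
  have hg' : g = fun _ => 1 := funext hg
  have h1 : Tm (p := p) 0 g T = theta p 0 T := by
    unfold Tm
    rw [hg', gop_one, one_mul]
  rw [h1]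
  exact Sim.of_comm (e0 p) fun x => theta_apply_zero T x

theorem good_XM (hp1 : 1 < p) (hp : p ≠ ∞) : ∃ c : ℝ, ∀ (M : ℕ → ℕ) (m : ℕ),
    Good p c (YM p M m × XM p m) := by
  obtain ⟨c, hc1, hc⟩ := good_finite (p := p) hp1 hp
  refine ⟨2 * max (max c 1) 1, fun M m => good_prod hp ?_ ?_⟩
  · exact good_lp hp _ fun j => hc _
  · exact good_lp hp _ fun j => hc _

/-- The dilation of a direct sum. -/
theorem dil_dsum {X Y : ℕ → Type} [∀ j, NormedAddCommGroup (X j)] [∀ j, NormedSpace ℂ (X j)]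
    [∀ j, CompleteSpace (X j)] [∀ j, NormedAddCommGroup (Y j)] [∀ j, NormedSpace ℂ (Y j)]
    [∀ j, CompleteSpace (Y j)] {T : ∀ j, X j →L[ℂ] X j} {U : ∀ j, Y j →L[ℂ] Y j}
    {V : ∀ j, X j →L[ℂ] Y j} {W : ∀ j, Y j →L[ℂ] X j} (hT : Bd T) (hU : Bd U) (hV : Bd V)
    (hW : Bd W) (hWV : ∀ m, W m ∘L V m = ContinuousLinearMap.id ℂ (X m))
    (hcV : ∀ m, KEq (V m ∘L T m) (U m ∘L V m))
    (htV : Tendsto (fun m => ‖V m ∘L T m - U m ∘L V m‖) atTop (𝓝 0))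
    (hcW : ∀ m, KEq (W m ∘L U m) (T m ∘L W m))
    (htW : Tendsto (fun m => ‖W m ∘L U m - T m ∘L W m‖) atTop (𝓝 0)) :
    ∃ (Z : Type) (_ : NormedAddCommGroup Z) (_ : NormedSpace ℂ Z) (T' : Z →L[ℂ] Z),
      Sim (dsum p U) ((dsum p T).prodMap T') := by
  refine exists_compl (dsum p T) (dsum p U) (dsum p V) (dsum p W) ?_ ?_ ?_
  · rw [dsum_comp hW hV]
    simp only [hWV]
    exact dsum_id
  · rw [dsum_comp hV hT, dsum_comp hU hV]
    unfold KEq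
    rw [← dsum_sub (hV.comp hT) (hU.comp hV)]
    exact dsum_compact hcV (by rw [Nat.cofinite_eq_atTop]; exact htV)
  · rw [dsum_comp hW hU, dsum_comp hT hW]
    unfold KEq
    rw [← dsum_sub (hW.comp hU) (hT.comp hW)]
    exact dsum_compact hcW (by rw [Nat.cofinite_eq_atTop]; exact htW)

theorem em_compact (m : ℕ) {g : ℕ → Matrix (Fin (m + 1)) (Fin (m + 1)) ℂ} (hg : Bg g)
    {g' : ℕ → Matrix (Fin (m + 2)) (Fin (m + 2)) ℂ} (hg' : Bg g') (T : LL p →L[ℂ] LL p)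
    (hf : {i | g' i ≠ ext1 (g i)}.Finite) :
    KEq ((em p m : XM p (m + 1) →L[ℂ] (XM p m × LL p)) ∘L Tm (m + 1) g' T)
      (((Tm m g T).prodMap 1) ∘L (em p m : XM p (m + 1) →L[ℂ] (XM p m × LL p))) := by
  unfold KEq
  rw [em_err m hg hg' T]
  have h1 : IsCompactOperator (gop p C1 (fun i => g' i - ext1 (g i))) := by
    refine gop_compact (hf.subset fun i hi => ?_)
    intro h
    exact hi (by rw [h, sub_self])
  exact compact_left (compact_right h1 (theta p (m + 1) T)) _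

theorem em_norm (m : ℕ) {g : ℕ → Matrix (Fin (m + 1)) (Fin (m + 1)) ℂ} (hg : Bg g)
    {g' : ℕ → Matrix (Fin (m + 2)) (Fin (m + 2)) ℂ} (hg' : Bg g') (T : LL p →L[ℂ] LL p) {δ : ℝ}
    (hδ : ∀ i, ‖mat ℂ (g' i - ext1 (g i))‖ ≤ δ) :
    ‖(em p m : XM p (m + 1) →L[ℂ] (XM p m × LL p)) ∘L Tm (m + 1) g' T -
        ((Tm m g T).prodMap 1) ∘L (em p m : XM p (m + 1) →L[ℂ] (XM p m × LL p))‖ ≤
        (1 + 1) * (δ * (‖T‖ + 2)) := by
  rw [em_err m hg hg' T]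
  have hδ0 : 0 ≤ δ := (norm_nonneg _).trans (hδ 0)
  have h1 : ‖gop p C1 (fun i => g' i - ext1 (g i))‖ ≤ δ := norm_gop_le hδ0 hδ
  have h2 : ‖theta p (m + 1) T‖ ≤ ‖T‖ + 2 := norm_theta_le T
  exact ncomp (norm_em m) (ncomp h1 h2)

/-- The swindle for the direct sum of the twisted copies. -/
theorem swindle_dsum (hp : p ≠ ∞) (T : LL p →L[ℂ] LL p)
    {g : ∀ m, ℕ → Matrix (Fin (m + 1)) (Fin (m + 1)) ℂ} {δ : ℕ → ℝ}
    (hgu : ∀ m i, g m i ∈ Matrix.unitaryGroup (Fin (m + 1)) ℂ) (hg0 : ∀ i, g 0 i = 1)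
    (hgf : ∀ m, {i | g (m + 1) i ≠ ext1 (g m i)}.Finite) (hδ : Tendsto δ atTop (𝓝 0))
    (hgδ : ∀ m i, ‖mat ℂ (g (m + 1) i - ext1 (g m i))‖ ≤ δ m)
    (hTb : Bd (fun m => Tm (p := p) m (g m) T)) :
    Sim (dsum p (fun m => Tm (p := p) m (g m) T))
      (T.prodMap ((dsum p (fun m => Tm (p := p) m (g m) T)).prodMap
        (1 : lp (fun _ : ℕ => LL p) p →L[ℂ] lp (fun _ : ℕ => LL p) p))) := by
  have hBg : ∀ m, Bg (g m) := fun m => Bg.unitary (hgu m)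
  have hTb' : Bd (fun m => Tm (p := p) (m + 1) (g (m + 1)) T) := by
    obtain ⟨D, hD⟩ := hTb
    exact ⟨D, fun m => hD (m + 1)⟩
  have hI : Bd (fun _ : ℕ => (1 : LL p →L[ℂ] LL p)) := Bd.one
  have hTI : Bd (fun m => (Tm (p := p) m (g m) T).prodMap (1 : LL p →L[ℂ] LL p)) := hTb.prodMap hI
  have s1 : Sim (dsum p (fun m => Tm (p := p) m (g m) T))
      ((Tm (p := p) 0 (g 0) T).prodMap (dsum p (fun m => Tm (p := p) (m + 1) (g (m + 1)) T))) :=
    Sim.lpSucc hp hTb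
  have s2 : Sim (dsum p (fun m => Tm (p := p) (m + 1) (g (m + 1)) T))
      (dsum p (fun m => (Tm (p := p) m (g m) T).prodMap (1 : LL p →L[ℂ] LL p))) := by
    refine Sim.dsum hTb' hTI (fun m => em p m) ⟨1 + 1, norm_em⟩ ⟨1 + 1, norm_em_symm⟩
      (fun m => em_compact m (hBg m) (hBg (m + 1)) T (hgf m)) ?_
    rw [Nat.cofinite_eq_atTop]
    refine squeeze_zero (fun m => norm_nonneg _)
      (fun m => em_norm m (hBg m) (hBg (m + 1)) T (hgδ m)) ?_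
    have := ((hδ.mul_const (‖T‖ + 2)).const_mul (1 + 1))
    simpa using this
  have s3 : Sim (dsum p (fun m => (Tm (p := p) m (g m) T).prodMap (1 : LL p →L[ℂ] LL p)))
      ((dsum p (fun m => Tm (p := p) m (g m) T)).prodMap
        (dsum p (fun _ : ℕ => (1 : LL p →L[ℂ] LL p)))) := Sim.lpProd hTb hI
  rw [dsum_one] at s3
  exact s1.trans ((Tm_zero T hg0).prod (s2.trans s3))

/-- Theorem 1. -/
theorem triv_of_unip (hp1 : 1 < p) (hp : p ≠ ∞) (T S : LL p →L[ℂ] LL p) (hTS : T * S = 1)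
    (hST : S * T = 1) (C : ℝ) (hE : Ess C T S) (hU : Unip T) : Triv p T := by
  obtain ⟨Ns, hN, hT⟩ := hU
  obtain ⟨M, g, δ, U, U', V, W, hgu, hg0, hgf, hδ, hgδ, hUL, hV, hW, hWV, hcV, htV, hcW, htW⟩ :=
    main_dilation hp1 hp T S hTS hST C hE Ns hN hT
  have hUb : Bd U := ⟨1, fun m => (hUL m).norm_le⟩
  have hUb' : Bd U' := ⟨1, fun m => (hUL m).norm_le'⟩
  have hTb : Bd (fun m => Tm (p := p) m (g m) T) := ⟨1 * (‖T‖ + 2), fun m =>
    nmul (norm_gop_unitary (hgu m)) (norm_theta_le T)⟩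
  obtain ⟨Z, _, _, T', hdil⟩ := dil_dsum (p := p) hTb hUb hV hW hWV hcV htV hcW htW
  have s4 := swindle_dsum hp T hgu hg0 hgf hδ hgδ hTb
  have s5 := swindle T (dsum p (fun m => Tm (p := p) m (g m) T)) (dsum p U) T'
    (1 : lp (fun _ : ℕ => LL p) p →L[ℂ] lp (fun _ : ℕ => LL p) p) hdil s4
  obtain ⟨c, hc⟩ := good_XM (p := p) hp1 hp
  have hUL' : UL 1 (dsum p U) (dsum p U') := UL.dsum zero_le_one hUb hUb' hUL
  have g2 : Good p (max c 1) (lp (fun m => YM p M m × XM p m) p) := good_lp hp _ fun m => hc M m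
  have g0 : Good p (max 1 1) (lp (fun _ : ℕ => LL p) p) := good_lp hp _ fun _ => Good.LL
  have g1 : Good p (2 * max (max c 1) 1)
      (lp (fun _ : ℕ => LL p) p × lp (fun m => YM p M m × XM p m) p) :=
    good_prod hp (g0.mono (by simp)) g2
  have hle : max c 1 ≤ 2 * max (max c 1) 1 := by
    have h1 : (1 : ℝ) ≤ max c 1 := le_max_right _ _
    rw [max_eq_left h1]
    linarith
  exact triv_of_good hp T (UL.one.prod hUL') hUL' g1 (g2.mono hle) s5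

/-- Theorem 2. -/
theorem triv_of_inv (hp1 : 1 < p) (hp : p ≠ ∞) {X : Type} [NormedAddCommGroup X] [NormedSpace ℂ X]
    (σ₀ : X ≃L[ℂ] LL p) (A B : X →L[ℂ] X) (hAB : A * B = 1) (hBA : B * A = 1) (C : ℝ)
    (hE : Ess C A B) : Triv p A := by
  have hAB' : cj σ₀ A * cj σ₀ B = 1 := by rw [← cj_mul, hAB, cj_one]
  have hBA' : cj σ₀ B * cj σ₀ A = 1 := by rw [← cj_mul, hBA, cj_one]
  have hE' := hE.conj σ₀
  set A' := cj σ₀ A with hA'
  set B' := cj σ₀ B with hB'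
  set C₁ := ‖(σ₀ : X →L[ℂ] LL p)‖ * ‖(σ₀.symm : LL p →L[ℂ] X)‖ * C with hC₁
  have bA : Bd (fun _ : ℕ => A') := ⟨‖A'‖, fun _ => le_rfl⟩
  have bB : Bd (fun _ : ℕ => B') := ⟨‖B'‖, fun _ => le_rfl⟩
  let Z : Type := lp (fun _ : ℕ => LL p) p
  let D : Z →L[ℂ] Z := dsum p (fun _ : ℕ => A')
  let D' : Z →L[ℂ] Z := dsum p (fun _ : ℕ => B')
  have hD : D * D' = 1 := by
    show dsum p (fun _ : ℕ => A') * dsum p (fun _ : ℕ => B') = 1
    rw [dsum_mul bA bB]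
    simp only [hAB']
    exact dsum_one
  have hD' : D' * D = 1 := by
    show dsum p (fun _ : ℕ => B') * dsum p (fun _ : ℕ => A') = 1
    rw [dsum_mul bB bA]
    simp only [hBA']
    exact dsum_one
  let s : Z ≃L[ℂ] (LL p × Z) := lpSucc (X := fun _ : ℕ => LL p) hp
  have hs1 : ∀ z : Z, (s z).1 = z 0 := fun z => rfl
  have hs2 : ∀ (z : Z) (n : ℕ), (s z).2 n = z (n + 1) := fun z n => rfl
  have hDz : ∀ (z : Z) (n : ℕ), (D z) n = A' (z n) := fun z n => dsum_apply bA z n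
  have hcomm : ∀ z : Z, s (D z) = (A' (s z).1, D (s z).2) := fun z => by
    refine Prod.ext ?_ ?_
    · rw [hs1, hDz]; rfl
    · refine lp.ext (funext fun n => ?_)
      rw [hs2, hDz, hDz, hs2]
  have hσ : ∀ x z, s.symm (A' x, D z) = D (s.symm (x, z)) := fun x z => by
    apply s.injective
    rw [s.apply_symm_apply, hcomm, s.apply_symm_apply]
  have hunip := stable_unip A' B' hAB' hBA' D D' hD hD' s.symm hσ
  -- transport to `LL p`
  obtain ⟨a⟩ := exists_lpLL (p := p) hp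
  obtain ⟨b⟩ := exists_prodLL (p := p) hp
  let zz : (Z × Z) ≃L[ℂ] LL p := (a.prodCongr a).trans b
  let τ : (LL p × (Z × Z)) ≃L[ℂ] LL p := ((ContinuousLinearEquiv.refl ℂ (LL p)).prodCongr zz).trans b
  let ρ : ((Z × Z) × LL p) ≃L[ℂ] LL p := (zz.prodCongr (ContinuousLinearEquiv.refl ℂ (LL p))).trans b
  have hT1 : (A'.prodMap (1 : (Z × Z) →L[ℂ] (Z × Z))) * (B'.prodMap 1) = 1 := prodMap_inv hAB'
  have hT2 : (B'.prodMap (1 : (Z × Z) →L[ℂ] (Z × Z))) * (A'.prodMap 1) = 1 := prodMap_inv hBA'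
  have hEss : Ess (max C₁ 1) (A'.prodMap (1 : (Z × Z) →L[ℂ] (Z × Z))) (B'.prodMap 1) :=
    (hE'.mono (le_max_left _ _)).prod ((Ess.of_UL UL.one).mono (le_max_right _ _))
  obtain ⟨C₂, U, U', V, V', hU, hV, hUV⟩ := triv_of_unip hp1 hp
    (cj τ (A'.prodMap (1 : (Z × Z) →L[ℂ] (Z × Z)))) (cj τ (B'.prodMap 1))
    (by rw [← cj_mul, hT1, cj_one]) (by rw [← cj_mul, hT2, cj_one]) _ (hEss.conj τ) (hunip.cj τ)
  have hU₁ : UL (max C₂ 1) ((1 : (Z × Z) →L[ℂ] (Z × Z)).prodMap U) ((1 : (Z × Z) →L[ℂ] (Z × Z)).prodMap U') :=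
    (UL.one.mono (le_max_right _ _)).prod (hU.mono (le_max_left _ _))
  have hU₂ := hU₁.conj ρ
  refine ⟨_, _, _, V, V', hU₂.mono (le_max_left _ C₂), hV.mono (le_max_right _ _), ?_⟩
  have c1 : Sim (A.prodMap (cj ρ ((1 : (Z × Z) →L[ℂ] (Z × Z)).prodMap U)))
      (A'.prodMap ((1 : (Z × Z) →L[ℂ] (Z × Z)).prodMap U)) :=
    (Sim.cj σ₀ A).prod (Sim.cj ρ _).symm
  have c2 : Sim (A'.prodMap ((1 : (Z × Z) →L[ℂ] (Z × Z)).prodMap U))
      ((A'.prodMap (1 : (Z × Z) →L[ℂ] (Z × Z))).prodMap U) := (Sim.prod_assoc _ _ _).symm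
  have c3 : Sim ((A'.prodMap (1 : (Z × Z) →L[ℂ] (Z × Z))).prodMap U)
      ((cj τ (A'.prodMap (1 : (Z × Z) →L[ℂ] (Z × Z)))).prodMap U) :=
    (Sim.cj τ _).prod (Sim.refl U)
  exact ((c1.trans c2).trans c3).trans hUV

end

end Pool.Agent.Helper623_LS
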